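import Mathlib

/-!
The choice of a direction with many rich lines.
-/

open Finset

namespace Pool.Agent.P.MP_7ea450_co

/-- The quadratic that bounds the sums of rich lines from below. -/
private def quad (P S z : ℚ) : ℚ := (S + z) * (P * (z + 1) - S)

private lemma quad_lt {P S x u y : ℚ} (hS : 1 ≤ S) (hP : 5 ≤ P) (hx : P * x ≤ S + 1)
    (hu : -x ≤ u) (huy : u < y) : quad P S u < quad P S y := by
  have h1 : P * (-x) ≤ P * u := mul_le_mul_of_nonneg_left hu (by linarith)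
  have h2 : P * u ≤ P * y := mul_le_mul_of_nonneg_left huy.le (by linarith)
  have h3 : 5 * S ≤ P * S := mul_le_mul_of_nonneg_right hP (by linarith)
  have h4 : 0 < (y - u) * (P * y + P * u + P * S + P - S) :=
    mul_pos (by linarith) (by linarith)
  unfold quad
  linarith

private lemma quad_le {P S x u y : ℚ} (hS : 1 ≤ S) (hP : 5 ≤ P) (hx : P * x ≤ S + 1)
    (hu : -x ≤ u) (huy : u ≤ y) : quad P S u ≤ quad P S y := by
  rcases huy.eq_or_lt with rfl | h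
  · exact le_rfl
  · exact (quad_lt hS hP hx hu h).le

private lemma one_A {P x : ℚ} (hP : 5 ≤ P) :
    (P + 1) * (1 + x) ≤ quad P 1 x + quad P 1 (-x) := by
  unfold quad
  (first | linarith [sq_nonneg (x - 3 / 10), mul_nonneg (sub_nonneg.2 hP) (sq_nonneg (x - 1 / 4))] | nlinarith [sq_nonneg (x - 3 / 10), mul_nonneg (sub_nonneg.2 hP) (sq_nonneg (x - 1 / 4))])

private lemma one_B {P x r : ℚ} (hP : 5 ≤ P) :
    2 * (P + 1) * (2 * r + 8 / 15) ≤ quad P 1 x + quad P 1 (2 * r - x) := by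
  unfold quad
  nlinarith [sq_nonneg (r - 3 / 10), mul_nonneg (sub_nonneg.2 hP) (sq_nonneg r),
    mul_nonneg (by linarith : (0 : ℚ) ≤ P) (sq_nonneg (x - r))]

private lemma two_A {P S x : ℚ} (hS : 2 ≤ S) (hP : 2 * S + 1 ≤ P) (h0 : 0 ≤ x)
    (hx : P * x ≤ S + 1) : (P + 1) * (S + x) ≤ quad P S x + 2 * quad P S (-x) := by
  have h1 : (2 * S + 1) * x ≤ P * x := mul_le_mul_of_nonneg_right hP h0
  have h2 : x ≤ 3 / 5 := by (first | linarith | nlinarith)
  have h3 : 0 ≤ (S + 1 - (2 * S + 1) * x) * (S - 3 * x) := mul_nonneg (by linarith) (by linarith)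
  have h4 : 0 ≤ (P - (2 * S + 1)) * (3 * x ^ 2 - (S + 2) * x + 2 * S) :=
    mul_nonneg (by linarith) (by (first | linarith [sq_nonneg x] | nlinarith [sq_nonneg x]))
  unfold quad
  linarith

private lemma two_B {P S x r : ℚ} (hS : 2 ≤ S) (hP : 2 * S + 3 ≤ P) (h0 : 0 ≤ r) (hr : r ≤ x)
    (hx : P * x ≤ S + 1) :
    3 / 2 * (S + 1) * (P + 1) * (2 * r + 8 / 15) ≤ quad P S x + 2 * quad P S (2 * r - x) := by
  obtain ⟨t, rfl⟩ : ∃ t, x = r + t := ⟨x - r, by ring⟩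
  have ht : 0 ≤ t := by linarith
  have h1 : 0 ≤ P * (3 * r ^ 2 - 2 * r * t + 3 * t ^ 2) :=
    mul_nonneg (by linarith) (by (first | linarith [sq_nonneg (r - t), sq_nonneg r, sq_nonneg t] | nlinarith [sq_nonneg (r - t), sq_nonneg r, sq_nonneg t]))
  have h2 : 0 ≤ (P * (S + 1) - 3 * (2 * S + 1)) * r := mul_nonneg (by (first | linarith | nlinarith)) h0
  have h3 : (S + 1) * (P * (r + t)) ≤ (S + 1) * (S + 1) :=
    mul_le_mul_of_nonneg_left hx (by linarith)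
  have h4 : 0 ≤ S * t := mul_nonneg (by linarith) ht
  have h5 : 0 ≤ (P - (2 * S + 3)) * (3 * S - 4 / 5 * (S + 1)) :=
    mul_nonneg (by linarith) (by linarith)
  have h6 : 0 ≤ (S - 2) * S := mul_nonneg (by linarith) (by linarith)
  unfold quad
  linarith

private lemma two_C {S x r : ℚ} (hS : S = 2 ∨ 3 ≤ S) (h0 : 0 ≤ r) (hr : r ≤ x)
    (hx : (2 * S + 1) * x ≤ S + 1) :
    3 / 2 * (S + 1) * (2 * S + 1 + 1) * (4 / 3 * r + 8 / 15) ≤
      quad (2 * S + 1) S x + 2 * quad (2 * S + 1) S (2 * r - x) := by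
  obtain ⟨t, rfl⟩ : ∃ t, x = r + t := ⟨x - r, by ring⟩
  have ht : 0 ≤ t := by linarith
  unfold quad
  rcases hS with rfl | hS
  · (first | linarith [sq_nonneg (r - t / 3), sq_nonneg (t - 39 / 80)] | nlinarith [sq_nonneg (r - t / 3), sq_nonneg (t - 39 / 80)])
  · have h1 : 0 ≤ (2 * S + 1) * (r - t / 3) ^ 2 := mul_nonneg (by linarith) (sq_nonneg _)
    have h2 : 0 ≤ (2 * S + 1) * (t - 1 / 2) ^ 2 := mul_nonneg (by linarith) (sq_nonneg _)
    have h3 : 0 ≤ (2 * S ^ 2 - 2 * S - 1) * r := mul_nonneg (by (first | linarith | nlinarith)) h0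
    have h4 : (2 * S + 1) * t ≤ S + 1 := by (first | linarith | nlinarith)
    have h5 : (S - 5 / 3) * ((2 * S + 1) * t) ≤ (S - 5 / 3) * (S + 1) :=
      mul_le_mul_of_nonneg_left h4 (by linarith)
    have h6 : 0 ≤ S * t := mul_nonneg (by linarith) ht
    have h7 : 0 ≤ (S - 3) * S := mul_nonneg (by linarith) (by linarith)
    linarith

private lemma pick (p : ℕ) (S c lam Gq : ℚ) (π τ : ℕ → ℚ) (hS : 0 ≤ S) (hl : 0 ≤ lam)
    (hτ0 : ∀ i, i ≤ p → 0 ≤ τ i) (hτπ : ∀ i, i ≤ p → τ i ≤ π i)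
    (hπc : ∀ i, i ≤ p → (S + 1) * π i ≤ c)
    (hG : Gq ≤ (S + 1) * ∑ i ∈ range (p + 1), π i +
      (1 + lam) * ((S + 1) * ∑ i ∈ range (p + 1), τ i))
    (hA : (p + 1) * c < Gq) :
    ∃ i, i ≤ p ∧ 0 < τ i ∧ Gq ≤ (1 + lam / 2) * (S + 1) * (p + 1) * (π i + τ i) := by
  obtain ⟨i, hi, hm⟩ := exists_max_image (range (p + 1)) (fun i => π i + (1 + lam) * τ i)
    ⟨0, by simp⟩
  have hi' : i ≤ p := Nat.lt_succ_iff.1 (mem_range.1 hi)
  have h1 := sum_le_card_nsmul _ _ _ hm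
  rw [card_range, nsmul_eq_mul, sum_add_distrib, ← mul_sum] at h1
  push_cast at h1
  have hp : (0 : ℚ) ≤ p + 1 := by positivity
  have h2 : Gq ≤ (S + 1) * ((p + 1) * (π i + (1 + lam) * τ i)) := by
    have := mul_le_mul_of_nonneg_left h1 (by linarith : 0 ≤ S + 1)
    linarith
  refine ⟨i, hi', ?_, ?_⟩
  · refine (hτ0 i hi').lt_of_ne fun h => ?_
    have := mul_le_mul_of_nonneg_left (hπc i hi') hp
    rw [← h] at h2
    linarith
  · have h3 : 0 ≤ (S + 1) * (p + 1) * (lam * (π i - τ i)) :=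
      mul_nonneg (mul_nonneg (by linarith) hp) (mul_nonneg hl (sub_nonneg.2 (hτπ i hi')))
    linarith

private lemma three (x y r : ℚ) (π τ : ℕ → ℚ) (hr : 0 < r) (hxy : 2 * r ≤ x + y)
    (hx : 3 * x ≤ 2) (hτ0 : ∀ i, i ≤ 3 → 0 ≤ τ i) (hπc : ∀ i, i ≤ 3 → 2 * π i ≤ 1 + x)
    (hcπ : ∀ i, i ≤ 3 → x ≤ π i)
    (hX : quad 3 1 x ≤ 2 * ∑ i ∈ range 4, π i) (hY : quad 3 1 y ≤ 2 * ∑ i ∈ range 4, τ i) :
    ∃ i, i ≤ 3 ∧ 0 < τ i ∧ 23 / 48 + 4 / 3 * r ≤ π i + τ i := by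
  by_contra hn
  have h : ∀ i, i ≤ 3 → τ i = 0 ∨ π i + τ i < 23 / 48 + 4 / 3 * r := fun i hi => by
    rcases (hτ0 i hi).eq_or_lt with h | h
    · exact Or.inl h.symm
    · exact Or.inr (lt_of_not_ge fun h' => hn ⟨i, hi, h, h'⟩)
  have h1 : 0 < (1 + y) * (3 * y + 2) := mul_pos (by linarith) (by linarith)
  have h2 := sq_nonneg (x - 1 / 18)
  have h3 := sq_nonneg (y - 1 / 18)
  have h4 := sq_nonneg (y + 1 / 6)
  have h5 := sq_nonneg x
  unfold quad at hX hY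
  simp only [sum_range_succ, sum_range_zero] at hX hY
  have a0 := hτ0 0 (by norm_num)
  have a1 := hτ0 1 (by norm_num)
  have a2 := hτ0 2 (by norm_num)
  have a3 := hτ0 3 (by norm_num)
  have b0 := hπc 0 (by norm_num)
  have b1 := hπc 1 (by norm_num)
  have b2 := hπc 2 (by norm_num)
  have b3 := hπc 3 (by norm_num)
  have c0 := hcπ 0 (by norm_num)
  have c1 := hcπ 1 (by norm_num)
  have c2 := hcπ 2 (by norm_num)
  have c3 := hcπ 3 (by norm_num)
  rcases h 0 (by norm_num) with d0 | d0 <;> rcases h 1 (by norm_num) with d1 | d1 <;>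
    rcases h 2 (by norm_num) with d2 | d2 <;> rcases h 3 (by norm_num) with d3 | d3 <;>
    linarith

private lemma beta_one (p s : ℕ) (hp : Odd p) (hs : 1 ≤ s) (hps : 2 * s + 1 ≤ p) (r g x y : ℚ)
    (π τ : ℕ → ℚ) (hgN : 3 * g ≤ 1) (hr : 0 < r) (hroom : 2 * (s + r) + 3 * g ≤ p) (hyx : y ≤ x)
    (hxy : 2 * r ≤ x + y) (hτ0 : ∀ i, i ≤ p → 0 ≤ τ i) (hτπ : ∀ i, i ≤ p → τ i ≤ π i)
    (hπc : ∀ i, i ≤ p → (s + 1) * π i ≤ s + x) (hcπ : ∀ i, i ≤ p → x ≤ π i)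
    (hX : quad p s x ≤ (s + 1) * ∑ i ∈ range (p + 1), π i)
    (hY : quad p s y ≤ (s + 1) * ∑ i ∈ range (p + 1), τ i) :
    ∃ i, i ≤ p ∧ 0 < τ i ∧ (5 ≤ p → 2 * r + g + 1 / 5 ≤ π i + τ i) ∧
      (p = 3 → 23 / 48 + 4 / 3 * r ≤ π i + τ i) := by
  have hs' : (1 : ℚ) ≤ s := by exact_mod_cast hs
  have hrx : r ≤ x := by linarith
  have hx : p * x ≤ s + 1 := by
    have h1 := sum_le_card_nsmul (range (p + 1)) (fun i => ((s : ℚ) + 1) * π i) (s + x)
      fun i hi => hπc i (Nat.lt_succ_iff.1 (mem_range.1 hi))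
    rw [card_range, nsmul_eq_mul, ← mul_sum] at h1
    push_cast at h1
    have h2 : (s + x) * (p * (x + 1) - s) ≤ (s + x) * (p + 1) := by
      have := hX.trans h1
      unfold quad at this
      linarith
    have := le_of_mul_le_mul_left h2 (by linarith)
    linarith
  obtain ⟨k, hk⟩ := hp
  rcases (by omega : p = 3 ∨ 5 ≤ p) with h3 | h5
  · obtain rfl : s = 1 := by omega
    subst h3
    push_cast at hx hπc hX hY
    obtain ⟨i, h1, h2, h3⟩ := three x y r π τ hr hxy (by linarith) hτ0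
      (fun i hi => by linarith [hπc i hi]) hcπ (by linarith) (by linarith)
    exact ⟨i, h1, h2, fun h => by omega, fun _ => h3⟩
  have h5' : (5 : ℚ) ≤ p := by exact_mod_cast h5
  have hA := quad_lt hs' h5' hx le_rfl (by linarith : -x < y)
  have hB := quad_le hs' h5' hx (by linarith : -x ≤ 2 * r - x) (by linarith : 2 * r - x ≤ y)
  rcases (by omega : s = 1 ∨ 2 ≤ s) with rfl | h2
  · push_cast at hπc hX hY hA hB
    obtain ⟨i, h1, h2, h3⟩ := pick p 1 (1 + x) 0 (quad p 1 x + quad p 1 y) π τ zero_le_one le_rfl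
      hτ0 hτπ hπc (by linarith) (by linarith [one_A (x := x) h5'])
    refine ⟨i, h1, h2, fun _ => ?_, fun h => by omega⟩
    have h4 : 2 * (p + 1) * (2 * r + 8 / 15) ≤ 2 * (p + 1) * (π i + τ i) := by
      linarith [one_B (x := x) (r := r) h5']
    have := le_of_mul_le_mul_left h4 (by linarith)
    linarith
  have h2' : (2 : ℚ) ≤ s := by exact_mod_cast h2
  have hps' : (2 * s + 1 : ℚ) ≤ p := by exact_mod_cast hps
  obtain ⟨i, h1, h3, h4⟩ := pick p s (s + x) 1 (quad p s x + 2 * quad p s y) π τ (by linarith)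
    zero_le_one hτ0 hτπ hπc (by linarith) (by linarith [two_A h2' hps' (by linarith) hx])
  refine ⟨i, h1, h3, fun _ => ?_, fun h => by omega⟩
  have hK : (0 : ℚ) < 3 / 2 * (s + 1) * (p + 1) := by positivity
  rcases (by omega : p = 2 * s + 1 ∨ 2 * s + 3 ≤ p) with h6 | h6
  · have h7 : (p : ℚ) = 2 * s + 1 := by exact_mod_cast h6
    have h8 := two_C (S := s) (x := x) (r := r)
      ((by omega : s = 2 ∨ 3 ≤ s).imp (fun h => by exact_mod_cast h) fun h => by exact_mod_cast h)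
      hr.le hrx (by rwa [← h7])
    rw [← h7] at h8
    have h9 : 3 / 2 * (s + 1) * (p + 1) * (4 / 3 * r + 8 / 15) ≤
        3 / 2 * (s + 1) * (p + 1) * (π i + τ i) := by linarith
    have := le_of_mul_le_mul_left h9 hK
    linarith
  · have h8 := two_B h2' (by exact_mod_cast h6) hr.le hrx hx
    have h9 : 3 / 2 * (s + 1) * (p + 1) * (2 * r + 8 / 15) ≤
        3 / 2 * (s + 1) * (p + 1) * (π i + τ i) := by linarith
    have := le_of_mul_le_mul_left h9 hK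
    linarith

theorem beta_num (p s : ℕ) (hp : Odd p) (hs : 1 ≤ s) (hps : 2 * s + 1 ≤ p) (N M g c f : ℚ)
    (π τ : ℕ → ℚ) (hN : 0 < N) (hg0 : 0 ≤ g) (hgN : 3 * g ≤ N) (hsM : s * N < M)
    (hT : 2 * M + g ≤ (2 * s + 1) * N) (hroom : 2 * M + 3 * g ≤ p * N) (hfc : f ≤ c) (hcf : 2 * M ≤ c + f)
    (hτ0 : ∀ i, i ≤ p → 0 ≤ τ i) (hτπ : ∀ i, i ≤ p → τ i ≤ π i)
    (hπc : ∀ i, i ≤ p → (s + 1) * π i ≤ c) (hcπ : ∀ i, i ≤ p → c ≤ s * N + π i)
    (hfτ : ∀ i, i ≤ p → f ≤ s * N + τ i)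
    (hX : p * (c * c) + N * (p * c) ≤ N * ((p + 1) * s * c + (s + 1) * ∑ i ∈ range (p + 1), π i))
    (hY : p * (f * f) + N * (p * f) ≤ N * ((p + 1) * s * f + (s + 1) * ∑ i ∈ range (p + 1), τ i)) :
    ∃ i, i ≤ p ∧ 0 < τ i ∧ (N < π i + τ i ∨
      ((5 ≤ p → 2 * (M - s * N) + g + N / 5 ≤ π i + τ i) ∧
        (p = 3 → 2 * (M - N) + g + N / 9 ≤ π i + τ i ∧
          (2 * N < 3 * (π i + τ i) ∨ 7 * (M - N) ≤ N)))) := by
  obtain ⟨r, rfl⟩ : ∃ r, M = (s + r) * N := ⟨M / N - s, by field_simp; ring⟩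
  obtain ⟨g, rfl⟩ : ∃ g', g = g' * N := ⟨g / N, by field_simp⟩
  obtain ⟨x, rfl⟩ : ∃ x, c = (s + x) * N := ⟨c / N - s, by field_simp; ring⟩
  obtain ⟨y, rfl⟩ : ∃ y, f = (s + y) * N := ⟨f / N - s, by field_simp; ring⟩
  obtain ⟨π, rfl⟩ : ∃ π' : ℕ → ℚ, π = fun i => π' i * N :=
    ⟨fun i => π i / N, funext fun i => by field_simp⟩
  obtain ⟨τ, rfl⟩ : ∃ τ' : ℕ → ℚ, τ = fun i => τ' i * N :=
    ⟨fun i => τ i / N, funext fun i => by field_simp⟩
  have key : ∀ {a b : ℚ}, a * N ≤ b * N → a ≤ b := fun h => le_of_mul_le_mul_right h hN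
  have hr : 0 < r := by
    have := lt_of_mul_lt_mul_right hsM hN.le
    linarith
  have hroom' : 2 * (s + r) + 3 * g ≤ p := key (by linarith)
  rw [← sum_mul] at hX hY
  obtain ⟨i, h1, h2, h3, h4⟩ := beta_one p s hp hs hps r g x y π τ (key (by linarith)) hr hroom'
    (key (by linarith)) (key (by linarith)) (fun i hi => key (by linarith [hτ0 i hi]))
    (fun i hi => key (hτπ i hi)) (fun i hi => key (by linarith [hπc i hi]))
    (fun i hi => key (by linarith [hcπ i hi])) (key (key (by unfold quad; linarith)))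
    (key (key (by unfold quad; linarith)))
  refine ⟨i, h1, mul_pos h2 hN, Or.inr ⟨fun h => ?_, fun h => ?_⟩⟩
  · have := mul_le_mul_of_nonneg_right (h3 h) hN.le
    linarith
  · obtain rfl : s = 1 := by omega
    subst h
    push_cast at hroom' ⊢
    have h5 := h4 rfl
    refine ⟨?_, ?_⟩
    · have : 2 * r + g + 1 / 9 ≤ π i + τ i := by linarith
      have := mul_le_mul_of_nonneg_right this hN.le
      linarith
    · rcases le_or_gt (7 * r) 1 with h6 | h6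
      · have := mul_le_mul_of_nonneg_right h6 hN.le
        exact Or.inr (by linarith)
      · have : 2 < 3 * (π i + τ i) := by linarith
        have := mul_lt_mul_of_pos_right this hN
        exact Or.inl (by linarith)

end Pool.Agent.P.MP_7ea450_co
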