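import Pool.Agent.P.MP_7ea450_co.Rich
import Pool.Agent.P.MP_7ea450_co.BetaNum

/-!
The case in which no line of the plane directions holds more than `s + 1` points.
-/

open Finset
open scoped Pointwise

namespace Pool.Agent.P.MP_7ea450_co

variable {G : Type} [AddCommGroup G] [Fintype G] [DecidableEq G]

section Aux

variable {Q : Type} [AddCommGroup Q] [Fintype Q] [DecidableEq Q]

omit [Fintype G] [DecidableEq G] in
private lemma card_lev_eq (φ : G →+ Q) (Z : Finset G) (k : ℕ) :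
    (lev φ Z k).card = ∑ q, if k ≤ fib φ Z q then 1 else 0 := by
  unfold lev
  rw [card_filter]

omit [Fintype G] in
private lemma lev_mul_le (φ : G →+ Q) (Z : Finset G) (k : ℕ) : k * (lev φ Z k).card ≤ Z.card := by
  rw [card_lev_eq, ← sum_fib φ Z, mul_sum]
  refine sum_le_sum fun q _ => ?_
  split_ifs <;> omega

omit [Fintype G] in
private lemma card_le_lev (φ : G →+ Q) (Z : Finset G) (s : ℕ) (h : ∀ q, fib φ Z q ≤ s + 1) :
    Z.card ≤ s * Nat.card Q + (lev φ Z (s + 1)).card := by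
  rw [card_lev_eq, ← sum_fib φ Z, Nat.card_eq_fintype_card, mul_comm, ← card_univ, ← smul_eq_mul,
    ← sum_const, ← sum_add_distrib]
  refine sum_le_sum fun q _ => ?_
  have := h q
  split_ifs <;> omega

omit [Fintype G] in
private lemma card_le_lev_two (φ : G →+ Q) (Z : Finset G) (r : ℕ) (h : ∀ q, fib φ Z q ≤ r + 2) :
    Z.card ≤ r * Nat.card Q + ((lev φ Z (r + 1)).card + (lev φ Z (r + 2)).card) := by
  rw [card_lev_eq, card_lev_eq, ← sum_fib φ Z, Nat.card_eq_fintype_card, mul_comm, ← card_univ,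
    ← smul_eq_mul, ← sum_const, ← sum_add_distrib, ← sum_add_distrib]
  refine sum_le_sum fun q _ => ?_
  have := h q
  split_ifs <;> omega

omit [Fintype G] in
private lemma lev_le_card (φ : G →+ Q) (Z : Finset G) (u : ℕ) (h : univ ⊆ lev φ Z u) :
    u * Nat.card Q + (lev φ Z (u + 1)).card ≤ Z.card := by
  rw [card_lev_eq, ← sum_fib φ Z, Nat.card_eq_fintype_card, mul_comm, ← card_univ, ← smul_eq_mul,
    ← sum_const, ← sum_add_distrib]
  refine sum_le_sum fun q hq => ?_
  have := mem_lev.1 (h hq)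
  split_ifs <;> omega

/-- the arithmetic at the end of the proof -/
private lemma beta_end {p N s d j a b k x y ν : ℕ} {M g : ℚ} (hp : p.Prime) (hpo : Odd p)
    (hNo : Odd N) (hs : 1 ≤ s) (hps : 2 * s + 1 ≤ p) (hN : N = d * j) (hx : x ≤ a * d)
    (hy : y ≤ b * d) (hab : a + b ≤ k + 1) (hk : Odd k) (hν : k * d ≤ ν) (hkj : k ≤ j)
    (hT : 2 * M + g ≤ (2 * s + 1) * N) (hM : 2 * M ≤ 2 * (s * N) + x + y)
    (hAr : ∀ j : ℕ, j.Prime → j ≠ p → j ∣ N → ∀ k : ℕ, j * M ≤ N * k →
      j * (2 * M + g) ≤ N * (2 * k - 1))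
    (h3 : p = 3 → 7 * (M - N) ≤ N → 3 * (2 * M + g) ≤ 7 * N)
    (h5 : 5 ≤ p → 2 * (M - s * N) + g + N / 5 ≤ (x : ℚ) + y)
    (h9 : p = 3 → 2 * (M - N) + g + N / 9 ≤ (x : ℚ) + y ∧
      (2 * N < 3 * ((x : ℚ) + y) ∨ 7 * (M - N) ≤ N)) :
    2 * M + g ≤ 2 * s * N + ν := by
  have hjo : Odd j := (Nat.odd_mul.1 (hN ▸ hNo)).2
  have hNq : (N : ℚ) = d * j := by exact_mod_cast hN
  have hνq : (k : ℚ) * d ≤ ν := by exact_mod_cast hν
  have hxy : x + y ≤ (k + 1) * d := by (first | linarith | nlinarith)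
  have hxyq : (x : ℚ) + y ≤ (k + 1) * d := by exact_mod_cast hxy
  have hd0 : (0 : ℚ) ≤ d := Nat.cast_nonneg d
  have hfull : k = j → 2 * M + g ≤ 2 * s * N + ν := by
    rintro rfl
    (first | linarith | nlinarith)
  obtain ⟨l, hl⟩ := hk
  obtain ⟨m, hm⟩ := hjo
  by_cases hj1 : j = 1
  · exact hfull (by omega)
  by_cases hjp : j.Prime ∧ j ≠ p
  · have hj0 : (0 : ℚ) < j := by exact_mod_cast hjp.1.pos
    have hkq : (k : ℚ) = 2 * l + 1 := by exact_mod_cast hl
    have h1 := hAr j hjp.1 hjp.2 ⟨d, by rw [hN, mul_comm]⟩ (s * j + l + 1) (by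
      push_cast
      have : M ≤ s * N + (l + 1) * d := by rw [hkq] at hxyq; linarith
      calc (j : ℚ) * M ≤ j * (s * N + (l + 1) * d) := by gcongr
        _ = _ := by rw [hNq]; ring)
    push_cast at h1
    have h2 : (j : ℚ) * (2 * M + g) ≤ j * (2 * s * N + k * d) := by
      refine h1.trans (le_of_eq ?_)
      rw [hkq, hNq]
      ring
    have := le_of_mul_le_mul_left h2 hj0
    linarith
  have hj9 : j = p ∨ 9 ≤ j := by
    by_contra hc
    push Not at hc
    refine hjp ⟨?_, hc.1⟩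
    have : j = 3 ∨ j = 5 ∨ j = 7 := by omega
    rcases this with h | h | h <;> rw [h] <;> norm_num
  have hp35 : p = 3 ∨ 5 ≤ p := by
    obtain ⟨r, hr⟩ := hpo
    omega
  rcases hp35 with hp3 | hp5
  · have hs1 : s = 1 := by omega
    subst hs1
    obtain ⟨h91, h92⟩ := h9 hp3
    rcases hj9 with h | h
    · rw [hp3] at h
      rcases h92 with h92 | h92
      · refine hfull ?_
        have h1 : 2 * N < 3 * (x + y) := by exact_mod_cast h92
        have h2 : k ≠ 1 := by
          rintro rfl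
          rw [hN, h] at h1
          omega
        omega
      · have h1 := h3 hp3 h92
        have h2 : (1 : ℚ) ≤ k := by exact_mod_cast (by omega : 1 ≤ k)
        rw [h] at hNq
        push_cast at hNq ⊢
        (first | linarith | nlinarith)
    · have h1 : (9 : ℚ) ≤ j := by exact_mod_cast h
      push_cast
      (first | linarith | nlinarith)
  · have h1 : (5 : ℚ) ≤ j := by exact_mod_cast (by omega : 5 ≤ j)
    have := h5 hp5
    (first | linarith | nlinarith)

end Aux

theorem beta (hodd : Odd (Nat.card G)) {p N s : ℕ} {a b : G} (h : Plane p a b)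
    (hN : Nat.card G = p * N) (X Y : Finset G) (hYX : Y ⊆ X) (hs : 1 ≤ s)
    (hX : ∀ i, i ≤ p → ∀ x, onLine (dir p a b i) X x ≤ s + 1) (M g : ℚ) (hg0 : 0 ≤ g)
    (hgN : 3 * g ≤ N) (hsM : s * N < M) (hT : 2 * M + g ≤ (2 * s + 1) * N)
    (hroom : 2 * M + 3 * g ≤ p * N) (hcf : 2 * M ≤ X.card + Y.card)
    (hAr : ∀ j : ℕ, j.Prime → j ≠ p → j ∣ N → ∀ k : ℕ, j * M ≤ N * k →
      j * (2 * M + g) ≤ N * (2 * k - 1))
    (h3 : p = 3 → 7 * (M - N) ≤ N → 3 * (2 * M + g) ≤ 7 * N) :
    2 * M + g ≤ (psi X Y).card := by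
  classical
  have hp := h.prime
  have hpo : Odd p := (Nat.odd_mul.1 (hN ▸ hodd)).1
  have hNo : Odd N := (Nat.odd_mul.1 (hN ▸ hodd)).2
  have hN0 : (0 : ℚ) < N := by exact_mod_cast hNo.pos
  have hp0 : (0 : ℚ) < p := by exact_mod_cast hp.pos
  have hps : 2 * s + 1 ≤ p := by
    have h1 : (2 * s : ℚ) * N < p * N := by linarith
    have h2 : (2 * s : ℚ) < p := lt_of_mul_lt_mul_right h1 hN0.le
    exact_mod_cast h2
  haveI : ∀ v : G, Fintype (G ⧸ AddSubgroup.zmultiples v) := fun v => Fintype.ofFinite _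
  have hker : ∀ i, Nat.card (QuotientAddGroup.mk' (AddSubgroup.zmultiples (dir p a b i))).ker =
      p := fun i => by rw [QuotientAddGroup.ker_mk', h.card_dir]
  have hQ : ∀ i, Nat.card (G ⧸ AddSubgroup.zmultiples (dir p a b i)) = N := fun i => by
    have := card_eq_ker_mul _ (QuotientAddGroup.mk'_surjective
      (AddSubgroup.zmultiples (dir p a b i)))
    rw [hker, hN] at this
    exact (Nat.eq_of_mul_eq_mul_left hp.pos this).symm
  have hY : ∀ i, i ≤ p → ∀ x, onLine (dir p a b i) Y x ≤ s + 1 := fun i hi x => by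
    refine le_trans ?_ (hX i hi x)
    rw [onLine_eq_fib, onLine_eq_fib]
    exact fib_mono _ hYX _
  have hfib : ∀ Z : Finset G, (∀ i, i ≤ p → ∀ x, onLine (dir p a b i) Z x ≤ s + 1) →
      ∀ i, i ≤ p → ∀ q,
        fib (QuotientAddGroup.mk' (AddSubgroup.zmultiples (dir p a b i))) Z q ≤ s + 1 := by
    intro Z hZ i hi q
    obtain ⟨x, rfl⟩ := QuotientAddGroup.mk_surjective q
    rw [← onLine_eq_fib]
    exact hZ i hi x
  have hsum : ∀ Z : Finset G, (∀ i, i ≤ p → ∀ x, onLine (dir p a b i) Z x ≤ s + 1) →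
      (p : ℚ) * (Z.card * Z.card) + N * (p * Z.card) ≤ N * ((p + 1) * s * Z.card +
        (s + 1) * ∑ i ∈ range (p + 1), (rich (dir p a b i) Z (s + 1) : ℚ)) := by
    intro Z hZ
    have h1 := h.rich_sum Z s hZ
    rw [hN, mul_assoc p p, mul_assoc p N, mul_assoc p N, ← mul_add] at h1
    exact_mod_cast Nat.le_of_mul_le_mul_left h1 hp.pos
  have hup : ∀ Z : Finset G, (∀ i, i ≤ p → ∀ x, onLine (dir p a b i) Z x ≤ s + 1) →
      ∀ i, i ≤ p → (Z.card : ℚ) ≤ s * N + rich (dir p a b i) Z (s + 1) := by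
    intro Z hZ i hi
    have := card_le_lev _ Z s (hfib Z hZ i hi)
    rw [hQ, ← rich_eq_card_lev] at this
    exact_mod_cast this
  obtain ⟨i, hi, hτ, hcase⟩ := beta_num p s hpo hs hps N M g X.card Y.card
    (fun i => rich (dir p a b i) X (s + 1)) (fun i => rich (dir p a b i) Y (s + 1)) hN0 hg0 hgN
    hsM hT hroom (by exact_mod_cast card_le_card hYX) hcf (fun i _ => Nat.cast_nonneg _)
    (fun i _ => by
      rw [rich_eq_card_lev, rich_eq_card_lev]
      exact_mod_cast card_le_card (lev_mono _ hYX _))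
    (fun i _ => by
      rw [rich_eq_card_lev]
      exact_mod_cast lev_mul_le _ X (s + 1))
    (hup X hX) (hup Y hY) (hsum X hX) (hsum Y hY)
  have hM : 2 * M ≤ 2 * (s * N) + (rich (dir p a b i) X (s + 1) : ℚ) +
      rich (dir p a b i) Y (s + 1) := by
    have h1 := hup X hX i hi
    have h2 := hup Y hY i hi
    linarith
  simp only [rich_eq_card_lev] at hτ hcase hM
  set φ := QuotientAddGroup.mk' (AddSubgroup.zmultiples (dir p a b i)) with hφ
  have hCD : FibCD φ X p := fibCD_of_prime φ hp (hker i) X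
  have hfull : univ ⊆ lev φ (psi X Y) (2 * s) := by
    obtain ⟨r, rfl⟩ : ∃ r, s = r + 1 := ⟨s - 1, by omega⟩
    have h1 := card_le_lev_two φ X r (hfib X hX i hi)
    have h2 := card_le_lev_two φ Y r (hfib Y hY i hi)
    have h4 : 2 * ((r + 1) * N) < X.card + Y.card := by
      have : (2 * ((r + 1) * N) : ℚ) < X.card + Y.card := by
        push_cast at hsM
        linarith
      exact_mod_cast this
    rw [hQ] at h1 h2
    by_cases h5 : N < (lev φ X (r + 2)).card + (lev φ Y (r + 1)).card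
    · rw [← sub_eq_univ_of_card _ _ ((hQ i).symm ▸ h5)]
      exact sub_mem_lev hCD hYX (sub_subset_psi X Y) (by omega) (by omega) (by omega) (by omega)
    · have h6 : N < (lev φ X (r + 1)).card + (lev φ Y (r + 2)).card := by
        rw [add_mul] at h4
        omega
      rw [← sub_eq_univ_of_card _ _ ((hQ i).symm ▸ h6)]
      exact sub_mem_lev hCD hYX (sub_subset_psi X Y) (by omega) (by omega) (by omega) (by omega)
  have hlow := lev_le_card φ (psi X Y) (2 * s) hfull
  rw [hQ] at hlow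
  have hlowq : (2 * s * N + (lev φ (psi X Y) (2 * s + 1)).card : ℚ) ≤ (psi X Y).card := by
    exact_mod_cast hlow
  refine le_trans ?_ hlowq
  have hsub : lev φ X (s + 1) - lev φ Y (s + 1) ⊆ lev φ (psi X Y) (2 * s + 1) :=
    sub_mem_lev hCD hYX (sub_subset_psi X Y) (by omega) (by omega) (by omega) hps
  rcases hcase with hc | ⟨h5, h9⟩
  · have h1 : N < (lev φ X (s + 1)).card + (lev φ Y (s + 1)).card := by exact_mod_cast hc
    rw [sub_eq_univ_of_card _ _ ((hQ i).symm ▸ h1)] at hsub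
    have h2 := card_le_card hsub
    rw [card_univ, ← Nat.card_eq_fintype_card, hQ] at h2
    have h4 : (N : ℚ) ≤ (lev φ (psi X Y) (2 * s + 1)).card := by exact_mod_cast h2
    linarith
  · have hW : (lev φ Y (s + 1)).Nonempty := card_pos.1 (by exact_mod_cast hτ)
    obtain ⟨w, hw⟩ := hW
    obtain ⟨d, j, a', b', k, hN', hU, hW, -, -, hab, hk, hkV, hkj⟩ :=
      kneser_odd ((hQ i).symm ▸ hNo) _ _ _ ⟨w, mem_inter.2 ⟨lev_mono φ hYX _ hw, hw⟩⟩ hsub
        (fun x hx => neg_mem_lev (fun y hy => neg_mem_psi hy) hx)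
    rw [hQ] at hN'
    exact beta_end hp hpo hNo hs hps hN' hU hW hab hk hkV hkj hT hM hAr h3 h5 h9

end Pool.Agent.P.MP_7ea450_co
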