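import Mathlib

/-!
Summation over the chain of level sets.
-/

open Finset

namespace Pool.Agent.P.MP_7ea450_co

/-- Reflection of a sum over `1, ..., h`. -/
lemma chain_sum_flip (h : ℕ) (g : ℕ → ℕ) :
    ∑ t ∈ Ioc 0 h, g (h + 1 - t) = ∑ t ∈ Ioc 0 h, g t := by
  refine sum_nbij' (fun t => h + 1 - t) (fun t => h + 1 - t) ?_ ?_ ?_ ?_ ?_
  · intro t ht
    simp only [mem_Ioc] at ht ⊢
    omega
  · intro t ht
    simp only [mem_Ioc] at ht ⊢
    omega
  · intro t ht
    simp only [mem_Ioc] at ht ⊢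
    omega
  · intro t ht
    simp only [mem_Ioc] at ht ⊢
    omega
  · intro t _
    rfl

/-- Summation of a pointwise inequality scaled by `h`. -/
private lemma chain_scaled (h k : ℕ) (x ψ : ℕ → ℕ) (h0 : 0 < h)
    (hle : ∀ t, 1 ≤ t → t ≤ h → h * x t + k ≤ h * ψ t) :
    ∑ t ∈ Ioc 0 h, x t + k ≤ ∑ t ∈ Ioc 0 h, ψ t := by
  have h1 : ∑ t ∈ Ioc 0 h, (h * x t + k) ≤ ∑ t ∈ Ioc 0 h, h * ψ t :=
    sum_le_sum fun t ht => hle t (mem_Ioc.1 ht).1 (mem_Ioc.1 ht).2
  rw [sum_add_distrib, ← mul_sum, ← mul_sum, sum_const, Nat.card_Ioc, Nat.sub_zero, smul_eq_mul,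
    ← mul_add] at h1
  exact Nat.le_of_mul_le_mul_left h1 h0

/-- Summation of a constant lower bound. -/
private lemma chain_const (h n : ℕ) (ψ : ℕ → ℕ) (hle : ∀ t, 1 ≤ t → t ≤ h → n ≤ ψ t) :
    h * n ≤ ∑ t ∈ Ioc 0 h, ψ t := by
  have h1 : ∑ _t ∈ Ioc 0 h, n ≤ ∑ t ∈ Ioc 0 h, ψ t :=
    sum_le_sum fun t ht => hle t (mem_Ioc.1 ht).1 (mem_Ioc.1 ht).2
  rwa [sum_const, Nat.card_Ioc, Nat.sub_zero, smul_eq_mul] at h1

/-- Summation of an inequality between reflected pairs. -/
private lemma chain_pairs (h a b : ℕ) (x ψ : ℕ → ℕ)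
    (hle : ∀ t, 1 ≤ t → t ≤ h → x t + x (h + 1 - t) + a ≤ ψ t + ψ (h + 1 - t) + b) :
    2 * ∑ t ∈ Ioc 0 h, x t + h * a ≤ 2 * ∑ t ∈ Ioc 0 h, ψ t + h * b := by
  have h1 : ∑ t ∈ Ioc 0 h, (x t + x (h + 1 - t) + a) ≤
      ∑ t ∈ Ioc 0 h, (ψ t + ψ (h + 1 - t) + b) :=
    sum_le_sum fun t ht => hle t (mem_Ioc.1 ht).1 (mem_Ioc.1 ht).2
  simp only [sum_add_distrib, chain_sum_flip, sum_const, Nat.card_Ioc, Nat.sub_zero,
    smul_eq_mul] at h1
  omega

/-- The case in which the largest level set is large. -/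
theorem chain_far (h n c f m w : ℕ) (x ψ : ℕ → ℕ) (hn : Odd n)
    (hx : ∀ t, 1 ≤ t → t ≤ h → f ≤ x t ∧ x t ≤ c)
    (hpair : ∀ t, 1 ≤ t → t ≤ h → x t + x (h + 1 - t) ≤ c + f)
    (hsum : m ≤ ∑ t ∈ Ioc 0 h, x t) (hroom : 2 * m + 3 * w + 4 ≤ h * n)
    (hlo : m + w + h ≤ h * c) (hhi : h * c < m + 2 * w + h)
    (hψ : ∀ t, 1 ≤ t → t ≤ h → n ≤ ψ t ∨ x t + c ≤ ψ t + 1) :
    2 * m + w ≤ ∑ t ∈ Ioc 0 h, ψ t := by
  have h0 : 0 < h := Nat.pos_of_ne_zero (by rintro rfl; simp at hroom)
  by_cases hA : h * c + m + w ≤ h * n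
  · have := chain_scaled h (m + w) x ψ h0 (fun t h1 h2 => by
      have h3 := Nat.mul_le_mul_left h (hx t h1 h2).2
      rcases hψ t h1 h2 with h4 | h4
      · have := Nat.mul_le_mul_left h h4
        omega
      · have := Nat.mul_le_mul_left h h4
        rw [mul_add, mul_add, mul_one] at this
        omega)
    omega
  · have h1 : h * (n + 1) < h * (2 * c) := by
      have : h * (2 * c) = h * c + h * c := by ring
      rw [this, mul_add, mul_one]
      omega
    have h2 : n + 1 < 2 * c := Nat.lt_of_mul_lt_mul_left h1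
    have h3 : n + 3 ≤ 2 * c := by
      obtain ⟨k, hk⟩ := hn
      omega
    by_cases hf : c ≤ f + 1
    · have := chain_const h n ψ (fun t h4 h5 => by
        have := hx t h4 h5
        have := hψ t h4 h5
        omega)
      omega
    · have h4 := chain_pairs h (2 * n + 2) (2 * c) x ψ (fun t h4 h5 => by
        have := hx t h4 h5
        have := hx (h + 1 - t) (by omega) (by omega)
        have := hψ t h4 h5
        have := hψ (h + 1 - t) (by omega) (by omega)
        have := hpair t h4 h5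
        omega)
      have h5 : h * (2 * n + 2) = 2 * (h * n) + 2 * h := by ring
      have h6 : h * (2 * c) = 2 * (h * c) := by ring
      omega

/-- The case in which the largest level set is small. -/
theorem chain_near (h n c f m w : ℕ) (x ψ : ℕ → ℕ)
    (hx : ∀ t, 1 ≤ t → t ≤ h → f ≤ x t ∧ x t ≤ c)
    (hpair : ∀ t, 1 ≤ t → t ≤ h → x t + x (h + 1 - t) ≤ c + f)
    (hsum : m ≤ ∑ t ∈ Ioc 0 h, x t) (hroom : 2 * m + 3 * w + 4 ≤ h * n)
    (hhi : h * c < m + w + h)
    (hψ : ∀ t, 1 ≤ t → t ≤ h → n ≤ ψ t ∨ h * x t + m + w ≤ h * ψ t) :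
    2 * m + w ≤ ∑ t ∈ Ioc 0 h, ψ t := by
  have h0 : 0 < h := Nat.pos_of_ne_zero (by rintro rfl; simp at hroom)
  by_cases hA : h * c + m + w ≤ h * n
  · have := chain_scaled h (m + w) x ψ h0 (fun t h1 h2 => by
      have h3 := Nat.mul_le_mul_left h (hx t h1 h2).2
      rcases hψ t h1 h2 with h4 | h4
      · have := Nat.mul_le_mul_left h h4
        omega
      · omega)
    omega
  · have h1 : n < 2 * c := by
      have : h * n < h * (2 * c) := by
        have : h * (2 * c) = h * c + h * c := by ring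
        omega
      exact Nat.lt_of_mul_lt_mul_left this
    have h2 : 2 * c < n + 2 := by
      have : h * (2 * c) < h * (n + 2) := by
        have : h * (2 * c) = h * c + h * c := by ring
        have : h * (n + 2) = h * n + 2 * h := by ring
        omega
      exact Nat.lt_of_mul_lt_mul_left this
    have h3 : n + 1 = 2 * c := by omega
    have h4 : h * n + h = 2 * (h * c) := by
      have : h * (n + 1) = h * (2 * c) := by rw [h3]
      calc h * n + h = h * (n + 1) := by ring
        _ = h * (2 * c) := this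
        _ = 2 * (h * c) := by ring
    have hψ' : ∀ t, 1 ≤ t → t ≤ h → n ≤ ψ t ∨ x t + c ≤ ψ t := by
      intro t h5 h6
      rcases hψ t h5 h6 with h7 | h7
      · exact Or.inl h7
      · right
        have : h * (x t + c) < h * (ψ t + 1) := by
          rw [mul_add, mul_add, mul_one]
          omega
        have := Nat.lt_of_mul_lt_mul_left this
        omega
    by_cases hf : c ≤ f
    · have := chain_const h n ψ (fun t h4 h5 => by
        have := hx t h4 h5
        have := hψ' t h4 h5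
        omega)
      omega
    · have h5 := chain_pairs h n 0 x ψ (fun t h4 h5 => by
        have := hx t h4 h5
        have := hx (h + 1 - t) (by omega) (by omega)
        have := hψ' t h4 h5
        have := hψ' (h + 1 - t) (by omega) (by omega)
        have := hpair t h4 h5
        omega)
      omega

end Pool.Agent.P.MP_7ea450_co
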