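import Pool.Agent.P.MP_7ea450_co.MinCex
import Pool.Agent.P.MP_7ea450_co.ChainSum

/-!
The choice of a largest near-period and the normal form of a bad set.
-/

open Finset
open scoped Pointwise

set_option linter.unusedSectionVars false
set_option linter.style.haveILetI false

namespace Pool.Agent.P.MP_7ea450_co

variable {G : Type} [AddCommGroup G] [Fintype G] [DecidableEq G] {e m T : ℕ}

/-- The normal form of a set with respect to a homomorphism. -/
lemma chain_normal_form {Q : Type} [AddCommGroup Q] [Fintype Q] [DecidableEq Q] (φ : G →+ Q)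
    (A : Finset G) (h : ℕ) (hh : Nat.card φ.ker = h) :
    ∃ B : Finset G, B - B ⊆ A - A ∧ A.card ≤ B.card ∧ B.image φ ⊆ A.image φ ∧
      ∀ t, 1 ≤ t → t ≤ h → (lev φ B t).card + (lev φ B (h + 1 - t)).card ≤
        (B.image φ).card + (lev φ B h).card := by
  have h0 : 0 < h := hh ▸ Nat.card_pos
  obtain ⟨s, hs1, hs2, hmax⟩ : ∃ s, 1 ≤ s ∧ 2 * s ≤ h + 1 ∧ ∀ t, 1 ≤ t → t ≤ h →
      (lev φ A t).card + (lev φ A (h + 1 - t)).card ≤
        (lev φ A s).card + (lev φ A (h + 1 - s)).card := by
    obtain ⟨s, hs, hmax⟩ := exists_max_image (Icc 1 h)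
      (fun t => (lev φ A t).card + (lev φ A (h + 1 - t)).card) ⟨1, by simp; omega⟩
    rw [mem_Icc] at hs
    by_cases h2 : 2 * s ≤ h + 1
    · exact ⟨s, hs.1, h2, fun t h3 h4 => hmax t (mem_Icc.2 ⟨h3, h4⟩)⟩
    · refine ⟨h + 1 - s, by omega, by omega, fun t h3 h4 => ?_⟩
      have := hmax t (mem_Icc.2 ⟨h3, h4⟩)
      have h5 : h + 1 - (h + 1 - s) = s := by omega
      rw [h5]
      omega
  set B : Finset G := univ.filter
    (fun a => h + 1 - s ≤ fib φ A (φ a) ∨ (a ∈ A ∧ s ≤ fib φ A (φ a))) with hB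
  have hmem : ∀ a, a ∈ B ↔ h + 1 - s ≤ fib φ A (φ a) ∨ (a ∈ A ∧ s ≤ fib φ A (φ a)) := by
    intro a
    simp [hB]
  have hlev : ∀ t, 1 ≤ t → t ≤ h → lev φ B t = lev φ A (min (h + 1 - s) (max s t)) := by
    intro t ht1 ht2
    ext q
    rw [mem_lev, mem_lev]
    by_cases hq : h + 1 - s ≤ fib φ A q
    · have h1 : 0 < fib φ A q := by omega
      obtain ⟨x, -, rfl⟩ := mem_image.1 ((fib_pos_iff φ A q).1 h1)
      have h2 : fib φ B (φ x) = h := by
        rw [← hh, ← card_fiber φ x]
        unfold fib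
        congr 1
        ext a
        simp only [mem_filter, mem_univ, true_and, hmem]
        exact ⟨fun h => h.2, fun h => ⟨Or.inl (h ▸ hq), h⟩⟩
      omega
    · by_cases hp : s ≤ fib φ A q
      · have h2 : fib φ B q = fib φ A q := by
          unfold fib
          congr 1
          ext a
          simp only [mem_filter, hmem]
          constructor
          · rintro ⟨h3 | h3, rfl⟩
            · exact absurd h3 hq
            · exact ⟨h3.1, rfl⟩
          · rintro ⟨h3, rfl⟩
            exact ⟨Or.inr ⟨h3, hp⟩, rfl⟩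
        omega
      · have h2 : fib φ B q = 0 := by
          unfold fib
          rw [card_eq_zero, filter_eq_empty_iff]
          intro a ha h3
          subst h3
          rcases (hmem a).1 ha with h4 | h4
          · exact hq h4
          · exact hp h4.2
        omega
  have himg : B.image φ = lev φ A s := by
    rw [← lev_one, hlev 1 le_rfl h0]
    congr 1
    omega
  have hlast : lev φ B h = lev φ A (h + 1 - s) := by
    rw [hlev h h0 le_rfl]
    congr 1
    omega
  have hpair : ∀ t, 1 ≤ t → t ≤ h → ∃ r, 1 ≤ r ∧ r ≤ h ∧ (r = t ∨ r = s ∨ r = h + 1 - s) ∧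
      lev φ B t = lev φ A r ∧ lev φ B (h + 1 - t) = lev φ A (h + 1 - r) := by
    intro t ht1 ht2
    refine ⟨min (h + 1 - s) (max s t), by omega, by omega, by omega, hlev t ht1 ht2, ?_⟩
    rw [hlev (h + 1 - t) (by omega) (by omega)]
    congr 1
    omega
  refine ⟨B, ?_, ?_, ?_, ?_⟩
  · intro z hz
    obtain ⟨a, ha, b, hb, rfl⟩ := mem_sub.1 hz
    rw [hmem] at ha hb
    by_cases hab : a ∈ A ∧ b ∈ A
    · exact sub_mem_sub hab.1 hab.2
    · refine mem_sub_of_fib φ A A (φ a) (φ b) ?_ _ (map_sub φ a b)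
      rcases ha with ha | ha <;> rcases hb with hb | hb
      · omega
      · omega
      · omega
      · exact absurd ⟨ha.1, hb.1⟩ hab
  · have h1 : ∑ t ∈ Ioc 0 h, ((lev φ A t).card + (lev φ A (h + 1 - t)).card) ≤
        ∑ t ∈ Ioc 0 h, ((lev φ B t).card + (lev φ B (h + 1 - t)).card) := by
      refine sum_le_sum fun t ht => ?_
      rw [mem_Ioc] at ht
      obtain ⟨r, -, -, hr, h2, h3⟩ := hpair t ht.1 ht.2
      rw [h2, h3]
      have h4 := hmax t ht.1 ht.2
      rcases hr with hr | hr | hr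
      · rw [hr]
      · rw [hr]
        exact h4
      · have h5 : h + 1 - (h + 1 - s) = s := by omega
        rw [hr, h5]
        omega
    rw [sum_add_distrib, sum_add_distrib, chain_sum_flip h (fun t => (lev φ A t).card),
      chain_sum_flip h (fun t => (lev φ B t).card),
      sum_card_lev_eq φ A h (fun q => hh ▸ fib_le_ker φ A q),
      sum_card_lev_eq φ B h (fun q => hh ▸ fib_le_ker φ B q)] at h1
    omega
  · rw [himg, ← lev_one]
    exact lev_anti φ A hs1
  · intro t ht1 ht2
    obtain ⟨r, hr1, hr2, -, h2, h3⟩ := hpair t ht1 ht2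
    rw [h2, h3, himg, hlast]
    exact hmax r hr1 hr2

/-- A bad set in normal form with respect to a largest near-period, the kernel of `φ`. -/
theorem Ctx.exists_chain (hc : Ctx G e m T) (he : ¬ e.Prime) {A₀ : Finset G} (hA₀ : Bad m T A₀) :
    ∃ (Γ : Type) (_ : AddCommGroup Γ) (_ : Fintype Γ) (_ : DecidableEq Γ) (φ : G →+ Γ)
      (A : Finset G) (h : ℕ), Function.Surjective φ ∧ Bad m T A ∧ Nat.card φ.ker = h ∧
      φ.ker ≠ ⊤ ∧ (lev φ A h).Nonempty ∧
      (∀ t, 1 ≤ t → t ≤ h → (lev φ A t).card + (lev φ A (h + 1 - t)).card ≤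
        (A.image φ).card + (lev φ A h).card) ∧
      3 * (h * (A.image φ).card) < 4 * m + 3 * h ∧
      h * (A.image φ).card + 3 * m < 2 * T + h ∧
      ∀ K : AddSubgroup Γ, K ≠ ⊥ → K ≠ ⊤ →
        4 * m ≤ 3 * (h * ((cov K (A.image φ) - 1) * Nat.card K)) ∨
        2 * T ≤ h * ((cov K (A.image φ) - 1) * Nat.card K) + 3 * m := by
  have hne : ({x : Finset G × AddSubgroup G | Bad m T x.1 ∧ x.2 ≠ ⊤ ∧
      3 * ((cov x.2 x.1 - 1) * Nat.card x.2) < 4 * m ∧
      (cov x.2 x.1 - 1) * Nat.card x.2 + 3 * m < 2 * T}).Nonempty := by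
    obtain ⟨A, hA, hcard⟩ := exists_subset_card_eq hA₀.1
    have h2 := hc.two_mul_le hA₀
    have h3 := hc.e_lt hA₀
    have h4 := hc.e_pos
    refine ⟨(A, ⊥), ⟨hcard.ge, (card_le_card (sub_subset_sub hA hA)).trans_lt hA₀.2⟩, ?_, ?_, ?_⟩
    · intro hbt
      have h5 : cov (⊥ : AddSubgroup G) A ≤ 1 := by
        rw [cov_le_one_iff]
        intro a _ b _
        have hbt' : (⊥ : AddSubgroup G) = ⊤ := hbt
        rw [hbt']
        exact AddSubgroup.mem_top _
      rw [cov_bot] at h5
      omega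
    · simp only [cov_bot, AddSubgroup.card_bot, hcard]
      omega
    · simp only [cov_bot, AddSubgroup.card_bot, hcard]
      omega
  obtain ⟨⟨A, H⟩, ⟨hA, hH, hv1, hv2⟩, hmax⟩ :=
    Set.exists_max_image _ (fun x : Finset G × AddSubgroup G => Nat.card x.2) (Set.toFinite _) hne
  simp only at hA hH hv1 hv2 hmax
  haveI : DecidableEq (G ⧸ H) := Classical.decEq _
  haveI : Fintype (G ⧸ H) := Fintype.ofFinite _
  have hker : (QuotientAddGroup.mk' H).ker = H := QuotientAddGroup.ker_mk' H
  have hh : Nat.card (QuotientAddGroup.mk' H).ker = Nat.card H := by rw [hker]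
  have hsurj := QuotientAddGroup.mk'_surjective H
  obtain ⟨B, hB1, hB2, hB3, hB4⟩ := chain_normal_form (QuotientAddGroup.mk' H) A _ hh
  have hB : Bad m T B := ⟨hA.1.trans hB2, (card_le_card hB1).trans_lt hA.2⟩
  have h3 := hc.three_le_cov hB he hH
  have h4 := card_le_card hB3
  rw [cov_eq_card_image] at h3 hv1 hv2
  obtain ⟨c, hc'⟩ : ∃ c, (B.image (QuotientAddGroup.mk' H)).card = c + 1 :=
    ⟨(B.image (QuotientAddGroup.mk' H)).card - 1, by omega⟩
  have h5 : c * Nat.card H ≤ ((A.image (QuotientAddGroup.mk' H)).card - 1) * Nat.card H :=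
    Nat.mul_le_mul_right _ (by omega)
  have h6 : Nat.card H * (c + 1) = c * Nat.card H + Nat.card H := by ring
  have h7 : 2 * Nat.card H ≤ c * Nat.card H := Nat.mul_le_mul_right _ (by omega)
  refine ⟨G ⧸ H, inferInstance, inferInstance, inferInstance, QuotientAddGroup.mk' H, B,
    Nat.card H, hsurj, hB, hh, by rwa [hker], ?_, hB4, by rw [hc']; omega, by rw [hc']; omega, ?_⟩
  · rw [nonempty_iff_ne_empty]
    intro hemp
    have h8 : ∑ t ∈ Ioc 0 (Nat.card H), ((lev (QuotientAddGroup.mk' H) B t).card +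
        (lev (QuotientAddGroup.mk' H) B (Nat.card H + 1 - t)).card) ≤
        ∑ _t ∈ Ioc 0 (Nat.card H), (c + 1) := by
      refine sum_le_sum fun t ht => ?_
      rw [mem_Ioc] at ht
      have := hB4 t ht.1 ht.2
      rw [hemp, card_empty, hc'] at this
      exact this
    rw [sum_add_distrib,
      chain_sum_flip (Nat.card H) (fun t => (lev (QuotientAddGroup.mk' H) B t).card),
      sum_card_lev_eq _ B _ (fun q => hh ▸ fib_le_ker _ B q), sum_const, Nat.card_Ioc,
      Nat.sub_zero, smul_eq_mul] at h8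
    have := hB.1
    omega
  · intro K hK1 hK2
    by_contra hcon
    push Not at hcon
    have h8 := card_comap (QuotientAddGroup.mk' H) hsurj K
    rw [hh] at h8
    have h9 : 1 < Nat.card K := (AddSubgroup.one_lt_card_iff_ne_bot K).2 hK1
    have h10 : (cov (K.comap (QuotientAddGroup.mk' H)) B - 1) *
        Nat.card (K.comap (QuotientAddGroup.mk' H)) =
        Nat.card H * ((cov K (B.image (QuotientAddGroup.mk' H)) - 1) * Nat.card K) := by
      rw [cov_comap, h8]
      ring
    have h11 := hmax (B, K.comap (QuotientAddGroup.mk' H))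
      ⟨hB, comap_ne_top _ hsurj hK2, by rw [h10]; exact hcon.1, by rw [h10]; exact hcon.2⟩
    simp only at h11
    rw [h8] at h11
    have h12 : 0 < Nat.card H := Nat.card_pos
    nlinarith

end Pool.Agent.P.MP_7ea450_co
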