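import Pool.Agent.P.MP_7ea450_co.Frame

/-!
Counting rich lines in the directions of a plane.
-/

open Finset
open scoped Pointwise

namespace Pool.Agent.P.MP_7ea450_co

variable {G : Type} [AddCommGroup G] [Fintype G] [DecidableEq G]

/-- The `p + 1` directions of the plane spanned by `a` and `b`, for `i ≤ p`. -/
def dir (p : ℕ) (a b : G) (i : ℕ) : G := if i = p then b else a + i • b

/-- The number of points of `Z` on the line through `x` in direction `v`. -/
noncomputable def onLine (v : G) (Z : Finset G) (x : G) : ℕ :=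
  ((Z : Set G) ∩ {z | z - x ∈ AddSubgroup.zmultiples v}).ncard

/-- The number of lines in direction `v` with at least `k` points of `Z`. -/
noncomputable def rich (v : G) (Z : Finset G) (k : ℕ) : ℕ :=
  {q : G ⧸ AddSubgroup.zmultiples v | ∃ x : G, (x : G ⧸ AddSubgroup.zmultiples v) = q ∧
    k ≤ onLine v Z x}.ncard

theorem onLine_eq_fib (v : G) [DecidableEq (G ⧸ AddSubgroup.zmultiples v)] (Z : Finset G) (x : G) :
    onLine v Z x = fib (QuotientAddGroup.mk' (AddSubgroup.zmultiples v)) Z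
      (x : G ⧸ AddSubgroup.zmultiples v) := by
  unfold onLine fib
  rw [← Set.ncard_coe_finset]
  congr 1
  ext z
  simp only [Set.mem_inter_iff, mem_coe, Set.mem_ofPred_eq, coe_filter, QuotientAddGroup.mk'_apply,
    QuotientAddGroup.eq_iff_sub_mem]

theorem rich_eq_card_lev (v : G) [Fintype (G ⧸ AddSubgroup.zmultiples v)]
    [DecidableEq (G ⧸ AddSubgroup.zmultiples v)] (Z : Finset G) (k : ℕ) :
    rich v Z k = (lev (QuotientAddGroup.mk' (AddSubgroup.zmultiples v)) Z k).card := by
  unfold rich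
  rw [← Set.ncard_coe_finset]
  congr 1
  ext q
  simp only [Set.mem_ofPred_eq, mem_coe, mem_lev]
  constructor
  · rintro ⟨x, rfl, hx⟩
    rwa [onLine_eq_fib] at hx
  · intro hq
    obtain ⟨x, rfl⟩ := QuotientAddGroup.mk_surjective q
    exact ⟨x, rfl, by rwa [onLine_eq_fib]⟩

theorem Plane.dir_ne_zero {p : ℕ} {a b : G} (h : Plane p a b) (i : ℕ) : dir p a b i ≠ 0 := by
  have hp1 : ¬ (p : ℤ) ∣ 1 := by
    intro h1
    have h2 : p ∣ 1 := by exact_mod_cast h1
    exact h.prime.one_lt.ne' (Nat.dvd_one.1 h2)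
  unfold dir
  split_ifs with hi
  · intro h0
    exact hp1 (h.indep 0 1 (by simp [h0])).2
  · intro h0
    exact hp1 (h.indep 1 i (by simpa using h0)).1

omit [Fintype G] [DecidableEq G] in
lemma Plane.smul_dir {p : ℕ} {a b : G} (h : Plane p a b) (i : ℕ) : p • dir p a b i = 0 := by
  unfold dir
  split_ifs with hi
  · exact h.hb
  · rw [smul_add, smul_comm, h.ha, h.hb]
    simp

theorem Plane.card_dir {p : ℕ} {a b : G} (h : Plane p a b) (i : ℕ) :
    Nat.card (AddSubgroup.zmultiples (dir p a b i)) = p := by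
  haveI := Fact.mk h.prime
  rw [Nat.card_zmultiples]
  exact addOrderOf_eq_prime (h.smul_dir i) (h.dir_ne_zero i)

omit [Fintype G] [DecidableEq G] in
lemma zsmul_eq_zero_of_dvd {p : ℕ} {a : G} (ha : p • a = 0) {i : ℤ} (hi : (p : ℤ) ∣ i) :
    i • a = 0 := by
  obtain ⟨k, rfl⟩ := hi
  rw [mul_comm, mul_smul, natCast_zsmul, ha, smul_zero]

/-- Every vector of the plane is a multiple of one of the directions. -/
theorem Plane.exists_dir {p : ℕ} {a b : G} (h : Plane p a b) (i j : ℤ) :
    ∃ l, l ≤ p ∧ i • a + j • b ∈ AddSubgroup.zmultiples (dir p a b l) := by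
  haveI := Fact.mk h.prime
  by_cases hi : (p : ℤ) ∣ i
  · refine ⟨p, le_rfl, ?_⟩
    rw [zsmul_eq_zero_of_dvd h.ha hi, zero_add]
    simp only [dir, if_true]
    exact AddSubgroup.zsmul_mem_zmultiples b j
  · have hi' : (i : ZMod p) ≠ 0 := by rwa [Ne, ZMod.intCast_zmod_eq_zero_iff_dvd]
    set l : ℕ := ((j : ZMod p) / (i : ZMod p)).val with hl
    have hlp : l < p := ZMod.val_lt _
    have hd : (p : ℤ) ∣ j - i * l := by
      rw [← ZMod.intCast_zmod_eq_zero_iff_dvd]
      push_cast
      rw [hl, ZMod.natCast_zmod_val]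
      field_simp
      ring
    refine ⟨l, hlp.le, ?_⟩
    have h0 := zsmul_eq_zero_of_dvd h.hb hd
    have h1 : i • a + j • b = i • dir p a b l := by
      simp only [dir, if_neg hlp.ne]
      rw [sub_smul, sub_eq_zero, mul_smul, natCast_zsmul] at h0
      rw [smul_add, h0]
    rw [h1]
    exact AddSubgroup.zsmul_mem_zmultiples _ i

omit [Fintype G] in
/-- The sum of the squares of the fibre sizes counts the pairs in a common fibre. -/
lemma sum_fib_sq {Q : Type} [AddCommGroup Q] [Fintype Q] [DecidableEq Q] (φ : G →+ Q)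
    (Z : Finset G) :
    ∑ q, fib φ Z q * fib φ Z q =
      (Z.offDiag.filter (fun x => φ x.1 = φ x.2)).card + Z.card := by
  have h1 : ((Z ×ˢ Z).filter (fun x => φ x.1 = φ x.2)).card = ∑ q, fib φ Z q * fib φ Z q := by
    rw [card_eq_sum_card_fiberwise (f := fun x : G × G => φ x.1) (t := univ)
      (fun a _ => mem_univ _)]
    refine sum_congr rfl fun q _ => ?_
    unfold fib
    rw [← card_product]
    congr 1
    ext ⟨x, y⟩
    simp only [mem_filter, mem_product]
    constructor
    · rintro ⟨⟨⟨hx, hy⟩, h2⟩, h3⟩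
      exact ⟨⟨hx, h3⟩, hy, h2 ▸ h3⟩
    · rintro ⟨⟨hx, h3⟩, hy, h2⟩
      exact ⟨⟨⟨hx, hy⟩, h3.trans h2.symm⟩, h3⟩
  rw [← h1, ← diag_union_offDiag, filter_union,
    card_union_of_disjoint (disjoint_filter_filter (disjoint_diag_offDiag Z)), add_comm,
    filter_true_of_mem (s := Z.diag), diag_card]
  intro x hx
  rw [(mem_diag.1 hx).2]

omit [Fintype G] in
lemma sum_fib_sq_le {Q : Type} [AddCommGroup Q] [Fintype Q] [DecidableEq Q] (φ : G →+ Q)
    (Z : Finset G) (s : ℕ) (hZ : ∀ q, fib φ Z q ≤ s + 1) :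
    ∑ q, fib φ Z q * fib φ Z q ≤ s * Z.card + (s + 1) * (lev φ Z (s + 1)).card := by
  rw [← sum_fib φ Z, lev, card_filter, mul_sum, mul_sum, ← sum_add_distrib]
  refine sum_le_sum fun q _ => ?_
  have := hZ q
  split_ifs with h
  · have h2 : fib φ Z q = s + 1 := le_antisymm this h
    rw [h2]
    nlinarith
  · have h2 : fib φ Z q ≤ s := by omega
    nlinarith

/-- If no line of the plane directions holds more than `s + 1` points of `Z`, many hold `s + 1`. -/
theorem Plane.rich_sum {p : ℕ} {a b : G} (h : Plane p a b) (Z : Finset G) (s : ℕ)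
    (hZ : ∀ i, i ≤ p → ∀ x, onLine (dir p a b i) Z x ≤ s + 1) :
    p * p * (Z.card * Z.card) + Nat.card G * (p * Z.card) ≤
      Nat.card G * ((p + 1) * s * Z.card +
        (s + 1) * ∑ i ∈ range (p + 1), rich (dir p a b i) Z (s + 1)) := by
  classical
  let V : AddSubgroup G := AddSubgroup.closure {a, b}
  haveI : Fintype (G ⧸ V) := Fintype.ofFinite _
  have hV : p * p ≤ Nat.card V := by
    have hm : ∀ x : Fin p × Fin p, ((x.1 : ℕ) : ℤ) • a + ((x.2 : ℕ) : ℤ) • b ∈ V := fun x =>
      AddSubgroup.mem_closure_pair.2 ⟨_, _, rfl⟩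
    have hinj : Function.Injective (fun x : Fin p × Fin p => (⟨_, hm x⟩ : V)) := by
      rintro ⟨i, j⟩ ⟨i', j'⟩ hx
      have h1 : ((i : ℕ) : ℤ) • a + ((j : ℕ) : ℤ) • b = ((i' : ℕ) : ℤ) • a + ((j' : ℕ) : ℤ) • b :=
        congrArg Subtype.val hx
      obtain ⟨h2, h3⟩ := h.indep (((i : ℕ) : ℤ) - (i' : ℕ)) (((j : ℕ) : ℤ) - (j' : ℕ)) (by
        rw [sub_smul, sub_smul, sub_add_sub_comm, h1, sub_self])
      have h4 := Int.eq_zero_of_abs_lt_dvd h2 (by
        have := i.2; have := i'.2; rw [abs_lt]; constructor <;> omega)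
      have h5 := Int.eq_zero_of_abs_lt_dvd h3 (by
        have := j.2; have := j'.2; rw [abs_lt]; constructor <;> omega)
      refine Prod.ext (Fin.ext ?_) (Fin.ext ?_)
      · show (i : ℕ) = i'
        omega
      · show (j : ℕ) = j'
        omega
    have := Nat.card_le_card_of_injective _ hinj
    simpa using this
  have hn : Nat.card G = Nat.card (G ⧸ V) * Nat.card V :=
    AddSubgroup.card_eq_card_quotient_mul_card_addSubgroup V
  set N := (Z.offDiag.filter
    (fun x => QuotientAddGroup.mk' V x.1 = QuotientAddGroup.mk' V x.2)).card with hN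
  have hCS : Z.card * Z.card ≤ Nat.card (G ⧸ V) * (N + Z.card) := by
    rw [hN, ← sum_fib_sq, Nat.card_eq_fintype_card, ← card_univ]
    have := sq_sum_le_card_mul_sum_sq (s := (univ : Finset (G ⧸ V)))
      (f := fun q => fib (QuotientAddGroup.mk' V) Z q)
    rw [sum_fib] at this
    simpa only [sq, Nat.cast_id] using this
  let M : ℕ → ℕ := fun i => (Z.offDiag.filter
    (fun x => x.1 - x.2 ∈ AddSubgroup.zmultiples (dir p a b i))).card
  have hNM : N ≤ ∑ i ∈ range (p + 1), M i := by
    refine le_trans (card_le_card ?_) card_biUnion_le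
    intro x hx
    rw [mem_filter, QuotientAddGroup.mk'_apply, QuotientAddGroup.mk'_apply,
      QuotientAddGroup.eq_iff_sub_mem] at hx
    obtain ⟨i, j, hij⟩ := AddSubgroup.mem_closure_pair.1 hx.2
    obtain ⟨l, hl, hl'⟩ := h.exists_dir i j
    exact mem_biUnion.2 ⟨l, mem_range.2 (by omega), mem_filter.2 ⟨hx.1, hij ▸ hl'⟩⟩
  have hM : ∀ i ∈ range (p + 1),
      M i + Z.card ≤ s * Z.card + (s + 1) * rich (dir p a b i) Z (s + 1) := by
    intro i hi
    haveI : Fintype (G ⧸ AddSubgroup.zmultiples (dir p a b i)) := Fintype.ofFinite _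
    rw [rich_eq_card_lev]
    refine le_trans (le_of_eq ?_) (sum_fib_sq_le _ Z s fun q => ?_)
    · rw [sum_fib_sq]
      simp only [M, QuotientAddGroup.mk'_apply, QuotientAddGroup.eq_iff_sub_mem]
    · obtain ⟨x, rfl⟩ := QuotientAddGroup.mk_surjective q
      rw [← onLine_eq_fib]
      exact hZ i (by have := mem_range.1 hi; omega) x
  have hsum := sum_le_sum hM
  rw [sum_add_distrib, sum_add_distrib, sum_const, sum_const, card_range, ← mul_sum,
    smul_eq_mul, smul_eq_mul] at hsum
  have h1 : p * p * (Z.card * Z.card) ≤ Nat.card G * (N + Z.card) := by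
    rw [hn]
    calc p * p * (Z.card * Z.card) ≤ Nat.card V * (Nat.card (G ⧸ V) * (N + Z.card)) :=
          Nat.mul_le_mul hV hCS
      _ = _ := by ring
  calc p * p * (Z.card * Z.card) + Nat.card G * (p * Z.card)
      ≤ Nat.card G * (N + Z.card) + Nat.card G * (p * Z.card) := by omega
    _ = Nat.card G * (N + (p + 1) * Z.card) := by ring
    _ ≤ _ := by
      refine Nat.mul_le_mul_left _ ?_
      rw [mul_assoc]
      omega

end Pool.Agent.P.MP_7ea450_co
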