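import Mathlib

/-!
The sum of a Young diagram with itself inside a square box.
-/

open Finset

namespace Pool.Agent.P.MP_7ea450_co

namespace YoungAux

theorem split (f : ℕ → ℕ) {a b c : ℕ} (h1 : a ≤ b) (h2 : b ≤ c) :
    ∑ i ∈ Ioc a c, f i = ∑ i ∈ Ioc a b, f i + ∑ i ∈ Ioc b c, f i :=
  (sum_Ioc_consecutive f h1 h2).symm

theorem up (f : ℕ → ℕ) (a n c : ℕ) (h : ∀ i, a < i → i ≤ a + n → f i ≤ c) :
    ∑ i ∈ Ioc a (a + n), f i ≤ n * c := by
  have := sum_le_card_nsmul (Ioc a (a + n)) f c (fun i hi => by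
    rw [mem_Ioc] at hi; exact h i hi.1 hi.2)
  simpa using this

theorem low (f g : ℕ → ℕ) (a n c : ℕ) (h : ∀ i, a < i → i ≤ a + n → g i + c ≤ f i) :
    ∑ i ∈ Ioc a (a + n), g i + n * c ≤ ∑ i ∈ Ioc a (a + n), f i := by
  have h1 : ∑ i ∈ Ioc a (a + n), (g i + c) ≤ ∑ i ∈ Ioc a (a + n), f i :=
    sum_le_sum (fun i hi => by rw [mem_Ioc] at hi; exact h i hi.1 hi.2)
  rw [sum_add_distrib] at h1
  simpa using h1

theorem refl (f : ℕ → ℕ) (a n c : ℕ)
    (h : ∀ i j, a < i → a < j → i + j = 2 * a + n + 1 → f i + f j ≤ c) :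
    2 * ∑ i ∈ Ioc a (a + n), f i ≤ n * c := by
  have e : ∑ i ∈ Ioc a (a + n), f (2 * a + n + 1 - i) = ∑ i ∈ Ioc a (a + n), f i := by
    refine sum_nbij' (fun i => 2 * a + n + 1 - i) (fun i => 2 * a + n + 1 - i) ?_ ?_ ?_ ?_ ?_
    · intro i hi; simp only [mem_Ioc] at hi ⊢; omega
    · intro i hi; simp only [mem_Ioc] at hi ⊢; omega
    · intro i hi; simp only [mem_Ioc] at hi ⊢; omega
    · intro i hi; simp only [mem_Ioc] at hi ⊢; omega
    · intro i _; rfl
  have := up (fun i => f i + f (2 * a + n + 1 - i)) a n c (fun i h1 h2 =>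
    h i _ h1 (by omega) (by omega))
  rw [sum_add_distrib, e] at this
  omega

theorem shift (f g : ℕ → ℕ) (a b n c : ℕ)
    (h : ∀ j, 0 < j → j ≤ n → g (a + j) + c ≤ f (b + j)) :
    ∑ i ∈ Ioc a (a + n), g i + n * c ≤ ∑ i ∈ Ioc b (b + n), f i := by
  induction n with
  | zero => simp
  | succ n ih =>
    have h1 := ih (fun j h1 h2 => h j h1 (by omega))
    have h2 := h (n + 1) (by omega) le_rfl
    rw [← add_assoc a, ← add_assoc b, sum_Ioc_succ_top (by omega), sum_Ioc_succ_top (by omega)]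
    rw [← add_assoc a, ← add_assoc b] at h2
    linarith

theorem diag (π ν : ℕ → ℕ) (n : ℕ)
    (h : ∀ i t u, 1 ≤ i → 1 ≤ t → i ≤ n + 1 → t ≤ n + 1 → i + t = u + 1 → π i + π t ≤ ν u + 1) :
    4 * ∑ i ∈ Ioc 0 (n + 1), π i ≤
      ∑ v ∈ Ioc 0 (2 * n + 1), ν v + (2 * n + 1) + π 1 + π (n + 1) := by
  induction n with
  | zero =>
    have := h 1 1 1 le_rfl le_rfl le_rfl le_rfl rfl
    simp
    omega
  | succ n ih =>
    have h1 := ih (fun i t u a b c d e => h i t u a b (by omega) (by omega) e)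
    have h2 := h (n + 1) (n + 1 + 1) (2 * n + 1 + 1) (by omega) (by omega) (by omega) le_rfl
      (by omega)
    have h3 := h (n + 1 + 1) (n + 1 + 1) (2 * n + 1 + 1 + 1) (by omega) (by omega) le_rfl le_rfl
      (by omega)
    have e : 2 * (n + 1) + 1 = 2 * n + 1 + 1 + 1 := by ring
    rw [e, sum_Ioc_succ_top (by omega : 0 ≤ n + 1), sum_Ioc_succ_top (by omega : 0 ≤ 2 * n + 1 + 1),
      sum_Ioc_succ_top (by omega : 0 ≤ 2 * n + 1)]
    omega

/-- The data shared by all the cases: `w` full levels, `al` the last positive index. -/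
structure Dat (p s w al : ℕ) (π ν : ℕ → ℕ) : Prop where
  hs : 1 ≤ s
  hps : 2 * s + 3 ≤ p
  π_anti : ∀ i j, 1 ≤ i → i ≤ j → π j ≤ π i
  ν_anti : ∀ i j, 1 ≤ i → i ≤ j → ν j ≤ ν i
  π_le : ∀ i, π i ≤ p
  hal : s + 2 ≤ al
  halp : al ≤ p
  zero : ∀ i, al < i → π i = 0
  pos : ∀ i, 1 ≤ i → i ≤ al → 0 < π i
  hsum : s * p + 1 ≤ ∑ i ∈ Ioc 0 al, π i
  h1 : s + 2 ≤ π 1
  hw : w ≤ 2 * s
  full : w * p ≤ ∑ i ∈ Ioc 0 w, ν i
  rule : ∀ i t v, 1 ≤ i → 1 ≤ t → i ≤ al → t ≤ al → i + t = v + 1 → w < v → v ≤ p →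
    π i + π t ≤ ν v + 1 ∧ π i + π t + 1 ≤ p

variable {p s w al : ℕ} {π ν : ℕ → ℕ}

theorem caseA (D : Dat p s w al π ν) (h : al ≤ w + 1) :
    (2 * s + 1) * p ≤ ∑ u ∈ Ioc 0 p, ν u := by
  have hs := D.hs
  have hps := D.hps
  have hal := D.hal
  have hw := D.hw
  -- `a` indices below the antidiagonal, `k` indices on it
  obtain ⟨a, ha⟩ : ∃ a, w + 1 = al + a := ⟨w + 1 - al, by omega⟩
  obtain ⟨k, hk⟩ : ∃ k, al = a + (k + 1) := ⟨al - a - 1, by omega⟩
  obtain ⟨q, hq⟩ : ∃ q, p = q + 1 := ⟨p - 1, by omega⟩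
  have e0 := D.hsum
  have s1 := split π (Nat.zero_le a) (by omega : a ≤ al)
  have s2 := split π (Nat.zero_le (a + 1)) (by omega : a + 1 ≤ al)
  have u1 := up π 0 a p (fun i _ _ => D.π_le i)
  have u2 := up π 0 (a + 1) p (fun i _ _ => D.π_le i)
  rw [zero_add] at u1 u2
  have r0 := refl π a (k + 1) q (fun i j hi hj e => by
    have := (D.rule i j (w + 1) (by omega) (by omega) (by omega) (by omega) (by omega) (by omega)
      (by omega)).2
    omega)
  have r1 := refl π a (k + 1) (ν (w + 1) + 1) (fun i j hi hj e =>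
    (D.rule i j (w + 1) (by omega) (by omega) (by omega) (by omega) (by omega) (by omega)
      (by omega)).1)
  have r2 := refl π (a + 1) k (ν (w + 2) + 1) (fun i j hi hj e =>
    (D.rule i j (w + 2) (by omega) (by omega) (by omega) (by omega) (by omega) (by omega)
      (by omega)).1)
  rw [← hk] at r0 r1
  rw [show a + 1 + k = al by omega] at r2
  have hw2 : w = 2 * s := by
    by_contra hne
    have h3 : 2 * a + (k + 1) ≤ 2 * s := by omega
    have h4 : (2 * a + (k + 1)) * p ≤ 2 * s * p := Nat.mul_le_mul_right _ h3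
    have h5 : (k + 1) * q ≤ (k + 1) * p := Nat.mul_le_mul_left _ (by omega)
    linarith
  have t1 := split ν (Nat.zero_le w) (by omega : w ≤ p)
  have t2 := split ν (by omega : w ≤ w + 3) (by omega : w + 3 ≤ p)
  have t3 : ∑ i ∈ Ioc w (w + 3), ν i = ν (w + 1) + ν (w + 2) + ν (w + 3) := by
    rw [sum_Ioc_succ_top (by omega : w ≤ w + 2), sum_Ioc_succ_top (by omega : w ≤ w + 1),
      sum_Ioc_succ_top (le_refl w)]
    simp
  have hf := D.full
  suffices hh : p ≤ ν (w + 1) + ν (w + 2) + ν (w + 3) by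
    have k5 : (2 * s + 1) * p = w * p + p := by rw [hw2]; ring
    omega
  -- `k = 2 * j`, `s = a + j`
  obtain ⟨j, hj⟩ : ∃ j, s = a + j := ⟨s - a, by omega⟩
  have hkj : k = 2 * j := by omega
  by_cases hj1 : j = 1
  · have ea : a + 1 = s := by omega
    have eal : al = a + 3 := by omega
    have t4 : ∑ i ∈ Ioc a al, π i = π (a + 1) + π (a + 2) + π (a + 3) := by
      rw [eal, sum_Ioc_succ_top (by omega : a ≤ a + 2), sum_Ioc_succ_top (by omega : a ≤ a + 1),
        sum_Ioc_succ_top (le_refl a)]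
      simp
    have c1 := (D.rule (a + 1) (a + 3) (w + 1) (by omega) (by omega) (by omega) (by omega)
      (by omega) (by omega) (by omega)).1
    have c2 := (D.rule (a + 2) (a + 3) (w + 2) (by omega) (by omega) (by omega) (by omega)
      (by omega) (by omega) (by omega)).1
    have c3 := (D.rule (a + 3) (a + 3) (w + 3) (by omega) (by omega) (by omega) (by omega)
      (by omega) (by omega) (by omega)).1
    have c4 := D.pos (a + 3) (by omega) (by omega)
    have e1 : s * p = a * p + p := by rw [← ea]; ring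
    omega
  · obtain ⟨i, hi⟩ : ∃ i, j = i + 2 := ⟨j - 2, by omega⟩
    have c3 := (D.rule al (a + 3) (w + 3) (by omega) (by omega) (by omega) (by omega)
      (by omega) (by omega) (by omega)).1
    have c4 := D.pos (a + 3) (by omega) (by omega)
    have c5 := D.pos al (by omega) le_rfl
    have e1 : s * p = a * p + (i + 2) * p := by rw [hj, hi]; ring
    have e2 : (a + 1) * p = a * p + p := by ring
    have e3 : k = 2 * i + 4 := by omega
    rw [e3] at r1 r2
    have b1 : 2 * ((i + 2) * p) + 2 ≤ (2 * i + 4 + 1) * (ν (w + 1) + 1) := by omega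
    have b2 : 2 * ((i + 2) * p) + 2 ≤ (2 * i + 4) * (ν (w + 2) + 1) + 2 * p := by omega
    have d1 : 4 * p < 5 * (ν (w + 1) + 1) := by
      by_contra hc
      push Not at hc
      linarith [Nat.mul_le_mul_left (2 * i + 5) hc, Nat.zero_le (i * p)]
    have d2 : p < 2 * (ν (w + 2) + 1) := by
      by_contra hc
      push Not at hc
      linarith [Nat.mul_le_mul_left (i + 2) hc, Nat.zero_le (i * p)]
    omega

/-- levels from the first non-full one up to `al` -/
theorem mid (D : Dat p s w al π ν) (n b : ℕ) (hn : al = w + n) (hb : π 1 = b + 1) :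
    ∑ i ∈ Ioc w al, π i + n * b ≤ ∑ i ∈ Ioc w al, ν i := by
  have := low ν π w n b (fun i h1 h2 => by
    have := (D.rule 1 i i le_rfl (by omega) (by have := D.hal; omega) (by omega) (by omega) h1
      (by have := D.halp; omega)).1
    omega)
  rwa [← hn] at this

/-- the part of the diagram below the first non-full level -/
theorem head (D : Dat p s w al π ν) (x q : ℕ) (hx : w = x + 1) (hq : p = q + 1)
    (h : w + 1 < al) : 2 * ∑ i ∈ Ioc 0 w, π i ≤ 2 * π 1 + x * q := by
  have hw := D.hw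
  have hps := D.hps
  have s1 := split π (Nat.zero_le 1) (by omega : 1 ≤ w)
  have r := refl π 1 x q (fun i j hi hj e => by
    have := (D.rule i j (w + 1) (by omega) (by omega) (by omega) (by omega) (by omega) (by omega)
      (by omega)).2
    omega)
  rw [show 1 + x = w by omega] at r
  have : ∑ i ∈ Ioc 0 1, π i = π 1 := by simp
  omega

/-- levels above `al` -/
theorem tail (D : Dat p s w al π ν) (n : ℕ) (h : w + 1 < al) (h1 : n + 1 ≤ al)
    (h2 : al + n ≤ p) : ∑ i ∈ Ioc 1 (1 + n), π i + n * (π al - 1) ≤ ∑ i ∈ Ioc al (al + n), ν i :=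
  shift ν π 1 al n (π al - 1) (fun j j1 j2 => by
    have := (D.rule (1 + j) al (al + j) (by omega) (by omega) (by omega) le_rfl (by omega)
      (by omega) (by omega)).1
    have := D.pos al (by omega) le_rfl
    omega)

theorem caseB1 (D : Dat p s w al π ν) (h : w + 1 < al) (hc : al = p ∨ π 1 ≤ ν p + 1) :
    (2 * s + 1) * p ≤ ∑ u ∈ Ioc 0 p, ν u := by
  have hs := D.hs
  have hps := D.hps
  have hal := D.hal
  have halp := D.halp
  have hw := D.hw
  have h1 := D.h1
  obtain ⟨b, hb⟩ : ∃ b, π 1 = b + 1 := ⟨π 1 - 1, by omega⟩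
  obtain ⟨n, hn⟩ : ∃ n, al = w + n := ⟨al - w, by omega⟩
  obtain ⟨r, hr⟩ : ∃ r, p = al + r := ⟨p - al, by omega⟩
  obtain ⟨q, hq⟩ : ∃ q, p = q + 1 := ⟨p - 1, by omega⟩
  have m1 := mid D n b hn hb
  have m2 := low ν (fun _ => 0) al r b (fun i i1 i2 => by
    have := D.ν_anti i p (by omega) (by omega)
    omega)
  rw [← hr] at m2
  simp only [sum_const_zero, zero_add] at m2
  have t1 := split ν (Nat.zero_le w) (by omega : w ≤ p)
  have t2 := split ν (by omega : w ≤ al) halp
  have t3 := split π (Nat.zero_le w) (by omega : w ≤ al)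
  have hf := D.full
  have e0 := D.hsum
  rcases Nat.eq_zero_or_pos w with h0 | h0
  · subst h0
    have : ∑ i ∈ Ioc 0 0, π i = 0 := by simp
    have h3 : (n + r) * (s + 1) ≤ (n + r) * b := Nat.mul_le_mul_left _ (by omega)
    have h4 : n + r = p := by omega
    rw [h4] at h3
    have h5 : n * b + r * b = p * b := by rw [← h4]; ring
    linarith
  · obtain ⟨x, hx⟩ : ∃ x, w = x + 1 := ⟨w - 1, by omega⟩
    have hd := head D x q hx hq h
    obtain ⟨y, hy⟩ : ∃ y, n + r = y + 1 := ⟨n + r - 1, by omega⟩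
    have h3 : y * (s + 1) ≤ y * b := Nat.mul_le_mul_left _ (by omega)
    have h5 : n * b + r * b = y * b + b := by rw [← add_mul, hy]; ring
    have h6 : p = x + y + 2 := by omega
    have h7 : (x + 2) * (2 * s + 2) ≤ (x + 2) * q := Nat.mul_le_mul_left _ (by omega)
    have h8 : w * p = (x + 1) * (q + 1) := by rw [hx, hq]
    have h9 : (s + 1) * p = (s + 1) * (x + y + 2) := by rw [h6]
    linarith [Nat.zero_le (s * x), Nat.zero_le (s * y), Nat.zero_le (x * q), Nat.zero_le s]

theorem caseB2 (D : Dat p s w al π ν) (h : w + 1 < al) (hc : 2 * al ≤ p + 1) :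
    (2 * s + 1) * p ≤ ∑ u ∈ Ioc 0 p, ν u := by
  have hs := D.hs
  have hps := D.hps
  have hal := D.hal
  have halp := D.halp
  have hw := D.hw
  have h1 := D.h1
  obtain ⟨b, hb⟩ : ∃ b, π 1 = b + 1 := ⟨π 1 - 1, by omega⟩
  obtain ⟨n, hn⟩ : ∃ n, al = w + (n + 2) := ⟨al - w - 2, by omega⟩
  obtain ⟨z, hz⟩ : ∃ z, al = z + 1 := ⟨al - 1, by omega⟩
  obtain ⟨q, hq⟩ : ∃ q, p = q + 1 := ⟨p - 1, by omega⟩
  have m1 := mid D (n + 2) b hn hb
  have m2 := tail D z h (by omega) (by omega)
  rw [show 1 + z = al by omega] at m2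
  have t1 := split ν (Nat.zero_le w) (by omega : w ≤ p)
  have t2 := split ν (by omega : w ≤ al) halp
  have t2' := split ν (by omega : al ≤ al + z) (by omega : al + z ≤ p)
  have t3 := split π (Nat.zero_le w) (by omega : w ≤ al)
  have t4 := split π (Nat.zero_le 1) (by omega : 1 ≤ al)
  have t5 : ∑ i ∈ Ioc 0 1, π i = π 1 := by simp
  have hf := D.full
  have e0 := D.hsum
  rcases Nat.eq_zero_or_pos w with h0 | h0
  · subst h0
    have t6 : ∑ i ∈ Ioc 0 0, π i = 0 := by simp
    have t7 : ∑ i ∈ Ioc 0 0, ν i = 0 := by simp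
    have dg := diag π ν z (fun i t u a1 a2 a3 a4 a5 =>
      (D.rule i t u a1 a2 (by omega) (by omega) a5 (by omega) (by omega)).1)
    rw [← hz] at dg
    have t8 := split ν (Nat.zero_le (2 * z + 1)) (by omega : 2 * z + 1 ≤ p)
    have c5 := D.pos al (by omega) le_rfl
    obtain ⟨c, hcc⟩ : ∃ c, π al = c + 1 := ⟨π al - 1, by omega⟩
    rw [hcc, Nat.add_sub_cancel] at m2
    have k1 : (2 * s + 1) * p ≤ 3 * (s * p) := by linarith [Nat.mul_le_mul_right p hs]
    have k2 : n * 2 ≤ n * b := Nat.mul_le_mul_left _ (by omega)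
    have k3 : c ≤ z * c := Nat.le_mul_of_pos_left _ (by omega)
    have k4 : (n + 2) * b = n * b + 2 * b := by ring
    omega
  · obtain ⟨x, hx⟩ : ∃ x, w = x + 1 := ⟨w - 1, by omega⟩
    have hd := head D x q hx hq h
    have h8 : w * p = x * q + x + p := by rw [hx, hq]; ring
    have k4 : (n + 2) * b = n * b + 2 * b := by ring
    have k5 : (2 * s + 1) * p = 2 * (s * p) + p := by ring
    omega

theorem caseB3 (D : Dat p s w al π ν) (h : w + 1 < al) (hc : p + 1 < 2 * al) (hlt : al < p)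
    (hν : ν p + 1 < π 1) : (2 * s + 1) * p ≤ ∑ u ∈ Ioc 0 p, ν u := by
  have hs := D.hs
  have hps := D.hps
  have hal := D.hal
  have halp := D.halp
  have hw := D.hw
  have h1 := D.h1
  obtain ⟨b, hb⟩ : ∃ b, π 1 = b + 1 := ⟨π 1 - 1, by omega⟩
  obtain ⟨n, hn⟩ : ∃ n, al = w + n := ⟨al - w, by omega⟩
  obtain ⟨r, hr⟩ : ∃ r, p = al + r := ⟨p - al, by omega⟩
  obtain ⟨q, hq⟩ : ∃ q, p = q + 1 := ⟨p - 1, by omega⟩
  obtain ⟨g, hg⟩ : ∃ g, al = 1 + r + g := ⟨al - 1 - r, by omega⟩
  have m1 := mid D n b hn hb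
  have m2 := tail D r h (by omega) (by omega)
  rw [← hr] at m2
  have m3 := refl π (1 + r) g b (fun i j hi hj e => by
    have a1 := (D.rule i (j - 1) p (by omega) (by omega) (by omega) (by omega) (by omega)
      (by omega) le_rfl).1
    have a2 := D.π_anti (j - 1) j (by omega) (by omega)
    omega)
  rw [← hg] at m3
  have t1 := split ν (Nat.zero_le w) (by omega : w ≤ p)
  have t2 := split ν (by omega : w ≤ al) halp
  have t3 := split π (Nat.zero_le w) (by omega : w ≤ al)
  have t4 := split π (Nat.zero_le 1) (by omega : 1 ≤ al)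
  have t4' := split π (by omega : 1 ≤ 1 + r) (by omega : 1 + r ≤ al)
  have t5 : ∑ i ∈ Ioc 0 1, π i = π 1 := by simp
  have hf := D.full
  have e0 := D.hsum
  have k5 : (2 * s + 1) * p = 2 * (s * p) + p := by ring
  rcases Nat.eq_zero_or_pos w with h0 | h0
  · subst h0
    have t6 : ∑ i ∈ Ioc 0 0, π i = 0 := by simp
    have k1 : 2 * (n * b) = g * b + q * b + 2 * b := by
      have : 2 * n = g + q + 2 := by omega
      rw [← mul_assoc, this]; ring
    have k2 : q * 2 ≤ q * b := Nat.mul_le_mul_left _ (by omega)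
    omega
  · obtain ⟨x, hx⟩ : ∃ x, w = x + 1 := ⟨w - 1, by omega⟩
    have hd := head D x q hx hq h
    have h8 : w * p = x * q + x + p := by rw [hx, hq]; ring
    have k1 : 2 * (n * b) + 2 * (x * b) = g * b + q * b := by
      have : 2 * n + 2 * x = g + q := by omega
      rw [← mul_assoc, ← mul_assoc, ← add_mul, this]; ring
    have b1 := (D.rule 1 (w + 1) (w + 1) le_rfl (by omega) (by omega) (by omega) (by omega)
      (by omega) (by omega)).2
    have b2 := D.pos (w + 1) (by omega) (by omega)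
    have key : 2 * (x * b) + 4 * b ≤ x * q + 2 * x + q * b := by
      by_cases hh : 2 * x + 4 ≤ q
      · have : (2 * x + 4) * b ≤ q * b := Nat.mul_le_mul_right _ hh
        linarith [Nat.zero_le (x * q), Nat.zero_le x]
      · obtain ⟨d, hd'⟩ : ∃ d, q = b + 2 + d := ⟨q - b - 2, by omega⟩
        obtain ⟨e, he⟩ : ∃ e, q = x + 3 + e := ⟨q - x - 3, by omega⟩
        obtain ⟨f, hf'⟩ : ∃ f, 2 * x + 4 = q + 1 + f := ⟨2 * x + 4 - q - 1, by omega⟩
        have a1 : (1 + f) * b ≤ (1 + f) * (x + 1 + e) := Nat.mul_le_mul_left _ (by omega)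
        have a2 : 2 * (x * b) + 4 * b = q * b + (1 + f) * b := by
          have : 2 * (x * b) + 4 * b = (2 * x + 4) * b := by ring
          rw [this, hf']; ring
        have a3 : x = e + f := by omega
        have a4 : (1 + f) * (x + 1 + e) ≤ x * q + 2 * x := by
          rw [he, a3]
          rcases Nat.eq_zero_or_pos (e + f) with h0 | h0
          · omega
          · clear * - h0
            nlinarith [Nat.zero_le (e * f), Nat.zero_le (e * e), Nat.zero_le (f * f)]
        omega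
    omega

end YoungAux

open YoungAux in
theorem young (p s : ℕ) (hp : Odd p) (hs : 1 ≤ s) (hps : 2 * s + 3 ≤ p) (π ν : ℕ → ℕ)
    (π_anti : ∀ i j, 1 ≤ i → i ≤ j → π j ≤ π i) (ν_anti : ∀ i j, 1 ≤ i → i ≤ j → ν j ≤ ν i)
    (π_le : ∀ i, π i ≤ p) (ν_le : ∀ i, ν i ≤ p) (π_zero : ∀ i, p < i → π i = 0)
    (hsum : s * p + 1 ≤ ∑ i ∈ Ioc 0 p, π i) (h1 : s + 2 ≤ π 1) (hα : 0 < π (s + 2))
    (hCD : ∀ i t u, 1 ≤ i → 1 ≤ t → i + t = u + 1 → u ≤ p → 0 < π i → 0 < π t →
      ν u = p ∨ (π i + π t ≤ ν u + 1 ∧ π i + π t + 1 ≤ p)) :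
    (2 * s + 1) * p ≤ ∑ u ∈ Ioc 0 p, ν u := by
  have _ := hp
  have fullsum : ∀ w, (∀ i, 0 < i → i ≤ w → ν i = p) → w * p ≤ ∑ i ∈ Ioc 0 w, ν i := by
    intro w hw
    have := low ν (fun _ => 0) 0 w p (fun i i1 i2 => by
      have := hw i i1 (by omega)
      omega)
    simpa using this
  by_cases hfull : ν (2 * s + 1) = p
  · have h2 := fullsum (2 * s + 1) (fun i i1 i2 => by
      have := ν_anti i (2 * s + 1) i1 i2
      have := ν_le i
      omega)
    have h3 := split ν (Nat.zero_le (2 * s + 1)) (by omega : 2 * s + 1 ≤ p)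
    omega
  have ex1 : ∃ w, ν (w + 1) ≠ p := ⟨2 * s, hfull⟩
  have ex2 : ∃ a, π (a + 1) = 0 := ⟨p, π_zero _ (by omega)⟩
  classical
  have w1 := Nat.find_spec ex1
  have w2 : Nat.find ex1 ≤ 2 * s := Nat.find_min' ex1 hfull
  have w3 : ∀ i, i < Nat.find ex1 → ν (i + 1) = p := fun i hi => by
    have := Nat.find_min ex1 hi
    simpa using this
  have a1 := Nat.find_spec ex2
  have a2 : Nat.find ex2 ≤ p := Nat.find_min' ex2 (π_zero _ (by omega))
  have a3 : ∀ i, i < Nat.find ex2 → π (i + 1) ≠ 0 := fun i hi => Nat.find_min ex2 hi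
  generalize Nat.find ex1 = w at w1 w2 w3
  generalize Nat.find ex2 = al at a1 a2 a3
  have zero : ∀ i, al < i → π i = 0 := fun i hi => by
    have := π_anti (al + 1) i (by omega) hi
    omega
  have pos : ∀ i, 1 ≤ i → i ≤ al → 0 < π i := fun i i1 i2 => by
    have := a3 (i - 1) (by omega)
    rw [Nat.sub_add_cancel i1] at this
    omega
  have hal : s + 2 ≤ al := by
    by_contra hc
    have := zero (s + 2) (by omega)
    omega
  have D : Dat p s w al π ν :=
    { hs := hs
      hps := hps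
      π_anti := π_anti
      ν_anti := ν_anti
      π_le := π_le
      hal := hal
      halp := a2
      zero := zero
      pos := pos
      hsum := by
        have h2 := split π (Nat.zero_le al) a2
        have h3 : ∑ i ∈ Ioc al p, π i = 0 :=
          sum_eq_zero (fun i hi => zero i (mem_Ioc.1 hi).1)
        omega
      h1 := h1
      hw := w2
      full := fullsum w (fun i i1 i2 => by
        have := w3 (i - 1) (by omega)
        rwa [Nat.sub_add_cancel i1] at this)
      rule := fun i t v i1 t1 i2 t2 e v1 v2 => by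
        rcases hCD i t v i1 t1 e v2 (pos i i1 i2) (pos t t1 t2) with h | h
        · have := ν_anti (w + 1) v (by omega) v1
          have := ν_le (w + 1)
          omega
        · exact h }
  by_cases c1 : al ≤ w + 1
  · exact caseA D c1
  by_cases c2 : al = p ∨ π 1 ≤ ν p + 1
  · exact caseB1 D (by omega) c2
  by_cases c3 : 2 * al ≤ p + 1
  · exact caseB2 D (by omega) c3
  · exact caseB3 D (by omega) (by omega) (by omega) (by omega)

end Pool.Agent.P.MP_7ea450_co
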