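import Pool.Agent.P.MP_7ea450_co.MinCex
import Pool.Agent.P.MP_7ea450_co.Rich
import Pool.Agent.P.MP_7ea450_co.Young

/-!
Elementary abelian groups.
-/

open Finset
open scoped Pointwise

set_option linter.unusedSectionVars false
set_option linter.style.haveILetI false

namespace Pool.Agent.P.MP_7ea450_co

variable {G : Type} [AddCommGroup G] [Fintype G] [DecidableEq G] {e m T : ℕ} {A : Finset G}

private lemma elem_card_le {Q : Type} [Fintype Q] (B : Finset Q) : B.card ≤ Nat.card Q := by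
  rw [Nat.card_eq_fintype_card]
  exact card_le_univ _

private lemma elem_symm (A : Finset G) : ∀ x ∈ A - A, -x ∈ A - A := by
  intro x hx
  obtain ⟨a, ha, b, hb, rfl⟩ := mem_sub.1 hx
  exact mem_sub.2 ⟨b, hb, a, ha, by abel⟩

/-- The choice of `s` with `s N < m ≤ (s + 1) N`. -/
private lemma elem_exists_s {N m : ℕ} (hN : 0 < N) (hm : N < m) :
    ∃ s, 1 ≤ s ∧ s * N + 1 ≤ m ∧ m ≤ N * (s + 1) := by
  have h1 := Nat.div_add_mod (m - 1) N
  have h2 := Nat.mod_lt (m - 1) hN
  refine ⟨(m - 1) / N, (Nat.le_div_iff_mul_le hN).2 (by omega), ?_, ?_⟩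
  · rw [mul_comm]
    omega
  · rw [mul_add]
    omega

private lemma elem_top {N p m s : ℕ} (hp : Odd p) (hs : s * N + 1 ≤ m)
    (h : 2 * (p * m) + p * N ≤ p * N * p) : 2 * s + 3 ≤ p := by
  have hp0 : 0 < p := hp.pos
  have h1 : p * (2 * m + N) ≤ p * (N * p) := by (first | linarith | nlinarith)
  have h2 := Nat.le_of_mul_le_mul_left h1 hp0
  have h3 : N * (2 * s + 1) < N * p := by (first | linarith | nlinarith)
  have h4 := Nat.lt_of_mul_lt_mul_left h3
  obtain ⟨k, hk⟩ := hp
  omega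

/-- A direction with a long fibre. -/
private lemma elem_long {Q : Type} [AddCommGroup Q] [Fintype Q] [DecidableEq Q] (φ : G →+ Q)
    {p s : ℕ} (hp : p.Prime) (hodd : Odd p) (hker : Nat.card φ.ker = p) (hQ : Nat.card Q = p)
    (hs : 1 ≤ s) (hps : 2 * s + 3 ≤ p) (hA : s * p + 1 ≤ A.card)
    (h1 : s + 2 ≤ (A.image φ).card) {q : Q} (hq : s + 2 ≤ fib φ A q) :
    (2 * s + 1) * p ≤ (A - A).card := by
  have hf : ∀ q, fib φ A q ≤ p := fun q => hker ▸ fib_le_ker φ A q
  refine le_trans (young p s hodd hs hps (fun i => (lev φ A i).card)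
    (fun u => (lev φ (A - A) u).card) (fun i j _ h => card_le_card (lev_anti φ A h))
    (fun i j _ h => card_le_card (lev_anti φ _ h)) (fun i => hQ ▸ elem_card_le _)
    (fun i => hQ ▸ elem_card_le _) ?_ ?_ ?_ ?_ ?_) (sum_card_lev_le φ _ p)
  · intro i hi
    rw [card_eq_zero, eq_empty_iff_forall_notMem]
    intro x hx
    have := (mem_lev.1 hx).trans (hf x)
    omega
  · rw [sum_card_lev_eq φ A p hf]
    exact hA
  · rw [lev_one]
    exact h1
  · exact card_pos.2 ⟨q, mem_lev.2 hq⟩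
  · intro i t u hi ht hu hup hπi hπt
    have hsub := sub_mem_lev (fibCD_of_prime φ hp hker A) subset_rfl subset_rfl hi ht hu hup
    have hne : (lev φ A i ∩ lev φ A t).Nonempty := by
      rcases le_total i t with h | h
      · obtain ⟨x, hx⟩ := card_pos.1 hπt
        exact ⟨x, mem_inter.2 ⟨lev_anti φ A h hx, hx⟩⟩
      · obtain ⟨x, hx⟩ := card_pos.1 hπi
        exact ⟨x, mem_inter.2 ⟨hx, lev_anti φ A h hx⟩⟩
    obtain ⟨d, j, a, b, k, hN, hU, hW, -, -, hab, hk, hkV, hkj⟩ :=
      kneser_odd (hQ ▸ hodd) _ _ _ hne hsub (fun x hx => neg_mem_lev (elem_symm A) hx)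
    have hV : (lev φ (A - A) u).card ≤ p := hQ ▸ elem_card_le _
    rw [hQ] at hN
    obtain ⟨x, hx⟩ := hk
    obtain ⟨y, hy⟩ := hodd
    rcases (Nat.dvd_prime hp).1 (Dvd.intro _ hN.symm) with h | h
    · subst h
      simp only [mul_one, one_mul] at hN hU hW hkV
      omega
    · left
      have : 1 * d ≤ k * d := Nat.mul_le_mul_right _ (by omega)
      omega

/-- A direction with many fibres of length `s + 1`. -/
private lemma elem_many {Q : Type} [AddCommGroup Q] [Fintype Q] [DecidableEq Q] (φ : G →+ Q)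
    {p s : ℕ} (hp : p.Prime) (hker : Nat.card φ.ker = p) (hQ : Nat.card Q = p)
    (hps : 2 * s + 1 ≤ p) {Z : Finset G} (hZ : Z ⊆ A) (h : p < 2 * (lev φ Z (s + 1)).card) :
    (2 * s + 1) * p ≤ (A - A).card := by
  have hsub := sub_mem_lev (i := s + 1) (t := s + 1) (u := 2 * s + 1)
    (fibCD_of_prime φ hp hker Z) subset_rfl (sub_subset_sub hZ hZ) (by omega) (by omega)
    (by omega) hps
  rw [sub_eq_univ_of_card _ _ (by omega)] at hsub
  refine le_trans ?_ (sum_card_lev_le φ _ (2 * s + 1))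
  have h1 : ∀ i ∈ Ioc 0 (2 * s + 1), p ≤ (lev φ (A - A) i).card := by
    intro i hi
    have := card_le_card (hsub.trans (lev_anti φ _ (mem_Ioc.1 hi).2))
    rwa [card_univ, ← Nat.card_eq_fintype_card, hQ] at this
  simpa using card_nsmul_le_sum _ _ _ h1

/-- The plane. -/
theorem Ctx.not_bad_plane (hc : Ctx G e m T) (he : e.Prime) (hn : Nat.card G = e * e) :
    ¬ Bad m T A := by
  classical
  intro hA
  have hodd : Odd e := (Nat.odd_mul.1 (hn ▸ hc.odd hA)).1
  obtain ⟨s, hs, hsm, hms⟩ := elem_exists_s hc.e_pos (hc.e_lt hA)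
  have hps : 2 * s + 3 ≤ e := elem_top hodd hsm (hn ▸ hc.top hA)
  have hmn : m ≤ e * e := hn ▸ hA.1.trans (elem_card_le A)
  have hT : T ≤ (2 * s + 1) * e := by
    have := hc.bnd e (s + 1) hc.e_dvd (by rw [hn, Nat.gcd_self]; exact hmn) hms
    (first | linarith | nlinarith)
  suffices h : (2 * s + 1) * e ≤ (A - A).card by
    have := hA.2
    omega
  obtain ⟨p, a, b, hP⟩ := exists_plane hc.e_pos hc.e_smul
    (by rw [hn]; (first | linarith [he.two_le] | nlinarith [he.two_le]))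
  obtain rfl : p = e := by
    have h1 : p ∣ e * e := (Dvd.intro _ rfl).trans (hn ▸ hP.sq_dvd)
    exact (Nat.prime_dvd_prime_iff_eq hP.prime he).1 (by simpa using (hP.prime.dvd_mul.1 h1))
  have hker : ∀ i, Nat.card (QuotientAddGroup.mk' (AddSubgroup.zmultiples (dir p a b i))).ker
      = p := by
    intro i
    rw [QuotientAddGroup.ker_mk', hP.card_dir]
  have hQ : ∀ i, Nat.card (G ⧸ AddSubgroup.zmultiples (dir p a b i)) = p := by
    intro i
    have := AddSubgroup.card_eq_card_quotient_mul_card_addSubgroup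
      (AddSubgroup.zmultiples (dir p a b i))
    rw [hn, hP.card_dir] at this
    exact (Nat.eq_of_mul_eq_mul_right hc.e_pos this).symm
  by_cases hl : ∃ i x, s + 2 ≤ onLine (dir p a b i) A x
  · obtain ⟨i, x, hx⟩ := hl
    haveI := Fintype.ofFinite (G ⧸ AddSubgroup.zmultiples (dir p a b i))
    rw [onLine_eq_fib] at hx
    refine elem_long _ he hodd (hker i) (hQ i) hs hps (hsm.trans hA.1) ?_ hx
    have h1 := hc.cauchy hA (K := AddSubgroup.zmultiples (dir p a b i)) ?_ ?_
    · rw [hP.card_dir, cov_eq_card_image] at h1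
      have := Nat.lt_of_mul_lt_mul_right (lt_of_lt_of_le (Nat.lt_succ_self _) (hsm.trans h1))
      omega
    · intro h
      have := hP.card_dir i
      rw [h, AddSubgroup.card_bot] at this
      exact he.one_lt.ne this
    · intro h
      have := hP.card_dir i
      rw [h, AddSubgroup.card_top, hn] at this
      (first | linarith [he.two_le] | nlinarith [he.two_le])
  · push Not at hl
    obtain ⟨Z, hZA, hZ⟩ := exists_subset_card_eq (hsm.trans hA.1)
    have h1 := hP.rich_sum Z s (fun i _ x => by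
      have h2 := hl i x
      rw [onLine_eq_fib] at h2 ⊢
      exact (fib_mono _ hZA _).trans (by omega))
    by_contra hlt
    have h2 : ∀ i ∈ range (p + 1), 2 * rich (dir p a b i) Z (s + 1) + 1 ≤ p := by
      intro i _
      haveI := Fintype.ofFinite (G ⧸ AddSubgroup.zmultiples (dir p a b i))
      rw [rich_eq_card_lev]
      by_contra h3
      refine hlt (elem_many _ he (hker i) (hQ i) (by omega) hZA ?_)
      obtain ⟨k, hk⟩ := hodd
      omega
    have h3 := sum_le_card_nsmul _ _ _ h2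
    rw [sum_add_distrib, ← mul_sum] at h3
    simp only [sum_const, card_range, smul_eq_mul, mul_one] at h3
    rw [hn, hZ, ← mul_add] at h1
    have h4 := Nat.le_of_mul_le_mul_left h1 (Nat.mul_pos hc.e_pos hc.e_pos)
    generalize ∑ i ∈ range (p + 1), rich (dir p a b i) Z (s + 1) = R at h3 h4
    obtain ⟨t, rfl⟩ : ∃ t, s = t + 1 := ⟨s - 1, by omega⟩
    obtain ⟨u, rfl⟩ : ∃ u, p = 2 * (t + 1) + 3 + u := ⟨p - (2 * (t + 1) + 3), by omega⟩
    have h5 := Nat.mul_le_mul_left (t + 1 + 1) h3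
    nlinarith [Nat.zero_le (t * u), Nat.zero_le (t * t), Nat.zero_le (t * t * u),
      Nat.zero_le (t * u * u)]

/-- The induction hypothesis inside a proper subgroup. -/
private lemma elem_sub (hc : Ctx G e m T) {Q : Type} [AddCommGroup Q] [DecidableEq Q]
    (χ : G →+ Q) (hK : Nat.card χ.ker < Nat.card G) {m' T' : ℕ} (hm : 1 ≤ m') {q : Q}
    (hq : m' ≤ fib χ A q) (hB : Bnd (Nat.card χ.ker) e m' T') :
    T' ≤ ((A - A).filter (fun z => χ z = 0)).card := by
  classical
  obtain ⟨b, hb, rfl⟩ := mem_image.1 ((fib_pos_iff χ A q).1 (by omega))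
  have h1 := hc.ih χ.ker hK e m' T' (univ.filter (fun k : χ.ker => (k : G) + b ∈ A)) hc.e_pos
    (fun x => Subtype.ext (hc.e_smul x)) hm (hq.trans ?_) hB
  · refine h1.trans (card_le_card_of_injOn (fun k => (k : G)) ?_
      (fun x _ y _ h => Subtype.ext h))
    intro k hk
    obtain ⟨x, hx, y, hy, rfl⟩ := mem_sub.1 (mem_coe.1 hk)
    refine mem_coe.2 (mem_filter.2 ⟨mem_sub.2 ⟨_, (mem_filter.1 hx).2, _, (mem_filter.1 hy).2, ?_⟩,
      (x - y).2⟩)
    simp
  · unfold fib
    refine card_le_card_of_surjOn (fun k => (k : G) + b) ?_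
    intro a ha
    have ha' := mem_filter.1 (mem_coe.1 ha)
    refine ⟨⟨a - b, ?_⟩, ?_, ?_⟩
    · rw [AddMonoidHom.mem_ker, map_sub, ha'.2, sub_self]
    · simpa using ha'.1
    · simp

section Dual

variable {p : ℕ} [Fact p.Prime] [Module (ZMod p) G]

private lemma elem_pow : ∃ r, Nat.card G = p ^ r := by
  refine ⟨Module.finrank (ZMod p) G, ?_⟩
  rw [Nat.card_eq_fintype_card, Module.card_eq_pow_finrank (K := ZMod p), ZMod.card]

private lemma elem_surj {χ : G →+ ZMod p} {z : G} (hz : χ z ≠ 0) : Function.Surjective χ := by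
  intro c
  refine ⟨(c / χ z).val • z, ?_⟩
  rw [map_nsmul, nsmul_eq_mul, ZMod.natCast_zmod_val, div_mul_cancel₀ _ hz]

/-- Averaging over all functionals. -/
private lemma elem_avg (S : Finset G) (hS : S.Nonempty) (h0 : (0 : G) ∉ S) :
    ∃ χ : G →+ ZMod p, p * (S.filter (fun z => χ z = 0)).card < S.card := by
  classical
  haveI : Finite (G →+ ZMod p) := DFunLike.finite _
  haveI := Fintype.ofFinite (G →+ ZMod p)
  have hp : p.Prime := Fact.out
  by_contra h
  push Not at h
  have h1 : ∀ z ∈ S, p * (univ.filter (fun χ : G →+ ZMod p => χ z = 0)).card =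
      Fintype.card (G →+ ZMod p) := by
    intro z hz
    have hz0 : z ≠ 0 := fun h => h0 (h ▸ hz)
    obtain ⟨f, hf⟩ : ∃ f : Module.Dual (ZMod p) G, f z ≠ 0 := by
      by_contra hn
      push Not at hn
      exact hz0 ((Module.forall_dual_apply_eq_zero_iff (ZMod p) z).1 hn)
    have hs : Function.Surjective (AddMonoidHom.eval z : (G →+ ZMod p) →+ ZMod p) := by
      intro c
      refine ⟨(c / f z) • f.toAddMonoidHom, ?_⟩
      simp [div_mul_cancel₀ _ hf]
    have h2 := card_eq_ker_mul _ hs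
    have h3 := card_fiber (AddMonoidHom.eval z : (G →+ ZMod p) →+ ZMod p) 0
    rw [← h3, Nat.card_zmod, Nat.card_eq_fintype_card] at h2
    rw [h2, mul_comm]
    simp
  have h2 : ∑ χ : G →+ ZMod p, S.card <
      ∑ χ : G →+ ZMod p, p * (S.filter (fun z => χ z = 0)).card := by
    refine sum_lt_sum (fun χ _ => h χ) ⟨0, mem_univ _, ?_⟩
    have := card_pos.2 hS
    simp only [AddMonoidHom.zero_apply, filter_true]
    (first | linarith [hp.two_le] | nlinarith [hp.two_le])
  have h3 : ∑ χ : G →+ ZMod p, p * (S.filter (fun z => χ z = 0)).card =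
      ∑ z ∈ S, p * (univ.filter (fun χ : G →+ ZMod p => χ z = 0)).card := by
    rw [← mul_sum, ← mul_sum]
    simp only [card_filter]
    rw [sum_comm]
  rw [h3, sum_congr rfl h1] at h2
  simp [mul_comm] at h2

/-- The pencil of hyperplanes through a subspace of codimension two. -/
private lemma elem_pencil (D : Finset G) (χ₁ χ₂ : G →+ ZMod p) :
    (D.filter (fun z => χ₁ z = 0)).card +
      ∑ t : ZMod p, (D.filter (fun z => (χ₂ + t • χ₁) z = 0)).card ≤
      D.card + p * (D.filter (fun z => χ₁ z = 0 ∧ χ₂ z = 0)).card := by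
  simp only [card_filter]
  rw [sum_comm, ← sum_add_distrib, mul_sum, card_eq_sum_ones D, ← sum_add_distrib]
  refine sum_le_sum fun z _ => ?_
  rw [← card_filter]
  by_cases h1 : χ₁ z = 0
  · by_cases h2 : χ₂ z = 0
    · simp [h1, h2]
    · simp [h1, h2]
  · have : (univ.filter (fun t : ZMod p => (χ₂ + t • χ₁) z = 0)).card ≤ 1 := by
      refine card_le_one.2 fun a ha b hb => ?_
      have ha' := (mem_filter.1 ha).2
      have hb' := (mem_filter.1 hb).2
      simp only [AddMonoidHom.add_apply, AddMonoidHom.smul_apply, smul_eq_mul] at ha' hb'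
      refine mul_right_cancel₀ h1 ?_
      linear_combination ha' - hb'
    simp only [h1, if_false, false_and, mul_zero]
    omega

/-- A set with many points in every hyperplane is large. -/
private lemma elem_hyper (D : Finset G) (h0 : (0 : G) ∈ D) {g : ℕ} (hg : 1 ≤ g)
    (hne : ∃ z ∈ D, z ≠ 0)
    (h : ∀ χ : G →+ ZMod p, (∃ z, χ z ≠ 0) → p * g ≤ (D.filter (fun z => χ z = 0)).card) :
    p * (p * g) ≤ D.card := by
  have hp : p.Prime := Fact.out
  by_contra hlt
  push Not at hlt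
  have key : ∀ (P : G → Prop) [DecidablePred P], P 0 →
      (D.filter P).card = ((D.erase 0).filter P).card + 1 := by
    intro P _ hP
    rw [filter_erase, card_erase_add_one (mem_filter.2 ⟨h0, hP⟩)]
  have nz : ∀ (S : Finset G) (χ : G →+ ZMod p),
      p * (S.filter (fun z => χ z = 0)).card < S.card → ∃ z ∈ S, χ z ≠ 0 := by
    intro S χ hχ
    by_contra hn
    push Not at hn
    rw [filter_true_of_mem hn] at hχ
    (first | linarith [hp.two_le] | nlinarith [hp.two_le])
  obtain ⟨χ₁, h₁⟩ := elem_avg (p := p) (D.erase 0)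
    (by obtain ⟨z, hz, hz0⟩ := hne; exact ⟨z, mem_erase.2 ⟨hz0, hz⟩⟩) (notMem_erase _ _)
  obtain ⟨z₁, -, hz₁⟩ := nz _ _ h₁
  have a1 := h χ₁ ⟨z₁, hz₁⟩
  have a2 := key (fun z => χ₁ z = 0) (map_zero _)
  have a3 : ((D.erase 0).filter (fun z => χ₁ z = 0)).card < p * g :=
    Nat.lt_of_mul_lt_mul_left (h₁.trans_le ((card_erase_le).trans hlt.le))
  have a4 : 2 * 1 ≤ p * g := Nat.mul_le_mul hp.two_le hg
  obtain ⟨χ₂, h₂⟩ := elem_avg (p := p) ((D.erase 0).filter (fun z => χ₁ z = 0))
    (card_pos.1 (by omega)) (fun h => notMem_erase _ _ (mem_filter.1 h).1)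
  obtain ⟨z₂, hz₂, hz₂'⟩ := nz _ _ h₂
  have a5 := Nat.lt_of_mul_lt_mul_left (h₂.trans a3)
  rw [filter_filter] at a5
  have a6 := key (fun z => χ₁ z = 0 ∧ χ₂ z = 0) ⟨map_zero _, map_zero _⟩
  have a7 := elem_pencil D χ₁ χ₂
  have a8 : ∀ t ∈ (univ : Finset (ZMod p)),
      p * g ≤ (D.filter (fun z => (χ₂ + t • χ₁) z = 0)).card := by
    intro t _
    refine h _ ⟨z₂, ?_⟩
    simpa [(mem_filter.1 hz₂).2] using hz₂'
  have a9 := card_nsmul_le_sum _ _ _ a8
  rw [card_univ, ZMod.card, smul_eq_mul] at a9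
  have a10 : p * (D.filter (fun z => χ₁ z = 0 ∧ χ₂ z = 0)).card ≤ p * g :=
    Nat.mul_le_mul_left _ (by omega)
  omega

end Dual

private lemma elem_bnd {p k s : ℕ} (hp : p.Prime) (hs : 1 ≤ s) (hps : 2 * s + 1 ≤ p) :
    Bnd (p * p ^ k) p (s * p ^ k + 1) ((2 * s + 1) * p ^ k) := by
  intro d j hd h1 h2
  have hN : 0 < p ^ k := pow_pos hp.pos k
  rw [mul_comm d p, Nat.gcd_mul_left] at h1
  obtain ⟨t, ht⟩ := Nat.gcd_dvd_right d (p ^ k)
  have ht1 : t = 1 := by
    by_contra hne
    have h3 : t ∣ p ^ k := Dvd.intro_left _ ht.symm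
    obtain ⟨i, -, rfl⟩ := (Nat.dvd_prime_pow hp).1 h3
    have h4 : p ≤ p ^ i := Nat.le_self_pow (by rintro rfl; simp at hne) p
    have h5 := Nat.mul_le_mul_left (d.gcd (p ^ k)) h4
    have h6 : 1 * p ^ k ≤ s * p ^ k := Nat.mul_le_mul_right _ hs
    (first | linarith | nlinarith)
  rw [ht1, mul_one] at ht
  obtain ⟨c, rfl⟩ : p ^ k ∣ d := ht ▸ Nat.gcd_dvd_left d (p ^ k)
  rw [mul_comm p] at hd
  generalize p ^ k = N at *
  rcases (Nat.dvd_prime hp).1 (Nat.dvd_of_mul_dvd_mul_left hN hd) with rfl | rfl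
  · have h3 : N * s < N * j := by (first | linarith | nlinarith)
    have h4 := Nat.mul_le_mul_left N (Nat.lt_of_mul_lt_mul_left h3)
    (first | linarith | nlinarith)
  · have h3 : 1 ≤ j := Nat.pos_of_ne_zero (by rintro rfl; simp at h2)
    have h4 := Nat.mul_le_mul_left (N * c) h3
    have h5 := Nat.mul_le_mul_left N hps
    (first | linarith | nlinarith)

/-- Elementary abelian groups of any rank. -/
theorem Ctx.not_bad_prime (hc : Ctx G e m T) (he : e.Prime) : ¬ Bad m T A := by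
  classical
  intro hA
  haveI : Fact e.Prime := ⟨he⟩
  letI : Module (ZMod e) G := AddCommGroup.zmodModule hc.e_smul
  obtain ⟨r, hn⟩ := elem_pow (p := e) (G := G)
  have hem := hc.e_lt hA
  have hmn : m ≤ Nat.card G := hA.1.trans (elem_card_le A)
  have hodd : Odd e := Odd.of_dvd_nat (hc.odd hA) hc.e_dvd
  obtain ⟨a₀, ha₀⟩ : A.Nonempty := card_pos.1 (lt_of_lt_of_le hc.m_pos hA.1)
  have h0 : (0 : G) ∈ A - A := mem_sub.2 ⟨a₀, ha₀, a₀, ha₀, sub_self _⟩
  obtain h | h | h | ⟨k, rfl⟩ : r = 0 ∨ r = 1 ∨ r = 2 ∨ ∃ k, r = k + 3 := by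
    by_cases h : 3 ≤ r
    · exact Or.inr (Or.inr (Or.inr ⟨r - 3, by omega⟩))
    · omega
  · rw [hn, h, pow_zero] at hmn
    have := he.two_le
    omega
  · rw [hn, h, pow_one] at hmn
    omega
  · exact hc.not_bad_plane he (by rw [hn, h, sq]) hA
  have hn' : Nat.card G = e * (e * e ^ (k + 1)) := by rw [hn]; ring
  have hN : 0 < e * e ^ (k + 1) := Nat.mul_pos he.pos (pow_pos he.pos _)
  have hline : ∀ x : G, x ≠ 0 → ∃ z ∈ A - A, z ≠ 0 ∧ ∃ c : ZMod e, c • z = x := by
    intro x hx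
    obtain ⟨a, ha, b, hb, hab, j, hj⟩ := hc.exists_sub_mem hA
      (K := AddSubgroup.zmultiples x) (by simpa using hx)
    have hj' : (j : ZMod e) • x = a - b := by
      rw [Int.cast_smul_eq_zsmul]
      exact hj
    have hj0 : (j : ZMod e) ≠ 0 := by
      intro h
      rw [h, zero_smul] at hj'
      exact hab (sub_eq_zero.1 hj'.symm)
    exact ⟨a - b, sub_mem_sub ha hb, sub_ne_zero.2 hab, (j : ZMod e)⁻¹, by
      rw [← hj', inv_smul_smul₀ hj0]⟩
  have hD : e * e ^ (k + 1) ≤ (A - A).card := by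
    have h1 : (univ : Finset G).card ≤ ((univ : Finset (ZMod e)) ×ˢ (A - A)).card := by
      refine card_le_card_of_surjOn (fun q => q.1 • q.2) ?_
      intro x _
      by_cases hx : x = 0
      · exact ⟨(0, 0), mem_coe.2 (mem_product.2 ⟨mem_univ _, h0⟩), by simp [hx]⟩
      · obtain ⟨z, hz, -, c, hcz⟩ := hline x hx
        exact ⟨(c, z), mem_coe.2 (mem_product.2 ⟨mem_univ _, hz⟩), hcz⟩
    rw [card_product, card_univ, card_univ, ZMod.card, ← Nat.card_eq_fintype_card, hn'] at h1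
    exact Nat.le_of_mul_le_mul_left h1 he.pos
  have hmN : e * e ^ (k + 1) < m := by
    by_contra h
    have := hc.bnd.le_of_dvd Nat.card_pos (Dvd.intro_left _ hn'.symm) (not_lt.1 h)
    have := hA.2
    omega
  obtain ⟨s, hs, hsm, hms⟩ := elem_exists_s hN hmN
  have hps : 2 * s + 3 ≤ e := elem_top hodd hsm (hn' ▸ hc.top hA)
  have hT : T ≤ (2 * s + 1) * (e * e ^ (k + 1)) := by
    have := hc.bnd _ (s + 1) (Dvd.intro_left _ hn'.symm)
      (by rw [mul_comm _ e, ← hn', Nat.gcd_self]; exact hmn) hms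
    (first | linarith | nlinarith)
  have hfin := elem_hyper (p := e) (A - A) h0 (g := (2 * s + 1) * e ^ k)
    (Nat.mul_pos (by omega) (pow_pos he.pos _)) ?_ ?_
  · have h1 : e * (e * ((2 * s + 1) * e ^ k)) = (2 * s + 1) * (e * e ^ (k + 1)) := by ring
    have := hA.2
    omega
  · by_contra hn
    push Not at hn
    have h1 : (A - A).card ≤ 1 := card_le_one.2 fun a ha b hb => by rw [hn a ha, hn b hb]
    have h2 : 2 * 1 ≤ e * e ^ (k + 1) := Nat.mul_le_mul he.two_le (pow_pos he.pos _)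
    omega
  · rintro χ ⟨z, hz⟩
    have h1 := card_eq_ker_mul χ (elem_surj hz)
    rw [Nat.card_zmod, hn', mul_comm e] at h1
    have hK := (Nat.eq_of_mul_eq_mul_right he.pos h1).symm
    obtain ⟨q, -, hq⟩ : ∃ q ∈ (univ : Finset (ZMod e)), s * e ^ (k + 1) < fib χ A q := by
      refine exists_lt_of_sum_lt ?_
      rw [sum_fib, sum_const, card_univ, ZMod.card, smul_eq_mul]
      have := hA.1
      (first | linarith | nlinarith)
    have h2 := elem_sub hc χ (by rw [hK, hn']; (first | linarith [he.two_le] | nlinarith [he.two_le])) (by omega) hq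
      (hK ▸ elem_bnd he hs (by omega))
    refine le_trans (le_of_eq ?_) h2
    ring

end Pool.Agent.P.MP_7ea450_co
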