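import Pool.Agent.P.MP_7ea450_co.CoreA
import Pool.Agent.P.MP_7ea450_co.Chain
import Pool.Agent.P.MP_7ea450_co.ChainSum
import Pool.Agent.P.MP_7ea450_co.Elem

/-!
The lower bound for difference sets in all finite abelian groups.
-/

open Finset
open scoped Pointwise

set_option linter.unusedSectionVars false

namespace Pool.Agent.P.MP_7ea450_co

variable {G : Type} [AddCommGroup G] [Fintype G] [DecidableEq G]
variable {Γ : Type} [AddCommGroup Γ] [Fintype Γ] [DecidableEq Γ]

lemma psi_subset_lev (φ : G →+ Γ) (A : Finset G) (t : ℕ) :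
    psi (A.image φ) (lev φ A t) ⊆ lev φ (A - A) t := by
  have h1 : A.image φ - lev φ A t ⊆ lev φ (A - A) t := by
    intro z hz
    obtain ⟨_, ha, q, hq, rfl⟩ := mem_sub.1 hz
    obtain ⟨a, ha', rfl⟩ := mem_image.1 ha
    rw [mem_lev] at hq ⊢
    refine hq.trans ?_
    unfold fib
    refine card_le_card_of_injOn (fun b => a - b) ?_ (fun x _ y _ h => sub_right_injective h)
    intro b hb
    simp only [coe_filter, Set.mem_setOf_eq] at hb ⊢
    exact ⟨sub_mem_sub ha' hb.1, by rw [map_sub, hb.2]⟩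
  intro z hz
  rcases mem_union.1 hz with h | h
  · exact h1 h
  · obtain ⟨q, hq, x, hx, rfl⟩ := mem_sub.1 h
    have := neg_mem_lev (D := A - A) (fun y hy => by
      obtain ⟨a, ha, b, hb, rfl⟩ := mem_sub.1 hy
      exact mem_sub.2 ⟨b, hb, a, ha, by abel⟩) (h1 (sub_mem_sub hx hq))
    rwa [neg_sub] at this

lemma two_le_onLine {v x x' : G} {Z : Finset G} (hx : x ∈ Z) (hx' : x' ∈ Z) (hne : x ≠ x')
    (hm : x - x' ∈ AddSubgroup.zmultiples v) : 2 ≤ onLine v Z x' := by
  unfold onLine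
  rw [← Set.ncard_pair hne]
  refine Set.ncard_le_ncard ?_ (Set.toFinite _)
  rintro y (rfl | rfl)
  · exact ⟨hx, hm⟩
  · exact ⟨hx', by simp⟩

theorem Ctx.not_bad_of_not_prime {e m T : ℕ} (hc : Ctx G e m T) (he : ¬ e.Prime)
    {A₀ : Finset G} : ¬ Bad m T A₀ := by
  intro hA₀
  obtain ⟨Γ, _, _, _, φ, A, h, hφ, hA, hker, hne, hF, hpair, hn1, hn2, hmax⟩ :=
    hc.exists_chain he hA₀
  obtain ⟨w, rfl⟩ : ∃ w, T = 2 * m + w := ⟨T - 2 * m, by have := hc.two_mul_le hA; omega⟩
  have hodd := hc.odd hA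
  have hn : Nat.card G = h * Nat.card Γ := hker ▸ card_eq_ker_mul φ hφ
  have hh : 0 < h := hker ▸ Nat.card_pos
  have hΓodd : Odd (Nat.card Γ) := Odd.of_dvd_nat hodd ⟨h, by rw [hn, mul_comm]⟩
  set X := A.image φ with hX
  set c := X.card with hcdef
  set x : ℕ → ℕ := fun t => (lev φ A t).card with hx
  set ψ : ℕ → ℕ := fun t => (psi X (lev φ A t)).card with hψ
  have hsubX : ∀ t, 1 ≤ t → lev φ A t ⊆ X := fun t ht => by
    rw [hX, ← lev_one]; exact lev_anti φ A ht
  have hne' : ∀ t, t ≤ h → (lev φ A t).Nonempty := fun t ht => hF.mono (lev_anti φ A ht)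
  have hXne : X.Nonempty := hF.mono (hsubX h hh)
  have hD : ∑ t ∈ Ioc 0 h, ψ t < 2 * m + w :=
    lt_of_le_of_lt ((sum_le_sum fun t _ => card_le_card (psi_subset_lev φ A t)).trans
      (sum_card_lev_le φ (A - A) h)) hA.2
  have hxb : ∀ t, 1 ≤ t → t ≤ h → x h ≤ x t ∧ x t ≤ c := fun t h1 h2 =>
    ⟨card_le_card (lev_anti φ A h2), card_le_card (hsubX t h1)⟩
  have hsum : m ≤ ∑ t ∈ Ioc 0 h, x t := by
    rw [sum_card_lev_eq φ A h (fun q => hker ▸ fib_le_ker φ A q)]
    exact hA.1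
  have hroom : 2 * m + 3 * w + 4 ≤ h * Nat.card Γ := by
    have := hc.room hA
    omega
  have hcf : 2 * m ≤ h * (c + x h) := by
    have h1 : ∑ t ∈ Ioc 0 h, x (h + 1 - t) = ∑ t ∈ Ioc 0 h, x t := by
      refine sum_bij' (fun i _ => h + 1 - i) (fun j _ => h + 1 - j) ?_ ?_ ?_ ?_ ?_ <;>
        simp only [mem_Ioc] <;> intros <;> first | omega | rfl | trivial
    have h2 := sum_le_card_nsmul (Ioc 0 h) (fun t => x t + x (h + 1 - t)) (c + x h)
      fun t ht => hpair t (mem_Ioc.1 ht).1 (mem_Ioc.1 ht).2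
    rw [sum_add_distrib, h1] at h2
    simp only [Nat.card_Ioc, Nat.sub_zero, smul_eq_mul] at h2
    omega
  have hmax' : ∀ K : AddSubgroup Γ, K ≠ ⊥ → K ≠ ⊤ →
      4 * m ≤ 3 * (h * ((cov K X - 1) * Nat.card K)) ∨
        m + 2 * w ≤ h * ((cov K X - 1) * Nat.card K) := fun K h1 h2 =>
    (hmax K h1 h2).imp id (fun h => by omega)
  have hc0 : 0 < c := card_pos.2 hXne
  have hbasic : ∀ t, 1 ≤ t → t ≤ h → Nat.card Γ ≤ ψ t ∨ x t + c ≤ ψ t + 1 := by
    intro t _ h2
    have h3 : (X - lev φ A t).card ≤ ψ t := card_le_card (sub_subset_psi _ _)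
    rcases row_bound X (lev φ A t) hXne (hne' t h2) (c - 1) (fun S hS => by
      by_cases h0 : S = ⊥
      · rw [h0, cov_bot, AddSubgroup.card_bot, mul_one]
      · obtain ⟨c', hc'⟩ : ∃ c', c = c' + 1 := ⟨c - 1, by omega⟩
        rw [hc'] at hn1 hn2 ⊢
        refine Nat.le_of_mul_le_mul_left ?_ hh
        rw [Nat.add_sub_cancel]
        rcases hmax' S h0 hS with h4 | h4 <;> (first | linarith | nlinarith)) with h4 | h4
    · right
      simp only [hx]
      omega
    · left
      rw [h4] at h3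
      rwa [Nat.card_eq_fintype_card]
  have hψh : ∀ t, t ≤ h → ψ h ≤ ψ t := fun t ht =>
    card_le_card (psi_mono Subset.rfl (lev_anti φ A ht))
  have hall : ¬ 2 * m + w ≤ h * ψ h := by
    intro h1
    have h2 := card_nsmul_le_sum (Ioc 0 h) ψ (ψ h) fun t ht => hψh t (mem_Ioc.1 ht).2
    simp only [Nat.card_Ioc, Nat.sub_zero, smul_eq_mul] at h2
    exact absurd (h1.trans h2) (not_le.2 hD)
  by_cases hfar : m + w + h ≤ h * c
  · exact absurd (chain_far h (Nat.card Γ) c (x h) m w x ψ hΓodd hxb hpair hsum hroom hfar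
      (by omega) hbasic) (by omega)
  push Not at hfar
  set k := AddMonoid.exponent Γ with hk
  have hk0 : 0 < k := AddMonoid.ExponentExists.exponent_pos (AddMonoid.ExponentExists.of_finite)
  have hkx : ∀ z : Γ, k • z = 0 := AddMonoid.exponent_nsmul_eq_zero
  have hke : k ∣ e := AddMonoid.exponent_dvd_of_forall_nsmul_eq_zero fun z => by
    obtain ⟨y, rfl⟩ := hφ z
    rw [← map_nsmul, hc.e_smul, map_zero]
  have hkΓ : k ∣ Nat.card Γ := AddGroup.exponent_dvd_nat_card
  have hnpos : 0 < Nat.card G := Nat.card_pos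
  by_cases hsmall : m ≤ h * k
  · apply hall
    have h1 := Nat.div_add_mod (m + h - 1) h
    have h2 := Nat.mod_lt (m + h - 1) hh
    set j := (m + h - 1) / h with hj
    have h3 := hc.bnd h j ⟨_, hn⟩
      (allowed_of_dvd hnpos hke (hn ▸ Nat.mul_dvd_mul_left h hkΓ) hsmall) (by omega)
    have h4 : 2 * j < c + x h + 2 := by
      refine Nat.lt_of_mul_lt_mul_left (a := h) ?_
      have h0 := hc.m_pos
      have : h * j + 1 ≤ m + h := by omega
      (first | linarith | nlinarith)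
    have h5 : Odd (ψ h) := by
      obtain ⟨q, hq⟩ := hF
      exact odd_card_of_symm hΓodd _ (sub_subset_psi _ _
        (mem_sub.2 ⟨q, hsubX h hh hq, q, hq, sub_self q⟩)) (fun z hz => neg_mem_psi hz)
    rcases hbasic h hh le_rfl with h6 | h6
    · have := Nat.mul_le_mul_left h h6
      omega
    · have h7 : 2 * j ≤ ψ h + 1 := by
        obtain ⟨i, hi⟩ := h5
        omega
      have := Nat.mul_le_mul_left h h7
      (first | linarith | nlinarith)
  push Not at hsmall
  have hxh := (hxb h hh le_rfl).2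
  have hmc : m ≤ h * c := by linarith [Nat.mul_le_mul_left h hxh]
  have hkc : k < c := Nat.lt_of_mul_lt_mul_left (hsmall.trans_le hmc)
  obtain ⟨G₁, _, _, _, ρ, p, a, b, hρ, hinj, hab, ⟨y, hy, y', hy', hyy, i, j, hij⟩, hmode⟩ :=
    exists_frame hΓodd X hk0 hkx hkc
  obtain ⟨N', hN'⟩ := hab.sq_dvd
  set N := p * N' with hN
  have hG₁ : Nat.card G₁ = p * N := by rw [hN', hN, mul_assoc]
  set r := Nat.card ρ.ker with hr
  have hΓ : Nat.card Γ = r * (p * N) := hG₁ ▸ card_eq_ker_mul ρ hρ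
  have hprimes : ∀ q, q.Prime → q ∣ Nat.card G → q ∣ e := fun q hq hd =>
    prime_dvd_of_smul hc.e_smul hq hd
  have hpn : p ∣ Nat.card G := ⟨h * r * N, by rw [hn, hΓ]; ring⟩
  have hcG₁ : c ≤ p * N := by
    rw [← hG₁, hcdef, ← card_image_of_injOn hinj, Nat.card_eq_fintype_card]
    exact card_le_univ _
  have hr1 : ρ.ker = ⊥ → r = 1 := fun h0 => by rw [hr, h0, AddSubgroup.card_bot]
  have H : Ar (Nat.card G) e m w h r p N :=
    { bnd := hc.bnd
      n_odd := hodd
      e_dvd := hc.e_dvd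
      primes := hprimes
      e_np := he
      n_eq := by rw [hn, hΓ, mul_assoc]
      p_prime := hab.prime
      p_dvd := Dvd.intro _ rfl
      m_le := hmc.trans (Nat.mul_le_mul_left h hcG₁)
      mode := hmode.imp hr1 fun ⟨_, ⟨z, hz, hpz⟩, h3⟩ =>
        hc.sq_dvd hA φ hφ hab.prime (hprimes p hab.prime hpn) hz hpz h3
      ex9 := fun h1 h2 => by
        have := hc.excess' hA he h1 h2
        omega }
  have hN0 : 0 < h * N := by
    have : 0 < Nat.card G₁ := Nat.card_pos
    rw [hG₁] at this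
    exact Nat.mul_pos hh (Nat.pos_of_mul_pos_left this)
  have hm1 := hc.m_pos
  have h1 := Nat.div_add_mod (m - 1) (h * N)
  have h2 := Nat.mod_lt (m - 1) hN0
  set s := (m - 1) / (h * N) with hsdef
  have hs : s * (h * N) < m := by rw [mul_comm]; omega
  have hs' : m ≤ h * N * (s + 1) := by rw [mul_add, mul_one]; omega
  have hk3 : 3 ≤ k := by
    have hp3 := H.p_ge
    refine hp3.trans (Nat.le_of_dvd hk0 (prime_dvd_of_smul hkx hab.prime ?_))
    exact ⟨r * N, by rw [hΓ]; ring⟩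
  by_cases hα : ∃ l, l ≤ p ∧ ∃ z, s + 2 ≤ onLine (dir p a b l) (X.image ρ) z
  · obtain ⟨l, -, z, hz⟩ := hα
    refine absurd (chain_near h (Nat.card Γ) c (x h) m w x ψ hxb hpair hsum hroom hfar
      fun t ht1 ht2 => ?_) (by omega)
    refine core_alpha hc hA φ hφ hh hmax' H hΓ ρ hρ hinj hG₁ (hmode.imp hr1 fun h3 => h3.2.2)
      (hab.card_dir l) hz hs hs' (by linarith [Nat.mul_le_mul_left h hk3]) hfar (hsubX t ht1) ?_
    exact hcf.trans (Nat.mul_le_mul_left h (Nat.add_le_add_left (hxb t ht1 ht2).1 c))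
  push Not at hα
  have hs1 : 1 ≤ s := by
    obtain ⟨l, hl, hm⟩ := hab.exists_dir i j
    have h3 := hα l hl (ρ y')
    have h4 := two_le_onLine (mem_image_of_mem ρ hy) (mem_image_of_mem ρ hy')
      (fun h5 => hyy (hinj hy hy' h5)) (hij ▸ hm)
    omega
  refine hall (core_beta hh H ρ hinj hG₁ hab (hsubX h hh) hs1
    (fun l hl z => Nat.le_of_lt_succ (hα l hl z)) hs hs' ?_ hcf)
  rcases hmode with h0 | ⟨h3, -, -⟩
  · rw [hΓ, hr1 h0, one_mul] at hroom
    omega
  · have h4 := hc.excess hA he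
    have h5 := Nat.mul_le_mul_left h (h3.trans hG₁.le)
    (first | linarith | nlinarith)

/-- The lower bound for difference sets holds in every finite abelian group. -/
theorem mprop_all (G : Type) [AddCommGroup G] [Fintype G] [DecidableEq G] : MProp G := by
  suffices h : ∀ n, IHyp n from h (Nat.card G + 1) G (Nat.lt_succ_self _)
  intro n
  induction n with
  | zero => intro G _ _ _ h; omega
  | succ n ih =>
    intro G _ _ _ hG e m T A he hex hm hA hB
    rcases (Nat.lt_succ_iff.1 hG).lt_or_eq with h | h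
    · exact ih G h e m T A he hex hm hA hB
    have hn0 : 0 < Nat.card G := Nat.card_pos
    have hc : Ctx G (Nat.gcd e (Nat.card G)) m T :=
      { ih := h ▸ ih
        e_pos := Nat.gcd_pos_of_pos_left _ he
        e_smul := fun x => addOrderOf_dvd_iff_nsmul_eq_zero.1
          (Nat.dvd_gcd (addOrderOf_dvd_of_nsmul_eq_zero (hex x)) (addOrderOf_dvd_natCard x))
        e_dvd := Nat.gcd_dvd_right _ _
        m_pos := hm
        bnd := hB.of_dvd hn0 dvd_rfl (Nat.gcd_dvd_left _ _) }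
    by_contra hlt
    have hbad : Bad m T A := ⟨hA, by omega⟩
    by_cases hp : (Nat.gcd e (Nat.card G)).Prime
    · exact hc.not_bad_prime hp hbad
    · exact hc.not_bad_of_not_prime hp hbad

end Pool.Agent.P.MP_7ea450_co
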