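import Pool.Agent.P.MP_7ea450_co.Prof

/-!
The dense cases of the profile lemma in which the first level `u` that is not full lies beyond the
last level of `τ`, or is the last level.
-/

open Finset

namespace Pool.Agent.P.MP_7ea450_co

variable {P s : ℕ} {N κ M g c y : ℚ} {π τ ν : ℕ → ℚ}

private lemma da_le_mul (f : ℕ → ℚ) (a b k : ℕ) (C : ℚ) (hb : b = a + k)
    (h : ∀ i, a < i → i ≤ b → f i ≤ C) : ∑ i ∈ Ioc a b, f i ≤ k * C := by
  subst hb
  exact sum_le_mul f a k C h

private lemma da_mul_le (f : ℕ → ℚ) (a b k : ℕ) (C : ℚ) (hb : b = a + k)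
    (h : ∀ i, a < i → i ≤ b → C ≤ f i) : k * C ≤ ∑ i ∈ Ioc a b, f i := by
  subst hb
  exact mul_le_sum f a k C h

private lemma da_shift (f g : ℕ → ℚ) (a a' b b' k : ℕ) (ha : a' = a + k) (hb : b' = b + k)
    (h : ∀ j, 1 ≤ j → j ≤ k → f (a + j) ≤ g (b + j)) :
    ∑ i ∈ Ioc a a', f i ≤ ∑ i ∈ Ioc b b', g i := by
  subst ha hb
  have := sum_le_shift f g a b k 0 (fun j h1 h2 => by simpa using h j h1 h2)
  simpa using this

private lemma da_reflect (f g : ℕ → ℚ) (a a' b b' k : ℕ) (C : ℚ) (ha : a' = a + k)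
    (hb : b' = b + k)
    (h : ∀ i t, a < i → i ≤ a' → b < t → t ≤ b' → i + t = a + b + k + 1 → f i + g t ≤ C) :
    ∑ i ∈ Ioc a a', f i + ∑ i ∈ Ioc b b', g i ≤ k * C := by
  subst ha hb
  exact sum_add_le_reflect f g a b k C h

private lemma da_one (f : ℕ → ℚ) (a b : ℕ) (hb : b = a + 1) : ∑ i ∈ Ioc a b, f i = f b := by
  subst hb
  exact sum_one f a

/-- The bound used when only the last level is not full. -/
private lemma da_last (H : Prof P s N κ M g c y π τ ν) (hfull : ∀ i, 1 ≤ i → i < P → ν i = N)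
    (hE : 2 * (c + y) + 3 * (N - ν P) ≤ 2 * (P * N)) : ProfConcl P N M g y ν := by
  right
  obtain ⟨k, hk⟩ : ∃ k, P = k + 1 := ⟨P - 1, by have := H.P_ge; omega⟩
  have h1 : y ≤ c := by
    rw [H.y_eq, H.c_eq]
    exact sum_le_sum fun i _ => H.τ_le i
  have h2 := da_mul_le ν 0 k k N (by omega) (fun i h1 h2 => (hfull i h1 (by omega)).ge)
  have h3 := sum_split ν (Nat.zero_le k) (show k ≤ P by omega)
  rw [da_one ν k P hk] at h3
  have h4 : (P : ℚ) = k + 1 := by exact_mod_cast hk
  have h5 := H.room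
  have h6 := H.cy
  rw [h4] at h5 hE
  linarith

/-- The first level that is not full lies beyond the support of `τ`. -/
theorem prof_beyond (H : Prof P s N κ M g c y π τ ν) (hs : 1 ≤ s) {u : ℕ} (hu2 : 2 ≤ u)
    (huP : u ≤ P) (hu : ν u < N) (hfull : ∀ i, 1 ≤ i → i < u → ν i = N) (hβ : τ u = 0) :
    ProfConcl P N M g y ν := by
  have hN := H.N_ge
  have hg := H.g_nonneg
  have F1 : 3 * (M + g) ≤ 3 * (s * N) + 2 * N := by linarith [H.T_le, H.g_N]
  have F2 : 2 * (M + g) ≤ P * N := by linarith [H.room]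
  have F3 : M + g < y + N := by linarith [H.cy, H.c_lt, H.g_N]
  have F4 : 2 * (s * N) < c + y := by linarith [H.cy, H.s_lt]
  have hπ0 : ∀ i, 0 ≤ π i := fun i => (H.τ_nonneg i).trans (H.τ_le i)
  have hz : ∀ i, u ≤ i → τ i = 0 := fun i hi =>
    le_antisymm (hβ ▸ H.τ_anti u i (by omega) hi) (H.τ_nonneg i)
  have hsat : ∀ i t, 1 ≤ i → 1 ≤ t → i + t = u + 1 → π i + τ t ≤ N := by
    intro i t h1 h2 h3
    by_contra h4
    exact hu.ne (H.sat i t u h1 h2 h3 huP (not_le.1 h4))
  have hsat' : ∀ i t, 1 ≤ i → 1 ≤ t → i + t = u + 1 → τ i + τ t ≤ N := fun i t h1 h2 h3 => by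
    linarith [hsat i t h1 h2 h3, H.τ_le i]
  have htriv : ∀ i t v, 1 ≤ i → 1 ≤ t → i + t = v + 1 → v ≤ P → 0 < π i → τ t ≤ ν v := by
    intro i t v h1 h2 h3 h4 h5
    rcases (H.τ_nonneg t).eq_or_lt with h6 | h6
    · rw [← h6]
      exact H.ν_nonneg v
    · exact (H.triv i t v h1 h2 h3 h4 h5 h6).2
  have hy : y = ∑ i ∈ Ioc 0 u, τ i := by
    rw [H.y_eq]
    exact sum_trunc τ (Nat.zero_le u) huP (fun i hi => hz i hi.le)
  have hy1 : 2 * y ≤ u * N := by
    have := da_reflect τ τ 0 u 0 u u N (by omega) (by omega)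
      (fun i t h1 _ h2 _ h3 => hsat' i t h1 h2 (by omega))
    linarith
  have hus : 2 * s ≤ u := by
    have h1 : (2 * (s : ℚ) - 1) * N < u * N := by linarith [H.y_gt]
    have h2 : (2 * (s : ℚ) - 1) < u := lt_of_mul_lt_mul_right h1 (by linarith)
    have h3 : (2 * s : ℚ) < u + 1 := by linarith
    have h4 : 2 * s < u + 1 := by exact_mod_cast h3
    omega
  obtain ⟨v, hv⟩ : ∃ v, u = v + 1 := ⟨u - 1, by omega⟩
  have hvq : (u : ℚ) = v + 1 := by exact_mod_cast hv
  have hhead : v * N ≤ ∑ i ∈ Ioc 0 v, ν i :=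
    da_mul_le ν 0 v v N (by omega) (fun i h1 h2 => (hfull i h1 (by omega)).ge)
  have hsplit := sum_split ν (Nat.zero_le v) (show v ≤ P by omega)
  rcases hus.eq_or_lt with hus | hus
  · -- the case `u = 2 s`
    right
    have hq : (2 * s : ℚ) = v + 1 := by exact_mod_cast (hus.trans hv)
    have hπ : 0 < π (u + 1) := by
      rcases (hπ0 (u + 1)).eq_or_lt with h1 | h1
      · exfalso
        have hc : c = ∑ i ∈ Ioc 0 u, π i := by
          rw [H.c_eq]
          exact sum_trunc π (Nat.zero_le u) huP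
            (fun i hi => le_antisymm (h1 ▸ H.π_anti (u + 1) i (by omega) hi) (hπ0 i))
        have := da_reflect π τ 0 u 0 u u N (by omega) (by omega)
          (fun i t h1 _ h2 _ h3 => hsat i t h1 h2 (by omega))
        rw [hvq, ← hq] at this
        linarith
      · exact h1
    have huP' : u + 1 ≤ P := by
      by_contra h1
      exact hπ.ne' (H.π_zero _ (by omega))
    have h1 := htriv (u + 1) 1 (u + 1) (by omega) le_rfl rfl huP' hπ
    have h2 := H.ν_anti u (u + 1) (by omega) (by omega)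
    have h3 := sum_split ν (show v ≤ u by omega) huP
    have h4 := sum_split ν (show u ≤ u + 1 by omega) huP'
    rw [da_one ν v u hv] at h3
    rw [da_one ν u (u + 1) rfl] at h4
    have h5 := sum_nonneg' ν (u + 1) P H.ν_nonneg
    obtain ⟨w, hw⟩ : ∃ w, v = w + 1 := ⟨v - 1, by omega⟩
    have hwq : (v : ℚ) = w + 1 := by exact_mod_cast hw
    have h6 := sum_split τ (show 0 ≤ 1 by omega) (show 1 ≤ u by omega)
    have h7 := sum_split τ (show 1 ≤ v by omega) (show v ≤ u by omega)
    rw [da_one τ 0 1 rfl] at h6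
    rw [da_one τ v u hv] at h7
    have h8 := da_reflect τ τ 1 v 1 v w N (by omega) (by omega)
      (fun i t h1 _ h2 _ h3 => hsat' i t h1.le h2.le (by omega))
    rw [hwq] at hhead
    linarith
  by_cases hbig : 2 * s + 4 ≤ u
  · right
    have hq : (2 * s + 3 : ℚ) ≤ v := by exact_mod_cast (show 2 * s + 3 ≤ v by omega)
    have h1 := mul_le_mul_of_nonneg_right hq (show 0 ≤ N by linarith)
    have h5 := sum_nonneg' ν v P H.ν_nonneg
    rw [hvq] at hy1
    linarith
  by_cases hP : 2 * s + 3 ≤ P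
  · right
    obtain ⟨a, ha⟩ : ∃ a, u = s + 2 + a := ⟨u - (s + 2), by omega⟩
    obtain ⟨k, hk⟩ : ∃ k, s + 2 = a + k := ⟨s + 2 - a, by omega⟩
    have h1 := sum_split τ (Nat.zero_le a) (show a ≤ u by omega)
    have h2 := sum_split τ (show a ≤ s + 2 by omega) (show s + 2 ≤ u by omega)
    have h3 := da_reflect τ τ 0 a (s + 2) u a N (by omega) (by omega)
      (fun i t h1 _ h2 _ h3 => hsat' i t h1 (by omega) (by omega))
    have h4 := da_shift τ ν a (s + 2) v (2 * s + 3) k hk (by omega)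
      (fun j h1 h2 => htriv (s + 2) (a + j) (v + j) (by omega) (by omega) (by omega) (by omega)
        H.α_ge)
    have h5 := sum_split ν (show v ≤ 2 * s + 3 by omega) hP
    have h6 := sum_nonneg' ν (2 * s + 3) P H.ν_nonneg
    have hq : (v : ℚ) = s + 1 + a := by exact_mod_cast (show v = s + 1 + a by omega)
    rw [hq] at hhead
    linarith
  have hPs : P = 2 * s + 1 := by
    obtain ⟨k, hk⟩ := H.P_odd
    omega
  have huP' : u = P := by omega
  obtain ⟨b, hb1, hb2, hb3⟩ := exists_last_pos τ P H.τ_anti H.τ_nonneg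
    (fun i hi => hz i (by omega))
  have hbu : b < u := by
    by_contra h1
    exact (hb2 u (by omega) (by omega)).ne' hβ
  by_cases hbs : b ≤ s
  · right
    have h1 : y = ∑ i ∈ Ioc 0 s, τ i := by
      rw [H.y_eq]
      exact sum_trunc τ (Nat.zero_le s) (by omega) (fun i hi => hb3 i (by omega))
    have h2 := da_mul_le ν 0 (s + 1) (s + 1) N (by omega)
      (fun i h1 h2 => (hfull i h1 (by omega)).ge)
    have h3 := sum_split ν (Nat.zero_le (s + 1)) (show s + 1 ≤ P by omega)
    have h4 := da_shift τ ν 0 s (s + 1) P s (by omega) (by omega)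
      (fun j h1 h2 => htriv (s + 2) (0 + j) (s + 1 + j) (by omega) (by omega) (by omega) (by omega)
        H.α_ge)
    push_cast at h2
    linarith
  obtain ⟨k, hk⟩ : ∃ k, b = s + 1 + k := ⟨b - (s + 1), by omega⟩
  obtain ⟨a, ha⟩ : ∃ a, s = a + 1 + k := ⟨s - (1 + k), by omega⟩
  have hyb : y = ∑ i ∈ Ioc 0 b, τ i := by
    rw [H.y_eq]
    exact sum_trunc τ (Nat.zero_le b) hb1 hb3
  have hPq : (P : ℚ) = 2 * a + 2 * k + 3 := by
    exact_mod_cast (show P = 2 * a + 2 * k + 3 by omega)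
  have hτN : ∀ i, τ i ≤ N := fun i => (H.τ_le i).trans (H.π_le i)
  rcases (hπ0 (b + 1)).eq_or_lt with hπ | hπ
  · have hz' : ∀ i, b < i → π i = 0 := fun i hi =>
      le_antisymm (hπ ▸ H.π_anti (b + 1) i (by omega) hi) (hπ0 i)
    have hk1 : 1 ≤ k := by
      by_contra h1
      exact H.α_ge.ne' (hz' _ (by omega))
    have hcb : c = ∑ i ∈ Ioc 0 b, π i := by
      rw [H.c_eq]
      exact sum_trunc π (Nat.zero_le b) hb1 hz'
    refine da_last H (fun i h1 h2 => hfull i h1 (by omega)) ?_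
    have h1 := sum_split π (Nat.zero_le (a + 1)) (show a + 1 ≤ b by omega)
    have h2 := sum_split τ (Nat.zero_le (a + 1)) (show a + 1 ≤ b by omega)
    have h3 := da_le_mul π 0 (a + 1) (a + 1) N (by omega) (fun i _ _ => H.π_le i)
    have h4 := da_le_mul τ 0 (a + 1) (a + 1) N (by omega) (fun i _ _ => hτN i)
    have h5 := da_reflect π τ (a + 1) b (a + 1) b (2 * k + 1) ((ν P + N) / 2) (by omega) (by omega)
      (fun i t h1 h2 h3 h4 h5 => by
        have := (H.sym i t P (by omega) (by omega) (by omega) le_rfl (hb2 i (by omega) h2)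
          (hb2 t (by omega) h4)).resolve_right (huP' ▸ hu.ne)
        linarith)
    have h6 : (1 : ℚ) ≤ k := by exact_mod_cast hk1
    have h7 := mul_le_mul_of_nonneg_right h6 (show 0 ≤ N - ν P by linarith [H.ν_le P])
    push_cast at h3 h4 h5
    rw [hPq]
    linarith
  · right
    have h1 := htriv (b + 1) (a + 1) P (by omega) (by omega) (by omega) le_rfl hπ
    have h2 := sum_split τ (Nat.zero_le a) (show a ≤ b by omega)
    have h3 := sum_split τ (show a ≤ a + 1 by omega) (show a + 1 ≤ b by omega)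
    rw [da_one τ a (a + 1) rfl] at h3
    have h4 := da_le_mul τ 0 a a N (by omega) (fun i _ _ => hτN i)
    have h5 := da_reflect τ τ (a + 1) b (a + 1) b (2 * k + 1) N (by omega) (by omega)
      (fun i t h1 _ h2 _ h3 => hsat' i t (by omega) (by omega) (by omega))
    rw [da_one ν v P (by omega)] at hsplit
    have hq : (v : ℚ) = 2 * a + 2 * k + 2 := by
      exact_mod_cast (show v = 2 * a + 2 * k + 2 by omega)
    push_cast at h5
    rw [hq] at hhead
    rw [hPq] at F2
    linarith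

/-- Only the last level is not full, and `τ` has full support. -/
theorem prof_last (H : Prof P s N κ M g c y π τ ν) (hu : ν P < N)
    (hfull : ∀ i, 1 ≤ i → i < P → ν i = N) (hβ : 0 < τ P) : ProfConcl P N M g y ν := by
  refine da_last H hfull ?_
  have hpos : ∀ i, 1 ≤ i → i ≤ P → 0 < τ i := fun i h1 h2 => hβ.trans_le (H.τ_anti i P h1 h2)
  have h5 := da_reflect π τ 0 P 0 P P ((ν P + N) / 2) (by omega) (by omega)
    (fun i t h1 h2 h3 h4 h5 => by
      have := (H.sym i t P h1 h3 (by omega) le_rfl (hpos i h1 h2) (hpos t h3 h4)).resolve_right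
        hu.ne
      linarith)
  have h6 : (3 : ℚ) ≤ P := by exact_mod_cast H.P_ge
  have h7 := mul_le_mul_of_nonneg_right h6 (show 0 ≤ N - ν P by linarith)
  rw [← H.c_eq, ← H.y_eq] at h5
  linarith

end Pool.Agent.P.MP_7ea450_co
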