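import Pool.Agent.P.MP_7ea450_co.Prof

/-!
The dense cases of the profile lemma in which the first level `u` that is not full lies in the
support of `τ` and below `P`, first part.
-/

open Finset

namespace Pool.Agent.P.MP_7ea450_co

variable {P s : ℕ} {N κ M g c y : ℚ} {π τ ν : ℕ → ℚ}

/-- Split off the first and the last term of an initial block. -/
lemma db_split (f : ℕ → ℚ) (a : ℕ) :
    ∑ i ∈ Ioc 0 (a + 2), f i = f 1 + ∑ i ∈ Ioc 1 (1 + a), f i + f (a + 2) := by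
  rw [sum_Ioc_succ_top (by omega), sum_split f (a := 0) (b := 1) (c := a + 1) (by omega) (by omega),
    sum_one f 0, add_comm 1 a]

/-- The facts on the head block shared by both cases. -/
lemma db_head (H : Prof P s N κ M g c y π τ ν) {a : ℕ} (huP : a + 2 < P) (hu : ν (a + 2) < N)
    (hfull : ∀ i, 1 ≤ i → i < a + 2 → ν i = N) (hβ : 0 < τ (a + 2)) :
    ∑ i ∈ Ioc 0 (a + 2), ν i = a * N + N + ν (a + 2) ∧
    2 * (π 1 + τ (a + 2)) ≤ ν (a + 2) + N ∧ 2 * (π (a + 2) + τ 1) ≤ ν (a + 2) + N ∧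
    π 1 ≤ ν (a + 2) ∧ τ (a + 2) + κ ≤ ν (a + 2) ∧
    2 * (∑ i ∈ Ioc 1 (1 + a), π i + ∑ i ∈ Ioc 1 (1 + a), τ i) ≤ a * ν (a + 2) + a * N ∧
    ∑ i ∈ Ioc 1 (1 + a), τ i ≤ ∑ i ∈ Ioc 1 (1 + a), π i := by
  have hpos : ∀ t, 1 ≤ t → t ≤ a + 2 → 0 < τ t := fun t h1 h2 =>
    lt_of_lt_of_le hβ (H.τ_anti t (a + 2) h1 h2)
  have hsym : ∀ i t, 1 ≤ i → 1 ≤ t → i + t = a + 2 + 1 → 2 * (π i + τ t) ≤ ν (a + 2) + N :=
    fun i t h1 h2 h3 => (H.sym i t (a + 2) h1 h2 h3 huP.le (hpos i h1 (by omega))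
      (hpos t h2 (by omega))).resolve_right hu.ne
  refine ⟨?_, hsym 1 (a + 2) (by omega) (by omega) (by omega),
    hsym (a + 2) 1 (by omega) (by omega) (by omega), ?_,
    (H.row (a + 2) (by omega) huP.le hβ).resolve_right hu.ne, ?_,
    sum_le_sum fun i _ => H.τ_le i⟩
  · rw [sum_Ioc_succ_top (by omega), sum_congr rfl (g := fun _ => N)
      (fun i hi => hfull i (mem_Ioc.1 hi).1 (by have := (mem_Ioc.1 hi).2; omega))]
    simp
    ring
  · exact (H.triv 1 (a + 2) (a + 2) (by omega) (by omega) (by omega) huP.le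
      (lt_of_lt_of_le (hpos 1 (by omega) (by omega)) (H.τ_le 1)) hβ).1
  · have := sum_add_le_reflect π τ 1 1 a ((ν (a + 2) + N) / 2) fun i t h1 h2 h3 h4 h5 => by
      have := hsym i t (by omega) (by omega) (by omega)
      linarith
    linarith

/-- All levels after `u` gain `κ`. -/
theorem prof_capA (H : Prof P s N κ M g c y π τ ν) (hP : 5 ≤ P) (hd : N < τ 1 + κ)
    (hπ : N < 2 * π 1) {u : ℕ} (hu2 : 2 ≤ u) (huP : u < P) (hu : ν u < N)
    (hfull : ∀ i, 1 ≤ i → i < u → ν i = N) (hβ : 0 < τ u) (hA : κ ≤ ν P ∨ 0 < τ P) :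
    ProfConcl P N M g y ν := by
  obtain ⟨a, rfl⟩ : ∃ a, u = a + 2 := ⟨u - 2, by omega⟩
  obtain ⟨h1, h2, h3, h4, h5, h6, h7⟩ := db_head H huP hu hfull hβ
  obtain ⟨b, hb⟩ : ∃ b, P = a + 2 + (b + 1) := ⟨P - a - 3, by omega⟩
  have hc := H.c_eq
  have hy := H.y_eq
  rw [sum_split π (b := a + 2) (by omega) huP.le, db_split] at hc
  rw [sum_split τ (b := a + 2) (by omega) huP.le, db_split] at hy
  have hν := sum_split ν (a := 0) (b := a + 2) (by omega) huP.le
  rw [h1] at hν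
  have hgain : ∑ i ∈ Ioc (a + 2) P, τ i + ((b + 1 : ℕ) : ℚ) * κ ≤ ∑ i ∈ Ioc (a + 2) P, ν i := by
    have := sum_le_shift τ ν (a + 2) (a + 2) (b + 1) κ fun j j1 j2 => by
      have hne : ν (a + 2 + j) ≠ N := by
        have := H.ν_anti (a + 2) (a + 2 + j) (by omega) (by omega)
        exact (lt_of_le_of_lt this hu).ne
      rcases (H.τ_nonneg (a + 2 + j)).eq_or_lt with h0 | h0
      · have e1 := H.τ_anti (a + 2 + j) P (by omega) (by omega)
        have e2 := H.ν_anti (a + 2 + j) P (by omega) (by omega)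
        rcases hA with hA | hA <;> linarith
      · exact (H.row _ (by omega) (by omega) h0).resolve_right hne
    rwa [← hb] at this
  have hPt : ∑ i ∈ Ioc (a + 2) P, π i ≤ ((b + 1 : ℕ) : ℚ) * π (a + 2) := by
    have := sum_le_mul π (a + 2) (b + 1) (π (a + 2)) fun i i1 _ =>
      H.π_anti (a + 2) i (by omega) i1.le
    rwa [← hb] at this
  have hTt : ∑ i ∈ Ioc (a + 2) P, τ i ≤ ((b + 1 : ℕ) : ℚ) * τ (a + 2) := by
    have := sum_le_mul τ (a + 2) (b + 1) (τ (a + 2)) fun i i1 _ =>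
      H.τ_anti (a + 2) i (by omega) i1.le
    rwa [← hb] at this
  have hPq : (P : ℚ) = a + b + 3 := by rw [hb]; push_cast; ring
  have k2 := H.κ_two
  have kp := H.κ_plus
  have e1 := H.cy
  have e3 := H.g_nonneg
  have e4 := H.g_N
  have e6 := H.N_ge
  have e10 := H.room
  have l1 := H.τ_le 1
  have pN := H.π_le 1
  have ha : (0 : ℚ) ≤ a := Nat.cast_nonneg a
  have hb0 : (0 : ℚ) ≤ b := Nat.cast_nonneg b
  have hab : (2 : ℚ) ≤ a + b := by
    have : 2 ≤ a + b := by omega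
    exact_mod_cast this
  rw [hPq] at kp e10
  push_cast at hgain hPt hTt
  unfold ProfConcl
  right
  rw [hν]
  have q1 : 0 ≤ (a : ℚ) * (N - ν (a + 2)) := mul_nonneg ha (by linarith)
  have q2 : 0 ≤ (b : ℚ) * (2 * κ - π (a + 2) - τ (a + 2)) := mul_nonneg hb0 (by linarith)
  rcases le_total (2 * κ) N with hk | hk
  · have q3 : 0 ≤ (a : ℚ) * (N - 2 * κ) := mul_nonneg ha (by linarith)
    rcases kp with kp | kp
    · have q4 : 0 ≤ ((a : ℚ) + b - 2) * κ := mul_nonneg (by linarith) (by linarith)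
      (first | linarith | nlinarith)
    · (first | linarith | nlinarith)
  · have q3 : 0 ≤ (b : ℚ) * (2 * κ - N) := mul_nonneg hb0 (by linarith)
    rcases le_or_gt 2 a with h2a | h2a
    · have h2q : (2 : ℚ) ≤ a := by exact_mod_cast h2a
      have q4 : 0 ≤ ((a : ℚ) - 2) * (N - ν (a + 2)) := mul_nonneg (by linarith) (by linarith)
      (first | linarith | nlinarith)
    · have h1b : 1 ≤ b := by omega
      have h1q : (1 : ℚ) ≤ b := by exact_mod_cast h1b
      have q4 : 0 ≤ ((b : ℚ) - 1) * (2 * κ - N) := mul_nonneg (by linarith) (by linarith)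
      have q5 : 0 ≤ ((b : ℚ) - 1) * (2 * κ - π (a + 2) - τ (a + 2)) :=
        mul_nonneg (by linarith) (by linarith)
      (first | linarith | nlinarith)

/-- The last level is below `κ` and the support of `τ` passes `u`. -/
theorem prof_capB (H : Prof P s N κ M g c y π τ ν) (hd : N < τ 1 + κ)
    (hπ : N < 2 * π 1) (hd' : 3 * N < 3 * τ 1 + 2 * π 1 ∨ N < 2 * τ 1) {u : ℕ} (hu2 : 2 ≤ u)
    (huP : u < P) (hu : ν u < N) (hfull : ∀ i, 1 ≤ i → i < u → ν i = N) (hβ : 0 < τ (u + 1))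
    (hB : ν P < κ) (hτ : τ P = 0) : ProfConcl P N M g y ν := by
  obtain ⟨a, rfl⟩ : ∃ a, u = a + 2 := ⟨u - 2, by omega⟩
  have hβu : 0 < τ (a + 2) := lt_of_lt_of_le hβ (H.τ_anti _ _ (by omega) (by omega))
  obtain ⟨h1, h2, h3, h4, h5, h6, h7⟩ := db_head H huP hu hfull hβu
  obtain ⟨be, -, hbe1, hbe2⟩ := exists_last_pos τ P H.τ_anti H.τ_nonneg fun i hi =>
    le_antisymm ((H.τ_le i).trans (H.π_zero i hi).le) (H.τ_nonneg i)
  have hb1 : a + 2 < be := by
    by_contra hcon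
    have := hbe2 (a + 2 + 1) (by omega)
    linarith
  have hb2 : be < P := by
    by_contra hcon
    have := hbe1 P (by omega) (by omega)
    linarith
  obtain ⟨k, hk⟩ : ∃ k, be = a + 2 + (k + 1) := ⟨be - a - 3, by omega⟩
  obtain ⟨l, hl⟩ : ∃ l, P = be + (l + 1) := ⟨P - be - 1, by omega⟩
  have hπnn : ∀ i, 0 ≤ π i := fun i => (H.τ_nonneg i).trans (H.τ_le i)
  have hνN : ∀ t, a + 2 ≤ t → ν t ≠ N := fun t ht =>
    (lt_of_le_of_lt (H.ν_anti (a + 2) t (by omega) ht) hu).ne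
  have hc := H.c_eq
  have hy := H.y_eq
  rw [sum_split π (b := a + 2) (by omega) huP.le, db_split] at hc
  rw [sum_trunc τ (b := be) (by omega) hb2.le hbe2, sum_split τ (b := a + 2) (by omega) hb1.le,
    db_split] at hy
  have hν := sum_split ν (a := 0) (b := a + 2) (by omega) huP.le
  rw [h1, sum_split ν (b := be) hb1.le hb2.le] at hν
  have hgain : ∑ i ∈ Ioc (a + 2) be, τ i + ((k + 1 : ℕ) : ℚ) * κ ≤ ∑ i ∈ Ioc (a + 2) be, ν i := by
    have := sum_le_shift τ ν (a + 2) (a + 2) (k + 1) κ fun j j1 j2 =>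
      (H.row _ (by omega) (by omega) (hbe1 _ (by omega) (by omega))).resolve_right
        (hνN _ (by omega))
    rwa [← hk] at this
  have hpair : ∀ j, 1 ≤ j → j ≤ l + 1 → π (1 + j) ≤ ν (be + j) := fun j j1 j2 => by
    rcases (hπnn (1 + j)).eq_or_lt with h0 | h0
    · rw [← h0]
      exact H.ν_nonneg _
    · exact (H.triv (1 + j) be (be + j) (by omega) (by omega) (by omega) (by omega) h0
        (hbe1 be (by omega) le_rfl)).1
  have htail : ∑ i ∈ Ioc 1 (1 + (l + 1)), π i ≤ ∑ i ∈ Ioc be P, ν i := by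
    have := sum_le_shift π ν 1 be (l + 1) 0 fun j j1 j2 => by
      rw [add_zero]
      exact hpair j j1 j2
    rw [← hl] at this
    linarith
  have hS : π 2 ≤ ∑ i ∈ Ioc 1 (1 + (l + 1)), π i := by
    rw [sum_split π (a := 1) (b := 2) (by omega) (by omega), sum_one π 1]
    have := sum_nonneg' π 2 (1 + (l + 1)) hπnn
    linarith
  have hπκ : ∀ i, l + 2 ≤ i → π i ≤ κ := fun i hi => by
    have e1 := hpair (l + 1) (by omega) le_rfl
    rw [← hl] at e1
    have e2 := H.π_anti (1 + (l + 1)) i (by omega) (by omega)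
    linarith
  have l1 := H.τ_le 1
  have hτκ : τ (a + 2) ≤ κ := by linarith
  have hPt : ∑ i ∈ Ioc (a + 2) P, π i ≤ ∑ i ∈ Ioc 1 (1 + (l + 1)), π i + k * κ + π P := by
    have e1 := sum_le_shift π π (a + 2) 1 (l + 1) 0 fun j j1 j2 => by
      rw [add_zero]
      exact H.π_anti _ _ (by omega) (by omega)
    have e2 := sum_le_mul π (a + 2 + (l + 1)) k κ fun i i1 _ => hπκ i (by omega)
    have e3 : P = a + 2 + (l + 1) + k + 1 := by omega
    have e4 : ∑ i ∈ Ioc (a + 2) P, π i = ∑ i ∈ Ioc (a + 2) (a + 2 + (l + 1)), π i +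
        ∑ i ∈ Ioc (a + 2 + (l + 1)) (a + 2 + (l + 1) + k), π i + π P := by
      rw [← sum_split π (by omega) (by omega)]
      conv_lhs => rw [e3]
      rw [sum_Ioc_succ_top (by omega), ← e3]
    linarith
  have hTt : ∑ i ∈ Ioc (a + 2) be, τ i ≤ π 2 + k * κ := by
    have e1 := sum_le_mul τ (a + 2 + 1) k κ fun i i1 _ =>
      (H.τ_anti (a + 2) i (by omega) (by omega)).trans hτκ
    have e2 : be = a + 2 + 1 + k := by omega
    rw [sum_split τ (b := a + 2 + 1) (by omega) (by omega), sum_one, e2]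
    have e3 := H.τ_le (a + 2 + 1)
    have e4 := H.π_anti 2 (a + 2 + 1) (by omega) (by omega)
    linarith
  have hPq : (P : ℚ) = a + k + l + 4 := by rw [hl, hk]; push_cast; ring
  have k2 := H.κ_two
  have e1 := H.cy
  have e3 := H.g_nonneg
  have e4 := H.g_N
  have e6 := H.N_ge
  have e10 := H.room
  have pN := H.π_le 1
  have ha : (0 : ℚ) ≤ a := Nat.cast_nonneg a
  have hk0 : (0 : ℚ) ≤ k := Nat.cast_nonneg k
  have hl0 : (0 : ℚ) ≤ l := Nat.cast_nonneg l
  rw [hPq] at e10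
  push_cast at hgain
  unfold ProfConcl
  right
  rw [hν]
  have q1 : 0 ≤ (a : ℚ) * (N - ν (a + 2)) := mul_nonneg ha (by linarith)
  rcases (hπnn P).eq_or_lt with h0 | h0
  · (first | linarith | nlinarith)
  · have hτ1 : 0 < τ 1 := lt_of_lt_of_le hβu (H.τ_anti _ _ (by omega) (by omega))
    have hall : ∀ t, 1 ≤ t → t ≤ P → τ 1 ≤ ν t := fun t t1 t2 =>
      (H.triv t 1 t t1 le_rfl rfl t2 (lt_of_lt_of_le h0 (H.π_anti t P t1 t2)) hτ1).2
    have hP1 := hall P (by omega) le_rfl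
    have hsat : π P + τ 1 ≤ N := by
      by_contra hcon
      exact hνN P huP.le (H.sat P 1 P (by omega) le_rfl rfl le_rfl (not_le.1 hcon))
    rcases le_or_gt N (2 * τ 1) with h2t | h2t
    · have e11 : ((l + 1 : ℕ) : ℚ) * τ 1 ≤ ∑ i ∈ Ioc be P, ν i := by
        have := mul_le_sum ν be (l + 1) (τ 1) fun i i1 i2 => hall i (by omega) (by omega)
        rwa [← hl] at this
      push_cast at e11
      have q2 : 0 ≤ (k : ℚ) * (2 * κ - N) := mul_nonneg hk0 (by linarith)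
      have q3 : 0 ≤ (l : ℚ) * (2 * τ 1 - N) := mul_nonneg hl0 (by linarith)
      (first | linarith | nlinarith)
    · have h34 : 3 * N < 3 * τ 1 + 2 * π 1 := hd'.resolve_right (by linarith)
      (first | linarith | nlinarith)

end Pool.Agent.P.MP_7ea450_co
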