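import Pool.Agent.P.MP_7ea450_co.ProfLP

/-!
The dense cases of the profile lemma in which the first level `u` that is not full is the last
level of the support of `τ`.
-/

open Finset

namespace Pool.Agent.P.MP_7ea450_co

variable {P s : ℕ} {N κ M g c y : ℚ} {π τ ν : ℕ → ℚ}

private lemma three_le_sum (f : ℕ → ℚ) (hf : ∀ i, 0 ≤ f i) {a b : ℕ} (h : a + 3 ≤ b) :
    f (a + 1) + f (a + 2) + f (a + 3) ≤ ∑ i ∈ Ioc a b, f i := by
  rw [sum_split f (a := a) (b := a + 3) (by omega) h, sum_Ioc_succ_top (by omega : a ≤ a + 2),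
    sum_Ioc_succ_top (by omega : a ≤ a + 1), sum_one]
  have := sum_nonneg' f (a + 3) b hf
  linarith

private lemma two_le_sum (f : ℕ → ℚ) (hf : ∀ i, 0 ≤ f i) {a b : ℕ} (h : a + 2 ≤ b) :
    f (a + 1) + f (a + 2) ≤ ∑ i ∈ Ioc a b, f i := by
  rw [sum_split f (a := a) (b := a + 2) (by omega) h, sum_Ioc_succ_top (by omega : a ≤ a + 1),
    sum_one]
  have := sum_nonneg' f (a + 2) b hf
  linarith

private lemma one_le_sum (f : ℕ → ℚ) (hf : ∀ i, 0 ≤ f i) {a b : ℕ} (h : a + 1 ≤ b) :
    f (a + 1) ≤ ∑ i ∈ Ioc a b, f i := by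
  rw [sum_split f (a := a) (b := a + 1) (by omega) h, sum_one]
  have := sum_nonneg' f (a + 1) b hf
  linarith

/-- The support of `τ` ends exactly at `u`. -/
theorem prof_capC (H : Prof P s N κ M g c y π τ ν) (hP : 5 ≤ P) (hs : 1 ≤ s) (hd : N < τ 1 + κ)
    (hπ : N < 2 * π 1) {u : ℕ} (hu2 : 2 ≤ u) (huP : u < P) (hu : ν u < N)
    (hfull : ∀ i, 1 ≤ i → i < u → ν i = N) (hβ : 0 < τ u) (hβ' : τ (u + 1) = 0) :
    ProfConcl P N M g y ν := by
  obtain ⟨k, rfl⟩ : ∃ k, u = k + 2 := ⟨u - 2, by omega⟩
  have hN := H.N_ge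
  have hπ0 : ∀ i, 0 ≤ π i := fun i => (H.τ_nonneg i).trans (H.τ_le i)
  have hτz : ∀ i, k + 2 < i → τ i = 0 := fun i hi =>
    le_antisymm (hβ' ▸ H.τ_anti (k + 2 + 1) i (by omega) hi) (H.τ_nonneg i)
  have hτp : ∀ i, 1 ≤ i → i ≤ k + 2 → 0 < τ i := fun i h1 h2 =>
    hβ.trans_le (H.τ_anti i (k + 2) h1 h2)
  have hsat : ∀ i t, 1 ≤ i → 1 ≤ t → i + t = k + 2 + 1 → π i + τ t ≤ N := by
    intro i t h1 h2 h3
    by_contra hn
    exact hu.ne (H.sat i t (k + 2) h1 h2 h3 huP.le (not_le.1 hn))
  have hsym : ∀ i t, 1 ≤ i → 1 ≤ t → i + t = k + 2 + 1 → π i + τ t ≤ (ν (k + 2) + N) / 2 := by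
    intro i t h1 h2 h3
    have := (H.sym i t (k + 2) h1 h2 h3 huP.le (hτp i h1 (by omega))
      (hτp t h2 (by omega))).resolve_right hu.ne
    linarith
  have hy : y = ∑ i ∈ Ioc 0 (k + 2), τ i := by
    rw [H.y_eq]; exact sum_trunc τ (by omega) huP.le hτz
  have hyc : y ≤ c := by
    rw [H.y_eq, H.c_eq]; exact sum_le_sum fun i _ => H.τ_le i
  have hy1 : y = τ 1 + ∑ i ∈ Ioc 1 (1 + k), τ i + τ (k + 2) := by
    rw [hy, sum_Ioc_succ_top (by omega : 0 ≤ k + 1),
      sum_split τ (a := 0) (b := 1) (c := k + 1) (by omega) (by omega), add_comm 1 k]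
    simp
  have hmid : 2 * ∑ i ∈ Ioc 1 (1 + k), τ i ≤ k * ((ν (k + 2) + N) / 2) := by
    have := sum_add_le_reflect τ τ 1 1 k ((ν (k + 2) + N) / 2) fun i t h1 _ h3 _ h5 => by
      have := hsym i t (by omega) (by omega) (by omega)
      have := H.τ_le i
      linarith
    linarith
  have hk0 : (0 : ℚ) ≤ k := by positivity
  have hmid' : 2 * ∑ i ∈ Ioc 1 (1 + k), τ i ≤ k * N := by
    have : k * ((ν (k + 2) + N) / 2) ≤ k * N := mul_le_mul_of_nonneg_left (by linarith) hk0
    linarith
  have hν : ∑ i ∈ Ioc 0 P, ν i = (k + 1) * N + ν (k + 2) + ∑ i ∈ Ioc (k + 2) P, ν i := by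
    rw [sum_split ν (a := 0) (b := k + 2) (by omega) huP.le,
      sum_Ioc_succ_top (by omega : 0 ≤ k + 1),
      sum_congr rfl (g := fun _ => N)
        (fun i hi => hfull i (mem_Ioc.1 hi).1 (by have := (mem_Ioc.1 hi).2; omega))]
    simp
  have htail0 := sum_nonneg' ν (k + 2) P H.ν_nonneg
  have a1 := (H.triv 1 (k + 2) (k + 2) (by omega) (by omega) (by omega) huP.le
    (by linarith) hβ).1
  have a2 := (H.row (k + 2) (by omega) huP.le hβ).resolve_right hu.ne
  have a3 := hsym 1 (k + 2) (by omega) (by omega) (by omega)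
  have a4 := hsat 1 (k + 2) (by omega) (by omega) (by omega)
  have l1 := H.τ_le 1
  have pN := H.π_le 1
  have k2 := H.κ_two
  have e1 := H.cy
  have e3 := H.g_nonneg
  have e4 := H.g_N
  have e7 := H.y_gt
  have e8 := H.s_lt
  have e9 := H.T_le
  have e10 := H.room
  have hτ1 : 0 < τ 1 := hτp 1 le_rfl (by omega)
  have hu2s : 2 * s ≤ k + 2 := by
    have h1 : (2 * s - 1) * N < (k + 2) * N := by linarith
    have h2 : (2 * s - 1 : ℚ) < k + 2 := lt_of_mul_lt_mul_right h1 (by linarith)
    have h3 : (2 * s : ℚ) < k + 3 := by linarith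
    have h4 : 2 * s < k + 3 := by exact_mod_cast h3
    omega
  rcases (hπ0 (k + 2 + 1)).eq_or_lt with hα | hα
  · right
    have hπz : ∀ i, k + 2 < i → π i = 0 := fun i hi =>
      le_antisymm (hα ▸ H.π_anti (k + 2 + 1) i (by omega) hi) (hπ0 i)
    have hc : c = ∑ i ∈ Ioc 0 (k + 2), π i := by
      rw [H.c_eq]; exact sum_trunc π (by omega) huP.le hπz
    have hcy : c + y ≤ (k + 2) * N := by
      have := sum_add_le_reflect π τ 0 0 (k + 2) N fun i t h1 _ h3 _ h5 =>
        hsat i t (by omega) (by omega) (by omega)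
      rw [zero_add] at this
      rw [hc, hy]; push_cast at this; exact this
    have hu2s' : 2 * s < k + 2 := by
      have h1 : (2 * s) * N < (k + 2) * N := by linarith
      have h2 : (2 * s : ℚ) < k + 2 := lt_of_mul_lt_mul_right h1 (by linarith)
      exact_mod_cast h2
    rw [hν]
    rcases Nat.lt_or_ge k (2 * s) with h | h
    · have hk : k + 1 = 2 * s := by omega
      have hkq : (k : ℚ) = 2 * s - 1 := by
        have : ((k + 1 : ℕ) : ℚ) = ((2 * s : ℕ) : ℚ) := by rw [hk]
        push_cast at this; linarith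
      have hP2 : k + 2 + 2 ≤ P := by
        obtain ⟨j, hj⟩ := H.P_odd
        omega
      have h3 : 0 < π 3 := H.α_ge.trans_le (H.π_anti 3 (s + 2) (by omega) (by omega))
      have p23 := H.π_anti 2 3 (by omega) (by omega)
      have b1 := (H.triv 2 (k + 2) (k + 2 + 1) (by omega) (by omega) (by omega) (by omega)
        (by linarith) hβ).1
      have b2 := (H.triv 3 (k + 2) (k + 2 + 2) (by omega) (by omega) (by omega) (by omega)
        h3 hβ).1
      have b3 := two_le_sum ν H.ν_nonneg hP2
      have hc2 : c ≤ π 1 + π 2 + k * π 3 := by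
        have := sum_le_mul π 2 k (π 3) fun i h1 _ => H.π_anti 3 i (by omega) h1
        rw [hc, sum_split π (a := 0) (b := 2) (c := k + 2) (by omega) (by omega),
          show Ioc 0 2 = {1, 2} by decide, sum_insert (by decide), sum_singleton, add_comm k 2]
        linarith
      rw [hkq] at hc2 hmid' ⊢
      rcases hs.eq_or_lt with rfl | hs2
      · push_cast at *
        linarith
      · have hs2' : (2 : ℚ) ≤ s := by exact_mod_cast hs2
        have b4 : 0 ≤ (s - 1) * (π 2 - π 3) := mul_nonneg (by linarith) (by linarith)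
        have b5 : s * (N - (π 2 + π 3)) < π 1 := by (first | linarith | nlinarith)
        have b6 : N ≤ π 2 + π 3 + π 1 / 2 := by
          rcases le_total N (π 2 + π 3) with h7 | h7
          · linarith
          · have := mul_le_mul_of_nonneg_right hs2' (sub_nonneg.2 h7)
            linarith
        linarith
    · have hkq : (2 * s : ℚ) ≤ k := by exact_mod_cast h
      have : 2 * s * N ≤ k * N := mul_le_mul_of_nonneg_right hkq (by linarith)
      linarith
  · have hνj : ∀ j, 1 ≤ j → j ≤ k + 2 → k + 2 + j ≤ P → τ j ≤ ν (k + 2 + j) := fun j h1 h2 h3 =>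
      (H.triv (k + 2 + 1) j (k + 2 + j) (by omega) h1 (by omega) h3 hα (hτp j h1 h2)).2
    have b1 := hνj 1 le_rfl (by omega) huP
    have b2 := one_le_sum ν H.ν_nonneg (a := k + 2) huP
    rcases hu2s.eq_or_lt with h | h
    · have hkq : (k : ℚ) = 2 * s - 2 := by
        have : ((2 * s : ℕ) : ℚ) = ((k + 2 : ℕ) : ℚ) := by rw [h]
        push_cast at this; linarith
      rcases hs.eq_or_lt with rfl | hs2
      · obtain rfl : k = 0 := by omega
        rcases (hπ0 4).eq_or_lt with h4 | h4
        · exact prof_three_two H hP le_rfl hd (hfull 1 le_rfl (by omega)) hu hβ hβ' h4.symm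
        · right
          have c1 := (H.triv 4 1 4 (by omega) (by omega) (by omega) (by omega) h4 hτ1).2
          have c2 := (H.triv 4 2 5 (by omega) (by omega) (by omega) (by omega) h4 hβ).2
          have c3 := three_le_sum ν H.ν_nonneg (a := 2) hP
          have t12 := H.τ_anti 1 2 (by omega) (by omega)
          rw [hν]
          simp only [add_zero, Ioc_self, sum_empty, zero_add] at hy1 a1 b1 ⊢
          norm_num at c3 b1 e7 e9 ⊢
          linarith
      · right
        have hs2' : (2 : ℚ) ≤ s := by exact_mod_cast hs2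
        rw [hν]
        rcases (Nat.succ_le_of_lt huP).eq_or_lt with hP1 | hP1
        · have hPq : (P : ℚ) = 2 * s + 1 := by
            have : ((k + 2 + 1 : ℕ) : ℚ) = P := by exact_mod_cast hP1
            push_cast at this; linarith
          have c1 : 0 ≤ (s - 2) * (N - ν (k + 2)) := mul_nonneg (by linarith) (by linarith)
          rw [hPq] at e10
          rw [hkq] at hmid ⊢
          (first | linarith | nlinarith)
        · have hP3 : k + 2 + 3 ≤ P := by
            obtain ⟨j, hj⟩ := H.P_odd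
            omega
          obtain ⟨l, rfl⟩ : ∃ l, k = l + 1 := ⟨k - 1, by omega⟩
          have c1 := hνj 2 (by omega) (by omega) (by omega)
          have c2 := hνj 3 (by omega) (by omega) (by omega)
          have c3 := three_le_sum ν H.ν_nonneg hP3
          have c4 := sum_add_le_reflect τ τ 3 3 l N fun i t h1 _ h3 _ h5 => by
            have d1 := hsat (i - 3) t (by omega) (by omega) (by omega)
            have d2 := H.τ_anti (i - 3) i (by omega) (by omega)
            have d3 := H.τ_le (i - 3)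
            linarith
          have c5 : y = τ 1 + τ 2 + τ 3 + ∑ i ∈ Ioc 3 (3 + l), τ i := by
            rw [hy, sum_split τ (a := 0) (b := 3) (c := l + 1 + 2) (by omega) (by omega),
              show Ioc 0 3 = {1, 2, 3} by decide, sum_insert (by decide), sum_insert (by decide),
              sum_singleton, show l + 1 + 2 = 3 + l by omega]
            ring
          have hl : (l : ℚ) = 2 * s - 3 := by push_cast at hkq; linarith
          rw [hl] at c4
          rw [hkq]
          linarith
    · right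
      rw [hν]
      have hkq : (2 * s - 1 : ℚ) ≤ k := by
        have : ((2 * s : ℕ) : ℚ) ≤ ((k + 1 : ℕ) : ℚ) := by exact_mod_cast (by omega : 2 * s ≤ k + 1)
        push_cast at this; linarith
      have : (2 * s - 1) * N ≤ k * N := mul_le_mul_of_nonneg_right hkq (by linarith)
      linarith

end Pool.Agent.P.MP_7ea450_co
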