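import Pool.Agent.P.MP_7ea450_co.ProfU
import Pool.Agent.P.MP_7ea450_co.ProfDa
import Pool.Agent.P.MP_7ea450_co.ProfDb
import Pool.Agent.P.MP_7ea450_co.ProfDc

/-!
The profile lemma.
-/

open Finset

namespace Pool.Agent.P.MP_7ea450_co

variable {P s : ℕ} {N κ M g c y : ℚ} {π τ ν : ℕ → ℚ}

theorem prof_main (H : Prof P s N κ M g c y π τ ν) : ProfConcl P N M g y ν := by
  have hP := H.P_ge
  have hP0 : (0 : ℚ) < P := by exact_mod_cast (by omega : 0 < P)
  have hκP : M + g ≤ P * κ := by
    have := H.g_M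
    have := H.g_nonneg
    rcases H.κ_plus with h | h <;> linarith
  have hπ0 : ∀ i, 0 ≤ π i := fun i => (H.τ_nonneg i).trans (H.τ_le i)
  have hτ1 : 0 < τ 1 := by
    by_contra hn
    have h0 : y = 0 := by
      rw [H.y_eq]
      refine sum_eq_zero fun i hi => le_antisymm ?_ (H.τ_nonneg i)
      have := H.τ_anti 1 i le_rfl (mem_Ioc.1 hi).1
      linarith
    have := H.y_ge
    linarith
  rcases exists_first_lt ν P N H.ν_le with hall | ⟨u, hu1, huP, hu, hfull⟩
  · left
    have := mul_le_sum ν 0 P N fun i h1 h2 => (hall i h1 (by omega)).ge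
    simpa using this
  rcases hu1.eq_or_lt with rfl | hu2
  · rcases (hπ0 3).eq_or_lt with h3 | h3
    · exact prof_two H h3.symm hu
    · refine prof_unsat H κ H.κ_two hκP (fun t h1 h2 h3 => (H.row t h1 h2 h3).resolve_right ?_) h3
      have := H.ν_anti 1 t le_rfl h1
      intro h
      linarith
  have h1 : ν 1 = N := hfull 1 le_rfl hu2
  rcases Nat.eq_zero_or_pos s with rfl | hs
  · exact prof_s0 H h1
  have h3 : 0 < π 3 := H.α_ge.trans_le (H.π_anti 3 (s + 2) (by omega) (by omega))
  by_cases hk : τ 1 + max (2 * π 1 / 3) ((M + g) / P) ≤ N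
  · have hk1 : max (2 * π 1 / 3) ((M + g) / P) ≤ κ := by
      refine max_le (by linarith [H.κ_two]) ?_
      rw [div_le_iff₀ hP0]
      linarith
    refine prof_unsat H (max (2 * π 1 / 3) ((M + g) / P)) ?_ ?_ (fun t h1 h2 h3 => ?_) h3
    · linarith [le_max_left (2 * π 1 / 3) ((M + g) / P)]
    · have := le_max_right (2 * π 1 / 3) ((M + g) / P)
      rw [div_le_iff₀ hP0] at this
      linarith
    · have := H.τ_anti 1 t le_rfl h1
      rcases H.row t h1 h2 h3 with h | h <;> linarith
  push Not at hk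
  have hd' : 3 * N < 3 * τ 1 + 2 * π 1 ∨ N < 2 * τ 1 := by
    rcases le_total (2 * π 1 / 3) ((M + g) / P) with h | h
    · right
      rw [max_eq_right h] at hk
      have h5 : (M + g) / P ≤ N / 2 := by
        rw [div_le_iff₀ hP0]
        linarith [H.room, H.g_nonneg]
      linarith
    · left
      rw [max_eq_left h] at hk
      linarith
  have hd : N < τ 1 + κ := by
    have hk1 : max (2 * π 1 / 3) ((M + g) / P) ≤ κ := by
      refine max_le (by linarith [H.κ_two]) ?_
      rw [div_le_iff₀ hP0]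
      linarith
    linarith
  have hπ : N < 2 * π 1 := by
    have := H.τ_le 1
    have := H.N_ge
    rcases hd' with h | h <;> linarith
  rcases (H.τ_nonneg u).eq_or_lt with hβ | hβ
  · exact prof_beyond H hs hu2 huP hu hfull hβ.symm
  rcases huP.eq_or_lt with rfl | huP
  · exact prof_last H hu hfull hβ
  rcases hP.eq_or_lt with rfl | hP
  · obtain rfl : u = 2 := by omega
    exact prof_three H hs hd h1 hu hβ
  have hP5 : 5 ≤ P := by
    obtain ⟨k, hk⟩ := H.P_odd
    omega
  rcases (H.τ_nonneg (u + 1)).eq_or_lt with hβ' | hβ'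
  · exact prof_capC H hP5 hs hd hπ hu2 huP hu hfull hβ hβ'.symm
  by_cases hA : κ ≤ ν P ∨ 0 < τ P
  · exact prof_capA H hP5 hd hπ hu2 huP hu hfull hβ hA
  · push Not at hA
    exact prof_capB H hd hπ hd' hu2 huP hu hfull hβ' hA.1 (le_antisymm hA.2 (H.τ_nonneg P))

end Pool.Agent.P.MP_7ea450_co
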