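import Pool.Agent.P.MP_7ea450_co.LevBasic
import Pool.Agent.P.MP_7ea450_co.ProfA

/-!
The bound for a nested pair with a fibre of at least `s + 2` points.
-/

open Finset
open scoped Pointwise

namespace Pool.Agent.P.MP_7ea450_co

variable {G : Type} [AddCommGroup G] [Fintype G] [DecidableEq G]
variable {Q : Type} [AddCommGroup Q] [Fintype Q] [DecidableEq Q]

theorem levelsA (hodd : Odd (Nat.card Q)) (φ : G →+ Q) (X Y : Finset G) (hYX : Y ⊆ X)
    (P s : ℕ) (M g : ℚ) (hP : Odd P) (hP3 : 3 ≤ P) (hCD : FibCD φ X P)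
    (hfib : ∀ q, fib φ X q ≤ P) (hN : 3 ≤ Nat.card Q)
    (hS3 : ∀ S : AddSubgroup Q, S ≠ ⊤ → 3 ≤ cov S (X.image φ))
    (hSκ : ∀ S : AddSubgroup Q, S ≠ ⊤ →
      4 * M ≤ 3 * (P * (((cov S (X.image φ) - 1) * Nat.card S : ℕ) : ℚ)) ∨
        M + 2 * g ≤ P * (((cov S (X.image φ) - 1) * Nat.card S : ℕ) : ℚ))
    (hSar : ∀ S : AddSubgroup Q, S ≠ ⊤ →
      5 * (Nat.card S : ℚ) < M ∨ g ≤ Nat.card S ∨ 5 * g ≤ M)
    (hS9 : P = 3 → 5 * g ≤ Nat.card Q ∨
      ∀ S : AddSubgroup Q, S ≠ ⊤ → 3 * Nat.card S = Nat.card Q ∨ 9 * Nat.card S ≤ Nat.card Q)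
    (hcy : 2 * M ≤ X.card + Y.card) (hc : X.card < M + g + 1) (hg0 : 0 ≤ g)
    (hgN : 3 * g ≤ Nat.card Q) (hgM : 3 * g ≤ M) (hM : 3 < M) (hs : s * (Nat.card Q : ℚ) < M)
    (hT : 2 * M + g ≤ (2 * s + 1) * Nat.card Q) (hroom : 2 * M + 3 * g ≤ P * Nat.card Q)
    (hα : ∃ q, s + 2 ≤ fib φ X q) :
    P * Nat.card Q ≤ (psi X Y).card ∨ (Y.card : ℚ) + M + g ≤ (psi X Y).card := by
  classical
  have hbot : (⊥ : AddSubgroup Q) ≠ ⊤ := by
    intro h
    have h1 : Nat.card (⊥ : AddSubgroup Q) = Nat.card (⊤ : AddSubgroup Q) := by rw [h]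
    rw [AddSubgroup.card_bot, AddSubgroup.card_top] at h1
    omega
  have hex : ∃ k, ∃ S : AddSubgroup Q, S ≠ ⊤ ∧ (cov S (X.image φ) - 1) * Nat.card S = k :=
    ⟨_, ⊥, hbot, rfl⟩
  obtain ⟨S₀, hS₀, hk⟩ := Nat.find_spec hex
  set k := Nat.find hex with hkdef
  have hkmin : ∀ S : AddSubgroup Q, S ≠ ⊤ → k ≤ (cov S (X.image φ) - 1) * Nat.card S :=
    fun S hS => Nat.find_min' hex ⟨S, hS, rfl⟩
  have hle : ∀ Z : Finset Q, Z.card ≤ Nat.card Q := fun Z => by
    rw [Nat.card_eq_fintype_card]; exact card_le_univ Z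
  have huniv : ∀ {Z V : Finset Q}, Z = univ → Z ⊆ V → V.card = Nat.card Q := by
    intro Z V h1 h2
    rw [Nat.card_eq_fintype_card, eq_univ_of_forall (s := V) (fun x => h2 (h1 ▸ mem_univ x))]
    rfl
  have hsub : ∀ {i t u : ℕ}, 1 ≤ i → 1 ≤ t → i + t = u + 1 → u ≤ P →
      lev φ X i - lev φ Y t ⊆ lev φ (psi X Y) u := fun hi ht hu huP =>
    sub_mem_lev hCD hYX (sub_subset_psi X Y) hi ht hu huP
  have hfibY : ∀ q, fib φ Y q ≤ P := fun q => (fib_mono φ hYX q).trans (hfib q)
  have hcov := hS3 S₀ hS₀
  have hπ1 := card_le_cov_mul S₀ (X.image φ)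
  obtain ⟨a, ha⟩ : ∃ a, cov S₀ (X.image φ) = a + 3 := ⟨cov S₀ (X.image φ) - 3, by omega⟩
  have hk' : k = (a + 2) * Nat.card S₀ := by
    rw [← hk, ha]
    rfl
  rw [ha] at hπ1
  have hNq : (3 : ℚ) ≤ Nat.card Q := by exact_mod_cast hN
  have hy1 : (1 : ℚ) < Y.card := by linarith
  have hy2 : 2 ≤ Y.card := by exact_mod_cast hy1
  have H : Prof P s (Nat.card Q) k M g X.card Y.card (fun i => (lev φ X i).card)
      (fun i => (lev φ Y i).card) (fun i => (lev φ (psi X Y) i).card) :=
    { P_odd := hP
      P_ge := hP3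
      N_ge := hNq
      c_eq := by exact_mod_cast (sum_card_lev_eq φ X P hfib).symm
      y_eq := by exact_mod_cast (sum_card_lev_eq φ Y P hfibY).symm
      π_anti := fun i j _ h => by exact_mod_cast card_le_card (lev_anti φ X h)
      τ_anti := fun i j _ h => by exact_mod_cast card_le_card (lev_anti φ Y h)
      ν_anti := fun i j _ h => by exact_mod_cast card_le_card (lev_anti φ _ h)
      τ_nonneg := fun i => Nat.cast_nonneg _
      ν_nonneg := fun i => Nat.cast_nonneg _
      τ_le := fun i => by exact_mod_cast card_le_card (lev_mono φ hYX i)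
      π_le := fun i => by exact_mod_cast hle _
      ν_le := fun i => by exact_mod_cast hle _
      π_zero := fun i hi => by
        have : lev φ X i = ∅ := eq_empty_of_forall_notMem fun q hq => by
          have := mem_lev.1 hq
          have := hfib q
          omega
        simp [this]
      triv := fun i t u hi ht hu huP h1 h2 => by
        have h1' : (lev φ X i).Nonempty := card_pos.1 (by exact_mod_cast h1)
        have h2' : (lev φ Y t).Nonempty := card_pos.1 (by exact_mod_cast h2)
        have h3 := card_le_card (hsub hi ht hu huP)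
        exact ⟨by exact_mod_cast (card_le_card_sub_right h2').trans h3,
          by exact_mod_cast (card_le_card_sub_left h1').trans h3⟩
      sat := fun i t u hi ht hu huP h1 => by
        exact_mod_cast huniv (sub_eq_univ_of_card _ _ (by exact_mod_cast h1)) (hsub hi ht hu huP)
      sym := fun i t u hi ht hu huP h1 h2 => by
        have h1' : (lev φ Y i).Nonempty := card_pos.1 (by exact_mod_cast h1)
        have h2' : (lev φ Y t).Nonempty := card_pos.1 (by exact_mod_cast h2)
        have hne : (lev φ X i ∩ lev φ Y t).Nonempty := by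
          rcases le_total i t with h | h
          · obtain ⟨q, hq⟩ := h2'
            exact ⟨q, mem_inter.2 ⟨lev_mono φ hYX i (lev_anti φ Y h hq), hq⟩⟩
          · obtain ⟨q, hq⟩ := h1'
            exact ⟨q, mem_inter.2 ⟨lev_mono φ hYX i hq, lev_anti φ Y h hq⟩⟩
        rcases sym_bound hodd _ _ _ hne (hsub hi ht hu huP)
          (fun x hx => neg_mem_lev (fun x hx => neg_mem_psi hx) hx) with h | h
        · left; exact_mod_cast h
        · right; exact_mod_cast h
      row := fun t ht htP h2 => by
        have h2' : (lev φ Y t).Nonempty := card_pos.1 (by exact_mod_cast h2)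
        have h1' : (lev φ X 1).Nonempty := h2'.mono ((lev_anti φ Y ht).trans (lev_mono φ hYX 1))
        have h3 := hsub (i := 1) (t := t) (u := t) le_rfl ht (by omega) htP
        rcases row_bound _ _ h1' h2' k (by rw [lev_one]; exact hkmin) with h | h
        · left; exact_mod_cast h.trans (card_le_card h3)
        · right; exact_mod_cast huniv h h3
      rule := fun i t u hi ht hu huP h1 h2 => by
        have h1' : (lev φ X i).Nonempty := card_pos.1 (by exact_mod_cast h1)
        have h2' : (lev φ Y t).Nonempty := card_pos.1 (by exact_mod_cast h2)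
        have h3 := hsub hi ht hu huP
        have h4 := hsub (i := 1) (t := t) (u := t) le_rfl ht (by omega) (by omega)
        rcases rule_bound (lev φ X 1) _ _ h1' h2' (by rw [lev_one]; exact hS3) with h | h | h
        · left; exact_mod_cast h.trans (Nat.mul_le_mul_left 3 (card_le_card h3))
        · right; left; exact_mod_cast huniv h h3
        · right; right; exact_mod_cast h.trans (card_le_card h4)
      κ_two := by
        have : 2 * (lev φ X 1).card ≤ 3 * k := by rw [lev_one, hk']; (first | linarith | nlinarith)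
        exact_mod_cast this
      κ_plus := by
        have := hSκ S₀ hS₀
        rwa [hk] at this
      κ_ar := by
        rcases Nat.eq_zero_or_pos a with rfl | hapos
        · right
          refine ⟨Nat.card S₀, by rw [hk']; push_cast; ring, ?_, hSar S₀ hS₀⟩
          have : (lev φ X 1).card ≤ 3 * Nat.card S₀ := by rw [lev_one]; simpa using hπ1
          exact_mod_cast this
        · left
          have : 3 * (lev φ X 1).card ≤ 4 * k := by rw [lev_one, hk']; (first | linarith | nlinarith)
          exact_mod_cast this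
      κ_three := fun h3 => by
        rcases hS9 h3 with h | h
        · exact Or.inl h
        rcases h S₀ hS₀ with h | h
        · right; left
          have : 2 * Nat.card Q ≤ 3 * k := by rw [hk', ← h]; (first | linarith | nlinarith)
          exact_mod_cast this
        · right; right
          have : 9 * (lev φ X 1).card ≤ 9 * k + Nat.card Q := by rw [lev_one, hk']; (first | linarith | nlinarith)
          exact_mod_cast this
      cy := hcy
      c_lt := hc
      g_nonneg := hg0
      g_N := hgN
      g_M := hgM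
      M_gt := hM
      y_ge := by exact_mod_cast hy2
      y_gt := by
        have h1 : (3 * (s * Nat.card Q) : ℚ) < 3 * Y.card + Nat.card Q + 3 := by linarith
        have h2 : 3 * (s * Nat.card Q) < 3 * Y.card + Nat.card Q + 3 := by exact_mod_cast h1
        have h3 : 2 * (s * Nat.card Q) < 2 * Y.card + Nat.card Q := by
          obtain ⟨j, hj⟩ := hodd
          rcases (show Nat.card Q = 3 ∨ 5 ≤ Nat.card Q by omega) with h | h
          · rw [h] at h2 ⊢
            omega
          · omega
        have h4 : (2 * (s * Nat.card Q) : ℚ) < 2 * Y.card + Nat.card Q := by exact_mod_cast h3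
        linarith
      s_lt := hs
      T_le := hT
      room := hroom
      α_ge := by
        obtain ⟨q, hq⟩ := hα
        exact_mod_cast card_pos.2 ⟨q, mem_lev.2 hq⟩ }
  have hsum : ∑ u ∈ Ioc 0 P, ((lev φ (psi X Y) u).card : ℚ) ≤ (psi X Y).card := by
    exact_mod_cast sum_card_lev_le φ (psi X Y) P
  rcases prof_main H with h | h
  · left; exact_mod_cast h.trans hsum
  · right; exact h.trans hsum

end Pool.Agent.P.MP_7ea450_co
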