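import Pool.Agent.P.MP_7ea450_co.Ctx

/-!
First properties of a minimal counterexample.
-/

open Finset
open scoped Pointwise

set_option linter.unusedSectionVars false
set_option linter.style.haveILetI false

namespace Pool.Agent.P.MP_7ea450_co

variable {G : Type} [AddCommGroup G] [Fintype G] [DecidableEq G] {e m T : ℕ} {A : Finset G}

private lemma card_le_natCard (C : Finset G) : C.card ≤ Nat.card G := by
  rw [Nat.card_eq_fintype_card]
  exact card_le_univ _

private lemma Ctx.nonempty (hc : Ctx G e m T) (hA : Bad m T A) : A.Nonempty :=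
  card_pos.1 (by have := hc.m_pos; have := hA.1; omega)

private lemma Ctx.m_le (hA : Bad m T A) : m ≤ Nat.card G := hA.1.trans (card_le_natCard A)

private lemma Ctx.T_le (hc : Ctx G e m T) (hA : Bad m T A) : T ≤ Nat.card G :=
  hc.bnd.le_of_dvd Nat.card_pos dvd_rfl (Ctx.m_le hA)

/-- The induction hypothesis in a proper subgroup. -/
private lemma Ctx.ih_sub (hc : Ctx G e m T) {K : AddSubgroup G} (hK : K ≠ ⊤) {m' T' : ℕ} (hm' : 1 ≤ m')
    (hb : Bnd (Nat.card K) e m' T') {B : Finset G} (hB : m' ≤ B.card)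
    (hBK : ∀ a ∈ B, ∀ b ∈ B, a - b ∈ K) : T' ≤ (B - B).card := by
  classical
  haveI := Fintype.ofFinite K
  obtain ⟨b0, hb0⟩ : B.Nonempty := card_pos.1 (by omega)
  have hlt : Nat.card K < Nat.card G :=
    lt_of_le_of_ne K.card_le_card_addGroup (fun h => hK (K.eq_top_of_card_eq h))
  let B' : Finset K := univ.filter (fun k => (k : G) + b0 ∈ B)
  have h1 : B.card ≤ B'.card := by
    refine le_trans (card_le_card ?_) (card_image_le (s := B') (f := fun k : K => (k : G) + b0))
    intro b hb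
    exact mem_image.2 ⟨⟨b - b0, hBK b hb b0 hb0⟩, by simp [B', hb], by simp⟩
  have h2 : (B' - B').card ≤ (B - B).card := by
    refine card_le_card_of_injOn (fun k : K => (k : G)) ?_ (fun a _ b _ h => Subtype.ext h)
    intro x hx
    obtain ⟨a, ha, b, hb, rfl⟩ := mem_sub.1 (mem_coe.1 hx)
    refine mem_coe.2 (mem_sub.2 ⟨_, (mem_filter.1 ha).2, _, (mem_filter.1 hb).2, ?_⟩)
    simp
  refine le_trans (hc.ih K hlt e m' T' B' hc.e_pos ?_ hm' (hB.trans h1) hb) h2
  intro x
  exact Subtype.ext (by simpa using hc.e_smul (x : G))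

/-- A set which holds the full preimage of a difference set of a proper quotient is large. -/
theorem Ctx.quot (hc : Ctx G e m T) {Q : Type} [AddCommGroup Q] [Fintype Q] [DecidableEq Q]
    (φ : G →+ Q) (hφ : Function.Surjective φ) (hker : φ.ker ≠ ⊥) (B : Finset Q)
    (hB : m ≤ Nat.card φ.ker * B.card) (D : Finset G) (hD : ∀ x, φ x ∈ B - B → x ∈ D) :
    T ≤ D.card := by
  have hc2 : 1 < Nat.card φ.ker := (φ.ker.one_lt_card_iff_ne_bot).2 hker
  have hn := card_eq_ker_mul φ hφ
  have hQ : 0 < Nat.card Q := Nat.card_pos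
  have hlt : Nat.card Q < Nat.card G := by rw [hn]; (first | linarith | nlinarith)
  have hB1 : 1 ≤ B.card := by
    rcases Nat.eq_zero_or_pos B.card with h | h
    · rw [h] at hB
      have := hc.m_pos
      omega
    · exact h
  set c := Nat.card φ.ker with hcdef
  have h1 := Nat.div_add_mod (T + c - 1) c
  have h2 := Nat.mod_lt (T + c - 1) (show 0 < c by omega)
  have hb : Bnd (Nat.card Q) e B.card ((T + c - 1) / c) :=
    hc.bnd.scale Nat.card_pos (by rw [hn]) hB (by omega)
  have h3 := hc.ih Q hlt e B.card _ B hc.e_pos (fun q => by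
    obtain ⟨x, rfl⟩ := hφ q
    rw [← map_nsmul, hc.e_smul, map_zero]) hB1 le_rfl hb
  have h4 := card_preimage φ hφ (B - B)
  have h5 : (univ.filter (fun a => φ a ∈ B - B)).card ≤ D.card :=
    card_le_card fun x hx => hD x (mem_filter.1 hx).2
  have h6 : c * ((T + c - 1) / c) ≤ c * (B - B).card := Nat.mul_le_mul_left c h3
  rw [← hcdef] at h4
  omega

/-- A bad set is not in a coset of a proper subgroup. -/
theorem Ctx.two_le_cov (hc : Ctx G e m T) (hA : Bad m T A) {K : AddSubgroup G} (hK : K ≠ ⊤) :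
    2 ≤ cov K A := by
  by_contra h
  have h1 : cov K A ≤ 1 := by omega
  have h2 := hc.ih_sub hK hc.m_pos
    (hc.bnd.of_dvd Nat.card_pos K.card_addSubgroup_dvd_card dvd_rfl) hA.1
    ((cov_le_one_iff K A).1 h1)
  have := hA.2
  omega

/-- A bad set has a nonzero difference in every nonzero subgroup. -/
theorem Ctx.exists_sub_mem (hc : Ctx G e m T) (hA : Bad m T A) {K : AddSubgroup G} (hK : K ≠ ⊥) :
    ∃ a ∈ A, ∃ b ∈ A, a ≠ b ∧ a - b ∈ K := by
  classical
  by_contra h
  push Not at h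
  haveI := Fintype.ofFinite (G ⧸ K)
  let φ := QuotientAddGroup.mk' K
  have hinj : Set.InjOn φ (A : Set G) := by
    intro a ha b hb hab
    by_contra hne
    exact h a ha b hb hne (QuotientAddGroup.eq_iff_sub_mem.1 hab)
  have hn := AddSubgroup.card_eq_card_quotient_mul_card_addSubgroup K
  have hc2 : 1 < Nat.card K := (K.one_lt_card_iff_ne_bot).2 hK
  have hQ : 0 < Nat.card (G ⧸ K) := Nat.card_pos
  have hlt : Nat.card (G ⧸ K) < Nat.card G := by rw [hn]; (first | linarith | nlinarith)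
  have h3 := hc.ih (G ⧸ K) hlt e m T (A.image φ) hc.e_pos (fun q => by
    obtain ⟨x, rfl⟩ := QuotientAddGroup.mk'_surjective K q
    rw [← map_nsmul, hc.e_smul, map_zero]) hc.m_pos
    (by rw [card_image_of_injOn hinj]; exact hA.1)
    (hc.bnd.of_dvd Nat.card_pos ⟨_, hn⟩ dvd_rfl)
  have h4 : (A.image φ - A.image φ).card ≤ (A - A).card := by
    refine le_trans (card_le_card ?_) (card_image_le (s := A - A) (f := φ))
    intro x hx
    obtain ⟨a, ha, b, hb, rfl⟩ := mem_sub.1 hx
    obtain ⟨a', ha', rfl⟩ := mem_image.1 ha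
    obtain ⟨b', hb', rfl⟩ := mem_image.1 hb
    exact mem_image.2 ⟨a' - b', sub_mem_sub ha' hb', map_sub _ _ _⟩
  have := hA.2
  omega

/-- A bad set misses at least one coset worth of points. -/
theorem Ctx.cauchy (hc : Ctx G e m T) (hA : Bad m T A) {K : AddSubgroup G} (hK : K ≠ ⊥)
    (hK' : K ≠ ⊤) : m ≤ (cov K A - 1) * Nat.card K := by
  classical
  by_contra hlt
  push Not at hlt
  haveI := Fintype.ofFinite (G ⧸ K)
  have h2 := hc.two_le_cov hA hK'
  let φ := QuotientAddGroup.mk' K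
  have hker : φ.ker = K := QuotientAddGroup.ker_mk' K
  have hcov : cov K A = (A.image φ).card := cov_eq_card_image K A
  have hpair : ∀ q ∈ A.image φ, ∀ q' ∈ A.image φ, q ≠ q' →
      Nat.card φ.ker < fib φ A q + fib φ A q' := by
    intro q hq q' hq' hne
    have hq'' : q' ∈ (A.image φ).erase q := mem_erase.2 ⟨hne.symm, hq'⟩
    have e1 := sum_fib_image φ A
    rw [← add_sum_erase _ _ hq, ← add_sum_erase _ _ hq''] at e1
    have e2 : ∑ x ∈ ((A.image φ).erase q).erase q', fib φ A x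
        ≤ (((A.image φ).erase q).erase q').card * Nat.card φ.ker := by
      rw [← smul_eq_mul, ← sum_const]
      exact sum_le_sum fun x _ => fib_le_ker φ A x
    rw [card_erase_of_mem hq'', card_erase_of_mem hq, ← hcov] at e2
    rw [hker] at e2 ⊢
    obtain ⟨k, hk⟩ : ∃ k, cov K A = k + 2 := ⟨cov K A - 2, by omega⟩
    rw [hk] at e2 hlt
    rw [show k + 2 - 1 - 1 = k by omega] at e2
    rw [show k + 2 - 1 = k + 1 by omega, add_mul, one_mul] at hlt
    have := hA.1
    omega
  obtain ⟨q0, hq0⟩ : ∃ q0, Nat.card φ.ker < fib φ A q0 + fib φ A q0 := by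
    obtain ⟨q, hq, q', hq', hne⟩ := one_lt_card.1 (show 1 < (A.image φ).card by omega)
    have := hpair q hq q' hq' hne
    rcases le_total (fib φ A q) (fib φ A q') with h | h
    · exact ⟨q', by omega⟩
    · exact ⟨q, by omega⟩
  have h3 := hc.quot φ (QuotientAddGroup.mk'_surjective K) (by rwa [hker]) (A.image φ)
    (hA.1.trans (by rw [mul_comm]; exact card_le_image_mul φ A)) (A - A) (by
      intro x hx
      obtain ⟨q, hq, q', hq', hx'⟩ := mem_sub.1 hx
      by_cases hne : q = q'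
      · exact mem_sub_of_fib φ A A q0 q0 hq0 x (by rw [← hx', hne, sub_self, sub_self])
      · exact mem_sub_of_fib φ A A q q' (hpair q hq q' hq' hne) x hx'.symm)
  have := hA.2
  omega

theorem Ctx.two_mul_le (hc : Ctx G e m T) (hA : Bad m T A) : 2 * m ≤ T := by
  have hne := hc.nonempty hA
  obtain ⟨S, hS, hk⟩ := kneser_sub A A hne hne
  have h1 := hA.1
  have h2 := hA.2
  by_cases htop : S = ⊤
  · have hu := eq_univ_of_periodic_top (A - A) (hne.sub hne)
      (fun x hx s hs => (hS s).1 (htop ▸ hs) x hx)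
    have := hc.T_le hA
    rw [hu, card_univ, ← Nat.card_eq_fintype_card] at h2
    omega
  by_cases hbot : S = ⊥
  · rw [hbot, cov_bot, AddSubgroup.card_bot] at hk
    omega
  have h3 := hc.cauchy hA hbot htop
  have h4 := card_le_cov_mul S A
  have h5 := hc.two_le_cov hA htop
  obtain ⟨k, hk'⟩ : ∃ k, cov S A = k + 1 := ⟨cov S A - 1, by omega⟩
  rw [hk'] at h3 h4 hk
  simp only [Nat.add_sub_cancel, add_mul, one_mul] at h3 h4 hk
  omega

theorem Ctx.e_lt (hc : Ctx G e m T) (hA : Bad m T A) : e < m := by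
  by_contra h
  push Not at h
  have h1 := hc.bnd 1 m (one_dvd _)
    (allowed_of_dvd Nat.card_pos dvd_rfl (by simpa using hc.e_dvd) (by omega)) (by omega)
  have := hc.two_mul_le hA
  omega

/-- Two parts of a bad set which lie in cosets of a proper subgroup and cover the set. -/
theorem Ctx.parts (hc : Ctx G e m T) (hA : Bad m T A) {K : AddSubgroup G} (hK : K ≠ ⊤)
    {A₀ A₁ : Finset G} (hU : A₀ ∪ A₁ = A) (h₀ : A₀.Nonempty) (h₁ : A₁.Nonempty)
    (hK₀ : ∀ a ∈ A₀, ∀ b ∈ A₀, a - b ∈ K) (hK₁ : ∀ a ∈ A₁, ∀ b ∈ A₁, a - b ∈ K) :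
    m ≤ (A₀ - A₁).card + 1 := by
  obtain ⟨S, hS, hk⟩ := kneser_sub A₀ A₁ h₀ h₁
  have hle : S ≤ K := by
    intro s hs
    obtain ⟨a, ha⟩ := h₀
    obtain ⟨b, hb⟩ := h₁
    obtain ⟨a', ha', b', hb', h⟩ := mem_sub.1 ((hS s).1 hs (a - b) (sub_mem_sub ha hb))
    have : s = (a' - a) - (b' - b) := by
      have h' : s = a' - b' - (a - b) := by rw [h]; abel
      rw [h']; abel
    rw [this]
    exact K.sub_mem (hK₀ _ ha' _ ha) (hK₁ _ hb' _ hb)
  have htop : S ≠ ⊤ := fun h => hK (top_le_iff.1 (h ▸ hle))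
  have h1 := hA.1
  by_cases hbot : S = ⊥
  · rw [hbot, cov_bot, cov_bot, AddSubgroup.card_bot] at hk
    have := card_union_le A₀ A₁
    rw [hU] at this
    omega
  have h3 := hc.cauchy hA hbot htop
  have h4 := cov_union_le S A₀ A₁
  rw [hU] at h4
  have h5 := hc.two_le_cov hA htop
  obtain ⟨k, hk'⟩ : ∃ k, cov S A = k + 1 := ⟨cov S A - 1, by omega⟩
  rw [hk'] at h3 h4
  have h6 : (k + 1) * Nat.card S ≤ (cov S A₀ + cov S A₁) * Nat.card S :=
    Nat.mul_le_mul_right _ h4
  simp only [Nat.add_sub_cancel] at h3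
  rw [add_mul, one_mul] at h6
  omega

/-- The bound passes to a subgroup of index two. -/
private lemma Bnd.half {N : ℕ} (h : Bnd (N * 2) e m T) (hN : 0 < N) (h2 : 2 * m ≤ T) (hm : 1 ≤ m) :
    Bnd N e ((m + 1) / 2) (T + 1 - m) := by
  intro d k hd h1 hk
  have hd0 : 0 < d := Nat.pos_of_dvd_of_pos hd hN
  have hg : Nat.gcd (d * 2 * e) (N * 2) = Nat.gcd (d * e) N * 2 := by
    rw [← Nat.gcd_mul_right]
    congr 1
    ring
  obtain ⟨k0, hk0, hk1⟩ : ∃ k0, d * k0 < (m + 1) / 2 ∧ (m + 1) / 2 ≤ d * (k0 + 1) := by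
    have e1 := Nat.div_add_mod ((m + 1) / 2 - 1) d
    have e2 := Nat.mod_lt ((m + 1) / 2 - 1) hd0
    exact ⟨((m + 1) / 2 - 1) / d, by omega, by rw [mul_add]; omega⟩
  have hkk : d * (k0 + 1) ≤ d * k := by
    refine Nat.mul_le_mul_left d ?_
    by_contra hlt
    have : d * k ≤ d * k0 := Nat.mul_le_mul_left d (by omega)
    omega
  by_contra hlt
  have h3 := h (d * 2) (k0 + 1) (Nat.mul_dvd_mul_right hd 2) (by rw [hg]; omega)
    (by rw [show d * 2 * (k0 + 1) = 2 * (d * (k0 + 1)) by ring]; omega)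
  rw [show d * 2 * (k0 + 1) = 2 * (d * k0) + 2 * d by ring] at h3
  rw [mul_add, mul_one] at hkk hk1
  by_cases hal : m ≤ Nat.gcd (d * e) (N * 2)
  · have h4 := h d (2 * k0 + 1) (hd.mul_right 2) hal
      (by rw [show d * (2 * k0 + 1) = 2 * (d * k0) + d by ring]; omega)
    rw [show d * (2 * k0 + 1) = 2 * (d * k0) + d by ring] at h4
    omega
  · have h5 : Nat.gcd (d * e) N ≤ Nat.gcd (d * e) (N * 2) :=
      Nat.le_of_dvd (Nat.gcd_pos_of_pos_right _ (by omega))
        (Nat.gcd_dvd_gcd_of_dvd_right _ (Dvd.intro _ rfl))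
    have h6 := h.le_of_dvd (d := Nat.gcd (d * e) N * 2) (by omega)
      (Nat.mul_dvd_mul_right (Nat.gcd_dvd_right _ _) 2) (by omega)
    omega

private lemma zmod_two_eq : ∀ u v : ZMod 2, u ≠ 0 → ¬ v = 0 → u = v := by decide

omit [DecidableEq G] in
/-- A group of even order maps onto the group with two elements. -/
private lemma exists_onto_two (h : Even (Nat.card G)) :
    ∃ χ : G →+ ZMod 2, Function.Surjective χ := by
  classical
  haveI : Fact (Nat.Prime 2) := ⟨Nat.prime_two⟩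
  obtain ⟨x, hx⟩ := exists_prime_addOrderOf_dvd_card' (G := G) 2 h.two_dvd
  let δ : G →+ G := nsmulAddMonoidHom 2
  have hninj : ¬ Function.Injective δ := by
    intro hinj
    have h0 : δ x = δ 0 := by
      rw [map_zero]
      change 2 • x = 0
      rw [← hx]
      exact addOrderOf_nsmul_eq_zero x
    have := hinj h0
    rw [this, addOrderOf_zero] at hx
    omega
  have hns : ¬ Function.Surjective δ := fun hs => hninj (Finite.injective_iff_surjective.2 hs)
  obtain ⟨y, hy⟩ : ∃ y, y ∉ δ.range := by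
    by_contra hall
    push Not at hall
    exact hns hall
  letI : Module (ZMod 2) (G ⧸ δ.range) :=
    QuotientAddGroup.zmodModule (fun z => ⟨z, rfl⟩)
  have hy0 : (QuotientAddGroup.mk' δ.range y) ≠ 0 := fun h0 =>
    hy ((QuotientAddGroup.eq_zero_iff y).1 h0)
  obtain ⟨f, hf⟩ : ∃ f : Module.Dual (ZMod 2) (G ⧸ δ.range),
      f (QuotientAddGroup.mk' δ.range y) ≠ 0 := by
    by_contra hall
    push Not at hall
    exact hy0 ((Module.forall_dual_apply_eq_zero_iff (ZMod 2) _).1 hall)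
  refine ⟨f.toAddMonoidHom.comp (QuotientAddGroup.mk' δ.range), fun t => ?_⟩
  by_cases ht : t = 0
  · exact ⟨0, by rw [map_zero, ht]⟩
  · refine ⟨y, ?_⟩
    change f (QuotientAddGroup.mk' δ.range y) = t
    exact zmod_two_eq _ _ hf ht

/-- A minimal counterexample has odd order. -/
theorem Ctx.odd (hc : Ctx G e m T) (hA : Bad m T A) : Odd (Nat.card G) := by
  by_contra hodd
  obtain ⟨χ, hχ⟩ := exists_onto_two (Nat.not_odd_iff_even.1 hodd)
  have hn := card_eq_ker_mul χ hχ
  rw [Nat.card_zmod] at hn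
  have hker : χ.ker ≠ ⊤ := by
    intro h
    obtain ⟨y, hy⟩ := hχ 1
    have : y ∈ χ.ker := h ▸ AddSubgroup.mem_top y
    rw [AddMonoidHom.mem_ker, hy] at this
    exact absurd this (by decide)
  have h2m := hc.two_mul_le hA
  have hm := hc.m_pos
  have hb : Bnd (Nat.card χ.ker) e ((m + 1) / 2) (T + 1 - m) :=
    Bnd.half (hn ▸ hc.bnd) Nat.card_pos h2m hm
  have key : ∀ i : ZMod 2, (A.filter (fun a => ¬ χ a = i)).card ≤
      (A.filter (fun a => χ a = i)).card → False := by
    intro i hi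
    set A₀ := A.filter (fun a => χ a = i) with hA₀
    set A₁ := A.filter (fun a => ¬ χ a = i) with hA₁
    have hsum : A₀.card + A₁.card = A.card := card_filter_add_card_filter_not _
    have h1 := hA.1
    have hK₀ : ∀ a ∈ A₀, ∀ b ∈ A₀, a - b ∈ χ.ker := by
      intro a ha b hb
      rw [AddMonoidHom.mem_ker, map_sub, (mem_filter.1 ha).2, (mem_filter.1 hb).2, sub_self]
    have hK₁ : ∀ a ∈ A₁, ∀ b ∈ A₁, a - b ∈ χ.ker := by
      intro a ha b hb
      rw [AddMonoidHom.mem_ker, map_sub]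
      exact (by decide : ∀ u v w : ZMod 2, ¬ u = w → ¬ v = w → u - v = 0) _ _ _
        (mem_filter.1 ha).2 (mem_filter.1 hb).2
    have h₀ : A₀.Nonempty := card_pos.1 (by omega)
    have h₁ : A₁.Nonempty := by
      by_contra hemp
      have h3 := hc.two_le_cov hA hker
      have h4 : cov χ.ker A ≤ 1 := by
        rw [cov_le_one_iff]
        have hall : ∀ a ∈ A, a ∈ A₀ := fun a ha => by
          by_contra hna
          exact hemp ⟨a, mem_filter.2 ⟨ha, fun h => hna (mem_filter.2 ⟨ha, h⟩)⟩⟩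
        exact fun a ha b hb => hK₀ a (hall a ha) b (hall b hb)
      omega
    have h3 : m ≤ (A₀ - A₁).card + 1 :=
      hc.parts hA hker (filter_union_filter_not_eq _ A) h₀ h₁ hK₀ hK₁
    have h4 := hc.ih_sub hker (by omega) hb (B := A₀) (by omega) hK₀
    have hdisj : Disjoint (A₀ - A₀) (A₀ - A₁) := by
      rw [disjoint_left]
      intro x hx hx'
      obtain ⟨a, ha, b, hb, rfl⟩ := mem_sub.1 hx
      obtain ⟨a', ha', b', hb', h⟩ := mem_sub.1 hx'
      have h5 := congrArg χ h
      rw [map_sub, map_sub, (mem_filter.1 ha).2, (mem_filter.1 hb).2, (mem_filter.1 ha').2,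
        sub_self, sub_eq_zero] at h5
      exact (mem_filter.1 hb').2 h5.symm
    have hsub : (A₀ - A₀) ∪ (A₀ - A₁) ⊆ A - A :=
      union_subset (sub_subset_sub (filter_subset _ _) (filter_subset _ _))
        (sub_subset_sub (filter_subset _ _) (filter_subset _ _))
    have h5 := card_le_card hsub
    rw [card_union_of_disjoint hdisj] at h5
    have := hA.2
    omega
  have e0 : A.filter (fun a => ¬ χ a = 0) = A.filter (fun a => χ a = 1) := by
    refine filter_congr fun a _ => ?_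
    generalize χ a = u
    revert u
    decide
  have e1 : A.filter (fun a => ¬ χ a = 1) = A.filter (fun a => χ a = 0) := by
    refine filter_congr fun a _ => ?_
    generalize χ a = u
    revert u
    decide
  rcases le_total (A.filter (fun a => χ a = 1)).card (A.filter (fun a => χ a = 0)).card with h | h
  · exact key 0 (by rwa [e0])
  · exact key 1 (by rwa [e1])

/-- The bound near the top. -/
theorem Ctx.top (hc : Ctx G e m T) (hA : Bad m T A) : 2 * (e * m) + Nat.card G ≤ Nat.card G * e := by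
  classical
  have hodd := hc.odd hA
  obtain ⟨x, hx⟩ : ∃ x, x ∉ A - A := by
    by_contra hall
    push Not at hall
    have h1 := hA.2
    rw [eq_univ_of_forall hall, card_univ, ← Nat.card_eq_fintype_card] at h1
    have := hc.T_le hA
    omega
  let K := AddSubgroup.zmultiples x
  haveI := Fintype.ofFinite (G ⧸ K)
  let φ := QuotientAddGroup.mk' K
  have hker : φ.ker = K := QuotientAddGroup.ker_mk' K
  have hn := card_eq_ker_mul φ (QuotientAddGroup.mk'_surjective K)
  have ho : Nat.card φ.ker ∣ e := by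
    rw [hker, Nat.card_zmultiples]
    exact addOrderOf_dvd_of_nsmul_eq_zero (hc.e_smul x)
  have hoo : Odd (Nat.card φ.ker) := (Nat.odd_mul.1 (hn ▸ hodd)).1
  have hfib : ∀ q, 2 * fib φ A q + 1 ≤ Nat.card φ.ker := by
    intro q
    have h1 : ¬ Nat.card φ.ker < fib φ A q + fib φ A q := fun h =>
      hx (mem_sub_of_fib φ A A q q h x (by
        rw [sub_self]
        exact (QuotientAddGroup.eq_zero_iff x).2 (AddSubgroup.mem_zmultiples x)))
    obtain ⟨t, ht⟩ := hoo
    omega
  have hsum : ∑ q : G ⧸ K, (2 * fib φ A q + 1) ≤ ∑ _q : G ⧸ K, Nat.card φ.ker :=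
    sum_le_sum fun q _ => hfib q
  rw [sum_add_distrib, ← mul_sum, sum_fib] at hsum
  simp only [sum_const, card_univ, smul_eq_mul, mul_one, ← Nat.card_eq_fintype_card] at hsum
  have h1 := hA.1
  have h2 : Nat.card φ.ker ≤ e := Nat.le_of_dvd hc.e_pos ho
  have h3 : 2 * m + Nat.card (G ⧸ K) ≤ Nat.card G := by
    rw [mul_comm (Nat.card (G ⧸ K))] at hsum
    omega
  have h4 : Nat.card G ≤ e * Nat.card (G ⧸ K) := by
    rw [hn]
    exact Nat.mul_le_mul_right _ h2
  have h5 := Nat.mul_le_mul_left e h3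
  (first | linarith | nlinarith)

private lemma Ctx.e_odd (hc : Ctx G e m T) (hA : Bad m T A) : Odd e := (hc.odd hA).of_dvd_nat hc.e_dvd

theorem Ctx.room (hc : Ctx G e m T) (hA : Bad m T A) : 3 * T + 4 ≤ Nat.card G + 4 * m := by
  obtain ⟨d, hd⟩ := hc.e_dvd
  have hn : 0 < Nat.card G := Nat.card_pos
  have hd0 : 0 < d := Nat.pos_of_ne_zero (by rintro rfl; omega)
  have hdn : d ∣ Nat.card G := Dvd.intro_left _ hd.symm
  have hal : m ≤ Nat.gcd (d * e) (Nat.card G) :=
    allowed_of_dvd hn dvd_rfl (by rw [hd, mul_comm]) (by rw [mul_comm, ← hd]; exact Ctx.m_le hA)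
  have h1 := hc.bnd.le_add hd0 hdn hal
  have h2 := hc.top hA
  obtain ⟨k, hk⟩ := hc.e_odd hA
  have h3 : 2 * m + d ≤ d * e := by
    refine Nat.le_of_mul_le_mul_left ?_ hc.e_pos
    rw [hd] at h2
    (first | linarith | nlinarith)
  have h4 : d * e = 2 * (d * k) + d := by rw [hk]; ring
  have h5 := hc.bnd d k hdn hal (by omega)
  rw [mul_comm e d] at hd
  omega

private lemma Ctx.prime_dvd (hc : Ctx G e m T) {p : ℕ} (hp : p.Prime) (h : p ∣ Nat.card G) : p ∣ e := by
  haveI : Fact p.Prime := ⟨hp⟩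
  obtain ⟨x, hx⟩ := exists_prime_addOrderOf_dvd_card' (G := G) p h
  rw [← hx]
  exact addOrderOf_dvd_of_nsmul_eq_zero (hc.e_smul x)

/-- The least multiple of `e` that divides the order and is at least `m`. -/
private lemma Ctx.exists_least (hc : Ctx G e m T) (hA : Bad m T A) :
    ∃ d, 1 < d ∧ d * e ∣ Nat.card G ∧ T + 2 ≤ 2 * m + d ∧
      ∀ c, c * e ∣ Nat.card G → c < d → c * e < m := by
  classical
  have hn : 0 < Nat.card G := Nat.card_pos
  have hex : ∃ d, d * e ∣ Nat.card G ∧ m ≤ d * e := by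
    obtain ⟨d, hd⟩ := hc.e_dvd
    exact ⟨d, by rw [hd, mul_comm], by rw [mul_comm, ← hd]; exact Ctx.m_le hA⟩
  obtain ⟨h1, h2⟩ := Nat.find_spec hex
  have h3 := hc.e_lt hA
  have h4 : 1 < Nat.find hex := by
    by_contra hle
    have : Nat.find hex * e ≤ 1 * e := Nat.mul_le_mul_right _ (by omega)
    omega
  refine ⟨Nat.find hex, h4, h1, ?_, fun c hc1 hc2 => ?_⟩
  · exact hc.bnd.le_add (by omega) ((Dvd.intro _ rfl).trans h1) (allowed_of_dvd hn dvd_rfl h1 h2)
  · by_contra hle
    exact Nat.find_min hex hc2 ⟨hc1, by omega⟩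

/-- The step shared by the two bounds on the excess. -/
private lemma Ctx.excess_step (hc : Ctx G e m T) (hA : Bad m T A) (he : ¬ e.Prime) {d p : ℕ}
    (hd : d * e ∣ Nat.card G) (hmin : ∀ c, c * e ∣ Nat.card G → c < d → c * e < m)
    (hp : p.Prime) (hpd : p ∣ d) :
    ∃ t, e = p * t ∧ d * t < m ∧ (t = 3 ∨ 5 ≤ t) := by
  have hn : 0 < Nat.card G := Nat.card_pos
  obtain ⟨t, ht⟩ := hc.prime_dvd hp ((hpd.mul_right e).trans hd)
  obtain ⟨c, hc'⟩ := hpd
  have hd0 : 0 < d := Nat.pos_of_ne_zero (by rintro rfl; simp at hd)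
  have hc0 : 0 < c := Nat.pos_of_ne_zero (by rintro rfl; omega)
  have h1 := hmin c ((Nat.mul_dvd_mul_right (Dvd.intro_left _ hc'.symm) e).trans hd)
    (by rw [hc']; have := hp.two_le; (first | linarith | nlinarith))
  refine ⟨t, ht, ?_, ?_⟩
  · rw [hc', show p * c * t = c * (p * t) by ring, ← ht]
    exact h1
  · obtain ⟨s, hs⟩ : Odd t := (Nat.odd_mul.1 (ht ▸ hc.e_odd hA)).2
    have : t ≠ 1 := by
      rintro rfl
      rw [mul_one] at ht
      exact he (ht ▸ hp)
    omega

/-- If `e` is not prime the excess `T + 2 - 2 m` is at most `(m - 1) / 3`. -/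
theorem Ctx.excess (hc : Ctx G e m T) (hA : Bad m T A) (he : ¬ e.Prime) :
    3 * T + 7 ≤ 7 * m := by
  obtain ⟨d, hd1, hd, hT, hmin⟩ := hc.exists_least hA
  obtain ⟨t, -, h1, h2⟩ := hc.excess_step hA he hd hmin (Nat.minFac_prime hd1.ne')
    (Nat.minFac_dvd d)
  have : d * 3 ≤ d * t := Nat.mul_le_mul_left d (by omega)
  omega

/-- A sharper bound on the excess when `9` divides the order but not `e`. -/
theorem Ctx.excess' (hc : Ctx G e m T) (hA : Bad m T A) (he : ¬ e.Prime)
    (h9 : 9 ∣ Nat.card G) (h9' : ¬ 9 ∣ e) : 5 * T + 11 ≤ 11 * m := by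
  obtain ⟨d, hd1, hd, hT, hmin⟩ := hc.exists_least hA
  suffices h : d * 5 < m by omega
  by_cases h3 : 3 ∣ d
  · obtain ⟨t, ht, h1, h2⟩ := hc.excess_step hA he hd hmin Nat.prime_three h3
    have : t ≠ 3 := by
      rintro rfl
      exact h9' (by rw [ht])
    exact lt_of_le_of_lt (Nat.mul_le_mul_left d (by omega)) h1
  have hp := Nat.minFac_prime hd1.ne'
  have hpd := Nat.minFac_dvd d
  obtain ⟨t, ht, h1, h2⟩ := hc.excess_step hA he hd hmin hp hpd
  rcases h2 with rfl | h2
  swap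
  · exact lt_of_le_of_lt (Nat.mul_le_mul_left d h2) h1
  set p := d.minFac with hpdef
  obtain ⟨c, hc'⟩ := hpd
  have hp3 : p ≠ 3 := fun h => h3 (h ▸ Dvd.intro _ hc'.symm)
  have hp2 : p ≠ 2 := by
    intro h
    have := hc.e_odd hA
    rw [ht, h] at this
    exact absurd this (by decide)
  have hp4 : 4 ≤ p := by have := hp.two_le; omega
  have hc0 : 0 < c := Nat.pos_of_ne_zero (by rintro rfl; omega)
  have hc3 : ¬ 3 ∣ c := fun h => h3 (hc' ▸ h.mul_left p)
  have hdvd : 3 * c * e ∣ Nat.card G := by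
    have e1 : 3 * c * e = 9 * (c * p) := by rw [ht]; ring
    rw [e1]
    refine Nat.Coprime.mul_dvd_of_dvd_of_dvd ?_ h9 ?_
    · have : Nat.Coprime 3 (c * p) := by
        rw [Nat.prime_three.coprime_iff_not_dvd, mul_comm, ← hc']
        exact h3
      exact Nat.Coprime.pow_left 2 this
    · rw [mul_comm, ← hc']
      exact (Dvd.intro _ rfl).trans hd
  have h4 := hmin (3 * c) hdvd (by rw [hc']; (first | linarith | nlinarith))
  have e2 : 3 * c * e = 9 * d := by
    calc 3 * c * e = 9 * (p * c) := by rw [ht]; ring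
      _ = 9 * d := by rw [← hc']
  omega

/-- If `e` is not prime a bad set meets three cosets of every proper subgroup. -/
theorem Ctx.three_le_cov (hc : Ctx G e m T) (hA : Bad m T A) (he : ¬ e.Prime)
    {K : AddSubgroup G} (hK : K ≠ ⊤) : 3 ≤ cov K A := by
  classical
  by_contra hlt
  have h2 := hc.two_le_cov hA hK
  haveI := Fintype.ofFinite (G ⧸ K)
  let φ := QuotientAddGroup.mk' K
  have hcov : (A.image φ).card = 2 := by
    rw [← cov_eq_card_image K A]
    omega
  obtain ⟨q₀, q₁, hne, himg⟩ := card_eq_two.1 hcov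
  have hoddQ : Odd (Nat.card (G ⧸ K)) :=
    (Nat.odd_mul.1
      (AddSubgroup.card_eq_card_quotient_mul_card_addSubgroup K ▸ hc.odd hA)).1
  set A₀ := A.filter (fun a => φ a = q₀) with hA₀
  set A₁ := A.filter (fun a => φ a = q₁) with hA₁
  have hU : A₀ ∪ A₁ = A := by
    ext a
    simp only [hA₀, hA₁, mem_union, mem_filter]
    constructor
    · rintro (h | h) <;> exact h.1
    · intro ha
      have : φ a ∈ ({q₀, q₁} : Finset (G ⧸ K)) := himg ▸ mem_image_of_mem φ ha
      rcases mem_insert.1 this with h | h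
      · exact Or.inl ⟨ha, h⟩
      · exact Or.inr ⟨ha, mem_singleton.1 h⟩
  have hne' : ∀ q ∈ A.image φ, (A.filter (fun a => φ a = q)).Nonempty := fun q hq =>
    card_pos.1 ((fib_pos_iff φ A q).2 hq)
  have h₀ : A₀.Nonempty := hne' q₀ (by rw [himg]; simp)
  have h₁ : A₁.Nonempty := hne' q₁ (by rw [himg]; simp)
  have hKq : ∀ q, ∀ a ∈ A.filter (fun a => φ a = q), ∀ b ∈ A.filter (fun a => φ a = q),
      a - b ∈ K := fun q a ha b hb =>
    QuotientAddGroup.eq_iff_sub_mem.1 ((mem_filter.1 ha).2.trans (mem_filter.1 hb).2.symm)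
  have p₀ := hc.parts hA hK hU h₀ h₁ (hKq q₀) (hKq q₁)
  have p₁ := hc.parts hA hK ((union_comm _ _).trans hU) h₁ h₀ (hKq q₁) (hKq q₀)
  have hfib : ∀ q q', ((A.filter (fun a => φ a = q)) - (A.filter (fun a => φ a = q'))).card
      ≤ fib φ (A - A) (q - q') := by
    intro q q'
    refine card_le_card fun x hx => ?_
    obtain ⟨a, ha, b, hb, rfl⟩ := mem_sub.1 hx
    exact mem_filter.2 ⟨sub_mem_sub (mem_filter.1 ha).1 (mem_filter.1 hb).1, by
      rw [map_sub, (mem_filter.1 ha).2, (mem_filter.1 hb).2]⟩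
  have f₀ := (card_le_card_sub_right (s := A₀) h₀).trans (hfib q₀ q₀)
  have f₁ := (card_le_card_sub_right (s := A₁) h₁).trans (hfib q₁ q₁)
  have f₂ := hfib q₀ q₁
  have f₃ := hfib q₁ q₀
  rw [sub_self] at f₀ f₁
  have n1 : (0 : G ⧸ K) ≠ q₀ - q₁ := fun h => hne (sub_eq_zero.1 h.symm)
  have n2 : (0 : G ⧸ K) ≠ q₁ - q₀ := fun h => hne (sub_eq_zero.1 h.symm).symm
  have n3 : q₀ - q₁ ≠ q₁ - q₀ := fun h =>
    n1 (eq_zero_of_neg_eq hoddQ (by rw [neg_sub, h])).symm
  have hs : ∑ q ∈ ({0, q₀ - q₁, q₁ - q₀} : Finset (G ⧸ K)), fib φ (A - A) q ≤ (A - A).card := by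
    rw [← sum_fib φ (A - A)]
    exact sum_le_sum_of_subset (subset_univ _)
  rw [sum_insert (by simp [n1, n2]), sum_pair n3] at hs
  have h3 := hc.excess hA he
  have h4 := card_union_le A₀ A₁
  rw [hU] at h4
  have h5 := hA.1
  have h6 := hA.2
  rw [← hA₀, ← hA₁] at f₂ f₃
  omega

end Pool.Agent.P.MP_7ea450_co
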