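import Pool.Agent.P.MP_7ea450_co.CoreArith
import Pool.Agent.P.MP_7ea450_co.MinCex
import Pool.Agent.P.MP_7ea450_co.LevelsA
import Pool.Agent.P.MP_7ea450_co.Beta

/-!
The two cases of the core argument: a long line, or only short lines.
-/

open Finset
open scoped Pointwise

set_option linter.unusedSectionVars false

namespace Pool.Agent.P.MP_7ea450_co

variable {G : Type} [AddCommGroup G] [Fintype G] [DecidableEq G]
variable {Γ : Type} [AddCommGroup Γ] [Fintype Γ] [DecidableEq Γ]
variable {G₁ : Type} [AddCommGroup G₁] [Fintype G₁] [DecidableEq G₁]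

lemma prime_dvd_of_smul {e q : ℕ} (he : ∀ x : G, e • x = 0) (hq : q.Prime)
    (hd : q ∣ Nat.card G) : q ∣ e := by
  haveI := Fact.mk hq
  obtain ⟨x, hx⟩ := exists_prime_addOrderOf_dvd_card' q hd
  exact hx ▸ addOrderOf_dvd_of_nsmul_eq_zero (he x)

lemma fib_comp_of_injOn {Q : Type} [AddCommGroup Q] [DecidableEq Q] (ψ : Γ →+ G₁) (χ : G₁ →+ Q)
    {X : Finset Γ} (hinj : Set.InjOn ψ X) (q : Q) :
    fib (χ.comp ψ) X q = fib χ (X.image ψ) q := by
  unfold fib
  rw [filter_image, card_image_of_injOn (hinj.mono (coe_subset.2 (filter_subset _ _)))]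
  rfl

lemma card_psi_image_le (ψ : Γ →+ G₁) (X Y : Finset Γ) :
    (psi (X.image ψ) (Y.image ψ)).card ≤ (psi X Y).card := by
  refine le_trans (card_le_card ?_) (card_image_le (f := ψ))
  intro z hz
  rcases mem_union.1 hz with h | h
  · obtain ⟨_, ha, _, hb, rfl⟩ := mem_sub.1 h
    obtain ⟨a, ha', rfl⟩ := mem_image.1 ha
    obtain ⟨b, hb', rfl⟩ := mem_image.1 hb
    exact mem_image.2 ⟨a - b, mem_union_left _ (sub_mem_sub ha' hb'), map_sub ψ a b⟩
  · obtain ⟨_, ha, _, hb, rfl⟩ := mem_sub.1 h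
    obtain ⟨a, ha', rfl⟩ := mem_image.1 ha
    obtain ⟨b, hb', rfl⟩ := mem_image.1 hb
    exact mem_image.2 ⟨a - b, mem_union_right _ (sub_mem_sub ha' hb'), map_sub ψ a b⟩

/-- If no two points of the image differ by an element of order `p`, then `p * p` divides `e`. -/
lemma Ctx.sq_dvd {e m T p : ℕ} {A : Finset G} (hc : Ctx G e m T) (hA : Bad m T A) (φ : G →+ Γ)
    (hφ : Function.Surjective φ) (hp : p.Prime) (hpe : p ∣ e) {z : Γ} (hz : z ≠ 0)
    (hpz : p • z = 0) (hX : ∀ x ∈ A.image φ, ∀ x' ∈ A.image φ, p • (x - x') = 0 → x = x') :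
    p * p ∣ e := by
  obtain ⟨e', rfl⟩ := hpe
  by_contra hn
  have hpe' : ¬ p ∣ e' := fun h => hn (Nat.mul_dvd_mul_left p h)
  obtain ⟨y, rfl⟩ := hφ z
  have hoz : addOrderOf (φ y) = p := by
    haveI := Fact.mk hp
    exact addOrderOf_eq_prime hpz hz
  have hx0 : φ (e' • y) ≠ 0 := by
    rw [map_nsmul]
    intro h
    exact hpe' (hoz ▸ addOrderOf_dvd_of_nsmul_eq_zero h)
  have hpx : p • (e' • y) = 0 := by rw [← mul_nsmul', hc.e_smul]
  have hK : AddSubgroup.zmultiples (e' • y) ≠ ⊥ := by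
    rw [Ne, AddSubgroup.zmultiples_eq_bot]
    intro h
    exact hx0 (by rw [h, map_zero])
  obtain ⟨a, ha, b, hb, hab, hm⟩ := hc.exists_sub_mem hA hK
  obtain ⟨j, hj⟩ := AddSubgroup.mem_zmultiples_iff.1 hm
  have h1 : φ a = φ b := by
    refine hX _ (mem_image_of_mem φ ha) _ (mem_image_of_mem φ hb) ?_
    rw [← map_sub, ← hj, ← map_nsmul, smul_comm, hpx, smul_zero, map_zero]
  have h2 : j • φ (e' • y) = 0 := by rw [← map_zsmul, hj, map_sub, h1, sub_self]
  have hox : addOrderOf (φ (e' • y)) = p := by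
    haveI := Fact.mk hp
    exact addOrderOf_eq_prime (by rw [← map_nsmul, hpx, map_zero]) hx0
  obtain ⟨i, rfl⟩ : (p : ℤ) ∣ j := hox ▸ (addOrderOf_dvd_iff_zsmul_eq_zero.2 h2)
  apply hab
  rw [← sub_eq_zero, ← hj, mul_comm, mul_smul, natCast_zsmul, hpx, smul_zero]

lemma index_split {Q : Type} [AddCommGroup Q] [Fintype Q] {S : AddSubgroup Q} (hS : S ≠ ⊤) :
    ∃ j, Nat.card Q = Nat.card S * j ∧ j ≠ 1 := by
  refine ⟨S.index, (AddSubgroup.card_mul_index S).symm, fun h => hS ?_⟩
  exact AddSubgroup.index_eq_one.1 h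

/-- The case of a line with at least `s + 2` points. -/
lemma core_alpha {e m w h r p N s : ℕ} {A : Finset G} (hc : Ctx G e m (2 * m + w))
    (hA : Bad m (2 * m + w) A) (φ : G →+ Γ) (hφ : Function.Surjective φ) (hh : 0 < h)
    (hmax : ∀ K : AddSubgroup Γ, K ≠ ⊥ → K ≠ ⊤ →
      4 * m ≤ 3 * (h * ((cov K (A.image φ) - 1) * Nat.card K)) ∨
        m + 2 * w ≤ h * ((cov K (A.image φ) - 1) * Nat.card K))
    (H : Ar (Nat.card G) e m w h r p N) (hΓ : Nat.card Γ = r * (p * N)) (ψ : Γ →+ G₁)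
    (hψ : Function.Surjective ψ) (hinj : Set.InjOn ψ (A.image φ)) (hG₁ : Nat.card G₁ = p * N)
    (hmode : r = 1 ∨ ∀ x ∈ A.image φ, ∀ x' ∈ A.image φ, p • (x - x') = 0 → x = x')
    {v : G₁} (hv : Nat.card (AddSubgroup.zmultiples v) = p) {x₀ : G₁}
    (hx₀ : s + 2 ≤ onLine v ((A.image φ).image ψ) x₀) (hs : s * (h * N) < m)
    (hs' : m ≤ h * N * (s + 1)) (hM : 3 * h < m) (hcm : h * (A.image φ).card < m + w + h)
    {Y : Finset Γ} (hY : Y ⊆ A.image φ) (hcy : 2 * m ≤ h * ((A.image φ).card + Y.card)) :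
    Nat.card Γ ≤ (psi (A.image φ) Y).card ∨
      h * Y.card + m + w ≤ h * (psi (A.image φ) Y).card := by
  classical
  set X := A.image φ with hXdef
  haveI := Fintype.ofFinite (G₁ ⧸ AddSubgroup.zmultiples v)
  set χ := QuotientAddGroup.mk' (AddSubgroup.zmultiples v) with hχ
  have hχs : Function.Surjective χ := QuotientAddGroup.mk'_surjective _
  have hkerχ : Nat.card χ.ker = p := by rw [hχ, QuotientAddGroup.ker_mk', hv]
  have hp0 := H.p_prime.pos
  have hp3 := H.p_ge
  have hQ : Nat.card (G₁ ⧸ AddSubgroup.zmultiples v) = N := by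
    have := card_eq_ker_mul χ hχs
    rw [hkerχ, hG₁] at this
    exact (Nat.eq_of_mul_eq_mul_left hp0 this).symm
  have hNodd : Odd N := H.odd_of_dvd ⟨h * r * p, by rw [H.n_eq]; ring⟩
  have hN3 : 3 ≤ N := hp3.trans (Nat.le_of_dvd hNodd.pos H.p_dvd)
  have hΓodd : Odd (Nat.card Γ) := H.odd_of_dvd ⟨h, by rw [H.n_eq, hΓ]; ring⟩
  have hφ's : Function.Surjective (χ.comp ψ) := hχs.comp hψ
  have hker' : Nat.card (χ.comp ψ).ker = r * p := by
    have := card_eq_ker_mul (χ.comp ψ) hφ's
    rw [hΓ, hQ, ← mul_assoc] at this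
    exact (Nat.eq_of_mul_eq_mul_right hNodd.pos this).symm
  have hr0 : 0 < r := by
    have : 0 < Nat.card Γ := Nat.card_pos
    rw [hΓ] at this
    exact Nat.pos_of_mul_pos_right this
  have hfibp : ∀ q, fib (χ.comp ψ) X q ≤ p := fun q => by
    rw [fib_comp_of_injOn ψ χ hinj, ← hkerχ]
    exact fib_le_ker χ _ q
  have hS3 : ∀ S : AddSubgroup (G₁ ⧸ AddSubgroup.zmultiples v), S ≠ ⊤ →
      3 ≤ cov S (X.image (χ.comp ψ)) := fun S hS => by
    rw [← cov_comap, hXdef, ← cov_comap]
    exact hc.three_le_cov hA H.e_np (comap_ne_top φ hφ (comap_ne_top _ hφ's hS))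
  have hroom := hc.room hA
  have hex := hc.excess hA H.e_np
  have hcX : X.card ≤ Nat.card Γ := by rw [Nat.card_eq_fintype_card]; exact card_le_univ X
  have hYX := card_le_card hY
  have hmc : m ≤ h * X.card := by linarith [Nat.mul_le_mul_left h hYX]
  -- the cap
  obtain ⟨P, hP, hpP, hCD, hΓP, hroomP, hκ, h9⟩ : ∃ P, Odd P ∧ p ≤ P ∧ FibCD (χ.comp ψ) X P ∧
      Nat.card Γ ≤ P * N ∧ 2 * m + 3 * w ≤ h * (P * N) ∧
      (∀ S : AddSubgroup (G₁ ⧸ AddSubgroup.zmultiples v), S ≠ ⊤ →
        4 * m ≤ 3 * (h * (P * ((cov S (X.image (χ.comp ψ)) - 1) * Nat.card S))) ∨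
          m + 2 * w ≤ h * (P * ((cov S (X.image (χ.comp ψ)) - 1) * Nat.card S))) ∧
      (P = 3 → p = 3 ∧ r = 1) := by
    rcases hmode with hr | hsp
    · subst hr
      rw [one_mul] at hker' hΓ
      refine ⟨p, H.odd_of_dvd H.p_dvd_n, le_rfl, fibCD_of_prime _ H.p_prime hker' X, hΓ.le, ?_,
        fun S hS => ?_, fun h => ⟨h, rfl⟩⟩
      · have := H.n_eq
        rw [mul_one] at this
        omega
      · have h1 := card_comap _ hφ's S
        have h2 : S.comap (χ.comp ψ) ≠ ⊥ := by
          intro h0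
          rw [h0, AddSubgroup.card_bot, hker'] at h1
          have := Nat.eq_one_of_mul_eq_one_right h1.symm
          omega
        have h3 := hmax _ h2 (comap_ne_top _ hφ's hS)
        rw [cov_comap, h1, hker', mul_left_comm _ p] at h3
        exact h3
    · have hpΓ : p ≤ Nat.card Γ := by rw [hΓ]; linarith [Nat.mul_le_mul_left p (Nat.mul_pos hr0 hNodd.pos)]
      refine ⟨2 * Nat.card Γ + 1, odd_two_mul_add_one _, by omega,
        fibCD_of_sparse hΓodd ψ χ H.p_prime hkerχ X hinj hsp _, by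
          linarith [Nat.mul_le_mul_left (Nat.card Γ) hN3, Nat.zero_le (Nat.card Γ * N), Nat.zero_le N], ?_,
        fun S hS => Or.inr ?_, fun h => by omega⟩
      · have h1 : h * X.card ≤ h * Nat.card Γ := Nat.mul_le_mul_left h hcX
        have h2 : h * (3 * Nat.card Γ) ≤ h * ((2 * Nat.card Γ + 1) * N) :=
          Nat.mul_le_mul_left h (by linarith [Nat.mul_le_mul_left (Nat.card Γ) hN3, Nat.zero_le (Nat.card Γ * N), Nat.zero_le N])
        linarith
      · have h1 : h * X.card ≤ h * Nat.card Γ := Nat.mul_le_mul_left h hcX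
        have h2 := hS3 S hS
        have h3 : 0 < Nat.card S := Nat.card_pos
        have h4 : 1 ≤ (cov S (X.image (χ.comp ψ)) - 1) * Nat.card S :=
          Nat.mul_pos (by omega) h3
        have h5 : h * (2 * Nat.card Γ) ≤
            h * ((2 * Nat.card Γ + 1) * ((cov S (X.image (χ.comp ψ)) - 1) * Nat.card S)) :=
          Nat.mul_le_mul_left h (by linarith [Nat.mul_le_mul_left (2 * Nat.card Γ + 1) h4])
        linarith
  have hq : (0 : ℚ) < h := by exact_mod_cast hh
  have hM' : (m : ℚ) = h * (m / h) := by field_simp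
  have hg' : (w : ℚ) = h * (w / h) := by field_simp
  have hdiv : ∀ {a b : ℚ}, h * a ≤ h * b → a ≤ b := fun hab => le_of_mul_le_mul_left hab hq
  have hdiv' : ∀ {a b : ℚ}, h * a < h * b → a < b := fun hab => lt_of_mul_lt_mul_left hab hq.le
  have key := levelsA (hQ ▸ hNodd) (χ.comp ψ) X Y hY P s (m / h) (w / h) hP (hp3.trans hpP) hCD
    (fun q => (hfibp q).trans hpP) (hQ ▸ hN3) hS3
    (fun S hS => by
      rcases hκ S hS with h1 | h1
      · left
        have h2 : (4 * m : ℚ) ≤ 3 * (h * (P * (((cov S (X.image (χ.comp ψ)) - 1) * Nat.card S : ℕ) :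
          ℚ))) := by exact_mod_cast h1
        exact hdiv (by linarith)
      · right
        have h2 : (m + 2 * w : ℚ) ≤ h * (P * (((cov S (X.image (χ.comp ψ)) - 1) * Nat.card S : ℕ) :
          ℚ)) := by exact_mod_cast h1
        exact hdiv (by linarith))
    (fun S hS => by
      obtain ⟨j, hj, hj1⟩ := index_split hS
      rcases H.ar2 (hQ ▸ hj) hj1 with h1 | h1 | h1
      · left
        have h2 : (5 * (h * Nat.card S) : ℚ) < m := by exact_mod_cast h1
        exact hdiv' (by linarith)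
      · right; left
        have h2 : (w : ℚ) ≤ h * Nat.card S := by exact_mod_cast h1
        exact hdiv (by linarith)
      · right; right
        have h2 : (5 * w : ℚ) ≤ m := by exact_mod_cast h1
        exact hdiv (by linarith))
    (fun h3 => by
      rcases H.nine (h9 h3).1 (h9 h3).2 with h1 | h1
      · left
        have h2 : (5 * w : ℚ) ≤ h * N := by exact_mod_cast h1
        rw [hQ]
        exact hdiv (by linarith)
      · right
        intro S hS
        obtain ⟨j, hj, hj1⟩ := index_split hS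
        rw [hQ] at hj ⊢
        exact h1 _ j hj hj1)
    (by
      have h2 : (2 * m : ℚ) ≤ h * (X.card + Y.card) := by exact_mod_cast hcy
      exact hdiv (by linarith))
    (by
      have h2 : (h * X.card : ℚ) < m + w + h := by exact_mod_cast hcm
      exact hdiv' (by linarith))
    (by positivity)
    (by
      have h2 : (3 * w : ℚ) ≤ h * N := by exact_mod_cast H.gN
      rw [hQ]
      exact hdiv (by linarith))
    (by
      have h2 : (3 * w : ℚ) ≤ m := by exact_mod_cast (by omega : 3 * w ≤ m)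
      exact hdiv (by linarith))
    (by
      have h2 : (3 * h : ℚ) < m := by exact_mod_cast hM
      exact hdiv' (by linarith))
    (by
      have h2 : (s * (h * N) : ℚ) < m := by exact_mod_cast hs
      rw [hQ]
      exact hdiv' (by linarith))
    (by
      have h2 : (2 * m + w : ℚ) ≤ (2 * s + 1) * (h * N) := by exact_mod_cast H.T_le hs'
      rw [hQ]
      exact hdiv (by linarith))
    (by
      have h2 : (2 * m + 3 * w : ℚ) ≤ h * (P * N) := by exact_mod_cast hroomP
      rw [hQ]
      exact hdiv (by linarith))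
    ⟨x₀, by rw [fib_comp_of_injOn ψ χ hinj, ← onLine_eq_fib]; exact hx₀⟩
  rcases key with h1 | h1
  · left
    rw [hQ] at h1
    omega
  · right
    have h2 := mul_le_mul_of_nonneg_left h1 hq.le
    have h3 : (h * Y.card + m + w : ℚ) ≤ h * (psi X Y).card := by linarith
    exact_mod_cast h3

/-- The case in which all lines of the plane directions are short. -/
lemma core_beta {n e m w h r p N s : ℕ} (hh : 0 < h) (H : Ar n e m w h r p N) (ψ : Γ →+ G₁)
    {X Y : Finset Γ} (hinj : Set.InjOn ψ X) (hG₁ : Nat.card G₁ = p * N) {a b : G₁}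
    (hab : Plane p a b) (hY : Y ⊆ X) (hs1 : 1 ≤ s)
    (hX : ∀ i, i ≤ p → ∀ x, onLine (dir p a b i) (X.image ψ) x ≤ s + 1) (hs : s * (h * N) < m)
    (hs' : m ≤ h * N * (s + 1)) (hroom : 2 * m + 3 * w ≤ h * (p * N))
    (hcy : 2 * m ≤ h * (X.card + Y.card)) : 2 * m + w ≤ h * (psi X Y).card := by
  have hq : (0 : ℚ) < h := by exact_mod_cast hh
  have hM' : (m : ℚ) = h * (m / h) := by field_simp
  have hg' : (w : ℚ) = h * (w / h) := by field_simp
  have hdiv : ∀ {a b : ℚ}, h * a ≤ h * b → a ≤ b := fun hab => le_of_mul_le_mul_left hab hq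
  have hdiv' : ∀ {a b : ℚ}, h * a < h * b → a < b := fun hab => lt_of_mul_lt_mul_left hab hq.le
  have hodd : Odd (Nat.card G₁) := H.odd_of_dvd ⟨h * r, by rw [H.n_eq, hG₁]; ring⟩
  have key := beta hodd hab hG₁ (X.image ψ) (Y.image ψ) (image_subset_image hY) hs1 hX
    (m / h) (w / h) (by positivity)
    (by
      have h2 : (3 * w : ℚ) ≤ h * N := by exact_mod_cast H.gN
      exact hdiv (by linarith))
    (by
      have h2 : (s * (h * N) : ℚ) < m := by exact_mod_cast hs
      exact hdiv' (by linarith))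
    (by
      have h2 : (2 * m + w : ℚ) ≤ (2 * s + 1) * (h * N) := by exact_mod_cast H.T_le hs'
      exact hdiv (by linarith))
    (by
      have h2 : (2 * m + 3 * w : ℚ) ≤ h * (p * N) := by exact_mod_cast hroom
      exact hdiv (by linarith))
    (by
      have h2 : (2 * m : ℚ) ≤ h * (X.card + Y.card) := by exact_mod_cast hcy
      rw [card_image_of_injOn hinj, card_image_of_injOn (hinj.mono hY)]
      exact hdiv (by linarith))
    (fun j hj hjp hjN k hk => by
      have h1 := mul_le_mul_of_nonneg_left hk hq.le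
      have h2 : (j * m : ℚ) ≤ h * N * k := by rw [hM']; linarith
      have h3 := H.arj hj hjp hjN (k := k) (by exact_mod_cast h2)
      have h4 : (j * (2 * m + w) + h * N : ℚ) ≤ 2 * (h * N * k) := by exact_mod_cast h3
      refine hdiv ?_
      rw [hM', hg'] at h4
      linarith)
    (fun hp hk => by
      have h1 := mul_le_mul_of_nonneg_left hk hq.le
      have h2 : (7 * m : ℚ) ≤ 8 * (h * N) := by linarith
      have h3 := H.three hp (by exact_mod_cast h2)
      have h4 : (3 * (2 * m + w) : ℚ) ≤ 7 * (h * N) := by exact_mod_cast h3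
      exact hdiv (by linarith))
  have h1 : ((psi (X.image ψ) (Y.image ψ)).card : ℚ) ≤ (psi X Y).card := by
    exact_mod_cast card_psi_image_le ψ X Y
  have h2 := mul_le_mul_of_nonneg_left (key.trans h1) hq.le
  have h3 : (2 * m + w : ℚ) ≤ h * (psi X Y).card := by linarith
  exact_mod_cast h3

end Pool.Agent.P.MP_7ea450_co
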