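import Pool.Agent.P.MP_7ea450_co.Defs

/-!
The arithmetic of allowed divisors used in the core argument.
-/

namespace Pool.Agent.P.MP_7ea450_co

/-- The arithmetic data of a frame. -/
structure Ar (n e m w h r p N : ℕ) : Prop where
  bnd : Bnd n e m (2 * m + w)
  n_odd : Odd n
  e_dvd : e ∣ n
  primes : ∀ q, q.Prime → q ∣ n → q ∣ e
  e_np : ¬ e.Prime
  n_eq : n = h * r * (p * N)
  p_prime : p.Prime
  p_dvd : p ∣ N
  m_le : m ≤ h * (p * N)
  mode : r = 1 ∨ p * p ∣ e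
  ex9 : 9 ∣ n → ¬ 9 ∣ e → 5 * w ≤ m

variable {n e m w h r p N : ℕ}

lemma Ar.n_pos (H : Ar n e m w h r p N) : 0 < n := H.n_odd.pos

lemma Ar.odd_of_dvd (H : Ar n e m w h r p N) {d : ℕ} (hd : d ∣ n) : Odd d :=
  Odd.of_dvd_nat H.n_odd hd

lemma Ar.p_dvd_n (H : Ar n e m w h r p N) : p ∣ n :=
  ⟨h * r * N, by rw [H.n_eq]; ring⟩

lemma Ar.p_ge (H : Ar n e m w h r p N) : 3 ≤ p := by
  have h1 := H.p_prime.two_le
  obtain ⟨k, hk⟩ := H.odd_of_dvd H.p_dvd_n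
  omega

/-- An allowed divisor bounds the excess. -/
lemma Ar.w_le (H : Ar n e m w h r p N) {d j : ℕ} (hj : j ∣ e) (hd : d * j ∣ n) (hm : m ≤ d * j) :
    w + 2 ≤ d := by
  have hd' : d ∣ n := (Dvd.intro j rfl).trans hd
  have := H.bnd.le_add (Nat.pos_of_dvd_of_pos hd' H.n_pos) hd' (allowed_of_dvd H.n_pos hj hd hm)
  omega

lemma Ar.T_le' (H : Ar n e m w h r p N) {d j k : ℕ} (hj : j ∣ e) (hd : d * j ∣ n) (hm : m ≤ d * j)
    (hk : m ≤ d * k) : 2 * m + w + d ≤ 2 * (d * k) :=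
  H.bnd d k ((Dvd.intro j rfl).trans hd) (allowed_of_dvd H.n_pos hj hd hm) hk

/-- The shape of `e` when the frame quotient is trivial. -/
lemma Ar.split (H : Ar n e m w h r p N) (hr : r = 1) :
    ∃ e' d, e = p * e' ∧ Odd e' ∧ 3 ≤ e' ∧ h * N = d * e' ∧ d * e = n ∧ m ≤ d * e := by
  obtain ⟨e', he'⟩ := H.primes p H.p_prime H.p_dvd_n
  obtain ⟨d, hd⟩ := H.e_dvd
  have hodd : Odd e' := H.odd_of_dvd ((Dvd.intro_left p he'.symm).trans H.e_dvd)
  have hne : e' ≠ 1 := by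
    rintro rfl
    exact H.e_np (by rw [he', mul_one]; exact H.p_prime)
  have h1 := H.n_eq
  have h2 := H.m_le
  subst hr
  refine ⟨e', d, he', hodd, ?_, ?_, by rw [hd, mul_comm], by rw [mul_comm d, ← hd, h1]; simpa⟩
  · obtain ⟨k, hk⟩ := hodd
    omega
  · refine Nat.eq_of_mul_eq_mul_left H.p_prime.pos ?_
    rw [hd, he'] at h1
    linarith

lemma Ar.gN (H : Ar n e m w h r p N) : 3 * w ≤ h * N := by
  rcases H.mode with hr | hp
  · obtain ⟨e', d, -, -, h3, h4, h5, h6⟩ := H.split hr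
    have := H.w_le (dvd_refl e) (h5 ▸ dvd_refl _) h6
    rw [h4]
    (first | linarith | nlinarith)
  · obtain ⟨N', rfl⟩ := H.p_dvd
    have h1 := H.w_le (d := h * N') hp ⟨r, by rw [H.n_eq]; ring⟩
      (H.m_le.trans (le_of_eq (by ring)))
    have h2 := H.p_ge
    (first | linarith | nlinarith)

lemma Ar.T_le (H : Ar n e m w h r p N) {s : ℕ} (hs : m ≤ h * N * (s + 1)) :
    2 * m + w ≤ (2 * s + 1) * (h * N) := by
  have := H.T_le' (d := h * N) (H.primes p H.p_prime H.p_dvd_n) ⟨r, by rw [H.n_eq]; ring⟩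
    (H.m_le.trans (le_of_eq (by ring))) hs
  (first | linarith | nlinarith)

lemma Ar.ar2 (H : Ar n e m w h r p N) {d j : ℕ} (hN : N = d * j) (hj : j ≠ 1) :
    5 * (h * d) < m ∨ w ≤ h * d ∨ 5 * w ≤ m := by
  by_contra hcon
  push Not at hcon
  obtain ⟨h1, h2, h3⟩ := hcon
  have key : ∀ i, 5 ≤ i → i ∣ e → i ∣ p * j → False := by
    rintro i hi hie ⟨t, ht⟩
    have := H.w_le (d := h * d) hie ⟨r * t, by
      rw [H.n_eq, hN]
      calc h * r * (p * (d * j)) = h * r * d * (p * j) := by ring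
        _ = _ := by rw [ht]; ring⟩ (by (first | linarith | nlinarith))
    omega
  have hp3 := H.p_ge
  have hpodd := H.odd_of_dvd H.p_dvd_n
  by_cases hp : 5 ≤ p
  · exact key p hp (H.primes p H.p_prime H.p_dvd_n) (Dvd.intro _ rfl)
  have hp' : p = 3 := by
    obtain ⟨k, hk⟩ := hpodd
    omega
  obtain ⟨q, hq, hqj⟩ := Nat.exists_prime_and_dvd hj
  have hqn : q ∣ n := hqj.trans ⟨h * r * p * d, by rw [H.n_eq, hN]; ring⟩
  by_cases hq5 : 5 ≤ q
  · exact key q hq5 (H.primes q hq hqn) (hqj.mul_left p)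
  have hq' : q = 3 := by
    have := hq.two_le
    obtain ⟨k, hk⟩ := H.odd_of_dvd hqn
    omega
  have h9 : 9 ∣ p * j := by
    rw [hp', show 9 = 3 * 3 by rfl]
    exact Nat.mul_dvd_mul_left 3 (hq' ▸ hqj)
  by_cases h9e : 9 ∣ e
  · exact key 9 (by omega) h9e h9
  · have := H.ex9 (h9.trans ⟨h * r * d, by rw [H.n_eq, hN]; ring⟩) h9e
    omega

lemma Ar.nine (H : Ar n e m w h r p N) (hp : p = 3) (hr : r = 1) :
    5 * w ≤ h * N ∨ ∀ d j, N = d * j → j ≠ 1 → 3 * d = N ∨ 9 * d ≤ N := by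
  obtain ⟨e', d₀, h1, h2, h3, h4, h5, h6⟩ := H.split hr
  by_cases he : 5 ≤ e'
  · left
    have := H.w_le (dvd_refl e) (h5 ▸ dvd_refl _) h6
    rw [h4]
    (first | linarith | nlinarith)
  right
  have he9 : e = 9 := by
    obtain ⟨k, hk⟩ := h2
    have : e' = 3 := by omega
    rw [h1, hp, this]
  intro d j hN hj
  have hjn : j ∣ n := ⟨h * r * p * d, by rw [H.n_eq, hN]; ring⟩
  obtain ⟨k, hk⟩ := H.odd_of_dvd hjn
  have h5' : j ≠ 5 := by
    rintro rfl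
    have := H.primes 5 (by norm_num) hjn
    omega
  have h7' : j ≠ 7 := by
    rintro rfl
    have := H.primes 7 (by norm_num) hjn
    omega
  rcases (show j = 3 ∨ 9 ≤ j by omega) with h | h
  · left
    rw [hN, h, mul_comm]
  · right
    rw [hN, mul_comm]
    exact Nat.mul_le_mul_left d h

lemma Ar.arj (H : Ar n e m w h r p N) {j k : ℕ} (hj : j.Prime) (hjp : j ≠ p) (hjN : j ∣ N)
    (hk : j * m ≤ h * N * k) : j * (2 * m + w) + h * N ≤ 2 * (h * N * k) := by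
  obtain ⟨d, rfl⟩ := hjN
  have hjn : j ∣ n := ⟨h * r * p * d, by rw [H.n_eq]; ring⟩
  have h1 : j * p ∣ e := Nat.Coprime.mul_dvd_of_dvd_of_dvd
    ((Nat.coprime_primes hj H.p_prime).2 hjp) (H.primes j hj hjn) (H.primes p H.p_prime H.p_dvd_n)
  have h2 : m ≤ h * d * k := Nat.le_of_mul_le_mul_left (hk.trans (le_of_eq (by ring))) hj.pos
  have := H.T_le' (d := h * d) h1 ⟨r, by rw [H.n_eq]; ring⟩ (H.m_le.trans (le_of_eq (by ring))) h2
  have h3 := Nat.mul_le_mul_left j this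
  (first | linarith | nlinarith)

lemma Ar.three (H : Ar n e m w h r p N) (hp : p = 3) (hm : 7 * m ≤ 8 * (h * N)) :
    3 * (2 * m + w) ≤ 7 * (h * N) := by
  by_cases h9 : p * p ∣ e
  · obtain ⟨d, rfl⟩ := H.p_dvd
    have := H.T_le' (d := h * d) (k := 4) h9 ⟨r, by rw [H.n_eq]; ring⟩
      (H.m_le.trans (le_of_eq (by ring))) (by subst hp; (first | linarith | nlinarith))
    subst hp
    (first | linarith | nlinarith)
  obtain ⟨e', d, -, h2, h3, h4, h5, h6⟩ := H.split (H.mode.resolve_right h9)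
  obtain ⟨k, hk1, hk2⟩ : ∃ k, 8 * e' ≤ 7 * k ∧ 6 * k ≤ 7 * e' + 3 := by
    obtain ⟨i, hi⟩ := h2
    exact ⟨(7 * e' + 3) / 6, by omega, by omega⟩
  rw [h4] at hm ⊢
  have := H.T_le' (k := k) (dvd_refl e) (h5 ▸ dvd_refl _) h6 (by (first | linarith | nlinarith))
  (first | linarith | nlinarith)

end Pool.Agent.P.MP_7ea450_co
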