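import Pool.Agent.P.MP_7ea450_co.LevBasic

/-!
The setting of a minimal counterexample, and the sumset definitions used for signed sumsets.
-/

open Finset
open scoped Pointwise

namespace Pool.Agent.P.MP_7ea450_co

/-- The standing assumptions on a group of minimal order in which the bound may fail. -/
structure Ctx (G : Type) [AddCommGroup G] [Fintype G] [DecidableEq G] (e m T : ℕ) : Prop where
  ih : IHyp (Nat.card G)
  e_pos : 0 < e
  e_smul : ∀ x : G, e • x = 0
  e_dvd : e ∣ Nat.card G
  m_pos : 1 ≤ m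
  bnd : Bnd (Nat.card G) e m T

/-- A set which violates the bound. -/
def Bad {G : Type} [AddCommGroup G] [DecidableEq G] (m T : ℕ) (A : Finset G) : Prop :=
  m ≤ A.card ∧ (A - A).card < T

/-- The `h`-fold signed sumset. -/
def sset {G : Type} [AddCommGroup G] (A : Finset G) (h : ℕ) : Set G :=
  {g : G | ∃ c : G → ℤ, ∑ a ∈ A, |c a| = (h : ℤ) ∧ ∑ a ∈ A, c a • a = g}

/-- A set that holds no element together with its negative. -/
def Asym {G : Type} [AddCommGroup G] (P : Finset G) : Prop := ∀ x ∈ P, -x ∉ P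

/-- The `h`-fold sumset. -/
def hs {G : Type} [AddCommGroup G] [DecidableEq G] (B : Finset G) : ℕ → Finset G
  | 0 => {0}
  | h + 1 => hs B h + B

lemma mem_hs {G : Type} [AddCommGroup G] [DecidableEq G] {B : Finset G} {h : ℕ} {x : G} :
    x ∈ hs B h ↔ ∃ s : Multiset G, s.card = h ∧ (∀ y ∈ s, y ∈ B) ∧ s.sum = x := by
  induction h generalizing x with
  | zero =>
    simp only [hs, mem_singleton, Multiset.card_eq_zero]
    constructor
    · rintro rfl
      exact ⟨0, rfl, by simp, rfl⟩
    · rintro ⟨s, rfl, -, rfl⟩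
      rfl
  | succ h ih =>
    simp only [hs, mem_add]
    constructor
    · rintro ⟨y, hy, b, hb, rfl⟩
      obtain ⟨s, h1, h2, rfl⟩ := ih.1 hy
      refine ⟨b ::ₘ s, by simp [h1], ?_, by simp [add_comm]⟩
      intro z hz
      rcases Multiset.mem_cons.1 hz with rfl | hz
      · exact hb
      · exact h2 z hz
    · rintro ⟨s, h1, h2, rfl⟩
      obtain ⟨b, hb⟩ := Multiset.card_pos_iff_exists_mem.1 (show 0 < s.card by omega)
      obtain ⟨t, rfl⟩ := Multiset.exists_cons_of_mem hb
      refine ⟨t.sum, ih.2 ⟨t, by simpa using h1, fun y hy => h2 y (Multiset.mem_cons_of_mem hy),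
        rfl⟩, b, h2 b hb, by simp [add_comm]⟩

lemma hs_one {G : Type} [AddCommGroup G] [DecidableEq G] (B : Finset G) : hs B 1 = B := by
  ext x
  simp [hs, mem_add]

lemma hs_two {G : Type} [AddCommGroup G] [DecidableEq G] (B : Finset G) : hs B 2 = B + B := by
  rw [hs, hs_one]

end Pool.Agent.P.MP_7ea450_co
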