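import Mathlib
import Pool.Agent.Lib.Additive.Kneser

/-!
Shared definitions and tools for the lower bound on difference sets in finite abelian groups.
-/

open Finset
open scoped Pointwise

namespace Pool.Agent.P.MP_7ea450_co

/-- `T` is at most `d (2k - 1)` for every allowed divisor `d` and every `k` with `m ≤ d k`. -/
def Bnd (n e m T : ℕ) : Prop :=
  ∀ d k : ℕ, d ∣ n → m ≤ Nat.gcd (d * e) n → m ≤ d * k → T + d ≤ 2 * (d * k)

/-- The `h`-fold version of `Bnd`. -/
def Bndh (h n e m T : ℕ) : Prop :=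
  ∀ d k : ℕ, d ∣ n → m ≤ Nat.gcd (d * e) n → m ≤ d * (k + 1) → T ≤ d * (h * k + 1)

/-- The lower bound for difference sets in the group `G`. -/
def MProp (G : Type) [AddCommGroup G] [Fintype G] [DecidableEq G] : Prop :=
  ∀ (e m T : ℕ) (A : Finset G), 0 < e → (∀ x : G, e • x = 0) → 1 ≤ m → m ≤ A.card →
    Bnd (Nat.card G) e m T → T ≤ (A - A).card

/-- The induction hypothesis: the bound holds in all groups of order below `n`. -/
def IHyp (n : ℕ) : Prop :=
  ∀ (G : Type) [AddCommGroup G] [Fintype G] [DecidableEq G], Nat.card G < n → MProp G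

lemma Bnd.mono_m {n e m m' T : ℕ} (h : Bnd n e m T) (hm : m ≤ m') : Bnd n e m' T :=
  fun d k hd h1 h2 => h d k hd (hm.trans h1) (hm.trans h2)

lemma Bnd.mono_T {n e m T T' : ℕ} (h : Bnd n e m T) (hT : T' ≤ T) : Bnd n e m T' :=
  fun d k hd h1 h2 => by have := h d k hd h1 h2; omega

lemma Bnd.of_dvd {n e n' e' m T : ℕ} (h : Bnd n e m T) (hn0 : 0 < n) (hn : n' ∣ n) (he : e' ∣ e) :
    Bnd n' e' m T := by
  intro d k hd h1 h2
  refine h d k (hd.trans hn) (h1.trans ?_) h2
  refine Nat.le_of_dvd (Nat.gcd_pos_of_pos_right _ hn0) ?_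
  exact Nat.gcd_dvd_gcd_of_dvd_left _ (Nat.mul_dvd_mul_left d he) |>.trans
    (Nat.gcd_dvd_gcd_of_dvd_right _ hn)

/-- Scaling: pass from order `n` to a divisor `n'` of `n / c`, dividing `m` and `T` by `c`. -/
lemma Bnd.scale {n e n' c m m' T T' : ℕ} (h : Bnd n e m T) (hn0 : 0 < n) (hn : c * n' ∣ n)
    (hm : m ≤ c * m') (hT : c * T' < T + c) : Bnd n' e m' T' := by
  intro d k hd h1 h2
  have hc : 0 < c := Nat.pos_of_ne_zero (by rintro rfl; simp at hn; omega)
  have h3 : m ≤ Nat.gcd (c * d * e) n := by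
    refine hm.trans ((Nat.mul_le_mul_left c h1).trans ?_)
    refine Nat.le_of_dvd (Nat.gcd_pos_of_pos_right _ hn0) ?_
    rw [← Nat.gcd_mul_left, mul_assoc]
    exact Nat.gcd_dvd_gcd_of_dvd_right _ hn
  have h4 := h (c * d) k ((Nat.mul_dvd_mul_left c hd).trans hn) h3
    (hm.trans (by rw [mul_assoc]; exact Nat.mul_le_mul_left c h2))
  by_contra hlt
  push Not at hlt
  have h5 : c * (2 * (d * k) + 1) ≤ c * (T' + d) := Nat.mul_le_mul_left c hlt
  nlinarith

/-- A divisor of `n` which is at least `m` bounds `T`. -/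
lemma Bnd.le_of_dvd {n e m T d : ℕ} (h : Bnd n e m T) (hn0 : 0 < n) (hd : d ∣ n) (hm : m ≤ d) :
    T ≤ d := by
  have h1 : m ≤ Nat.gcd (d * e) n :=
    hm.trans (Nat.le_of_dvd (Nat.gcd_pos_of_pos_right _ hn0)
      (Nat.dvd_gcd (Dvd.intro _ rfl) hd))
  have := h d 1 hd h1 (by omega)
  omega

/-- An allowed divisor `d` gives `T ≤ 2m + d - 2`. -/
lemma Bnd.le_add {n e m T d : ℕ} (h : Bnd n e m T) (hd0 : 0 < d) (hd : d ∣ n)
    (hm : m ≤ Nat.gcd (d * e) n) : T + 2 ≤ 2 * m + d := by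
  have h1 := Nat.div_add_mod (m + d - 1) d
  have h2 := Nat.mod_lt (m + d - 1) hd0
  have := h d ((m + d - 1) / d) hd hm (by omega)
  omega

/-- A sufficient condition for `d` to be allowed. -/
lemma allowed_of_dvd {n e m d j : ℕ} (hn0 : 0 < n) (hj : j ∣ e) (hd : d * j ∣ n) (hm : m ≤ d * j) :
    m ≤ Nat.gcd (d * e) n :=
  hm.trans (Nat.le_of_dvd (Nat.gcd_pos_of_pos_right _ hn0)
    (Nat.dvd_gcd (Nat.mul_dvd_mul_left d hj) hd))

section Cov

variable {G : Type} [AddCommGroup G] [Fintype G] [DecidableEq G]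

/-- The number of cosets of `K` that meet `A`. -/
noncomputable def cov (K : AddSubgroup G) (A : Finset G) : ℕ :=
  ((QuotientAddGroup.mk : G → G ⧸ K) '' (A : Set G)).ncard

/-- The number of points of `A` in the fibre of `φ` above `q`. -/
def fib {Q : Type} [AddCommGroup Q] [DecidableEq Q] (φ : G →+ Q) (A : Finset G) (q : Q) : ℕ :=
  (A.filter (fun a => φ a = q)).card

/-- The level set: points of the target whose fibre holds at least `i` points of `A`. -/
def lev {Q : Type} [AddCommGroup Q] [Fintype Q] [DecidableEq Q] (φ : G →+ Q) (A : Finset G)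
    (i : ℕ) : Finset Q :=
  univ.filter (fun q => i ≤ fib φ A q)

/-- The symmetrised difference set. -/
def psi (X Y : Finset G) : Finset G := (X - Y) ∪ (Y - X)

end Cov

end Pool.Agent.P.MP_7ea450_co
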