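import Pool.Agent.P.MP_7ea450_co.LevBasic

/-!
The choice of a quotient with a plane in which a set has a repeated line.
-/

open Finset
open scoped Pointwise

set_option linter.unusedSectionVars false
set_option linter.style.haveILetI false

namespace Pool.Agent.P.MP_7ea450_co

/-- `a` and `b` span a subgroup isomorphic to the plane over the field with `p` elements. -/
structure Plane {G : Type} [AddCommGroup G] (p : ℕ) (a b : G) : Prop where
  prime : p.Prime
  ha : p • a = 0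
  hb : p • b = 0
  indep : ∀ i j : ℤ, i • a + j • b = 0 → (p : ℤ) ∣ i ∧ (p : ℤ) ∣ j

variable {Γ : Type} [AddCommGroup Γ] [Fintype Γ] [DecidableEq Γ]

private lemma not_dvd_one {p : ℕ} (hp : p.Prime) : ¬ (p : ℤ) ∣ 1 := by
  intro h
  have := Int.natCast_dvd_natCast.1 (show (p : ℤ) ∣ ((1 : ℕ) : ℤ) by simpa using h)
  exact hp.one_lt.ne' (Nat.dvd_one.1 this)

private lemma plane_ne_zero {p : ℕ} {a b : Γ} (h : Plane p a b) : a ≠ 0 := by
  rintro rfl
  exact not_dvd_one h.prime (h.indep 1 0 (by simp)).1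

private lemma plane_notMem {p : ℕ} {a b : Γ} (h : Plane p a b) :
    b ∉ AddSubgroup.zmultiples a := by
  intro hb
  obtain ⟨i, hi⟩ := AddSubgroup.mem_zmultiples_iff.1 hb
  exact not_dvd_one h.prime (h.indep (-i) 1 (by simp [hi])).2

private lemma order_eq {p : ℕ} (hp : p.Prime) {a : Γ} (h0 : a ≠ 0) (ha : p • a = 0) :
    addOrderOf a = p := by
  haveI := Fact.mk hp
  exact addOrderOf_eq_prime ha h0

private lemma plane_of_notMem {p : ℕ} (hp : p.Prime) {a b : Γ} (h0 : a ≠ 0) (ha : p • a = 0)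
    (hb : p • b = 0) (hab : b ∉ AddSubgroup.zmultiples a) : Plane p a b := by
  refine ⟨hp, ha, hb, fun i j hij => ?_⟩
  have hb' : (p : ℤ) • b = 0 := by rw [natCast_zsmul]; exact hb
  have hj : (p : ℤ) ∣ j := by
    by_contra hj
    have hc : IsCoprime (p : ℤ) j :=
      ((Nat.prime_iff_prime_int.1 hp).irreducible.coprime_iff_not_dvd).2 hj
    obtain ⟨u, v, huv⟩ := hc
    apply hab
    refine AddSubgroup.mem_zmultiples_iff.2 ⟨-(v * i), ?_⟩
    have h1 : j • b = -(i • a) := eq_neg_of_add_eq_zero_right hij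
    calc (-(v * i)) • a = v • (-(i • a)) := by rw [neg_smul, mul_smul, smul_neg]
      _ = u • ((p : ℤ) • b) + v • (j • b) := by rw [hb', h1, smul_zero, zero_add]
      _ = (u * p + v * j) • b := by rw [add_smul, mul_smul, mul_smul]
      _ = b := by rw [huv, one_smul]
  refine ⟨?_, hj⟩
  obtain ⟨c, rfl⟩ := hj
  rw [mul_comm, mul_smul, hb', smul_zero, add_zero] at hij
  rw [← order_eq hp h0 ha]
  exact addOrderOf_dvd_iff_zsmul_eq_zero.2 hij

private lemma mem_tor {j : ℕ} {x : Γ} : x ∈ (nsmulAddMonoidHom j : Γ →+ Γ).ker ↔ j • x = 0 := by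
  simp [AddMonoidHom.mem_ker]

private lemma exists_plane_with {p : ℕ} (hp : p.Prime)
    (hlt : p < Nat.card (nsmulAddMonoidHom p : Γ →+ Γ).ker) {a : Γ} (h0 : a ≠ 0)
    (ha : p • a = 0) : ∃ b, Plane p a b := by
  by_contra hcon
  have hle : (nsmulAddMonoidHom p : Γ →+ Γ).ker ≤ AddSubgroup.zmultiples a := by
    intro b hb
    by_contra hab
    exact hcon ⟨b, plane_of_notMem hp h0 ha (mem_tor.1 hb) hab⟩
  have := AddSubgroup.card_le_of_le hle
  rw [Nat.card_zmultiples, order_eq hp h0 ha] at this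
  omega

private lemma plane_of_tor {p : ℕ} (hp : p.Prime)
    (hlt : p < Nat.card (nsmulAddMonoidHom p : Γ →+ Γ).ker) : ∃ a b : Γ, Plane p a b := by
  have hne : (nsmulAddMonoidHom p : Γ →+ Γ).ker ≠ ⊥ := by
    intro h
    rw [h, AddSubgroup.card_bot] at hlt
    exact absurd hp.one_lt (by omega)
  obtain ⟨a, ha, h0⟩ := (AddSubgroup.bot_or_exists_ne_zero _).resolve_left hne
  obtain ⟨b, hb⟩ := exists_plane_with hp hlt h0 (mem_tor.1 ha)
  exact ⟨a, b, hb⟩

private lemma tor_of_plane {p : ℕ} {a b : Γ} (h : Plane p a b) :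
    p < Nat.card (nsmulAddMonoidHom p : Γ →+ Γ).ker := by
  have hle : AddSubgroup.zmultiples a ≤ (nsmulAddMonoidHom p : Γ →+ Γ).ker :=
    AddSubgroup.zmultiples_le.2 (mem_tor.2 h.ha)
  by_contra hcon
  have := AddSubgroup.eq_of_le_of_card_ge hle
    (by rw [Nat.card_zmultiples, order_eq h.prime (plane_ne_zero h) h.ha]; omega)
  exact plane_notMem h (this ▸ mem_tor.2 h.hb)

private lemma tor_le_of_surj {G₁ : Type} [AddCommGroup G₁] [Fintype G₁] [DecidableEq G₁]
    (ψ : Γ →+ G₁) (hψ : Function.Surjective ψ) (p : ℕ) :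
    Nat.card (nsmulAddMonoidHom p : G₁ →+ G₁).ker
      ≤ Nat.card (nsmulAddMonoidHom p : Γ →+ Γ).ker := by
  have h1 := (nsmulAddMonoidHom p : Γ →+ Γ).ker.card_mul_index
  have h2 := (nsmulAddMonoidHom p : G₁ →+ G₁).ker.card_mul_index
  rw [AddSubgroup.index_ker] at h1 h2
  have h3 := card_eq_ker_mul ψ hψ
  have h4 : (nsmulAddMonoidHom p : Γ →+ Γ).range
      ≤ ((nsmulAddMonoidHom p : G₁ →+ G₁).range).comap ψ := by
    rintro _ ⟨x, rfl⟩
    exact ⟨ψ x, by simp⟩
  have h5 := AddSubgroup.card_le_of_le h4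
  rw [card_comap ψ hψ] at h5
  have h6 : 0 < Nat.card (nsmulAddMonoidHom p : Γ →+ Γ).range := Nat.card_pos
  apply Nat.le_of_mul_le_mul_right _ h6
  rw [h1, h3, ← h2]
  calc _ ≤ Nat.card (nsmulAddMonoidHom p : G₁ →+ G₁).ker
        * (Nat.card ψ.ker * Nat.card (nsmulAddMonoidHom p : G₁ →+ G₁).range) :=
        Nat.mul_le_mul_left _ h5
    _ = _ := by ring

private lemma card_tor (j : ℕ) : (univ.filter (fun x : Γ => j • x = 0)).card
    = Nat.card (nsmulAddMonoidHom j : Γ →+ Γ).ker := by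
  rw [← card_fiber (nsmulAddMonoidHom j : Γ →+ Γ) 0]
  congr 1
  ext x
  simp

/-- A group whose order exceeds an exponent holds a plane. -/
theorem exists_plane {k : ℕ} (hk0 : 0 < k) (hk : ∀ x : Γ, k • x = 0) (hlt : k < Nat.card Γ) :
    ∃ (p : ℕ) (a b : Γ), Plane p a b := by
  by_contra hcon
  have hp : ∀ p : ℕ, p.Prime → Nat.card (nsmulAddMonoidHom p : Γ →+ Γ).ker ≤ p := by
    intro p hp
    by_contra h
    obtain ⟨a, b, hab⟩ := plane_of_tor hp (not_le.1 h)
    exact hcon ⟨p, a, b, hab⟩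
  have hall : ∀ j : ℕ, 0 < j → (univ.filter (fun x : Γ => j • x = 0)).card ≤ j := by
    intro j
    induction j using induction_on_primes with
    | zero => intro h; omega
    | one =>
      intro _
      rw [card_le_one]
      intro a ha b hb
      simp only [mem_filter, mem_univ, true_and, one_smul] at ha hb
      rw [ha, hb]
    | prime_mul p c hpp ih =>
      intro hpc
      have hc : 0 < c := Nat.pos_of_mul_pos_left hpc
      have h1 := card_le_image_mul (nsmulAddMonoidHom p : Γ →+ Γ)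
        (univ.filter (fun x : Γ => (p * c) • x = 0))
      have h2 : (univ.filter (fun x : Γ => (p * c) • x = 0)).image (nsmulAddMonoidHom p : Γ →+ Γ)
          ⊆ univ.filter (fun x : Γ => c • x = 0) := by
        intro y hy
        obtain ⟨x, hx, rfl⟩ := mem_image.1 hy
        simp only [mem_filter, mem_univ, true_and, nsmulAddMonoidHom_apply] at hx ⊢
        rw [← mul_smul, mul_comm]; exact hx
      calc _ ≤ _ := h1
        _ ≤ c * p := Nat.mul_le_mul ((card_le_card h2).trans (ih hc)) (hp p hpp)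
        _ = p * c := mul_comm _ _
  have h := hall k hk0
  rw [filter_true_of_mem (fun x _ => hk x), card_univ, ← Nat.card_eq_fintype_card] at h
  omega

/-- The square of `p` divides the order of a group with a plane. -/
theorem Plane.sq_dvd {p : ℕ} {a b : Γ} (h : Plane p a b) : p * p ∣ Nat.card Γ := by
  haveI := Fact.mk h.prime
  rw [AddSubgroup.card_eq_card_quotient_mul_card_addSubgroup (AddSubgroup.zmultiples a),
    Nat.card_zmultiples, order_eq h.prime (plane_ne_zero h) h.ha]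
  refine Nat.mul_dvd_mul_right ?_ p
  have h1 : addOrderOf (QuotientAddGroup.mk' (AddSubgroup.zmultiples a) b) = p := by
    apply addOrderOf_eq_prime
    · rw [← map_nsmul, h.hb, map_zero]
    · intro h0
      exact plane_notMem h ((QuotientAddGroup.eq_zero_iff _).1 h0)
  rw [← h1]
  exact addOrderOf_dvd_natCard _

private lemma cov_eq_of_inj (S : AddSubgroup Γ) {X B : Finset Γ} (hB : B ⊆ X)
    (h : ∀ x ∈ X, ∀ x' ∈ X, x - x' ∈ S → x = x') : cov S B = B.card := by
  classical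
  rw [cov_eq_card_image]
  refine card_image_of_injOn ?_
  intro x hx x' hx' hxx
  exact h x (hB hx) x' (hB hx') (QuotientAddGroup.eq_iff_sub_mem.1 hxx)

private lemma three_mul_le {n s c : ℕ} (hodd : Odd n) (hs : s ∣ n) (hc : c ∣ s) (hne : s ≠ c) :
    3 * c ≤ s := by
  obtain ⟨d, rfl⟩ := hc
  have hd : Odd d := (Nat.odd_mul.1 (hodd.of_dvd_nat hs)).2
  have h1 : d ≠ 1 := by rintro rfl; simp at hne
  obtain ⟨t, ht⟩ := hd
  rw [mul_comm]
  exact Nat.mul_le_mul_left _ (by omega)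

/-- The frame: a quotient `G₁` in which `X` embeds, a plane of `G₁`, and a nonzero vector `z` of
the plane which is a difference of two points. Either the quotient is trivial, or `X` is sparse and
no two points of `X` differ by an element of order `p`. -/
theorem exists_frame (hodd : Odd (Nat.card Γ)) (X : Finset Γ) {k : ℕ} (hk0 : 0 < k)
    (hk : ∀ x : Γ, k • x = 0) (hX : k < X.card) :
    ∃ (G₁ : Type) (_ : AddCommGroup G₁) (_ : Fintype G₁) (_ : DecidableEq G₁) (ψ : Γ →+ G₁)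
      (p : ℕ) (a b : G₁), Function.Surjective ψ ∧ Set.InjOn ψ X ∧ Plane p a b ∧
      (∃ x ∈ X, ∃ x' ∈ X, x ≠ x' ∧ ∃ i j : ℤ, ψ x - ψ x' = i • a + j • b) ∧
      (ψ.ker = ⊥ ∨ (3 * X.card ≤ Nat.card G₁ ∧ (∃ z : Γ, z ≠ 0 ∧ p • z = 0) ∧
        ∀ x ∈ X, ∀ x' ∈ X, p • (x - x') = 0 → x = x')) := by
  classical
  by_cases hI : ∃ (p : ℕ) (a b : Γ), Plane p a b ∧
      ∃ x ∈ X, ∃ x' ∈ X, x ≠ x' ∧ ∃ i j : ℤ, x - x' = i • a + j • b
  · obtain ⟨p, a, b, hp, hx⟩ := hI
    exact ⟨Γ, inferInstance, inferInstance, inferInstance, AddMonoidHom.id Γ, p, a, b,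
      Function.surjective_id, Function.injective_id.injOn, hp, hx,
      Or.inl (AddMonoidHom.ker_id)⟩
  have hsp : ∀ p : ℕ, p.Prime → p < Nat.card (nsmulAddMonoidHom p : Γ →+ Γ).ker →
      ∀ x ∈ X, ∀ x' ∈ X, p • (x - x') = 0 → x = x' := by
    intro p hp hlt x hx x' hx' h
    by_contra hne
    obtain ⟨b, hb⟩ := exists_plane_with hp hlt (sub_ne_zero.2 hne) h
    exact hI ⟨p, x - x', b, hb, x, hx, x', hx', hne, 1, 0, by simp⟩
  have hXΓ : X.card ≤ Nat.card Γ := by
    rw [Nat.card_eq_fintype_card]; exact card_le_univ _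
  set Gd : Set (AddSubgroup Γ) :=
    {W | ∃ W', W < W' ∧ ∀ x ∈ X, ∀ x' ∈ X, x - x' ∈ W' → x = x'} with hGd
  have hne : Gd.Nonempty := by
    obtain ⟨p, a, b, hp⟩ := exists_plane hk0 hk (hX.trans_le hXΓ)
    refine ⟨⊥, AddSubgroup.zmultiples a, ?_, ?_⟩
    · rw [bot_lt_iff_ne_bot, Ne, AddSubgroup.zmultiples_eq_bot]
      exact plane_ne_zero hp
    · intro x hx x' hx' h
      by_contra hne
      obtain ⟨i, hi⟩ := AddSubgroup.mem_zmultiples_iff.1 h
      exact hI ⟨p, a, b, hp, x, hx, x', hx', hne, i, 0, by simp [hi]⟩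
  obtain ⟨W, hW⟩ := (Set.toFinite Gd).exists_maximal hne
  obtain ⟨W', hWW', hinj⟩ := hW.prop
  haveI : Fintype (Γ ⧸ W) := Fintype.ofFinite _
  set ψ := QuotientAddGroup.mk' W with hψ
  have hsurj : Function.Surjective ψ := QuotientAddGroup.mk'_surjective W
  have h3 : 3 * X.card ≤ Nat.card (Γ ⧸ W) := by
    have h1 := cov_mul_le W' X
    rw [cov_eq_of_inj W' Subset.rfl hinj,
      AddSubgroup.card_eq_card_quotient_mul_card_addSubgroup W] at h1
    have h2 : 3 * Nat.card W ≤ Nat.card W' := by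
      refine three_mul_le hodd (AddSubgroup.card_addSubgroup_dvd_card W')
        (AddSubgroup.card_dvd_of_le hWW'.le) ?_
      intro h
      exact hWW'.ne (AddSubgroup.eq_of_le_of_card_ge hWW'.le h.le)
    have h4 : 0 < Nat.card W := Nat.card_pos
    apply Nat.le_of_mul_le_mul_right _ h4
    calc 3 * X.card * Nat.card W = X.card * (3 * Nat.card W) := by ring
      _ ≤ X.card * Nat.card W' := Nat.mul_le_mul_left _ h2
      _ ≤ _ := h1
  have hk1 : ∀ y : Γ ⧸ W, k • y = 0 := by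
    intro y
    obtain ⟨x, rfl⟩ := hsurj y
    rw [← map_nsmul, hk, map_zero]
  obtain ⟨p, a, b, hp⟩ := exists_plane hk0 hk1 (by omega)
  have hlt : p < Nat.card (nsmulAddMonoidHom p : Γ →+ Γ).ker :=
    (tor_of_plane hp).trans_le (tor_le_of_surj ψ hsurj p)
  refine ⟨Γ ⧸ W, inferInstance, inferInstance, inferInstance, ψ, p, a, b, hsurj, ?_, hp, ?_,
    Or.inr ⟨h3, ?_, hsp p hp.prime hlt⟩⟩
  · intro x hx x' hx' h
    exact hinj x hx x' hx' (hWW'.le (QuotientAddGroup.eq_iff_sub_mem.1 h))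
  · by_contra hcon
    have hmem : (AddSubgroup.zmultiples a).comap ψ ∈ Gd := by
      refine ⟨(AddSubgroup.zmultiples a ⊔ AddSubgroup.zmultiples b).comap ψ, ?_, ?_⟩
      · refine lt_of_le_of_ne (AddSubgroup.comap_mono le_sup_left) (fun h => ?_)
        obtain ⟨b₀, hb₀⟩ := hsurj b
        have h1 : b₀ ∈ (AddSubgroup.zmultiples a ⊔ AddSubgroup.zmultiples b).comap ψ := by
          rw [AddSubgroup.mem_comap, hb₀]
          exact AddSubgroup.mem_sup_right (AddSubgroup.mem_zmultiples b)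
        rw [← h, AddSubgroup.mem_comap, hb₀] at h1
        exact plane_notMem hp h1
      · intro x hx x' hx' h
        by_contra hne
        rw [AddSubgroup.mem_comap, map_sub] at h
        obtain ⟨y, hy, z, hz, hyz⟩ := AddSubgroup.mem_sup.1 h
        obtain ⟨i, rfl⟩ := AddSubgroup.mem_zmultiples_iff.1 hy
        obtain ⟨j, rfl⟩ := AddSubgroup.mem_zmultiples_iff.1 hz
        exact hcon ⟨x, hx, x', hx', hne, i, j, hyz.symm⟩
    have hle : W ≤ (AddSubgroup.zmultiples a).comap ψ := by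
      intro w hw
      rw [AddSubgroup.mem_comap, (QuotientAddGroup.eq_zero_iff w).2 hw |> (show
        (QuotientAddGroup.mk w : Γ ⧸ W) = 0 → ψ w = 0 from id)]
      exact zero_mem _
    have hge := hW.le_of_ge hmem hle
    obtain ⟨a₀, ha₀⟩ := hsurj a
    have h1 : a₀ ∈ W := hge (by
      rw [AddSubgroup.mem_comap, ha₀]; exact AddSubgroup.mem_zmultiples a)
    exact plane_ne_zero hp (ha₀ ▸ (QuotientAddGroup.eq_zero_iff a₀).2 h1)
  · obtain ⟨a', b', h'⟩ := plane_of_tor hp.prime hlt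
    exact ⟨a', plane_ne_zero h', h'.ha⟩

/-- In the sparse case the fibrewise Cauchy-Davenport inequality holds without a cap. -/
theorem fibCD_of_sparse (hodd : Odd (Nat.card Γ)) {G₁ Q : Type} [AddCommGroup G₁] [Fintype G₁]
    [DecidableEq G₁] [AddCommGroup Q] [Fintype Q] [DecidableEq Q] (ψ : Γ →+ G₁) (χ : G₁ →+ Q)
    {p : ℕ} (hp : p.Prime) (hker : Nat.card χ.ker = p) (X : Finset Γ) (hinj : Set.InjOn ψ X)
    (hX : ∀ x ∈ X, ∀ x' ∈ X, p • (x - x') = 0 → x = x') (P : ℕ) : FibCD (χ.comp ψ) X P := by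
  intro B C hBX hCX hB hC h1 h2
  obtain ⟨S, hS, hK⟩ := kneser_sub B C hB hC
  have hle := stab_le_ker hB hC h1 h2 hS
  refine (min_le_right _ _).trans ?_
  have hs : 0 < Nat.card S := Nat.card_pos
  by_cases hI : ∀ x ∈ X, ∀ x' ∈ X, x - x' ∈ S → x = x'
  · rw [cov_eq_of_inj S hBX hI, cov_eq_of_inj S hCX hI] at hK
    have hBp := card_pos.2 hB
    obtain ⟨t, ht⟩ : ∃ t, B.card + C.card = t + 1 := ⟨B.card + C.card - 1, by omega⟩
    rw [ht] at hK ⊢
    have : t ≤ t * Nat.card S := Nat.le_mul_of_pos_right _ hs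
    simp only [Nat.add_sub_cancel]
    nlinarith
  · push Not at hI
    obtain ⟨x, hx, x', hx', hxS, hne⟩ := hI
    have hsmall : ∀ D : Finset Γ, D ⊆ X → D.Nonempty →
        (∀ a ∈ D, ∀ b ∈ D, (χ.comp ψ) a = (χ.comp ψ) b) → D.card ≤ p := by
      intro D hD ⟨d, hd⟩ hDD
      have h3 := fib_le_ker χ (D.image ψ) (χ (ψ d))
      unfold fib at h3
      rw [filter_true_of_mem, card_image_of_injOn (hinj.mono hD), hker] at h3
      · exact h3
      · intro y hy
        obtain ⟨a, ha, rfl⟩ := mem_image.1 hy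
        exact hDD a ha d hd
    have hw0 : ψ (x - x') ≠ 0 := by
      rw [map_sub, sub_ne_zero]
      exact fun h => hne (hinj hx hx' h)
    have hwk : ψ (x - x') ∈ χ.ker := hle hxS
    have hw : p • ψ (x - x') = 0 := by
      have := AddSubgroup.addOrderOf_dvd_natCard χ.ker hwk
      rw [hker] at this
      exact addOrderOf_dvd_iff_nsmul_eq_zero.1 this
    have hoS : addOrderOf (x - x') ∣ Nat.card S := AddSubgroup.addOrderOf_dvd_natCard S hxS
    have hpS : p ∣ Nat.card S := by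
      rw [← order_eq hp hw0 hw]
      exact (addOrderOf_map_dvd ψ _).trans hoS
    have h3 : 3 * p ≤ Nat.card S := by
      refine three_mul_le hodd (AddSubgroup.card_addSubgroup_dvd_card S) hpS (fun h => ?_)
      rw [h] at hoS
      exact hne (hX x hx x' hx' (addOrderOf_dvd_iff_nsmul_eq_zero.1 hoS))
    have h4 := card_le_of_periodic (hB.sub hC) (fun y hy s hs => (hS s).1 hs y hy)
    have h5 := hsmall B hBX hB h1
    have h6 := hsmall C hCX hC h2
    omega

end Pool.Agent.P.MP_7ea450_co
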