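import Pool.Agent.P.MP_7ea450_co.Tools

/-!
Level sets of difference sets and the consequences of Kneser's theorem used on them.
-/

open Finset
open scoped Pointwise

set_option linter.unusedSectionVars false
set_option linter.style.haveILetI false

namespace Pool.Agent.P.MP_7ea450_co

variable {G : Type} [AddCommGroup G] [Fintype G] [DecidableEq G]
variable {Q : Type} [AddCommGroup Q] [Fintype Q] [DecidableEq Q]

/-- The fibrewise Cauchy-Davenport inequality with cap `P` for subsets of `X`. -/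
def FibCD (φ : G →+ Q) (X : Finset G) (P : ℕ) : Prop :=
  ∀ B C : Finset G, B ⊆ X → C ⊆ X → B.Nonempty → C.Nonempty →
    (∀ a ∈ B, ∀ b ∈ B, φ a = φ b) → (∀ a ∈ C, ∀ b ∈ C, φ a = φ b) →
    min P (B.card + C.card - 1) ≤ (B - C).card

lemma sub_mem_lev {φ : G →+ Q} {X Y D : Finset G} {P : ℕ} (hCD : FibCD φ X P) (hYX : Y ⊆ X)
    (hD : X - Y ⊆ D) {i t u : ℕ} (hi : 1 ≤ i) (ht : 1 ≤ t) (hu : i + t = u + 1) (huP : u ≤ P) :
    lev φ X i - lev φ Y t ⊆ lev φ D u := by
  intro z hz
  obtain ⟨q, hq, q', hq', rfl⟩ := mem_sub.1 hz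
  rw [mem_lev] at hq hq' ⊢
  unfold fib at hq hq' ⊢
  have h := hCD (X.filter (fun a => φ a = q)) (Y.filter (fun a => φ a = q')) (filter_subset _ _)
    ((filter_subset _ _).trans hYX) (card_pos.1 (by omega)) (card_pos.1 (by omega))
    (fun a ha b hb => by rw [(mem_filter.1 ha).2, (mem_filter.1 hb).2])
    (fun a ha b hb => by rw [(mem_filter.1 ha).2, (mem_filter.1 hb).2])
  refine le_trans (le_trans (by omega) h) (card_le_card ?_)
  intro x hx
  obtain ⟨a, ha, b, hb, rfl⟩ := mem_sub.1 hx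
  refine mem_filter.2 ⟨hD (sub_mem_sub (mem_filter.1 ha).1 (mem_filter.1 hb).1), ?_⟩
  rw [map_sub, (mem_filter.1 ha).2, (mem_filter.1 hb).2]

lemma neg_mem_lev {φ : G →+ Q} {D : Finset G} (hD : ∀ x ∈ D, -x ∈ D) {u : ℕ} {q : Q}
    (hq : q ∈ lev φ D u) : -q ∈ lev φ D u := by
  rw [mem_lev] at hq ⊢
  refine hq.trans ?_
  unfold fib
  refine card_le_card_of_injOn (fun x => -x) ?_ (fun a _ b _ h => neg_injective h)
  intro x hx
  simp only [coe_filter, Set.mem_setOf_eq] at hx ⊢
  exact ⟨hD x hx.1, by rw [map_neg, hx.2]⟩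

/-- The stabiliser of a difference of subsets of fibres lies in the kernel. -/
lemma stab_le_ker {φ : G →+ Q} {B C : Finset G} (hB : B.Nonempty) (hC : C.Nonempty)
    (h1 : ∀ a ∈ B, ∀ b ∈ B, φ a = φ b) (h2 : ∀ a ∈ C, ∀ b ∈ C, φ a = φ b) {S : AddSubgroup G}
    (hS : ∀ s, s ∈ S ↔ ∀ x ∈ B - C, x + s ∈ B - C) : S ≤ φ.ker := by
  intro s hs
  obtain ⟨b, hb⟩ := hB
  obtain ⟨c, hc⟩ := hC
  obtain ⟨b', hb', c', hc', h⟩ := mem_sub.1 ((hS s).1 hs _ (sub_mem_sub hb hc))
  have := congrArg φ h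
  rw [map_sub, map_add, map_sub, h1 b' hb' b hb, h2 c' hc' c hc] at this
  exact AddMonoidHom.mem_ker.2 (left_eq_add.1 this)

lemma card_le_of_periodic {C : Finset G} (hC : C.Nonempty) {S : AddSubgroup G}
    (h : ∀ x ∈ C, ∀ s ∈ S, x + s ∈ C) : Nat.card S ≤ C.card := by
  rw [card_eq_cov_mul S C h]
  exact Nat.le_mul_of_pos_left _ (cov_pos S hC)

/-- Cauchy-Davenport in the fibres of a homomorphism whose kernel has prime order. -/
lemma fibCD_of_prime (φ : G →+ Q) {p : ℕ} (hp : p.Prime) (hker : Nat.card φ.ker = p)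
    (X : Finset G) : FibCD φ X p := by
  intro B C _ _ hB hC h1 h2
  obtain ⟨S, hS, hK⟩ := kneser_sub B C hB hC
  have hle := stab_le_ker hB hC h1 h2 hS
  have hdvd : Nat.card S ∣ p := hker ▸ AddSubgroup.card_dvd_of_le hle
  rcases (Nat.dvd_prime hp).1 hdvd with h | h
  · have hbot : S = ⊥ := AddSubgroup.card_eq_one.1 h
    rw [hbot, cov_bot, cov_bot] at hK
    simp only [AddSubgroup.card_bot, mul_one] at hK
    omega
  · have := card_le_of_periodic (hB.sub hC) (fun x hx s hs => (hS s).1 hs x hx)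
    omega

/-- If `W` lies in one coset of `S` then `U - W` holds a translate of `W` for each coset met
by `U`. -/
lemma cov_mul_card_le (S : AddSubgroup G) (U W : Finset G) (hW : cov S W ≤ 1) :
    cov S U * W.card ≤ (U - W).card := by
  classical
  rcases W.eq_empty_or_nonempty with rfl | ⟨w, hw⟩
  · simp
  haveI := Fintype.ofFinite (G ⧸ S)
  set φ := QuotientAddGroup.mk' S with hφ
  rw [cov_eq_card_image, ← sum_fib φ (U - W), ← smul_eq_mul, ← sum_const]
  calc ∑ _q ∈ U.image φ, W.card ≤ ∑ q ∈ U.image φ, fib φ (U - W) (q - φ w) := by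
        refine sum_le_sum fun q hq => ?_
        obtain ⟨a, ha, rfl⟩ := mem_image.1 hq
        unfold fib
        refine card_le_card_of_injOn (fun x => a - x) ?_ (fun x _ y _ h => sub_right_injective h)
        intro x hx
        simp only [coe_filter, Set.mem_setOf_eq]
        refine ⟨sub_mem_sub ha hx, ?_⟩
        have : φ x = φ w :=
          QuotientAddGroup.eq_iff_sub_mem.2 ((cov_le_one_iff S W).1 hW x hx w hw)
        rw [map_sub, this]
    _ = ∑ q ∈ (U.image φ).image (fun q => q - φ w), fib φ (U - W) q := by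
        rw [sum_image (fun x _ y _ h => sub_left_injective h)]
    _ ≤ ∑ q, fib φ (U - W) q := sum_le_sum_of_subset (subset_univ _)

/-- The connectivity bound. -/
lemma row_bound (U W : Finset G) (hU : U.Nonempty) (hW : W.Nonempty) (κ : ℕ)
    (hκ : ∀ S : AddSubgroup G, S ≠ ⊤ → κ ≤ (cov S U - 1) * Nat.card S) :
    W.card + κ ≤ (U - W).card ∨ U - W = univ := by
  obtain ⟨S, hS, hK⟩ := kneser_sub U W hU hW
  by_cases h : S = ⊤
  · right
    exact eq_univ_of_periodic_top _ (hU.sub hW) (fun x hx s hs => (hS s).1 (h ▸ hs) x hx)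
  · left
    have h1 := hκ S h
    have h2 := card_le_cov_mul S W
    have h3 := cov_pos S hU
    obtain ⟨a, ha⟩ : ∃ a, cov S U = a + 1 := ⟨cov S U - 1, by omega⟩
    rw [ha] at h1 hK
    simp only [Nat.add_sub_cancel] at h1
    nlinarith

/-- The two-thirds rule. -/
lemma rule_bound (U₁ U W : Finset G) (hU : U.Nonempty) (hW : W.Nonempty)
    (h3 : ∀ S : AddSubgroup G, S ≠ ⊤ → 3 ≤ cov S U₁) :
    2 * (U.card + W.card) ≤ 3 * (U - W).card ∨ U - W = univ ∨ 3 * W.card ≤ (U₁ - W).card := by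
  obtain ⟨S, hS, hK⟩ := kneser_sub U W hU hW
  by_cases h : S = ⊤
  · right; left
    exact eq_univ_of_periodic_top _ (hU.sub hW) (fun x hx s hs => (hS s).1 (h ▸ hs) x hx)
  have h1 := card_le_cov_mul S U
  have h2 := card_le_cov_mul S W
  have h4 := cov_pos S hU
  by_cases hc : cov S W ≤ 1
  · right; right
    exact (Nat.mul_le_mul_right _ (h3 S h)).trans (cov_mul_card_le S U₁ W hc)
  · left
    have h5 : 3 * Nat.card S ≤ (cov S U + cov S W) * Nat.card S :=
      Nat.mul_le_mul_right _ (by omega)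
    nlinarith

lemma sub_eq_univ_of_card (U W : Finset G) (h : Nat.card G < U.card + W.card) : U - W = univ := by
  refine eq_univ_of_forall fun x => ?_
  refine mem_sub_of_fib (0 : G →+ G) U W 0 0 ?_ x (by simp)
  have h1 : ∀ A : Finset G, fib (0 : G →+ G) A 0 = A.card := fun A => by simp [fib]
  rw [h1, h1]
  simpa using h

/-- Kneser's theorem together with the parity of a symmetric set. -/
lemma kneser_odd (hodd : Odd (Nat.card G)) (U W V : Finset G) (hUW : (U ∩ W).Nonempty)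
    (hV : U - W ⊆ V) (hsym : ∀ x ∈ V, -x ∈ V) :
    ∃ d j a b k : ℕ, Nat.card G = d * j ∧ U.card ≤ a * d ∧ W.card ≤ b * d ∧ 1 ≤ a ∧ 1 ≤ b ∧
      a + b ≤ k + 1 ∧ Odd k ∧ k * d ≤ V.card ∧ k ≤ j := by
  obtain ⟨w, hw⟩ := hUW
  have hU : U.Nonempty := ⟨w, (mem_inter.1 hw).1⟩
  have hW : W.Nonempty := ⟨w, (mem_inter.1 hw).2⟩
  obtain ⟨S, hS, hK⟩ := kneser_sub U W hU hW
  have hd : 0 < Nat.card S := Nat.card_pos
  have hper : ∀ x ∈ psi U W, ∀ s ∈ S, x + s ∈ psi U W := by
    intro x hx s hs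
    rcases mem_union.1 hx with h | h
    · exact mem_union_left _ ((hS s).1 hs x h)
    · have h1 : -x ∈ U - W := by
        obtain ⟨a, ha, b, hb, rfl⟩ := mem_sub.1 h
        exact mem_sub.2 ⟨b, hb, a, ha, by abel⟩
      have h2 := neg_mem_psi (sub_subset_psi U W ((hS (-s)).1 (S.neg_mem hs) _ h1))
      have h3 : -(-x + -s) = x + s := by abel
      rwa [h3] at h2
  have hc := card_eq_cov_mul S (psi U W) hper
  have hc' := card_eq_cov_mul S (U - W) (fun x hx s hs => (hS s).1 hs x hx)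
  have hodd' : Odd (psi U W).card := odd_card_of_symm hodd _
    (sub_subset_psi U W (mem_sub.2 ⟨w, (mem_inter.1 hw).1, w, (mem_inter.1 hw).2, sub_self w⟩))
    (fun x hx => neg_mem_psi hx)
  have hsub : psi U W ⊆ V := by
    intro x hx
    rcases mem_union.1 hx with h | h
    · exact hV h
    · obtain ⟨a, ha, b, hb, rfl⟩ := mem_sub.1 h
      have := hsym _ (hV (sub_mem_sub hb ha))
      rwa [neg_sub] at this
  obtain ⟨j, hj⟩ := AddSubgroup.card_addSubgroup_dvd_card S
  refine ⟨Nat.card S, j, cov S U, cov S W, cov S (psi U W), hj, card_le_cov_mul S U,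
    card_le_cov_mul S W, cov_pos S hU, cov_pos S hW, ?_, ?_, hc ▸ card_le_card hsub, ?_⟩
  · have h1 := cov_mono S (sub_subset_psi U W)
    have h2 : (cov S U + cov S W) * Nat.card S ≤ (cov S (U - W) + 1) * Nat.card S := by
      rw [add_mul (cov S (U - W)), one_mul, ← hc']
      exact hK
    have := Nat.le_of_mul_le_mul_right h2 hd
    omega
  · rw [hc] at hodd'
    exact (Nat.odd_mul.1 hodd').1
  · have h1 := cov_mul_le S (psi U W)
    rw [hj, mul_comm (Nat.card S)] at h1
    exact Nat.le_of_mul_le_mul_right h1 hd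

/-- The bound for a symmetric set that contains a difference set of two meeting sets. -/
lemma sym_bound (hodd : Odd (Nat.card G)) (U W V : Finset G) (hUW : (U ∩ W).Nonempty)
    (hV : U - W ⊆ V) (hsym : ∀ x ∈ V, -x ∈ V) :
    2 * (U.card + W.card) ≤ V.card + Nat.card G ∨ V.card = Nat.card G := by
  obtain ⟨d, j, a, b, k, hN, hU, hW, -, -, hab, hk, hkV, hkj⟩ := kneser_odd hodd U W V hUW hV hsym
  have hVle : V.card ≤ Nat.card G := by
    rw [Nat.card_eq_fintype_card]
    exact card_le_univ _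
  rcases hkj.eq_or_lt with h | h
  · right
    rw [h, mul_comm] at hkV
    omega
  · left
    have hj : Odd j := (Nat.odd_mul.1 (hN ▸ hodd)).2
    have h2 : k + 2 ≤ j := by
      obtain ⟨x, hx⟩ := hk
      obtain ⟨y, hy⟩ := hj
      omega
    have h3 : 2 * (a + b) * d ≤ (k + j) * d := Nat.mul_le_mul_right _ (by omega)
    nlinarith

end Pool.Agent.P.MP_7ea450_co
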