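import Mathlib

/-!
The numerical data of the level sets of a nested pair, and summation tools.
`π i`, `τ i`, `ν i` are the sizes of the `i`-th level sets of `X`, `Y` and of the symmetrised
difference set; only indices `1 ≤ i ≤ P` matter.
-/

open Finset

namespace Pool.Agent.P.MP_7ea450_co

/-- The inequalities satisfied by the sizes of the level sets. -/
structure Prof (P s : ℕ) (N κ M g c y : ℚ) (π τ ν : ℕ → ℚ) : Prop where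
  P_odd : Odd P
  P_ge : 3 ≤ P
  N_ge : 3 ≤ N
  c_eq : c = ∑ i ∈ Ioc 0 P, π i
  y_eq : y = ∑ i ∈ Ioc 0 P, τ i
  π_anti : ∀ i j, 1 ≤ i → i ≤ j → π j ≤ π i
  τ_anti : ∀ i j, 1 ≤ i → i ≤ j → τ j ≤ τ i
  ν_anti : ∀ i j, 1 ≤ i → i ≤ j → ν j ≤ ν i
  τ_nonneg : ∀ i, 0 ≤ τ i
  ν_nonneg : ∀ i, 0 ≤ ν i
  τ_le : ∀ i, τ i ≤ π i
  π_le : ∀ i, π i ≤ N
  ν_le : ∀ i, ν i ≤ N
  π_zero : ∀ i, P < i → π i = 0
  triv : ∀ i t u, 1 ≤ i → 1 ≤ t → i + t = u + 1 → u ≤ P → 0 < π i → 0 < τ t →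
    π i ≤ ν u ∧ τ t ≤ ν u
  sat : ∀ i t u, 1 ≤ i → 1 ≤ t → i + t = u + 1 → u ≤ P → N < π i + τ t → ν u = N
  sym : ∀ i t u, 1 ≤ i → 1 ≤ t → i + t = u + 1 → u ≤ P → 0 < τ i → 0 < τ t →
    2 * (π i + τ t) ≤ ν u + N ∨ ν u = N
  row : ∀ t, 1 ≤ t → t ≤ P → 0 < τ t → τ t + κ ≤ ν t ∨ ν t = N
  rule : ∀ i t u, 1 ≤ i → 1 ≤ t → i + t = u + 1 → u ≤ P → 0 < π i → 0 < τ t →
    2 * (π i + τ t) ≤ 3 * ν u ∨ ν u = N ∨ 3 * τ t ≤ ν t
  κ_two : 2 * π 1 ≤ 3 * κ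
  κ_plus : 4 * M ≤ 3 * (P * κ) ∨ M + 2 * g ≤ P * κ
  κ_ar : 3 * π 1 ≤ 4 * κ ∨ ∃ d : ℚ, κ = 2 * d ∧ π 1 ≤ 3 * d ∧ (5 * d < M ∨ g ≤ d ∨ 5 * g ≤ M)
  κ_three : P = 3 → 5 * g ≤ N ∨ 2 * N ≤ 3 * κ ∨ 9 * π 1 ≤ 9 * κ + N
  cy : 2 * M ≤ c + y
  c_lt : c < M + g + 1
  g_nonneg : 0 ≤ g
  g_N : 3 * g ≤ N
  g_M : 3 * g ≤ M
  M_gt : 3 < M
  y_ge : 2 ≤ y
  y_gt : (2 * s - 1) * N < 2 * y
  s_lt : s * N < M
  T_le : 2 * M + g ≤ (2 * s + 1) * N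
  room : 2 * M + 3 * g ≤ P * N
  α_ge : 0 < π (s + 2)

/-- The conclusion of the profile lemma. -/
def ProfConcl (P : ℕ) (N M g y : ℚ) (ν : ℕ → ℚ) : Prop :=
  P * N ≤ ∑ u ∈ Ioc 0 P, ν u ∨ y + M + g ≤ ∑ u ∈ Ioc 0 P, ν u

/-- The last index at which an antitone nonnegative sequence is positive. -/
lemma exists_last_pos (f : ℕ → ℚ) (P : ℕ) (hanti : ∀ i j, 1 ≤ i → i ≤ j → f j ≤ f i)
    (hnn : ∀ i, 0 ≤ f i) (hz : ∀ i, P < i → f i = 0) :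
    ∃ a, a ≤ P ∧ (∀ i, 1 ≤ i → i ≤ a → 0 < f i) ∧ (∀ i, a < i → f i = 0) := by
  classical
  have hex : ∃ k, f (k + 1) = 0 := ⟨P, hz _ (by omega)⟩
  refine ⟨Nat.find hex, Nat.find_min' hex (hz _ (by omega)), fun i h1 h2 => ?_, fun i hi => ?_⟩
  · have := Nat.find_min hex (m := i - 1) (by omega)
    rw [show i - 1 + 1 = i by omega] at this
    exact lt_of_le_of_ne (hnn i) (Ne.symm this)
  · have := hanti (Nat.find hex + 1) i (by omega) hi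
    rw [Nat.find_spec hex] at this
    exact le_antisymm this (hnn i)

/-- The first index at which a sequence drops below `N`. -/
lemma exists_first_lt (f : ℕ → ℚ) (P : ℕ) (N : ℚ) (hle : ∀ i, f i ≤ N) :
    (∀ i, 1 ≤ i → i ≤ P → f i = N) ∨
      ∃ u, 1 ≤ u ∧ u ≤ P ∧ f u < N ∧ ∀ i, 1 ≤ i → i < u → f i = N := by
  classical
  by_cases hex : ∃ u, 1 ≤ u ∧ u ≤ P ∧ f u < N
  · right
    refine ⟨Nat.find hex, (Nat.find_spec hex).1, (Nat.find_spec hex).2.1, (Nat.find_spec hex).2.2,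
      fun i h1 h2 => ?_⟩
    have := Nat.find_min hex h2
    have h3 := (Nat.find_spec hex).2.1
    by_contra hne
    exact this ⟨h1, by omega, lt_of_le_of_ne (hle i) hne⟩
  · left
    intro i h1 h2
    by_contra hne
    exact hex ⟨i, h1, h2, lt_of_le_of_ne (hle i) hne⟩

lemma sum_split (f : ℕ → ℚ) {a b c : ℕ} (hab : a ≤ b) (hbc : b ≤ c) :
    ∑ i ∈ Ioc a c, f i = ∑ i ∈ Ioc a b, f i + ∑ i ∈ Ioc b c, f i :=
  (sum_Ioc_consecutive f hab hbc).symm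

lemma sum_one (f : ℕ → ℚ) (a : ℕ) : ∑ i ∈ Ioc a (a + 1), f i = f (a + 1) := by simp

lemma sum_trunc (f : ℕ → ℚ) {a b c : ℕ} (hab : a ≤ b) (hbc : b ≤ c) (hz : ∀ i, b < i → f i = 0) :
    ∑ i ∈ Ioc a c, f i = ∑ i ∈ Ioc a b, f i := by
  rw [sum_split f hab hbc, sum_eq_zero (s := Ioc b c) (fun i hi => hz i (mem_Ioc.1 hi).1), add_zero]

lemma sum_le_mul (f : ℕ → ℚ) (a k : ℕ) (C : ℚ) (h : ∀ i, a < i → i ≤ a + k → f i ≤ C) :
    ∑ i ∈ Ioc a (a + k), f i ≤ k * C := by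
  have := sum_le_card_nsmul (Ioc a (a + k)) f C fun i hi => h i (mem_Ioc.1 hi).1 (mem_Ioc.1 hi).2
  simpa using this

lemma mul_le_sum (f : ℕ → ℚ) (a k : ℕ) (C : ℚ) (h : ∀ i, a < i → i ≤ a + k → C ≤ f i) :
    k * C ≤ ∑ i ∈ Ioc a (a + k), f i := by
  have := card_nsmul_le_sum (Ioc a (a + k)) f C fun i hi => h i (mem_Ioc.1 hi).1 (mem_Ioc.1 hi).2
  simpa using this

lemma sum_nonneg' (f : ℕ → ℚ) (a b : ℕ) (h : ∀ i, 0 ≤ f i) : 0 ≤ ∑ i ∈ Ioc a b, f i :=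
  sum_nonneg fun i _ => h i

lemma sum_shift (f : ℕ → ℚ) (a k : ℕ) :
    ∑ i ∈ Ioc a (a + k), f i = ∑ j ∈ Ioc 0 k, f (a + j) := by
  induction k with
  | zero => simp
  | succ k ih =>
    rw [← add_assoc, sum_Ioc_succ_top (by omega), sum_Ioc_succ_top (by omega), ih, add_assoc]

lemma sum_reflect (f : ℕ → ℚ) (a k : ℕ) :
    ∑ i ∈ Ioc a (a + k), f i = ∑ j ∈ Ioc 0 k, f (a + k + 1 - j) := by
  refine sum_bij' (fun i _ => a + k + 1 - i) (fun j _ => a + k + 1 - j) ?_ ?_ ?_ ?_ ?_ <;>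
    simp only [mem_Ioc] <;> intros
  · omega
  · omega
  · omega
  · omega
  · congr 1
    omega

/-- Compare two blocks of the same length term by term, up to a constant per term. -/
lemma sum_le_shift (f g : ℕ → ℚ) (a b k : ℕ) (C : ℚ)
    (h : ∀ j, 1 ≤ j → j ≤ k → f (a + j) + C ≤ g (b + j)) :
    ∑ i ∈ Ioc a (a + k), f i + k * C ≤ ∑ i ∈ Ioc b (b + k), g i := by
  rw [sum_shift f, sum_shift g]
  have := sum_le_sum (s := Ioc 0 k) (f := fun j => f (a + j) + C) (g := fun j => g (b + j))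
    fun j hj => h j (mem_Ioc.1 hj).1 (mem_Ioc.1 hj).2
  rw [sum_add_distrib] at this
  simpa using this

/-- Pair two blocks of the same length in opposite order. -/
lemma sum_add_le_reflect (f g : ℕ → ℚ) (a b k : ℕ) (C : ℚ)
    (h : ∀ i t, a < i → i ≤ a + k → b < t → t ≤ b + k → i + t = a + b + k + 1 → f i + g t ≤ C) :
    ∑ i ∈ Ioc a (a + k), f i + ∑ i ∈ Ioc b (b + k), g i ≤ k * C := by
  rw [sum_shift f, sum_reflect g, ← sum_add_distrib]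
  have := sum_le_card_nsmul (Ioc 0 k) (fun j => f (a + j) + g (b + k + 1 - j)) C fun j hj => by
    have := mem_Ioc.1 hj
    exact h _ _ (by omega) (by omega) (by omega) (by omega) (by omega)
  simpa using this

end Pool.Agent.P.MP_7ea450_co
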