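import Pool.Agent.P.MP_7ea450_co.Prof

/-!
The small dense shapes of the profile lemma, which are finite linear programs.
-/

open Finset

namespace Pool.Agent.P.MP_7ea450_co

variable {P s : ℕ} {N κ M g c y : ℚ} {π τ ν : ℕ → ℚ}

/-- The case `P = 3` with the first level full, the second not, and `τ 2 > 0`. -/
theorem prof_three (H : Prof 3 s N κ M g c y π τ ν) (hs : 1 ≤ s)
    (hd : N < τ 1 + κ) (h1 : ν 1 = N) (h2 : ν 2 < N) (hβ : 0 < τ 2) :
    ProfConcl 3 N M g y ν := by
  have hs1 : s = 1 := by
    by_contra hne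
    have := H.π_zero (s + 2) (by omega)
    have := H.α_ge
    linarith
  subst hs1
  have hα : 0 < π 3 := H.α_ge
  have hc := H.c_eq
  have hy := H.y_eq
  unfold ProfConcl
  simp only [show Ioc 0 3 = {1, 2, 3} by decide] at hc hy ⊢
  rw [sum_insert (by decide), sum_insert (by decide), sum_singleton] at hc hy ⊢
  have p12 := H.π_anti 1 2 (by omega) (by omega)
  have p23 := H.π_anti 2 3 (by omega) (by omega)
  have t12 := H.τ_anti 1 2 (by omega) (by omega)
  have t23 := H.τ_anti 2 3 (by omega) (by omega)
  have n23 := H.ν_anti 2 3 (by omega) (by omega)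
  have t3 := H.τ_nonneg 3
  have l1 := H.τ_le 1
  have l2 := H.τ_le 2
  have l3 := H.τ_le 3
  have pN := H.π_le 1
  have hτ1 : 0 < τ 1 := by linarith
  have a1 := H.triv 1 2 2 (by omega) (by omega) (by omega) (by omega) (by linarith) hβ
  have a2 := H.triv 2 1 2 (by omega) (by omega) (by omega) (by omega) (by linarith) hτ1
  have a3 := H.triv 3 1 3 (by omega) (by omega) (by omega) (by omega) hα hτ1
  have a4 := H.triv 2 2 3 (by omega) (by omega) (by omega) (by omega) (by linarith) hβ
  have s1 := (H.sym 1 2 2 (by omega) (by omega) (by omega) (by omega) hτ1 hβ).resolve_right h2.ne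
  have s2 := (H.sym 2 1 2 (by omega) (by omega) (by omega) (by omega) hβ hτ1).resolve_right h2.ne
  have h3 : ν 3 ≠ N := by intro h; linarith
  have s3 := (H.sym 2 2 3 (by omega) (by omega) (by omega) (by omega) hβ hβ).resolve_right h3
  have r2 := (H.row 2 (by omega) (by omega) hβ).resolve_right h2.ne
  have u12 := H.rule 1 2 2 (by omega) (by omega) (by omega) (by omega) (by linarith) hβ
  have u21 := H.rule 2 1 2 (by omega) (by omega) (by omega) (by omega) (by linarith) hτ1
  have u31 := H.rule 3 1 3 (by omega) (by omega) (by omega) (by omega) hα hτ1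
  have u22 := H.rule 2 2 3 (by omega) (by omega) (by omega) (by omega) (by linarith) hβ
  have k2 := H.κ_two
  have kp := H.κ_plus
  have k3 := H.κ_three rfl
  have ka := H.κ_ar
  have e1 := H.cy
  have e2 := H.c_lt
  have e3 := H.g_nonneg
  have e4 := H.g_N
  have e5 := H.g_M
  have e6 := H.N_ge
  have e7 := H.y_gt
  have e8 := H.s_lt
  have e9 := H.T_le
  have e10 := H.room
  push_cast at kp e7 e8 e9 e10
  right
  by_contra hcon
  push Not at hcon
  rcases t3.eq_or_lt with h0 | h0
  · rcases u31 with u31 | u31 | u31 <;> rcases u22 with u22 | u22 | u22 <;>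
      rcases kp with kp | kp <;> rcases k3 with k3 | k3 | k3 <;>
      first | linarith | exact h3 u31 | exact h3 u22
  · have a5 := H.triv 1 3 3 (by omega) (by omega) (by omega) (by omega) (by linarith) h0
    have s4 := (H.sym 1 3 3 (by omega) (by omega) (by omega) (by omega) hτ1 h0).resolve_right h3
    have s5 := (H.sym 3 1 3 (by omega) (by omega) (by omega) (by omega) h0 hτ1).resolve_right h3
    have r3 := (H.row 3 (by omega) (by omega) h0).resolve_right h3
    rcases kp with kp | kp <;> rcases k3 with k3 | k3 | k3 <;>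
      linarith

/-- The case `P ≥ 5`, `α = 3`, `β = 2`, with the first level full and the second not. -/
theorem prof_three_two (H : Prof P s N κ M g c y π τ ν) (hP : 5 ≤ P) (hs : 1 ≤ s)
    (hd : N < τ 1 + κ) (h1 : ν 1 = N) (h2 : ν 2 < N) (hβ : 0 < τ 2) (hβ' : τ 3 = 0)
    (hα' : π 4 = 0) : ProfConcl P N M g y ν := by
  have hs1 : s = 1 := by
    by_contra hne
    have := H.π_anti 4 (s + 2) (by omega) (by omega)
    have := H.α_ge
    linarith
  subst hs1
  have hα : 0 < π 3 := H.α_ge
  have hc := H.c_eq
  have hy := H.y_eq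
  rw [sum_trunc π (b := 3) (by omega) (by omega) (fun i hi => le_antisymm
    (hα' ▸ H.π_anti 4 i (by omega) hi) ((H.τ_nonneg i).trans (H.τ_le i)))] at hc
  rw [sum_trunc τ (b := 2) (by omega) (by omega) (fun i hi => le_antisymm
    (hβ' ▸ H.τ_anti 3 i (by omega) hi) (H.τ_nonneg i))] at hy
  have hν : ν 1 + ν 2 + ν 3 + ν 4 ≤ ∑ u ∈ Ioc 0 P, ν u := by
    rw [sum_split ν (a := 0) (b := 4) (by omega) (by omega), show Ioc 0 4 = {1, 2, 3, 4} by decide,
      sum_insert (by decide), sum_insert (by decide), sum_insert (by decide), sum_singleton]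
    have := sum_nonneg' ν 4 P H.ν_nonneg
    linarith
  rw [show Ioc 0 3 = {1, 2, 3} by decide, sum_insert (by decide), sum_insert (by decide),
    sum_singleton] at hc
  rw [show Ioc 0 2 = {1, 2} by decide, sum_insert (by decide), sum_singleton] at hy
  have p12 := H.π_anti 1 2 (by omega) (by omega)
  have p23 := H.π_anti 2 3 (by omega) (by omega)
  have t12 := H.τ_anti 1 2 (by omega) (by omega)
  have n23 := H.ν_anti 2 3 (by omega) (by omega)
  have n34 := H.ν_anti 3 4 (by omega) (by omega)
  have l1 := H.τ_le 1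
  have l2 := H.τ_le 2
  have pN := H.π_le 1
  have hτ1 : 0 < τ 1 := by linarith
  have a1 := H.triv 1 2 2 (by omega) (by omega) (by omega) (by omega) (by linarith) hβ
  have a2 := H.triv 2 1 2 (by omega) (by omega) (by omega) (by omega) (by linarith) hτ1
  have a3 := H.triv 3 1 3 (by omega) (by omega) (by omega) (by omega) hα hτ1
  have a4 := H.triv 2 2 3 (by omega) (by omega) (by omega) (by omega) (by linarith) hβ
  have a5 := H.triv 3 2 4 (by omega) (by omega) (by omega) (by omega) hα hβ
  have s1 := (H.sym 1 2 2 (by omega) (by omega) (by omega) (by omega) hτ1 hβ).resolve_right h2.ne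
  have s2 := (H.sym 2 1 2 (by omega) (by omega) (by omega) (by omega) hβ hτ1).resolve_right h2.ne
  have h3 : ν 3 ≠ N := by intro h; linarith
  have h4 : ν 4 ≠ N := by intro h; linarith
  have s3 := (H.sym 2 2 3 (by omega) (by omega) (by omega) (by omega) hβ hβ).resolve_right h3
  have r2 := (H.row 2 (by omega) (by omega) hβ).resolve_right h2.ne
  have u31 := H.rule 3 1 3 (by omega) (by omega) (by omega) (by omega) hα hτ1
  have u22 := H.rule 2 2 3 (by omega) (by omega) (by omega) (by omega) (by linarith) hβ
  have u32 := H.rule 3 2 4 (by omega) (by omega) (by omega) (by omega) hα hβ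
  have k2 := H.κ_two
  have e1 := H.cy
  have e2 := H.c_lt
  have e3 := H.g_nonneg
  have e4 := H.g_N
  have e5 := H.g_M
  have e6 := H.N_ge
  have e7 := H.y_gt
  have e8 := H.s_lt
  have e9 := H.T_le
  push_cast at e7 e8 e9
  right
  by_contra hcon
  push Not at hcon
  rcases u31 with u31 | u31 | u31 <;> rcases u22 with u22 | u22 | u22 <;>
    rcases u32 with u32 | u32 | u32 <;>
    first | linarith | exact h3 u31 | exact h3 u22 | exact h4 u32

end Pool.Agent.P.MP_7ea450_co
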