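import Pool.Agent.P.MP_7ea450_co.Prof

/-!
The unsaturated cases of the profile lemma.
-/

open Finset

namespace Pool.Agent.P.MP_7ea450_co

variable {P s : ℕ} {N κ M g c y : ℚ} {π τ ν : ℕ → ℚ}

private lemma prof_y_le_c (H : Prof P s N κ M g c y π τ ν) : y ≤ c := by
  rw [H.c_eq, H.y_eq]
  exact sum_le_sum fun i _ => H.τ_le i

private lemma prof_π_nonneg (H : Prof P s N κ M g c y π τ ν) (i : ℕ) : 0 ≤ π i :=
  (H.τ_nonneg i).trans (H.τ_le i)

private lemma prof_τ_zero (H : Prof P s N κ M g c y π τ ν) (i : ℕ) (hi : P < i) : τ i = 0 :=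
  le_antisymm ((H.τ_le i).trans (H.π_zero i hi).le) (H.τ_nonneg i)

/-- `π i ≤ ν u` as soon as the partner `τ t` is positive. -/
private lemma prof_π_le_ν (H : Prof P s N κ M g c y π τ ν) (i t u : ℕ) (hi : 1 ≤ i) (ht : 1 ≤ t)
    (hu : i + t = u + 1) (huP : u ≤ P) (hτ : 0 < τ t) : π i ≤ ν u := by
  rcases (prof_π_nonneg H i).eq_or_lt with h0 | h0
  · rw [← h0]
    exact H.ν_nonneg u
  · exact (H.triv i t u hi ht hu huP h0 hτ).1

/-- `τ t ≤ ν u` as soon as the partner `π i` is positive. -/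
private lemma prof_τ_le_ν (H : Prof P s N κ M g c y π τ ν) (i t u : ℕ) (hi : 1 ≤ i) (ht : 1 ≤ t)
    (hu : i + t = u + 1) (huP : u ≤ P) (hπ : 0 < π i) : τ t ≤ ν u := by
  rcases (H.τ_nonneg t).eq_or_lt with h0 | h0
  · rw [← h0]
    exact H.ν_nonneg u
  · exact (H.triv i t u hi ht hu huP hπ h0).2

private lemma sum_top (f : ℕ → ℚ) (a b : ℕ) (hab : a ≤ b) :
    ∑ i ∈ Ioc a (b + 1), f i = ∑ i ∈ Ioc a b, f i + f (b + 1) :=
  sum_Ioc_succ_top hab f

private lemma sum_bot (f : ℕ → ℚ) (a b : ℕ) (hab : a + 1 ≤ b) :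
    ∑ i ∈ Ioc a b, f i = f (a + 1) + ∑ i ∈ Ioc (a + 1) b, f i := by
  rw [sum_split f (a := a) (b := a + 1) (by omega) hab, sum_one]

/-- The case `s = 0` with the first level full. -/
theorem prof_s0 (H : Prof P 0 N κ M g c y π τ ν) (h1 : ν 1 = N) : ProfConcl P N M g y ν := by
  have hP := H.P_ge
  obtain ⟨l, rfl⟩ : ∃ l, P = l + 2 + 1 := ⟨P - 3, by omega⟩
  have hα : 0 < π 2 := H.α_ge
  have hy := H.y_eq
  have hyc := prof_y_le_c H
  have hsh := sum_le_shift τ ν 0 1 (l + 2) 0 fun j h1 h2 => by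
    have := prof_τ_le_ν H 2 j (1 + j) (by omega) h1 (by omega) (by omega) hα
    simpa using this
  rw [show 0 + (l + 2) = l + 2 by omega, show 1 + (l + 2) = l + 2 + 1 by omega] at hsh
  rw [sum_top τ 0 (l + 2) (by omega)] at hy
  have h2 : τ (0 + 1) + τ (0 + 1 + 1) ≤ ∑ i ∈ Ioc 0 (l + 2), τ i := by
    rw [sum_bot τ 0 (l + 2) (by omega), sum_bot τ (0 + 1) (l + 2) (by omega)]
    have := sum_nonneg' τ (0 + 1 + 1) (l + 2) H.τ_nonneg
    linarith
  have t1 := H.τ_anti (0 + 1) (l + 2 + 1) (by omega) (by omega)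
  have t2 := H.τ_anti (0 + 1 + 1) (l + 2 + 1) (by omega) (by omega)
  right
  rw [sum_bot ν 0 (l + 2 + 1) (by omega)]
  have e2 := H.c_lt
  have e5 := H.g_M
  have e6 := H.M_gt
  have e9 := H.T_le
  push_cast at e9
  simp only [zero_add] at *
  linarith

/-- The case in which every row gains `k`, and `π 3 > 0`. -/
theorem prof_unsat (H : Prof P s N κ M g c y π τ ν) (k : ℚ) (hk2 : 2 * π 1 ≤ 3 * k)
    (hkP : M + g ≤ P * k) (hrow : ∀ t, 1 ≤ t → t ≤ P → 0 < τ t → τ t + k ≤ ν t)
    (hα : 0 < π 3) : ProfConcl P N M g y ν := by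
  have hP := H.P_ge
  have hyc := prof_y_le_c H
  have e1 := H.cy
  have e5 := H.g_M
  have e7 := H.y_ge
  -- the last level is large
  by_cases hνk : k ≤ ν P
  · right
    have h := sum_le_shift τ ν 0 0 P k fun j h1 h2 => by
      rw [zero_add]
      rcases (H.τ_nonneg j).eq_or_lt with h0 | h0
      · have := H.ν_anti j P h1 h2
        linarith
      · exact hrow j h1 h2 h0
    rw [zero_add, ← H.y_eq] at h
    linarith
  push Not at hνk
  -- the last level is full
  by_cases hνN : ν P = N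
  · left
    have h := mul_le_sum ν 0 P N fun i h1 h2 => by
      have := H.ν_anti i P h1 (by omega)
      linarith
    rwa [zero_add] at h
  right
  obtain ⟨β, hβP, hβpos, hβz⟩ := exists_last_pos τ P H.τ_anti H.τ_nonneg (prof_τ_zero H)
  have hy := H.y_eq
  have hc := H.c_eq
  rw [sum_trunc τ (Nat.zero_le β) hβP hβz] at hy
  have hβ1 : 1 ≤ β := by
    by_contra h
    obtain rfl : β = 0 := by omega
    simp at hy
    linarith
  have hτβ := hβpos β hβ1 le_rfl
  have hβlt : β < P := by
    by_contra h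
    obtain rfl : β = P := by omega
    have := hrow β hβ1 le_rfl hτβ
    linarith
  have hτπ : ∀ t, 1 ≤ t → τ t ≤ π 1 := fun t ht => (H.τ_le t).trans (H.π_anti 1 t le_rfl ht)
  have hπ1 := prof_π_nonneg H 1
  by_cases hpair : 0 < π (P + 2 - β)
  · -- two pairs on the last antidiagonal
    have hβ2 : 2 ≤ β := by
      by_contra h
      have := H.π_zero (P + 2 - β) (by omega)
      linarith
    obtain ⟨b, rfl⟩ : ∃ b, β = b + 1 + 1 := ⟨β - 2, by omega⟩
    obtain ⟨l, rfl⟩ : ∃ l, P = b + 1 + 1 + l + 1 := ⟨P - (b + 3), by omega⟩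
    rw [show b + 1 + 1 + l + 1 + 2 - (b + 1 + 1) = l + 3 by omega] at hpair
    have hgain : ∀ i t, 1 ≤ i → 1 ≤ t → t ≤ b + 1 + 1 → i + t = b + 1 + 1 + l + 1 + 1 →
        2 * π i + (5 * τ t - 3 * ν t) ≤ 0 := by
      intro i t hi ht htβ hit
      have hτ := hβpos t ht htβ
      have hr := hrow t ht (by omega) hτ
      have := hτπ t ht
      rcases (prof_π_nonneg H i).eq_or_lt with h0 | h0
      · linarith
      · have ha := H.triv i t _ hi ht hit le_rfl h0 hτ
        rcases H.rule i t _ hi ht hit le_rfl h0 hτ with hu | hu | hu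
        · linarith
        · exact absurd hu hνN
        · linarith [ha.1]
    have h1 := sum_add_le_reflect (fun i => 2 * π i) (fun t => 5 * τ t - 3 * ν t) (l + 3) 0 b 0
      fun i t h1 h2 h3 h4 h5 => hgain i t (by omega) (by omega) (by omega) (by omega)
    rw [sum_sub_distrib, ← mul_sum, ← mul_sum, ← mul_sum, zero_add] at h1
    have h2 := sum_le_shift π ν 1 (b + 1 + 1) l 0 fun j h1 h2 => by
      have := prof_π_le_ν H (1 + j) (b + 1 + 1) (b + 1 + 1 + j) (by omega) (by omega) (by omega)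
        (by omega) hτβ
      linarith
    have h3 := sum_nonneg' π 1 (1 + l) (prof_π_nonneg H)
    have hc' : c = π 1 + ∑ i ∈ Ioc 1 (1 + l), π i + π (l + 2) + π (l + 3) +
        ∑ i ∈ Ioc (l + 3) (l + 3 + b), π i := by
      rw [hc, show b + 1 + 1 + l + 1 = l + 3 + b by omega,
        sum_split π (a := 0) (b := l + 3) (by omega) (by omega),
        show l + 3 = 1 + l + 1 + 1 by omega, sum_top π 0 (1 + l + 1) (by omega),
        sum_top π 0 (1 + l) (by omega), sum_bot π 0 (1 + l) (by omega),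
        show 1 + l + 1 = l + 2 by omega]
    rw [sum_top τ 0 (b + 1) (by omega), sum_top τ 0 b (by omega)] at hy
    rw [sum_top ν 0 (b + 1 + 1 + l) (by omega),
      sum_split ν (a := 0) (b := b + 1 + 1) (by omega) (by omega),
      sum_top ν 0 (b + 1) (by omega), sum_top ν 0 b (by omega)]
    have hτβ' := hβpos (b + 1) (by omega) (by omega)
    have g1 := hgain (l + 2) (b + 1 + 1) (by omega) (by omega) (by omega) (by omega)
    have r1 := hrow (b + 1) (by omega) (by omega) hτβ'
    have r2 := hrow (b + 1 + 1) (by omega) (by omega) hτβ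
    have a1 := prof_π_le_ν H (l + 2) (b + 1 + 1) (b + 1 + 1 + l + 1) (by omega) (by omega)
      (by omega) le_rfl hτβ
    have a2 := prof_π_le_ν H (l + 3) (b + 1) (b + 1 + 1 + l + 1) (by omega) (by omega)
      (by omega) le_rfl hτβ'
    have t1 := H.τ_anti (b + 1) (b + 1 + 1) (by omega) (by omega)
    by_cases hA : 2 * (π (l + 3) + τ (b + 1)) ≤ 3 * ν (b + 1 + 1 + l + 1)
    · linarith
    · rcases H.rule (l + 3) (b + 1) (b + 1 + 1 + l + 1) (by omega) (by omega) (by omega) le_rfl
        hpair hτβ' with hu | hu | hu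
      · exact absurd hu hA
      · exact absurd hu hνN
      · linarith
  · -- the levels above `β` cover all of `π` but the first term
    have hz : π (P + 2 - β) = 0 := le_antisymm (not_lt.1 hpair) (prof_π_nonneg H _)
    obtain ⟨l, rfl⟩ : ∃ l, P = β + l := ⟨P - β, by omega⟩
    rw [show β + l + 2 - β = l + 2 by omega] at hz
    have hc' : c = π 1 + ∑ i ∈ Ioc 1 (1 + l), π i := by
      rw [hc, sum_trunc π (a := 0) (b := 1 + l) (by omega) (by omega) (fun i hi => le_antisymm
        (hz ▸ H.π_anti (l + 2) i (by omega) (by omega)) (prof_π_nonneg H i)),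
        sum_bot π 0 (1 + l) (by omega)]
    have h2 := sum_le_shift π ν 1 β l 0 fun j h1 h2 => by
      have := prof_π_le_ν H (1 + j) β (β + j) (by omega) (by omega) (by omega) (by omega) hτβ
      linarith
    have h1 := sum_le_shift τ ν 0 0 β k fun j h1 h2 => by
      rw [zero_add]
      exact hrow j h1 (by omega) (hβpos j h1 h2)
    rw [zero_add, ← hy] at h1
    rw [sum_split ν (a := 0) (b := β) (by omega) (by omega)]
    have hl : 2 ≤ l := by
      by_contra h
      have := H.π_anti (l + 2) 3 (by omega) (by omega)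
      linarith
    have h3 : ν (β + 1) + ν (β + 1 + 1) ≤ ∑ i ∈ Ioc β (β + l), ν i := by
      rw [sum_bot ν β (β + l) (by omega), sum_bot ν (β + 1) (β + l) (by omega)]
      have := sum_nonneg' ν (β + 1 + 1) (β + l) H.ν_nonneg
      linarith
    have hyβ := sum_le_mul τ 0 β (π 1) fun i h1 _ => hτπ i h1
    rw [zero_add, ← hy] at hyβ
    rcases (show β = 1 ∨ β = 2 ∨ 3 ≤ β by omega) with rfl | rfl | hβ3
    · have a1 := prof_τ_le_ν H 2 1 (1 + 1) (by omega) (by omega) (by omega) (by omega)
        (hα.trans_le (H.π_anti 2 3 (by omega) (by omega)))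
      have a2 := prof_τ_le_ν H 3 1 (1 + 1 + 1) (by omega) (by omega) (by omega) (by omega) hα
      have hy' : y = τ 1 := by simpa using hy
      push_cast at h1
      linarith
    · have a1 := prof_τ_le_ν H 3 1 (2 + 1) (by omega) (by omega) (by omega) (by omega) hα
      have a2 := prof_τ_le_ν H 3 2 (2 + 1 + 1) (by omega) (by omega) (by omega) (by omega) hα
      have hy' : y = τ 1 + τ 2 := by
        rw [hy, show Ioc 0 2 = {1, 2} by decide, sum_insert (by decide), sum_singleton]
      push_cast at h1 hyβ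
      linarith
    · have hb : (3 : ℚ) ≤ β := by exact_mod_cast hβ3
      have m1 : 3 * π 1 ≤ β * π 1 := mul_le_mul_of_nonneg_right hb hπ1
      have m2 : (β : ℚ) * (2 * π 1) ≤ β * (3 * k) := mul_le_mul_of_nonneg_left hk2 (by linarith)
      linarith

/-- The case of two levels only, none of them full. -/
theorem prof_two (H : Prof P s N κ M g c y π τ ν) (hα : π 3 = 0) (h1 : ν 1 < N) :
    ProfConcl P N M g y ν := by
  have hP := H.P_ge
  have hs0 : s = 0 := by
    by_contra hne
    have := H.π_anti 3 (s + 2) (by omega) (by omega)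
    have := H.α_ge
    linarith
  subst hs0
  have hπ2 : 0 < π 2 := H.α_ge
  have hc := H.c_eq
  have hy := H.y_eq
  have hz : ∀ i, 2 < i → π i = 0 := fun i hi =>
    le_antisymm (hα ▸ H.π_anti 3 i (by omega) hi) (prof_π_nonneg H i)
  rw [sum_trunc π (b := 2) (by omega) (by omega) hz, show Ioc 0 2 = {1, 2} by decide,
    sum_insert (by decide), sum_singleton] at hc
  rw [sum_trunc τ (b := 2) (by omega) (by omega) (fun i hi => le_antisymm
    ((H.τ_le i).trans (hz i hi).le) (H.τ_nonneg i)), show Ioc 0 2 = {1, 2} by decide,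
    sum_insert (by decide), sum_singleton] at hy
  have hν : ν 1 + ν 2 + ν 3 ≤ ∑ u ∈ Ioc 0 P, ν u := by
    rw [sum_split ν (a := 0) (b := 3) (by omega) (by omega), show Ioc 0 3 = {1, 2, 3} by decide,
      sum_insert (by decide), sum_insert (by decide), sum_singleton]
    have := sum_nonneg' ν 3 P H.ν_nonneg
    linarith
  have p12 := H.π_anti 1 2 (by omega) (by omega)
  have t12 := H.τ_anti 1 2 (by omega) (by omega)
  have n12 := H.ν_anti 1 2 (by omega) (by omega)
  have n23 := H.ν_anti 2 3 (by omega) (by omega)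
  have n3 := H.ν_nonneg 3
  have t2 := H.τ_nonneg 2
  have l1 := H.τ_le 1
  have l2 := H.τ_le 2
  have k2 := H.κ_two
  have e1 := H.cy
  have e2 := H.c_lt
  have e3 := H.g_nonneg
  have e5 := H.g_M
  have e6 := H.M_gt
  have e7 := H.y_ge
  have hτ1 : 0 < τ 1 := by linarith
  have h2 : ν 2 ≠ N := by intro h; linarith
  have h3 : ν 3 ≠ N := by intro h; linarith
  have r1 := (H.row 1 (by omega) (by omega) hτ1).resolve_right h1.ne
  have a2 := H.triv 2 1 2 (by omega) (by omega) (by omega) (by omega) hπ2 hτ1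
  have u21 := H.rule 2 1 2 (by omega) (by omega) (by omega) (by omega) hπ2 hτ1
  right
  by_contra hcon
  push Not at hcon
  rcases t2.eq_or_lt with h0 | h0
  · rcases u21 with u21 | u21 | u21
    · linarith
    · exact h2 u21
    · linarith [a2.2]
  · have r2 := (H.row 2 (by omega) (by omega) h0).resolve_right h2
    have a1 := H.triv 1 2 2 (by omega) (by omega) (by omega) (by omega) (by linarith) h0
    have a4 := H.triv 2 2 3 (by omega) (by omega) (by omega) (by omega) hπ2 h0
    have u12 := H.rule 1 2 2 (by omega) (by omega) (by omega) (by omega) (by linarith) h0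
    have u11 := H.rule 1 1 1 (by omega) (by omega) (by omega) (by omega) (by linarith) hτ1
    have u22 := H.rule 2 2 3 (by omega) (by omega) (by omega) (by omega) hπ2 h0
    obtain ⟨a11, a12⟩ := a1
    obtain ⟨a21, a22⟩ := a2
    obtain ⟨a41, a42⟩ := a4
    rcases u22 with u22 | u22 | u22
    · linarith
    · exact h3 u22
    · rcases H.κ_ar with ka | ⟨d, hd1, hd2, ka | ka | ka⟩ <;> linarith

end Pool.Agent.P.MP_7ea450_co
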