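import Pool.Agent.P.MP_7ea450_co.Ctx

/-!
Ordinary sumsets inside signed sumsets.
-/

open Finset
open scoped Pointwise

namespace Pool.Agent.P.MP_7ea450_co

variable {G : Type} [AddCommGroup G] [DecidableEq G] {h : ℕ} {A : Finset G}

namespace Iso

/-- Sums of `j` elements of `B`, never using an element together with its negative. -/
def W (B : Finset G) (j : ℕ) (z : G) : Prop :=
  ∃ s : Multiset G, s.card = j ∧ (∀ y ∈ s, y ∈ B) ∧ (∀ y ∈ s, -y ∉ s) ∧ s.sum = z

/-- The sum `w + x` has a second representation in `P + P`. -/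
def Rich (P : Finset G) (w x : G) : Prop :=
  x ∈ P ∧ ∃ y ∈ P, ∃ z ∈ P, w + x = y + z ∧ x ≠ y ∧ x ≠ z

/-- At most one rich partner. -/
def Poor (P : Finset G) (w : G) : Prop := ∀ x x', Rich P w x → Rich P w x' → x = x'

/-- One can remove `k` poor elements in turn. -/
def Peel : ℕ → Finset G → Prop
  | 0, _ => True
  | k + 1, P => ∃ w ∈ P, Poor P w ∧ Peel k (P.erase w)

lemma disj (hA : Asym A) : Disjoint A (-A) :=
  disjoint_left.2 fun a ha ha' => hA a ha (mem_neg'.1 ha')

lemma neg_ne (hA : Asym A) {y : G} (hy : y ∈ A ∪ -A) : -y ≠ y := by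
  intro h
  rcases mem_union.1 hy with hy | hy
  · exact hA y hy (h.symm ▸ hy)
  · rw [mem_neg'] at hy
    exact hA _ hy (by rwa [neg_neg, ← h])

lemma neg_mem {y : G} (hy : y ∈ A ∪ -A) : -y ∈ A ∪ -A := by
  simp only [mem_union, mem_neg', neg_neg] at hy ⊢
  exact hy.symm

lemma sum_union_neg (hA : Asym A) {M : Type} [AddCommMonoid M] (f : G → M) :
    ∑ y ∈ A ∪ -A, f y = ∑ a ∈ A, (f a + f (-a)) := by
  rw [sum_union (disj hA), sum_add_distrib, neg_def, sum_image fun _ _ _ _ h => neg_injective h]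

lemma W.mem_sset (hA : Asym A) {B : Finset G} (hB : B ⊆ A ∪ -A) {z : G} (hz : W B h z) :
    z ∈ sset A h := by
  obtain ⟨s, rfl, h1, h2, rfl⟩ := hz
  refine ⟨fun a => (s.count a : ℤ) - s.count (-a), ?_, ?_⟩
  · rw [← Multiset.sum_count_eq_card fun a ha => hB (h1 a ha), sum_union_neg hA]
    push_cast
    refine sum_congr rfl fun a _ => ?_
    by_cases ha : a ∈ s
    · rw [Multiset.count_eq_zero.2 (h2 a ha)]
      simp
    · rw [Multiset.count_eq_zero.2 ha]
      simp
  · rw [sum_multiset_count_of_subset s (A ∪ -A) fun a ha => hB (h1 a (Multiset.mem_toFinset.1 ha)),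
      sum_union_neg hA]
    refine sum_congr rfl fun a _ => ?_
    rw [sub_smul, natCast_zsmul, natCast_zsmul, smul_neg, sub_eq_add_neg]

omit [DecidableEq G] in
lemma W_of_parts {B P : Finset G} (hB : ∀ x ∈ B, -x ∈ B) (hP : Asym P) (hPB : P ⊆ B)
    (s t : Multiset G) (hs : ∀ a ∈ s, a ∈ P) (ht : ∀ a ∈ t, a ∈ P) (hd : ∀ a ∈ t, a ∉ s) :
    W B (s.card + t.card) (s.sum - t.sum) := by
  refine ⟨s + t.map Neg.neg, by simp, fun y hy => ?_, fun y hy hy' => ?_, ?_⟩
  · rcases Multiset.mem_add.1 hy with hy | hy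
    · exact hPB (hs y hy)
    · obtain ⟨a, ha, rfl⟩ := Multiset.mem_map.1 hy
      exact hB a (hPB (ht a ha))
  · rcases Multiset.mem_add.1 hy with hy | hy <;> rcases Multiset.mem_add.1 hy' with hy' | hy'
    · exact hP y (hs y hy) (hs _ hy')
    · obtain ⟨a, ha, h⟩ := Multiset.mem_map.1 hy'
      exact hd a ha (neg_injective h ▸ hy)
    · obtain ⟨a, ha, rfl⟩ := Multiset.mem_map.1 hy
      exact hd a ha (by rwa [neg_neg] at hy')
    · obtain ⟨a, ha, rfl⟩ := Multiset.mem_map.1 hy
      obtain ⟨c, hc, h⟩ := Multiset.mem_map.1 hy'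
      rw [neg_neg] at h
      exact hP c (ht c hc) (h ▸ ht a ha)
  · rw [Multiset.sum_add, Multiset.sum_map_neg', sub_eq_add_neg]

omit [DecidableEq G] in
lemma Rich.symm {P : Finset G} {w x : G} (hw : w ∈ P) (h : Rich P w x) : Rich P x w := by
  obtain ⟨-, y, hy, z, hz, h, h1, h2⟩ := h
  refine ⟨hw, y, hy, z, hz, by rw [add_comm, h], ?_, ?_⟩
  · rintro rfl
    exact h2 (add_left_cancel h)
  · rintro rfl
    rw [add_comm] at h
    exact h1 (add_right_cancel h)

omit [DecidableEq G] in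
lemma Poor.mono {P P' : Finset G} {w : G} (h : Poor P w) (hP : P' ⊆ P) : Poor P' w := by
  have key : ∀ x, Rich P' w x → Rich P w x := fun x ⟨h0, y, hy, z, hz, h⟩ =>
    ⟨hP h0, y, hP hy, z, hP hz, h⟩
  exact fun x x' hx hx' => h x x' (key x hx) (key x' hx')

lemma cancel {B : Finset G} (hB : ∀ x ∈ B, -x ≠ x) (n : ℕ) : ∀ s : Multiset G, s.card = n →
    (∀ y ∈ s, y ∈ B) → ∃ i, 2 * i ≤ n ∧ W B (n - 2 * i) s.sum := by
  induction n using Nat.strong_induction_on with
  | _ n ih =>
    intro s hn hs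
    by_cases hm : ∀ y ∈ s, -y ∉ s
    · exact ⟨0, by omega, s, by omega, hs, hm, rfl⟩
    · push Not at hm
      obtain ⟨y, hy, hy'⟩ := hm
      obtain ⟨t, rfl⟩ := Multiset.exists_cons_of_mem hy
      obtain ⟨u, rfl⟩ := Multiset.exists_cons_of_mem
        ((Multiset.mem_cons.1 hy').resolve_left (hB y (hs y hy)))
      simp only [Multiset.card_cons] at hn
      obtain ⟨i, hi, hW⟩ := ih u.card (by omega) u rfl fun a ha => hs a (by simp [ha])
      refine ⟨i + 1, by omega, ?_⟩
      rw [show n - 2 * (i + 1) = u.card - 2 * i by omega]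
      simpa using hW

lemma rich_mem {B P : Finset G} (hB : ∀ x ∈ B, -x ∈ B) (hP : Asym P) (hPB : P ⊆ B)
    {t : Multiset G} (ht : ∀ a ∈ t, a ∈ P) (hW : ¬ W B (t.card + 2) t.sum) {w x : G} (hw : w ∈ t)
    (hx : Rich P w x) : x ∈ t.erase w := by
  by_contra hn
  obtain ⟨hx, y, hy, z, hz, h, h1, h2⟩ := hx
  obtain ⟨u, rfl⟩ := Multiset.exists_cons_of_mem hw
  rw [Multiset.erase_cons_head] at hn
  have := W_of_parts hB hP hPB (y ::ₘ z ::ₘ u) {x} (fun a ha => ?_) (by simpa using hx)
    (by simp [h1, h2, hn])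
  · refine hW ?_
    convert this using 1
    · simp
    · simp only [Multiset.sum_cons, Multiset.sum_singleton]
      rw [← add_assoc, ← h]
      abel
  · simp only [Multiset.mem_cons] at ha
    rcases ha with rfl | rfl | ha
    · exact hy
    · exact hz
    · exact ht a (Multiset.mem_cons_of_mem ha)

lemma not_two {B P : Finset G} (hB : ∀ x ∈ B, -x ∈ B) (hP : Asym P) (hPB : P ⊆ B) {w x x' : G}
    (hw : w ∈ P) (hx : Rich P w x) (hx' : Rich P w x') (hxw : x ≠ w) (hxx : x ≠ x') (n : ℕ) :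
    ∀ t : Multiset G, t.count w = n → (∀ a ∈ t, a ∈ P) → x ∈ t → W B (t.card + 2) t.sum := by
  induction n using Nat.strong_induction_on with
  | _ n ih =>
    intro t hn ht hxt
    by_contra hW
    have h1 := Multiset.mem_of_mem_erase (rich_mem hB hP hPB ht hW hxt (hx.symm hw))
    have h2 := rich_mem hB hP hPB ht hW h1 hx'
    obtain ⟨u, rfl⟩ := Multiset.exists_cons_of_mem h1
    rw [Multiset.erase_cons_head] at h2
    obtain ⟨v, rfl⟩ := Multiset.exists_cons_of_mem h2
    obtain ⟨-, y, hy, z, hz, h, h3, h4⟩ := hx'.symm hw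
    have h5 : (y ::ₘ z ::ₘ v).count w < n := by
      rw [Multiset.count_cons_of_ne h3, Multiset.count_cons_of_ne h4, ← hn,
        Multiset.count_cons_self]
      exact Nat.lt_succ_of_le (Multiset.count_le_count_cons _ _ _)
    have := ih _ h5 (y ::ₘ z ::ₘ v) rfl (fun a ha => ?_) ?_
    · refine hW ?_
      convert this using 1
      · simp
      · simp only [Multiset.sum_cons]
        rw [← add_assoc, ← add_assoc, ← h, add_comm w]
    · simp only [Multiset.mem_cons] at ha
      rcases ha with rfl | rfl | ha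
      · exact hy
      · exact hz
      · exact ht a (by simp [ha])
    · simp only [Multiset.mem_cons, hxw, hxx, false_or] at hxt
      simp [hxt]

lemma iso_lemma {B : Finset G} (hB : ∀ x ∈ B, -x ∈ B) (hB' : ∀ x ∈ B, -x ≠ x) (hne : B.Nonempty)
    (h3 : 3 ≤ h) : (∀ z ∈ hs B h, W B h z) ∨ ∃ Om : Finset G, Om.Nonempty ∧ Om ⊆ B ∧ Asym Om ∧
      ∀ P : Finset G, Asym P → Om ⊆ P → P ⊆ B → ∀ w ∈ Om, Poor P w := by
  classical
  by_cases hz : ∀ z ∈ hs B h, W B h z
  · exact Or.inl hz
  right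
  push Not at hz
  obtain ⟨z, hz, hzW⟩ := hz
  obtain ⟨s₀, h1, h2, rfl⟩ := mem_hs.1 hz
  have hex := cancel hB' h s₀ h1 h2
  obtain ⟨hi, s, hs1, hs2, hs3, hs4⟩ := Nat.find_spec hex
  have hmin : ∀ i < Nat.find hex, ¬ W B (h - 2 * i) s₀.sum := fun i hi' hW =>
    Nat.find_min hex hi' ⟨by omega, hW⟩
  have hpos : Nat.find hex ≠ 0 := fun h0 => by
    rw [h0] at hs1
    exact hzW ⟨s, by omega, hs2, hs3, hs4⟩
  by_cases h0 : s = 0
  · obtain ⟨w, hw⟩ := hne
    subst h0
    have h4 := hmin (Nat.find hex - 2) (by omega)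
    rw [Multiset.card_zero] at hs1
    rw [show h - 2 * (Nat.find hex - 2) = 4 by omega, ← hs4] at h4
    refine ⟨{w}, singleton_nonempty w, by simpa using hw, fun a ha => ?_, fun P hP hOP hPB a ha => ?_⟩
    · rw [mem_singleton] at ha ⊢
      rw [ha]
      exact hB' w hw
    · intro x _ hx _
      exfalso
      have ha' := hOP ha
      obtain ⟨-, y, hy, z, hz, h5, h6, h7⟩ := id hx
      have h8 : a ≠ y := by
        rintro rfl
        exact h7 (add_left_cancel h5)
      have h9 : a ≠ z := by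
        rintro rfl
        rw [add_comm] at h5
        exact h6 (add_right_cancel h5)
      have := W_of_parts hB hP hPB {a, x} {y, z} (by simp [ha', hx.1]) (by simp [hy, hz])
        (by simp [h6.symm, h7.symm, h8.symm, h9.symm])
      refine h4 ?_
      simpa [h5] using this
  · have h4 := hmin (Nat.find hex - 1) (by omega)
    rw [show h - 2 * (Nat.find hex - 1) = s.card + 2 by omega, ← hs4] at h4
    refine ⟨s.toFinset, Multiset.toFinset_nonempty.2 h0, fun a ha => hs2 a (by simpa using ha),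
      fun a ha => by simpa using hs3 a (by simpa using ha), fun P hP hOP hPB w hw x x' hx hx' => ?_⟩
    by_contra hxx
    have hs : ∀ a ∈ s, a ∈ P := fun a ha => hOP (by simpa using ha)
    have hws : w ∈ s := by simpa using hw
    by_cases hxw : x = w
    · exact h4 (not_two hB hP hPB (hOP hw) hx' hx (fun h => hxx (hxw.trans h.symm)) (Ne.symm hxx) _
        s rfl hs (Multiset.mem_of_mem_erase (rich_mem hB hP hPB hs h4 hws hx')))
    · exact h4 (not_two hB hP hPB (hOP hw) hx hx' hxw hxx _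
        s rfl hs (Multiset.mem_of_mem_erase (rich_mem hB hP hPB hs h4 hws hx)))

lemma Peel.mono : ∀ {k k' : ℕ} {P : Finset G}, Peel k' P → k ≤ k' → Peel k P
  | 0, _, _, _, _ => trivial
  | _ + 1, 0, _, _, h => absurd h (by omega)
  | _ + 1, _ + 1, _, ⟨w, hw, h1, h2⟩, h => ⟨w, hw, h1, h2.mono (by omega)⟩

lemma peel_sdiff (k : ℕ) (Om : Finset G) : ∀ P : Finset G, Om ⊆ P → (∀ w ∈ Om, Poor P w) →
    Peel k (P \ Om) → Peel (k + Om.card) P := by
  induction Om using Finset.induction_on with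
  | empty => intro P _ _ h; simpa using h
  | insert w Om hw ih =>
    intro P h1 h2 h3
    rw [card_insert_of_notMem hw]
    refine ⟨w, h1 (mem_insert_self _ _), h2 w (mem_insert_self _ _), ih _ (fun a ha => ?_)
      (fun a ha => (h2 a (mem_insert_of_mem ha)).mono (erase_subset _ _)) ?_⟩
    · exact mem_erase.2 ⟨fun h => hw (h ▸ ha), h1 (mem_insert_of_mem ha)⟩
    · rwa [erase_sdiff_comm, ← sdiff_insert]

lemma collect (h3 : 3 ≤ h) (k : ℕ) : ∀ B : Finset G, (∀ x ∈ B, -x ∈ B) → (∀ x ∈ B, -x ≠ x) →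
    2 * k ≤ B.card →
    (∃ B' ⊆ B, (∀ x ∈ B', -x ∈ B') ∧ B.card + 2 ≤ B'.card + 2 * k ∧ ∀ z ∈ hs B' h, W B' h z) ∨
      ∃ Om ⊆ B, Asym Om ∧ ∀ P : Finset G, Asym P → Om ⊆ P → P ⊆ B → Peel k P := by
  induction k using Nat.strong_induction_on with
  | _ k ih =>
    intro B hB hB' hk
    rcases Nat.eq_zero_or_pos k with rfl | hk0
    · exact Or.inr ⟨∅, empty_subset _, fun _ h => by simp at h, fun _ _ _ _ => trivial⟩
    rcases iso_lemma hB hB' (card_pos.1 (by omega)) h3 with h1 | ⟨Om, hne, hOB, hOa, hO⟩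
    · exact Or.inl ⟨B, Subset.rfl, hB, by omega, h1⟩
    have hr := card_pos.2 hne
    by_cases hkr : k ≤ Om.card
    · exact Or.inr ⟨Om, hOB, hOa, fun P hP h1 h2 =>
        (peel_sdiff 0 Om P h1 (hO P hP h1 h2) trivial).mono (by omega)⟩
    have hc : B.card ≤ (B \ (Om ∪ -Om)).card + 2 * Om.card := by
      have e1 := le_card_sdiff (Om ∪ -Om) B
      have e2 := card_union_le Om (-Om)
      rw [card_neg] at e2
      omega
    rcases ih (k - Om.card) (by omega) (B \ (Om ∪ -Om))
      (fun x hx => mem_sdiff.2 ⟨hB x (mem_sdiff.1 hx).1, fun h => (mem_sdiff.1 hx).2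
        (by simpa using neg_mem h)⟩) (fun x hx => hB' x (mem_sdiff.1 hx).1) (by omega) with
      ⟨B', h1, h2, h4, h5⟩ | ⟨Om', h1, h2, h4⟩
    · exact Or.inl ⟨B', h1.trans sdiff_subset, h2, by omega, h5⟩
    · have h5 : ∀ x ∈ Om', x ∉ Om ∧ -x ∉ Om := fun x hx => by
        simpa using (mem_sdiff.1 (h1 hx)).2
      refine Or.inr ⟨Om ∪ Om', union_subset hOB (h1.trans sdiff_subset), fun x hx hx' => ?_,
        fun P hP h6 h7 => ?_⟩
      · rcases mem_union.1 hx with hx | hx <;> rcases mem_union.1 hx' with hx' | hx'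
        · exact hOa x hx hx'
        · exact (h5 _ hx').2 (by rwa [neg_neg])
        · exact (h5 _ hx).2 hx'
        · exact h2 x hx hx'
      · have h8 : Om ⊆ P := subset_union_left.trans h6
        refine (peel_sdiff (k - Om.card) Om P h8 (hO P hP h8 h7) (h4 _
          (fun x hx hx' => hP x (mem_sdiff.1 hx).1 (mem_sdiff.1 hx').1)
          (fun x hx => mem_sdiff.2 ⟨h6 (mem_union_right _ hx), (h5 x hx).1⟩)
          fun x hx => mem_sdiff.2 ⟨h7 (mem_sdiff.1 hx).1, fun h => ?_⟩)).mono (by omega)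
        rcases mem_union.1 h with h | h
        · exact (mem_sdiff.1 hx).2 h
        · exact hP x (mem_sdiff.1 hx).1 (h8 (mem_neg'.1 h))

lemma poor_card {P : Finset G} {w : G} (hw : w ∈ P) (hp : Poor P w) :
    (P.erase w + P.erase w).card + P.card ≤ (P + P).card + 1 := by
  classical
  have h1 : (P.filter (Rich P w)).card ≤ 1 :=
    card_le_one.2 fun x hx x' hx' => hp x x' (mem_filter.1 hx).2 (mem_filter.1 hx').2
  have h2 := card_filter_add_card_filter_not (s := P) (Rich P w)
  have h3 : Disjoint (P.erase w + P.erase w)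
      ((P.filter fun x => ¬ Rich P w x).image fun x => w + x) := by
    rw [disjoint_left]
    intro u hu hu'
    obtain ⟨x, hx, rfl⟩ := mem_image.1 hu'
    obtain ⟨y, hy, z, hz, h⟩ := mem_add.1 hu
    refine (mem_filter.1 hx).2 ⟨(mem_filter.1 hx).1, y, mem_of_mem_erase hy, z,
      mem_of_mem_erase hz, h.symm, ?_, ?_⟩
    · rintro rfl
      rw [add_comm] at h
      exact (mem_erase.1 hz).1 (add_right_cancel h)
    · rintro rfl
      exact (mem_erase.1 hy).1 (add_right_cancel h)
  have h4 : (P.erase w + P.erase w) ∪ ((P.filter fun x => ¬ Rich P w x).image fun x => w + x) ⊆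
      P + P := by
    refine union_subset (add_subset_add (erase_subset _ _) (erase_subset _ _)) fun u hu => ?_
    obtain ⟨x, hx, rfl⟩ := mem_image.1 hu
    exact add_mem_add hw (mem_filter.1 hx).1
  have h5 := card_le_card h4
  rw [card_union_of_disjoint h3, card_image_of_injective _ (add_right_injective w)] at h5
  omega

lemma extend (hA : Asym A) {Om : Finset G} (hO : Om ⊆ A ∪ -A) (hOa : Asym Om) :
    ∃ P : Finset G, Asym P ∧ P.card = A.card ∧ Om ⊆ P ∧ P ⊆ A ∪ -A := by
  refine ⟨A.image fun a => if -a ∈ Om then -a else a, fun x hx hx' => ?_,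
    card_image_of_injOn fun a ha a' ha' h => ?_, fun w hw => ?_, fun x hx => ?_⟩
  · obtain ⟨a, ha, rfl⟩ := mem_image.1 hx
    obtain ⟨a', ha', h⟩ := mem_image.1 hx'
    split_ifs at h with h1 h2 h2
    · rw [neg_neg] at h
      exact hA a' ha' (h ▸ ha)
    · exact h2 (neg_injective h ▸ h1)
    · rw [neg_neg] at h
      exact h1 (h ▸ h2)
    · exact hA a ha (h ▸ ha')
  · beta_reduce at h
    split_ifs at h with h1 h2 h2
    · exact neg_injective h
    · exact absurd (h ▸ ha' : -a ∈ A) (hA a ha)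
    · exact absurd (h ▸ ha : -a' ∈ A) (hA a' ha')
    · exact h
  · rcases mem_union.1 (hO hw) with h | h
    · exact mem_image.2 ⟨w, h, if_neg (hOa w hw)⟩
    · exact mem_image.2 ⟨-w, mem_neg'.1 h, by rw [neg_neg, if_pos hw]⟩
  · obtain ⟨a, ha, rfl⟩ := mem_image.1 hx
    split_ifs
    · exact neg_mem (mem_union_left _ ha)
    · exact mem_union_left _ ha

omit [AddCommGroup G] in
lemma sum_update {M : Type} [AddCommGroup M] {a : G} (ha : a ∈ A) (f : G → ℤ → M) (c : G → ℤ)
    (p : ℤ) : ∑ y ∈ A, f y (Function.update c a p y) = ∑ y ∈ A, f y (c y) - f a (c a) + f a p := by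
  rw [← add_sum_erase A _ ha, ← add_sum_erase A (fun y => f y (c y)) ha, Function.update_self,
    sum_congr rfl fun y hy => by rw [Function.update_of_ne (mem_erase.1 hy).1]]
  abel

lemma sset_add_two {x z : G} (hx : x ∈ A) (hx' : -x ∈ A) (hz : z ∈ sset A h) :
    z ∈ sset A (h + 2) := by
  obtain ⟨c, h1, h2⟩ := hz
  by_cases hxx : -x = x
  · obtain ⟨p, r, hp, hp'⟩ : ∃ p r : ℤ, |p| = |c x| + 2 ∧ p = c x + r * 2 := by
      rcases abs_cases (c x) with h | h
      · exact ⟨c x + 2, 1, by rw [abs_of_nonneg (by omega)]; omega, by ring⟩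
      · exact ⟨c x - 2, -1, by rw [abs_of_nonpos (by omega)]; omega, by ring⟩
    refine ⟨Function.update c x p, ?_, ?_⟩
    · rw [sum_update hx fun _ t => |t|, h1, hp]
      push_cast
      ring
    · have : (2 : ℤ) • x = 0 := by
        rw [two_smul]
        nth_rewrite 1 [← hxx]
        exact neg_add_cancel x
      rw [sum_update hx fun y t => t • y, h2, hp', add_smul, mul_smul, this]
      simp
  · obtain ⟨p, q, hp, hq⟩ : ∃ p q : ℤ, |p| + |q| = |c x| + |c (-x)| + 2 ∧
        p = c x - c (-x) + q := by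
      rcases abs_cases (c x) with h | h <;> rcases abs_cases (c (-x)) with h' | h'
      · exact ⟨c x + 1, c (-x) + 1, by
          rw [abs_of_nonneg (by omega), abs_of_nonneg (by omega)]; omega, by ring⟩
      · exact ⟨c x - c (-x) + 1, 1, by rw [abs_of_nonneg (by omega), abs_one]; omega, by ring⟩
      · exact ⟨1, c (-x) - c x + 1, by rw [abs_one, abs_of_nonneg (by omega)]; omega, by ring⟩
      · exact ⟨c x - 1, c (-x) - 1, by
          rw [abs_of_nonpos (by omega), abs_of_nonpos (by omega)]; omega, by ring⟩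
    refine ⟨Function.update (Function.update c x p) (-x) q, ?_, ?_⟩
    · rw [sum_update hx' fun _ t => |t|, sum_update hx fun _ t => |t|, h1,
        Function.update_of_ne hxx]
      push_cast
      linarith
    · rw [sum_update hx' fun y t => t • y, sum_update hx fun y t => t • y, h2,
        Function.update_of_ne hxx, hq]
      module

lemma sset_step {x z a : G} (hx : x ∈ A) (hx' : -x ∈ A) (hz : z ∈ sset A h) (ha : a ∈ A) {ε : ℤ}
    (hε : ε = 1 ∨ ε = -1) : z + ε • a ∈ sset A (h + 1) := by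
  obtain ⟨c, h1, h2⟩ := hz
  have h3 : ∑ y ∈ A, Function.update c a (c a + ε) y • y = z + ε • a := by
    rw [sum_update ha fun y t => t • y, h2]
    module
  have h4 := sum_update ha (fun _ t => |t|) c (c a + ε)
  rw [h1] at h4
  have h5 : |c a + ε| = |c a| + 1 ∨ |c a + ε| + 1 = |c a| := by
    rcases abs_cases (c a) with h | h <;> rcases abs_cases (c a + ε) with h' | h' <;> omega
  rcases h5 with h5 | h5
  · exact ⟨_, by rw [h4, h5]; push_cast; ring, h3⟩
  · have h6 : |c a| ≤ h := h1 ▸ single_le_sum (f := fun y => |c y|) (fun _ _ => abs_nonneg _) ha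
    have h7 := abs_nonneg (c a + ε)
    obtain ⟨k, rfl⟩ : ∃ k, h = k + 1 := ⟨h - 1, by omega⟩
    exact sset_add_two hx hx' ⟨_, by rw [h4]; push_cast; linarith, h3⟩

end Iso

open Iso

theorem hs_subset_of_asym (hA : Asym A) {P : Finset G} (hP : P ⊆ A ∪ -A) (hP' : Asym P) :
    (hs P h : Set G) ⊆ sset A h := by
  intro z hz
  obtain ⟨s, h1, h2, h3⟩ := mem_hs.1 hz
  exact W.mem_sset hA hP ⟨s, h1, h2, fun y hy hy' => hP' y (h2 y hy) (h2 _ hy'), h3⟩

theorem hs_subset_of_meet {x : G} (hx : x ∈ A) (hx' : -x ∈ A) :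
    (hs (A ∪ -A) h : Set G) ⊆ sset A h := by
  induction h with
  | zero =>
    intro z hz
    rw [hs, coe_singleton, Set.mem_singleton_iff] at hz
    exact ⟨0, by simp, by simp [hz]⟩
  | succ h ih =>
    intro z hz
    rw [hs, mem_coe] at hz
    obtain ⟨y, hy, b, hb, rfl⟩ := mem_add.1 hz
    rcases mem_union.1 hb with hb | hb
    · simpa using sset_step hx hx' (ih hy) hb (Or.inl rfl)
    · simpa using sset_step hx hx' (ih hy) (mem_neg'.1 hb) (Or.inr rfl)

theorem two_subset (hA : Asym A) : (((A ∪ -A) - (A ∪ -A)).erase 0 : Set G) ⊆ sset A 2 := by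
  intro z hz
  obtain ⟨h0, hz⟩ := mem_erase.1 hz
  obtain ⟨u, hu, v, hv, rfl⟩ := mem_sub.1 hz
  have h1 := neg_ne hA hu
  have h2 := neg_ne hA hv
  have h3 : u ≠ v := sub_ne_zero.1 h0
  refine W.mem_sset hA Subset.rfl ⟨{u, -v}, rfl, ?_, ?_, by simp [sub_eq_add_neg]⟩
  · simp only [Multiset.insert_eq_cons, Multiset.mem_cons, Multiset.mem_singleton]
    rintro y (rfl | rfl)
    · exact hu
    · exact neg_mem hv
  · simp [h1, h2, h3, h3.symm]

theorem card_union_neg (hA : Asym A) : (A ∪ -A).card = 2 * A.card := by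
  rw [card_union_of_disjoint (disj hA), card_neg, two_mul]

/-- Either the signed sumset holds the sumset of a large symmetric set, or some choice of signs
has a large double sumset. -/
theorem iso_dichotomy (hA : Asym A) (h3 : 3 ≤ h) (hm : 4 ≤ A.card) :
    (∃ B : Finset G, (∀ x ∈ B, -x ∈ B) ∧ A.card ≤ B.card ∧ (hs B h : Set G) ⊆ sset A h) ∨
      ∃ P : Finset G, Asym P ∧ P.card = A.card ∧ P ⊆ A ∪ -A ∧
        4 * A.card ≤ (P + P).card + 9 := by
  have hc := card_union_neg hA
  rcases collect h3 3 (A ∪ -A) (fun _ => neg_mem) (fun _ => neg_ne hA) (by omega) with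
    ⟨B, h1, h2, h4, h5⟩ | ⟨Om, h1, h2, h4⟩
  · exact Or.inl ⟨B, h2, by omega, fun z hz => (h5 z hz).mem_sset hA h1⟩
  · obtain ⟨P, h5, h6, h7, h8⟩ := extend hA h1 h2
    obtain ⟨a, ha, pa, b, hb, pb, c, hc, pc, -⟩ := h4 P h5 h7 h8
    have e1 := poor_card ha pa
    have e2 := poor_card hb pb
    have e3 := poor_card hc pc
    have e4 := card_erase_add_one ha
    have e5 := card_erase_add_one hb
    have e6 := card_erase_add_one hc
    have e7 := card_le_card_add_left (s := ((P.erase a).erase b).erase c)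
      (t := ((P.erase a).erase b).erase c) (card_pos.1 (by omega))
    exact Or.inr ⟨P, h5, h6, h8, by omega⟩

end Pool.Agent.P.MP_7ea450_co
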