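import Pool.Agent.P.MP_7ea450_co.Ctx

/-!
Lower bounds for `h`-fold sumsets of symmetric sets and of sets with a large double sumset.
-/

open Finset
open scoped Pointwise

set_option linter.unusedSectionVars false
set_option linter.style.haveILetI false

namespace Pool.Agent.P.MP_7ea450_co

variable {G : Type} [AddCommGroup G] [Fintype G] [DecidableEq G] {h e m T : ℕ}

namespace SignedSym

omit [Fintype G] in
lemma hs_nonempty {B : Finset G} (hB : B.Nonempty) (j : ℕ) : (hs B j).Nonempty := by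
  induction j with
  | zero => exact ⟨0, by simp [hs]⟩
  | succ j ih => exact ih.add hB

omit [Fintype G] in
lemma hs_image {Q : Type} [AddCommGroup Q] [DecidableEq Q] (φ : G →+ Q) (B : Finset G) (j : ℕ) :
    (hs B j).image φ = hs (B.image φ) j := by
  induction j with
  | zero => simp [hs]
  | succ j ih =>
    rw [hs, hs, ← ih]
    ext q
    simp only [mem_image, mem_add]
    constructor
    · rintro ⟨_, ⟨x, hx, b, hb, rfl⟩, rfl⟩
      exact ⟨φ x, ⟨x, hx, rfl⟩, φ b, ⟨b, hb, rfl⟩, (map_add φ x b).symm⟩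
    · rintro ⟨_, ⟨x, hx, rfl⟩, _, ⟨b, hb, rfl⟩, rfl⟩
      exact ⟨x + b, ⟨x, hx, b, hb, rfl⟩, map_add φ x b⟩

omit [Fintype G] in
/-- A period of `hs B j` is a period of every later sumset. -/
lemma period_add (B : Finset G) (s : G) (j t : ℕ) (hs0 : ∀ x ∈ hs B j, x + s ∈ hs B j) :
    ∀ x ∈ hs B (j + t), x + s ∈ hs B (j + t) := by
  induction t with
  | zero => exact hs0
  | succ t ih =>
    intro x hx
    have hx' : x ∈ hs B (j + t) + B := hx
    obtain ⟨y, hy, b, hb, rfl⟩ := mem_add.1 hx'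
    have : y + b + s ∈ hs B (j + t) + B := mem_add.2 ⟨y + s, ih y hy, b, hb, by abel⟩
    exact this

/-- Growth of iterated sumsets when the last one is aperiodic. -/
lemma growth (B : Finset G) (hB : B.Nonempty) (h : ℕ)
    (hap : ∀ s : G, (∀ x ∈ hs B h, x + s ∈ hs B h) → s = 0) (j t : ℕ) (hjt : j + t ≤ h) :
    (hs B j).card + t * (B.card - 1) ≤ (hs B (j + t)).card := by
  induction t with
  | zero => simp
  | succ t ih =>
    have ih' := ih (by omega)
    obtain ⟨S, h1, h2⟩ := kneser_add (hs B (j + t)) B (hs_nonempty hB _) hB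
    have hS : S = ⊥ := by
      rw [eq_bot_iff]
      intro s hs0
      obtain ⟨u, hu⟩ := Nat.exists_eq_add_of_le hjt
      have h3 := period_add B s (j + (t + 1)) u ((h1 s).1 hs0)
      rw [← hu] at h3
      exact (AddSubgroup.mem_bot).2 (hap s h3)
    subst hS
    rw [cov_bot, cov_bot, AddSubgroup.card_bot, mul_one] at h2
    have h4 : hs B (j + (t + 1)) = hs B (j + t) + B := rfl
    have h5 : 0 < B.card := card_pos.2 hB
    rw [h4, add_mul, one_mul]
    omega

/-- Iterated Kneser bound, counted in cosets of the stabiliser of the last sumset. -/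
lemma iter_kneser (B : Finset G) (hB : B.Nonempty) (h : ℕ) :
    ∃ S : AddSubgroup G, ∀ j t, j + t = h →
      (cov S (hs B j) + t * (cov S B - 1)) * Nat.card S ≤ (hs B h).card := by
  classical
  let S : AddSubgroup G :=
    { carrier := {s | ∀ x, x ∈ hs B h ↔ x + s ∈ hs B h}
      add_mem' := fun {a b} ha hb x => by
        rw [← add_assoc]
        exact (ha x).trans (hb (x + a))
      zero_mem' := fun x => by rw [add_zero]
      neg_mem' := fun {a} ha x => by
        have := ha (x + -a)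
        rw [neg_add_cancel_right] at this
        exact this.symm }
  have hS : ∀ s, s ∈ S ↔ ∀ x, x ∈ hs B h ↔ x + s ∈ hs B h := fun s => Iff.rfl
  have hS' : ∀ s, (∀ x ∈ hs B h, x + s ∈ hs B h) → s ∈ S := by
    intro s hs0
    rw [hS]
    intro x
    refine ⟨hs0 x, fun hx => ?_⟩
    have h1 : (hs B h).image (fun y => y + s) ⊆ hs B h := by
      intro z hz
      obtain ⟨y, hy, rfl⟩ := mem_image.1 hz
      exact hs0 y hy
    have h2 : (hs B h).image (fun y => y + s) = hs B h :=
      eq_of_subset_of_card_le h1 (card_image_of_injective _ (add_left_injective s)).ge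
    rw [← h2] at hx
    obtain ⟨y, hy, hyx⟩ := mem_image.1 hx
    rwa [← add_right_cancel hyx]
  haveI := Fintype.ofFinite (G ⧸ S)
  refine ⟨S, fun j t hjt => ?_⟩
  have hcard : (hs B h).card = cov S (hs B h) * Nat.card S :=
    card_eq_cov_mul S _ (fun x hx s hs0 => ((hS s).1 hs0 x).1 hx)
  rw [hcard]
  refine Nat.mul_le_mul_right _ ?_
  rw [cov_eq_card_image, cov_eq_card_image, cov_eq_card_image, hs_image, hs_image]
  have hap : ∀ q : G ⧸ S, (∀ x ∈ hs (B.image (QuotientAddGroup.mk' S)) h,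
      x + q ∈ hs (B.image (QuotientAddGroup.mk' S)) h) → q = 0 := by
    intro q hq
    obtain ⟨s, rfl⟩ := QuotientAddGroup.mk'_surjective S q
    rw [← hs_image] at hq
    refine (QuotientAddGroup.eq_zero_iff s).2 (hS' s fun x hx => ?_)
    have h1 := hq _ (mem_image_of_mem _ hx)
    rw [← map_add] at h1
    obtain ⟨y, hy, hyx⟩ := mem_image.1 h1
    have h2 : x + s - y ∈ S := QuotientAddGroup.eq_iff_sub_mem.1 hyx.symm
    have h3 := ((hS _).1 h2 y).1 hy
    have h4 : y + (x + s - y) = x + s := by abel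
    rwa [h4] at h3
  have := growth (B.image (QuotientAddGroup.mk' S)) (hB.image _) h hap j t hjt.le
  rwa [hjt] at this

/-- Every prime factor of the order divides the exponent. -/
lemma prime_dvd_exp (hex : ∀ x : G, e • x = 0) {p : ℕ} (hp : p.Prime) (hd : p ∣ Nat.card G) :
    p ∣ e := by
  haveI := Fact.mk hp
  obtain ⟨x, hx⟩ := exists_prime_addOrderOf_dvd_card' (G := G) p hd
  rw [← hx]
  exact addOrderOf_dvd_of_nsmul_eq_zero (hex x)

lemma two_mul_card_le {P : Finset G} (hasym : Asym P) : 2 * P.card ≤ Nat.card G := by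
  have hdisj : Disjoint P (-P) := by
    rw [disjoint_left]
    intro x hx hx'
    exact hasym x hx (mem_neg'.1 hx')
  have h1 := card_le_univ (P ∪ -P)
  rw [card_union_of_disjoint hdisj, card_neg, ← Nat.card_eq_fintype_card] at h1
  omega

lemma exists_ceil {c d : ℕ} (hc : 1 ≤ c) (hd : 0 < d) :
    ∃ k, d * k < c ∧ c ≤ d * (k + 1) := by
  refine ⟨(c - 1) / d, ?_, ?_⟩
  · have := Nat.mul_div_le (c - 1) d
    omega
  · have := Nat.lt_mul_div_succ (c - 1) hd
    omega

end SignedSym

open SignedSym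

/-- Symmetric sets. -/
theorem sym_lower
    (hM : ∀ (Q : Type) [AddCommGroup Q] [Fintype Q] [DecidableEq Q], MProp Q) (h2 : 2 ≤ h)
    (he : 0 < e) (hex : ∀ x : G, e • x = 0) (hm : 1 ≤ m) (B : Finset G) (hB : ∀ x ∈ B, -x ∈ B)
    (hmB : m ≤ B.card) (hT : Bndh h (Nat.card G) e m T) : T ≤ (hs B h).card := by
  classical
  have hne : B.Nonempty := card_pos.1 (by omega)
  obtain ⟨S, hS⟩ := iter_kneser B hne h
  obtain ⟨t, rfl⟩ := Nat.exists_eq_add_of_le h2
  have h1 := hS 2 t rfl
  haveI := Fintype.ofFinite (G ⧸ S)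
  set B' := B.image (QuotientAddGroup.mk' S) with hB'
  have hc : cov S B = B'.card := cov_eq_card_image S B
  have hsym : B' + B' = B' - B' := by
    have : -B' = B' := by
      ext q
      rw [mem_neg']
      constructor
      · intro hq
        obtain ⟨b, hb, hbq⟩ := mem_image.1 hq
        exact mem_image.2 ⟨-b, hB b hb, by rw [map_neg, hbq, neg_neg]⟩
      · intro hq
        obtain ⟨b, hb, hbq⟩ := mem_image.1 hq
        exact mem_image.2 ⟨-b, hB b hb, by rw [map_neg, hbq]⟩
    rw [sub_eq_add_neg, this]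
  have hc2 : cov S (hs B 2) = (B' - B').card := by
    rw [cov_eq_card_image, hs_image, hs_two, hsym]
  have hcpos : 1 ≤ B'.card := card_pos.2 (hne.image _)
  have hexQ : ∀ q : G ⧸ S, e • q = 0 := by
    intro q
    obtain ⟨x, rfl⟩ := QuotientAddGroup.mk'_surjective S q
    rw [← map_nsmul, hex, map_zero]
  have hnot : ¬ Bnd (Nat.card (G ⧸ S)) e B'.card ((B' - B').card + 1) := by
    intro hb
    have := hM (G ⧸ S) e B'.card _ B' he hexQ hcpos le_rfl hb
    omega
  unfold Bnd at hnot
  push Not at hnot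
  obtain ⟨d', k, hd', hg, hk, hlt⟩ := hnot
  have hd0 : 0 < d' := Nat.pos_of_ne_zero (by rintro rfl; rw [zero_mul] at hk; omega)
  obtain ⟨k1, hk1, hk2⟩ := exists_ceil hcpos hd0
  have hkk : k1 + 1 ≤ k := by
    by_contra hlt'
    have : d' * k ≤ d' * k1 := Nat.mul_le_mul_left _ (by omega)
    omega
  have hkk' : d' * (k1 + 1) ≤ d' * k := Nat.mul_le_mul_left _ hkk
  have hn : Nat.card G = Nat.card (G ⧸ S) * Nat.card S :=
    AddSubgroup.card_eq_card_quotient_mul_card_addSubgroup S
  have hmc : m ≤ B'.card * Nat.card S := by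
    rw [← hc]
    exact hmB.trans (card_le_cov_mul S B)
  have hT' := hT (d' * Nat.card S) k1 (by rw [hn]; exact Nat.mul_dvd_mul_right hd' _)
    (by
      rw [hn, mul_right_comm, Nat.gcd_mul_right]
      exact hmc.trans (Nat.mul_le_mul_right _ hg))
    (by
      rw [mul_right_comm]
      exact hmc.trans (Nat.mul_le_mul_right _ hk2))
  refine hT'.trans (le_trans ?_ h1)
  rw [mul_right_comm]
  refine Nat.mul_le_mul_right _ ?_
  rw [hc, hc2]
  have h3 : t * (d' * k1) ≤ t * (B'.card - 1) := Nat.mul_le_mul_left _ (by omega)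
  have h4 : d' * ((2 + t) * k1 + 1) = 2 * (d' * k1) + d' + t * (d' * k1) := by ring
  have h5 : d' * (k1 + 1) = d' * k1 + d' := by ring
  omega

/-- Sets with a large double sumset. -/
theorem big_lower (h3 : 3 ≤ h) (hed : e ∣ Nat.card G) (hex : ∀ x : G, e • x = 0) (hm : 1 ≤ m)
    (P : Finset G) (hP : P.card = m) (hasym : Asym P)
    (hbig : m ≤ e ∨ 4 * m ≤ (P + P).card + 9) (hT : Bndh h (Nat.card G) e m T) :
    T ≤ (hs P h).card := by
  classical
  have hne : P.Nonempty := card_pos.1 (by omega)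
  obtain ⟨S, hS⟩ := iter_kneser P hne h
  have hn0 : 0 < Nat.card G := Nat.card_pos
  have hdn : Nat.card S ∣ Nat.card G := AddSubgroup.card_addSubgroup_dvd_card S
  have hd0 : 0 < Nat.card S := Nat.card_pos
  have hcpos : 0 < cov S P := cov_pos S hne
  have hmc : m ≤ cov S P * Nat.card S := hP ▸ card_le_cov_mul S P
  obtain ⟨c, hc⟩ : ∃ c, cov S P = c + 1 := ⟨cov S P - 1, by omega⟩
  rw [hc] at hmc
  simp only [hc, Nat.add_sub_cancel] at hS
  generalize hd : Nat.card S = d at hS hdn hd0 hmc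
  by_cases hall : m ≤ Nat.gcd (d * e) (Nat.card G)
  · have h1 := hT d c hdn hall (by rw [mul_comm]; exact hmc)
    have h2 := hS 0 h (by omega)
    have h4 : 0 < cov S (hs P 0) := cov_pos S (hs_nonempty hne 0)
    refine h1.trans (le_trans ?_ h2)
    rw [mul_comm]
    exact Nat.mul_le_mul_right _ (by omega)
  have hgpos : ∀ a, 0 < Nat.gcd a (Nat.card G) := fun a => Nat.gcd_pos_of_pos_right _ hn0
  have hem : e < m := by
    have : e ≤ Nat.gcd (d * e) (Nat.card G) :=
      Nat.le_of_dvd (hgpos _) (Nat.dvd_gcd (Dvd.intro_left _ rfl) hed)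
    omega
  have hbig' : 4 * m ≤ (P + P).card + 9 := by
    rcases hbig with hb | hb
    · omega
    · exact hb
  have he0 : 0 < e := Nat.pos_of_dvd_of_pos hed hn0
  have he3 : 3 ≤ e := by
    obtain ⟨x, hx⟩ := hne
    by_contra hlt
    have h2 : 2 • x = 0 := by
      have hx0 := hex x
      have : e = 1 ∨ e = 2 := by omega
      rcases this with rfl | rfl
      · rw [one_nsmul] at hx0
        rw [hx0, nsmul_zero]
      · exact hx0
    have h4 : -x = x := by
      rw [two_nsmul] at h2
      exact neg_eq_of_add_eq_zero_left h2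
    exact hasym x hx (by rwa [h4])
  obtain ⟨t, rfl⟩ : ∃ t, h = 2 + (t + 1) := ⟨h - 3, by omega⟩
  have hlow : (P + P).card + (t + 1) * (c * d) ≤ (hs P (2 + (t + 1))).card := by
    have h1 := hS 2 (t + 1) rfl
    have h2 := card_le_cov_mul S (hs P 2)
    rw [hd] at h2
    rw [hs_two] at h2
    rw [hs_two, add_mul, mul_assoc] at h1
    omega
  have hprime : ∀ p, p.Prime → p ∣ Nat.card G → p ∣ e := fun p hp hpd => prime_dvd_exp hex hp hpd
  have h2m : 2 * m ≤ Nat.card G := hP ▸ two_mul_card_le hasym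
  by_cases hm6 : 6 ≤ m
  · have hex1 : ∃ D, 0 < D ∧ d ∣ D ∧ D ∣ Nat.card G ∧ m ≤ Nat.gcd (D * e) (Nat.card G) :=
      ⟨Nat.card G, hn0, hdn, dvd_rfl, by
        rw [Nat.gcd_eq_right (Dvd.intro _ rfl)]
        omega⟩
    obtain ⟨hD0, hdD, hDn, hDall⟩ := Nat.find_spec hex1
    have hmin := fun D' => Nat.find_min hex1 (m := D')
    generalize Nat.find hex1 = D at hD0 hdD hDn hDall hmin
    obtain ⟨u, rfl⟩ := hdD
    have hu1 : u ≠ 1 := by
      rintro rfl
      rw [mul_one] at hDall
      exact hall hDall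
    obtain ⟨p, hp, v, rfl⟩ := Nat.exists_prime_and_dvd hu1
    have hv0 : 0 < v := Nat.pos_of_ne_zero (by rintro rfl; simp at hD0)
    have hpe : p ∣ e := hprime p hp (Dvd.dvd.trans ⟨d * v, by ring⟩ hDn)
    have hlt : d * v < d * (p * v) := by
      refine Nat.mul_lt_mul_of_pos_left ?_ hd0
      have := hp.two_le
      nlinarith
    have hnall : ¬ m ≤ Nat.gcd (d * v * e) (Nat.card G) := fun hh =>
      hmin (d * v) hlt ⟨Nat.mul_pos hd0 hv0, Dvd.intro _ rfl,
        Dvd.dvd.trans ⟨p, by ring⟩ hDn, hh⟩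
    have hDle : d * (p * v) ≤ Nat.gcd (d * v * e) (Nat.card G) := by
      refine Nat.le_of_dvd (hgpos _) (Nat.dvd_gcd ?_ hDn)
      obtain ⟨w, rfl⟩ := hpe
      exact ⟨w, by ring⟩
    obtain ⟨k, hk1, hk2⟩ := exists_ceil hm hD0
    have h1 := hT _ k hDn hDall hk2
    have h2 : d * (p * v) * k ≤ c * d := by
      have h4 : d * (p * v * k) < d * (c + 1) := by
        rw [← mul_assoc, mul_comm d (c + 1)]
        omega
      have h5 : p * v * k ≤ c := Nat.le_of_lt_succ (Nat.lt_of_mul_lt_mul_left h4)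
      rw [mul_assoc, mul_comm c d]
      exact Nat.mul_le_mul_left _ h5
    generalize d * (p * v) = D at h1 h2 hk1 hDle
    have h4 : (t + 1) * (D * k) ≤ (t + 1) * (c * d) := Nat.mul_le_mul_left _ h2
    have h5 : D * ((2 + (t + 1)) * k + 1) = 2 * (D * k) + D + (t + 1) * (D * k) := by ring
    omega
  · have hle : ∀ D, D ∣ Nat.card G → m ≤ D → T ≤ D := by
      intro D hD hmD
      have := hT D 0 hD (hmD.trans (Nat.le_of_dvd (hgpos _) (Nat.dvd_gcd (Dvd.intro _ rfl) hD)))
        (by omega)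
      omega
    obtain ⟨n', hn'⟩ := hed
    have he34 : e = 3 ∨ e = 4 := by omega
    have hn1 : n' ≠ 1 := by
      rintro rfl
      omega
    obtain ⟨p, hp, w, rfl⟩ := Nat.exists_prime_and_dvd hn1
    have hpe : p ∣ e := hprime p hp ⟨e * w, by rw [hn']; ring⟩
    rcases he34 with rfl | rfl
    · have hp3 : p = 3 := (Nat.prime_dvd_prime_iff_eq hp Nat.prime_three).1 hpe
      subst hp3
      have h9 : 9 ∣ Nat.card G := ⟨w, by rw [hn']; ring⟩
      have hT9 := hle 9 h9 (by omega)
      have hd1 : d = 1 := by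
        by_contra hd1
        obtain ⟨q, hq, z, rfl⟩ := Nat.exists_prime_and_dvd hd1
        have hq3 : q = 3 := (Nat.prime_dvd_prime_iff_eq hq Nat.prime_three).1
          (hprime q hq (Dvd.dvd.trans (Dvd.intro _ rfl) hdn))
        subst hq3
        have : 9 ≤ Nat.gcd (3 * z * 3) (Nat.card G) :=
          Nat.le_of_dvd (hgpos _) (Nat.dvd_gcd ⟨z, by ring⟩ h9)
        omega
      subst hd1
      have h1 : c * 1 ≤ (t + 1) * (c * 1) := Nat.le_mul_of_pos_left _ (by omega)
      omega
    · have hp2 : p = 2 := by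
        have : p ∣ 2 ^ 2 := hpe
        exact (Nat.prime_dvd_prime_iff_eq hp Nat.prime_two).1 (hp.dvd_of_dvd_pow this)
      subst hp2
      have h8 : 8 ∣ Nat.card G := ⟨w, by rw [hn']; ring⟩
      have hT8 := hle 8 h8 (by omega)
      omega

end Pool.Agent.P.MP_7ea450_co
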