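import Pool.Agent.P.MP_7ea450_co.Ctx

/-!
The constructions which give the upper bounds, and the factorisation of allowed divisors.
-/

open Finset
open scoped Pointwise

set_option linter.style.haveILetI false

namespace Pool.Agent.P.MP_7ea450_co

namespace Up

/-- A graded additive invariant passes from `A` and `-A` to the signed sumsets. -/
lemma sset_ind {G : Type} [AddCommGroup G] (P : ℕ → G → Prop) (h0 : P 0 0)
    (hadd : ∀ i j x y, P i x → P j y → P (i + j) (x + y)) (A : Finset G)
    (hA : ∀ a ∈ A, P 1 a ∧ P 1 (-a)) (h : ℕ) (x : G) (hx : x ∈ sset A h) : P h x := by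
  classical
  obtain ⟨c, hc, rfl⟩ := hx
  have hn : ∀ (a : G), P 1 a → ∀ k : ℕ, P k (k • a) := by
    intro a ha k
    induction k with
    | zero => simpa using h0
    | succ k ih => rw [succ_nsmul]; exact hadd _ _ _ _ ih ha
  have hz : ∀ a ∈ A, ∀ z : ℤ, P z.natAbs (z • a) := by
    intro a ha z
    rcases Int.natAbs_eq z with hz | hz
    · have := hn a (hA a ha).1 z.natAbs
      rw [← natCast_zsmul, ← hz] at this
      exact this
    · have := hn (-a) (hA a ha).2 z.natAbs
      rw [← natCast_zsmul, zsmul_neg, ← neg_zsmul, ← hz] at this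
      exact this
  have key : ∀ s : Finset G, s ⊆ A → P (∑ a ∈ s, (c a).natAbs) (∑ a ∈ s, c a • a) := by
    intro s
    induction s using Finset.induction_on with
    | empty => intro _; simpa using h0
    | insert a s has ih =>
      intro hs
      rw [sum_insert has, sum_insert has]
      exact hadd _ _ _ _ (hz a (hs (mem_insert_self _ _)) _)
        (ih (fun y hy => hs (mem_insert_of_mem hy)))
  have he : ∑ a ∈ A, (c a).natAbs = h := by
    have : ((∑ a ∈ A, (c a).natAbs : ℕ) : ℤ) = (h : ℤ) := by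
      rw [← hc]; push_cast; rfl
    exact_mod_cast this
  rw [← he]
  exact key A subset_rfl

/-- A symmetric progression of cosets. -/
lemma prog {G : Type} [AddCommGroup G] [Finite G] (H : AddSubgroup G) (g : G) (k m h : ℕ)
    (hinj : ∀ j : ℕ, 0 < j → j ≤ k → (2 * j) • g ∉ H) (hm : m ≤ (k + 1) * Nat.card H) :
    ∃ A : Finset G, A.card = m ∧ (sset A h).ncard ≤ (h * k + 1) * Nat.card H := by
  classical
  haveI : Fintype G := Fintype.ofFinite G
  have hH : (H : Set G).toFinset.card = Nat.card H := (Nat.card_eq_card_toFinset (H : Set G)).symm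
  let F : ℕ → ℕ × G → G := fun l p => p.2 + ((2 * p.1 : ℤ) - (l : ℤ)) • g
  let U : ℕ → Finset G := fun l => ((range (l + 1)) ×ˢ (H : Set G).toFinset).image (F l)
  have hU : ∀ l x, x ∈ U l ↔ ∃ t : ℕ, t ≤ l ∧ x - ((2 * t : ℤ) - (l : ℤ)) • g ∈ H := by
    intro l x
    simp only [U, mem_image, mem_product, mem_range, Set.mem_toFinset, SetLike.mem_coe]
    constructor
    · rintro ⟨⟨t, y⟩, ⟨ht, hy⟩, rfl⟩
      exact ⟨t, by simpa [Nat.lt_succ_iff] using ht, by simpa [F] using hy⟩
    · rintro ⟨t, ht, hy⟩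
      exact ⟨(t, x - ((2 * t : ℤ) - (l : ℤ)) • g), ⟨by simpa [Nat.lt_succ_iff] using ht, hy⟩,
        by simp [F]⟩
  have hle : ∀ l, (U l).card ≤ (l + 1) * Nat.card H := by
    intro l
    refine card_image_le.trans ?_
    rw [card_product, card_range, hH]
  have aux : ∀ (t t' : ℕ) (y y' : G), t < t' → t' ≤ k → y ∈ H → y' ∈ H →
      F k (t, y) ≠ F k (t', y') := by
    intro t t' y y' h1 h2 hy hy' he
    apply hinj (t' - t) (by omega) (by omega)
    have h3 : (2 * (t' - t)) • g = y - y' := by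
      rw [← natCast_zsmul]
      have h4 : ((2 * (t' - t) : ℕ) : ℤ) = ((2 * t' : ℤ) - (k : ℤ)) - ((2 * t : ℤ) - (k : ℤ)) := by
        push_cast [Nat.cast_sub h1.le]; ring
      rw [h4, sub_zsmul]
      simp only [F] at he
      have h5 : y = y' + ((2 * t' : ℤ) - (k : ℤ)) • g - ((2 * t : ℤ) - (k : ℤ)) • g := by
        rw [← he]; abel
      rw [h5]; abel
    rw [h3]
    exact H.sub_mem hy hy'
  have hcard : (U k).card = (k + 1) * Nat.card H := by
    rw [← hH, ← card_range (k + 1), ← card_product]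
    apply card_image_of_injOn
    rintro ⟨t, y⟩ h1 ⟨t', y'⟩ h2 he
    simp only [coe_product, coe_range, Set.mem_prod, Set.mem_Iio, Set.coe_toFinset,
      SetLike.mem_coe] at h1 h2
    rcases lt_trichotomy t t' with h3 | h3 | h3
    · exact absurd he (aux t t' y y' h3 (by omega) h1.2 h2.2)
    · subst h3
      simp only [F, add_left_inj] at he
      rw [he]
    · exact absurd he.symm (aux t' t y' y h3 (by omega) h2.2 h1.2)
  obtain ⟨A, hAU, hA⟩ := exists_subset_card_eq (s := U k) (n := m) (by rw [hcard]; exact hm)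
  refine ⟨A, hA, ?_⟩
  have hsub : sset A h ⊆ (U (h * k) : Set G) := by
    intro x hx
    refine sset_ind (fun j x => x ∈ U (j * k)) ?_ ?_ A ?_ h x hx
    · exact (hU _ _).2 ⟨0, by simp, by simp⟩
    · intro i j x y hx hy
      obtain ⟨t, ht, hx⟩ := (hU _ _).1 hx
      obtain ⟨t', ht', hy⟩ := (hU _ _).1 hy
      refine (hU _ _).2 ⟨t + t', by rw [add_mul]; omega, ?_⟩
      have h4 : ((2 * ((t + t' : ℕ) : ℤ)) - (((i + j) * k : ℕ) : ℤ)) =
          ((2 * t : ℤ) - ((i * k : ℕ) : ℤ)) + ((2 * t' : ℤ) - ((j * k : ℕ) : ℤ)) := by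
        push_cast; ring
      rw [h4, add_zsmul]
      convert H.add_mem hx hy using 1
      abel
    · intro a ha
      rw [one_mul]
      refine ⟨hAU ha, ?_⟩
      obtain ⟨t, ht, hx⟩ := (hU _ _).1 (hAU ha)
      refine (hU _ _).2 ⟨k - t, by omega, ?_⟩
      have h4 : ((2 * ((k - t : ℕ) : ℤ)) - (k : ℤ)) = -((2 * t : ℤ) - (k : ℤ)) := by
        push_cast [Nat.cast_sub ht]; ring
      rw [h4, neg_zsmul]
      convert H.neg_mem hx using 1
      abel
  refine (Set.ncard_le_ncard hsub (U (h * k)).finite_toSet).trans ?_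
  rw [Set.ncard_coe_finset]
  exact hle _

/-- The product of the subgroups of order `d i`. -/
def box {ι : Type} (n d : ι → ℕ) : AddSubgroup ((i : ι) → ZMod (n i)) :=
  AddSubgroup.pi Set.univ (fun i => AddSubgroup.zmultiples ((n i / d i : ℕ) : ZMod (n i)))

lemma card_box {ι : Type} [Fintype ι] (n d : ι → ℕ) (hn : ∀ i, 0 < n i) (hd : ∀ i, d i ∣ n i) :
    Nat.card (box n d) = ∏ i, d i := by
  have e : box n d ≃ ((i : ι) → AddSubgroup.zmultiples ((n i / d i : ℕ) : ZMod (n i))) :=
    { toFun := fun x i => ⟨x.1 i, x.2 i (Set.mem_univ i)⟩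
      invFun := fun y => ⟨fun i => (y i).1, fun i _ => (y i).2⟩
      left_inv := fun x => rfl
      right_inv := fun y => rfl }
  rw [Nat.card_congr e, Nat.card_pi]
  refine prod_congr rfl fun i _ => ?_
  rw [Nat.card_zmultiples, ZMod.addOrderOf_coe _ (hn i).ne',
    Nat.gcd_eq_right (Nat.div_dvd_of_dvd (hd i)), Nat.div_div_self (hd i) (hn i).ne']

lemma dvd_of_mem_zmultiples {n e a : ℕ} (he : e ∣ n)
    (h : (a : ZMod n) ∈ AddSubgroup.zmultiples (e : ZMod n)) : e ∣ a := by
  obtain ⟨z, hz⟩ := AddSubgroup.mem_zmultiples_iff.1 h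
  have h1 : ((z * e : ℤ) : ZMod n) = ((a : ℤ) : ZMod n) := by
    push_cast
    rw [← hz, zsmul_eq_mul]
  rw [ZMod.intCast_eq_intCast_iff_dvd_sub] at h1
  have h2 : (e : ℤ) ∣ (a : ℤ) - z * e := (Int.natCast_dvd_natCast.2 he).trans h1
  have h3 : (e : ℤ) ∣ (a : ℤ) := by
    have := dvd_add h2 (Dvd.intro_left z rfl : (e : ℤ) ∣ z * e)
    simpa using this
  exact Int.natCast_dvd_natCast.1 h3

/-- A finite abelian group has subgroups of every order dividing its order. -/
lemma exists_subgroup (d : ℕ) : ∀ (G : Type) [AddCommGroup G] [Finite G], d ∣ Nat.card G →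
    ∃ H : AddSubgroup G, Nat.card H = d := by
  induction d using induction_on_primes with
  | zero =>
    intro G _ _ hd
    exact absurd (zero_dvd_iff.1 hd) Nat.card_pos.ne'
  | one => intro G _ _ _; exact ⟨⊥, by simp⟩
  | prime_mul p d hp ih =>
    intro G _ _ hd
    classical
    haveI : Fact p.Prime := ⟨hp⟩
    obtain ⟨x, hx⟩ := exists_prime_addOrderOf_dvd_card' (G := G) p ((Dvd.intro _ rfl).trans hd)
    have hN : Nat.card (AddSubgroup.zmultiples x) = p := by rw [Nat.card_zmultiples, hx]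
    have h1 := AddSubgroup.card_eq_card_quotient_mul_card_addSubgroup (AddSubgroup.zmultiples x)
    rw [hN] at h1
    have h2 : d ∣ Nat.card (G ⧸ AddSubgroup.zmultiples x) := by
      rw [h1, mul_comm p d] at hd
      exact Nat.dvd_of_mul_dvd_mul_right hp.pos hd
    obtain ⟨K, hK⟩ := ih _ h2
    haveI : Fintype G := Fintype.ofFinite G
    haveI : Fintype (G ⧸ AddSubgroup.zmultiples x) := Fintype.ofFinite _
    refine ⟨K.comap (QuotientAddGroup.mk' _), ?_⟩
    rw [card_comap _ (QuotientAddGroup.mk'_surjective _), QuotientAddGroup.ker_mk', hN, hK]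

lemma zero_notMem_sset {G : Type} [AddCommGroup G] (A : Finset G)
    (hA : ∀ x ∈ A, ∀ y ∈ A, x ≠ -y) : (0 : G) ∉ sset A 2 := by
  classical
  rintro ⟨c, hc, h0⟩
  have key : ∀ s : Finset G, s ⊆ A →
      (∑ a ∈ s, |c a| = 0 → ∑ a ∈ s, c a • a = 0) ∧
      (∑ a ∈ s, |c a| = 1 → ∃ b ∈ s, ∑ a ∈ s, c a • a = b ∨ ∑ a ∈ s, c a • a = -b) ∧
      (∑ a ∈ s, |c a| = 2 → ∑ a ∈ s, c a • a ≠ 0) := by
    intro s
    induction s using Finset.induction_on with
    | empty => intro _; simp
    | insert a s has ih =>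
      intro hs
      obtain ⟨i0, i1, i2⟩ := ih (fun y hy => hs (mem_insert_of_mem hy))
      have ha : a ∈ A := hs (mem_insert_self _ _)
      have hnn : 0 ≤ ∑ a ∈ s, |c a| := sum_nonneg fun _ _ => abs_nonneg _
      have hca := abs_nonneg (c a)
      rw [sum_insert has, sum_insert has]
      refine ⟨fun h => ?_, fun h => ?_, fun h => ?_⟩
      · have h1 : c a = 0 := abs_eq_zero.1 (by omega)
        rw [h1, i0 (by omega)]; simp
      · by_cases h1 : |c a| = 0
        · obtain ⟨b, hb, hb'⟩ := i1 (by omega)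
          rw [abs_eq_zero.1 h1, zero_zsmul, zero_add]
          exact ⟨b, mem_insert_of_mem hb, hb'⟩
        · have h2 : |c a| = 1 := by omega
          rw [i0 (by omega), add_zero]
          refine ⟨a, mem_insert_self _ _, ?_⟩
          rcases (abs_eq (by norm_num)).1 h2 with h3 | h3 <;> simp [h3]
      · by_cases h1 : |c a| = 0
        · rw [abs_eq_zero.1 h1, zero_zsmul, zero_add]
          exact i2 (by omega)
        · by_cases h2 : |c a| = 1
          · obtain ⟨b, hb, hb'⟩ := i1 (by omega)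
            have hab : a ≠ b := fun e => has (e ▸ hb)
            have hab' : a ≠ -b := hA a ha b (hs (mem_insert_of_mem hb))
            intro he
            rcases (abs_eq (by norm_num)).1 h2 with h3 | h3 <;> rcases hb' with h4 | h4 <;>
              rw [h3, h4] at he
            · exact hab' (by rw [one_zsmul] at he; exact eq_neg_of_add_eq_zero_left he)
            · exact hab (by rw [one_zsmul] at he; exact add_neg_eq_zero.1 he)
            · exact hab (by rw [neg_zsmul, one_zsmul] at he; exact neg_add_eq_zero.1 he)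
            · refine hab' ?_
              rw [neg_zsmul, one_zsmul, ← neg_add, neg_eq_zero] at he
              exact eq_neg_of_add_eq_zero_left he
          · have h3 : |c a| = 2 := by omega
            rw [i0 (by omega), add_zero]
            intro he
            apply hA a ha a ha
            rcases (abs_eq (by norm_num)).1 h3 with h4 | h4 <;> rw [h4] at he
            · rw [two_zsmul] at he; exact eq_neg_of_add_eq_zero_left he
            · rw [neg_zsmul, neg_eq_zero, two_zsmul] at he; exact eq_neg_of_add_eq_zero_left he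
  exact (key A subset_rfl).2.2 (by exact_mod_cast hc) h0

lemma split_dvd {ι : Type} [DecidableEq ι] (f : ι → ℕ) (s : Finset ι) :
    ∀ a : ℕ, a ∣ ∏ i ∈ s, f i → ∃ g : ι → ℕ, (∀ i, g i ∣ f i) ∧ ∏ i ∈ s, g i = a := by
  induction s using Finset.induction_on with
  | empty =>
    intro a ha
    exact ⟨fun _ => 1, fun _ => one_dvd _, by simpa [eq_comm] using ha⟩
  | insert j s hj ih =>
    intro a ha
    rw [prod_insert hj] at ha
    obtain ⟨a₁, a₂, h1, h2, rfl⟩ := exists_dvd_and_dvd_of_dvd_mul ha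
    obtain ⟨g, hg, hg'⟩ := ih a₂ h2
    refine ⟨Function.update g j a₁, fun i => ?_, ?_⟩
    · by_cases hi : i = j
      · subst hi; simpa using h1
      · simpa [Function.update_of_ne hi] using hg i
    · rw [prod_insert hj, Function.update_self, ← hg']
      congr 1
      exact prod_congr rfl fun i hi => Function.update_of_ne (ne_of_mem_of_not_mem hi hj) _ _

end Up

theorem upper_u (r : ℕ) (n : Fin (r + 1) → ℕ) (hn : ∀ i, 0 < n i) (d : Fin (r + 1) → ℕ)
    (hd : ∀ i, d i ∣ n i) (m h : ℕ) (hm : 1 ≤ m) (h2 : 2 ≤ h)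
    (hdm : d (Fin.last r) * m ≤ (∏ i, d i) * n (Fin.last r)) :
    ∃ A : Finset ((i : Fin (r + 1)) → ZMod (n i)), A.card = m ∧
      (sset A h).ncard ≤ (h * ((m + (∏ i, d i) - 1) / (∏ i, d i)) - h + 1) * (∏ i, d i) := by
  classical
  haveI : ∀ i, NeZero (n i) := fun i => ⟨(hn i).ne'⟩
  have hd0 : ∀ i, 0 < d i := fun i => Nat.pos_of_dvd_of_pos (hd i) (hn i)
  have hD : 0 < ∏ i, d i := prod_pos fun i _ => hd0 i
  obtain ⟨ρ, hρ⟩ := hd (Fin.last r)
  have hρ' : n (Fin.last r) / d (Fin.last r) = ρ := by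
    rw [hρ, Nat.mul_div_cancel_left _ (hd0 _)]
  have hmρ : m ≤ (∏ i, d i) * ρ := by
    refine Nat.le_of_mul_le_mul_left ?_ (hd0 (Fin.last r))
    calc d (Fin.last r) * m ≤ (∏ i, d i) * n (Fin.last r) := hdm
      _ = d (Fin.last r) * ((∏ i, d i) * ρ) := by rw [hρ]; ring
  have hk1 := Nat.div_add_mod (m + (∏ i, d i) - 1) (∏ i, d i)
  have hk2 := Nat.mod_lt (m + (∏ i, d i) - 1) hD
  have hk3 : 0 < (m + (∏ i, d i) - 1) / (∏ i, d i) := Nat.div_pos (by omega) hD
  obtain ⟨k, hk⟩ : ∃ k, (m + (∏ i, d i) - 1) / (∏ i, d i) = k + 1 :=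
    ⟨_, (Nat.succ_pred_eq_of_pos hk3).symm⟩
  rw [hk] at hk1 ⊢
  have he : h * (k + 1) - h + 1 = h * k + 1 := by rw [mul_add, mul_one, Nat.add_sub_cancel]
  rw [he]
  by_cases hc : 2 * k < ρ
  · have := Up.prog (Up.box n d) (Pi.single (Fin.last r) 1) k m h ?_ ?_
    · rwa [Up.card_box n d hn hd] at this
    · intro j hj0 hjk hmem
      have h1 : ((2 * j) • (Pi.single (Fin.last r) 1 : (i : Fin (r + 1)) → ZMod (n i))) (Fin.last r) ∈
          AddSubgroup.zmultiples ((n (Fin.last r) / d (Fin.last r) : ℕ) : ZMod (n (Fin.last r))) :=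
        hmem (Fin.last r) (Set.mem_univ _)
      rw [hρ'] at h1
      have h3 : (((2 * j : ℕ)) : ZMod (n (Fin.last r))) ∈
          AddSubgroup.zmultiples ((ρ : ℕ) : ZMod (n (Fin.last r))) := by
        simpa using h1
      have h4 := Up.dvd_of_mem_zmultiples (Dvd.intro_left _ hρ.symm) h3
      have := Nat.le_of_dvd (by omega) h4
      omega
    · rw [Up.card_box n d hn hd, mul_comm]; omega
  · have hd' : ∀ i, Function.update d (Fin.last r) (n (Fin.last r)) i ∣ n i := by
      intro i
      by_cases hi : i = Fin.last r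
      · subst hi; simp
      · simpa [Function.update_of_ne hi] using hd i
    have hK : Nat.card (Up.box n (Function.update d (Fin.last r) (n (Fin.last r)))) =
        (∏ i, d i) * ρ := by
      rw [Up.card_box n _ hn hd', prod_update_of_mem (mem_univ _),
        ← mul_prod_erase univ d (mem_univ (Fin.last r)), sdiff_singleton_eq_erase, hρ]
      ring
    obtain ⟨A, hA, hA'⟩ := Up.prog (Up.box n (Function.update d (Fin.last r) (n (Fin.last r))))
      0 0 m h (fun j h1 h2 => by omega) (by rw [hK]; omega)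
    refine ⟨A, hA, hA'.trans ?_⟩
    rw [hK, mul_zero, zero_add, one_mul, mul_comm]
    refine Nat.mul_le_mul_right _ ?_
    have : 2 * k ≤ h * k := Nat.mul_le_mul_right _ h2
    omega

theorem upper_odd {G : Type} [AddCommGroup G] [Finite G] (d m : ℕ) (hd : d ∣ Nat.card G)
    (hodd : Odd d) (hm : 2 * m < d) :
    ∃ A : Finset G, A.card = m ∧ (sset A 2).ncard ≤ d - 1 := by
  classical
  haveI : Fintype G := Fintype.ofFinite G
  obtain ⟨H, hH⟩ := Up.exists_subgroup d G hd
  let f : G → ℕ := fun x => (Fintype.equivFin G x : ℕ)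
  have hf : Function.Injective f := fun x y h => (Fintype.equivFin G).injective (Fin.ext h)
  have hHc : (H : Set G).toFinset.card = d := by
    rw [← hH]; exact (Nat.card_eq_card_toFinset (H : Set G)).symm
  let P : Finset G := (H : Set G).toFinset.filter (fun x => f x < f (-x))
  have hcov : (H : Set G).toFinset ⊆ insert 0 (P ∪ P.image (fun x => -x)) := by
    intro x hx
    have hxH : x ∈ H := by simpa using hx
    rw [mem_insert, mem_union]
    rcases lt_trichotomy (f x) (f (-x)) with h1 | h1 | h1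
    · exact Or.inr (Or.inl (mem_filter.2 ⟨hx, h1⟩))
    · left
      haveI : Fintype H := Fintype.ofFinite H
      have h2 : (⟨x, hxH⟩ : H) = 0 :=
        eq_zero_of_neg_eq (G := H) (by rw [hH]; exact hodd) (Subtype.ext (hf h1).symm)
      exact congrArg Subtype.val h2
    · refine Or.inr (Or.inr (mem_image.2 ⟨-x, mem_filter.2 ⟨?_, ?_⟩, neg_neg x⟩))
      · simpa using hxH
      · rwa [neg_neg]
  have hP : m ≤ P.card := by
    have h1 := card_le_card hcov
    have h2 := card_insert_le (0 : G) (P ∪ P.image (fun x => -x))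
    have h3 := card_union_le P (P.image (fun x => -x))
    have h4 : (P.image (fun x => -x)).card ≤ P.card := card_image_le
    omega
  obtain ⟨A, hAP, hA⟩ := exists_subset_card_eq hP
  refine ⟨A, hA, ?_⟩
  have hsub : sset A 2 ⊆ (((H : Set G).toFinset.erase 0 : Finset G) : Set G) := by
    intro x hx
    rw [mem_coe, mem_erase]
    refine ⟨?_, ?_⟩
    · rintro rfl
      refine Up.zero_notMem_sset A ?_ hx
      intro a ha b hb hab
      have h1 := (mem_filter.1 (hAP ha)).2
      have h2 := (mem_filter.1 (hAP hb)).2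
      rw [hab, neg_neg] at h1
      omega
    · have : x ∈ H := by
        refine Up.sset_ind (fun _ x => x ∈ H) H.zero_mem (fun _ _ _ _ h1 h2 => H.add_mem h1 h2)
          A ?_ 2 x hx
        intro a ha
        have : a ∈ H := by simpa using (mem_filter.1 (hAP ha)).1
        exact ⟨this, H.neg_mem this⟩
      simpa using this
  refine (Set.ncard_le_ncard hsub (Finset.finite_toSet _)).trans ?_
  rw [Set.ncard_coe_finset, card_erase_of_mem (by simp), hHc]

theorem tuple_of_allowed (r : ℕ) (n : Fin (r + 1) → ℕ) (hn : ∀ i, 0 < n i) (D m : ℕ)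
    (hD : D ∣ ∏ i, n i) (hm : m ≤ Nat.gcd (D * n (Fin.last r)) (∏ i, n i)) :
    ∃ d : Fin (r + 1) → ℕ, (∀ i, d i ∣ n i) ∧ ∏ i, d i = D ∧
      d (Fin.last r) * m ≤ D * n (Fin.last r) := by
  classical
  rw [← prod_erase_mul univ n (mem_univ (Fin.last r))] at hD hm
  set N := ∏ i ∈ univ.erase (Fin.last r), n i with hN
  have hN0 : 0 < N := prod_pos fun i _ => hn i
  rw [Nat.gcd_mul_right] at hm
  have hg0 : 0 < Nat.gcd D N := Nat.gcd_pos_of_pos_right _ hN0
  obtain ⟨g, hg, hg'⟩ := Up.split_dvd n (univ.erase (Fin.last r)) (Nat.gcd D N)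
    (Nat.gcd_dvd_right _ _)
  have hmul : D / Nat.gcd D N * Nat.gcd D N = D := Nat.div_mul_cancel (Nat.gcd_dvd_left _ _)
  have hdl : D / Nat.gcd D N ∣ n (Fin.last r) := by
    refine (Nat.coprime_div_gcd_div_gcd hg0).dvd_of_dvd_mul_left ?_
    refine Nat.dvd_of_mul_dvd_mul_right hg0 ?_
    rw [hmul, mul_right_comm, Nat.div_mul_cancel (Nat.gcd_dvd_right _ _)]
    exact hD
  refine ⟨Function.update g (Fin.last r) (D / Nat.gcd D N), fun i => ?_, ?_, ?_⟩
  · by_cases hi : i = Fin.last r
    · subst hi; simpa using hdl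
    · simpa [Function.update_of_ne hi] using hg i
  · rw [prod_update_of_mem (mem_univ _), sdiff_singleton_eq_erase, hg', hmul]
  · rw [Function.update_self]
    calc D / Nat.gcd D N * m ≤ D / Nat.gcd D N * (Nat.gcd D N * n (Fin.last r)) :=
          Nat.mul_le_mul_left _ hm
      _ = D * n (Fin.last r) := by rw [← mul_assoc, hmul]

end Pool.Agent.P.MP_7ea450_co
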