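import Pool.Agent.P.MP_7ea450_co.Core
import Pool.Agent.P.MP_7ea450_co.SignedSym
import Pool.Agent.P.MP_7ea450_co.SignedIso
import Pool.Agent.P.MP_7ea450_co.Upper

/-!
Lower bounds for signed sumsets.
-/

open Finset
open scoped Pointwise

namespace Pool.Agent.P.MP_7ea450_co

variable {G : Type} [AddCommGroup G] [Fintype G] [DecidableEq G] {h e m T : ℕ} {A : Finset G}

omit [DecidableEq G] in
lemma card_le_ncard {B : Finset G} {S : Set G} (hB : (B : Set G) ⊆ S) : B.card ≤ S.ncard := by
  rw [← Set.ncard_coe_finset]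
  exact Set.ncard_le_ncard hB (Set.toFinite _)

omit [Fintype G] in
lemma neg_mem_union_neg (A : Finset G) : ∀ x ∈ A ∪ -A, -x ∈ A ∪ -A := by
  intro x hx
  rcases mem_union.1 hx with h | h
  · exact mem_union_right _ (neg_mem_neg h)
  · exact mem_union_left _ (mem_neg'.1 h)

lemma signed_of_not_asym (h2 : 2 ≤ h) (he : 0 < e) (hex : ∀ x : G, e • x = 0) (hm : 1 ≤ m)
    (hA : A.card = m) (hT : Bndh h (Nat.card G) e m T) (hn : ¬ Asym A) : T ≤ (sset A h).ncard := by
  unfold Asym at hn
  push Not at hn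
  obtain ⟨x, hx, hx'⟩ := hn
  exact (sym_lower mprop_all h2 he hex hm (A ∪ -A) (neg_mem_union_neg A)
    (hA ▸ card_le_card subset_union_left) hT).trans (card_le_ncard (hs_subset_of_meet hx hx'))

theorem signed_lower (h3 : 3 ≤ h) (hed : e ∣ Nat.card G) (hex : ∀ x : G, e • x = 0) (hm : 1 ≤ m)
    (hA : A.card = m) (hT : Bndh h (Nat.card G) e m T) : T ≤ (sset A h).ncard := by
  have he : 0 < e := Nat.pos_of_dvd_of_pos hed Nat.card_pos
  by_cases hn : Asym A
  swap
  · exact signed_of_not_asym (by omega) he hex hm hA hT hn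
  by_cases hme : m ≤ e
  · exact (big_lower h3 hed hex hm A hA hn (Or.inl hme) hT).trans
      (card_le_ncard (hs_subset_of_asym hn subset_union_left hn))
  have he3 : 3 ≤ e := by
    obtain ⟨x, hx⟩ : A.Nonempty := card_pos.1 (by omega)
    by_contra hlt
    have h1 := hex x
    apply hn x hx
    rcases (show e = 1 ∨ e = 2 by omega) with rfl | rfl
    · rw [one_nsmul] at h1
      rwa [h1, neg_zero, ← h1]
    · rw [two_nsmul] at h1
      rwa [neg_eq_of_add_eq_zero_right h1]
  rcases iso_dichotomy hn h3 (by omega) with ⟨B, h1, h2, h4⟩ | ⟨P, h1, h2, h4, h5⟩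
  · exact (sym_lower mprop_all (by omega) he hex hm B h1 (hA ▸ h2) hT).trans (card_le_ncard h4)
  · exact (big_lower h3 hed hex hm P (h2.trans hA) h1 (Or.inr (hA ▸ h5)) hT).trans
      (card_le_ncard (hs_subset_of_asym hn h4 h1))

theorem signed_lower_two (he : 0 < e) (hex : ∀ x : G, e • x = 0) (hm : 1 ≤ m)
    (hA : A.card = m) (hT : Bndh 2 (Nat.card G) e m T)
    (hodd : ∀ d, d ∣ Nat.card G → Odd d → 2 * m < d → T + 1 ≤ d) : T ≤ (sset A 2).ncard := by
  by_cases hn : Asym A
  swap
  · exact signed_of_not_asym le_rfl he hex hm hA hT hn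
  have hn0 : 0 < Nat.card G := Nat.card_pos
  have hB : Bnd (Nat.card G) e (2 * m) (T + 1) := by
    intro d k hd h1 h2
    have hd0 : 0 < d := Nat.pos_of_dvd_of_pos hd hn0
    by_cases hdm : d < 2 * m
    · obtain ⟨j, hj⟩ : ∃ j, k = j + 2 := by
        refine ⟨k - 2, ?_⟩
        rcases (show k = 0 ∨ k = 1 ∨ 2 ≤ k by omega) with rfl | rfl | h <;> omega
      have h3 := hT d ((k + 1) / 2 - 1) hd (by omega) (by
        have : k ≤ 2 * ((k + 1) / 2 - 1 + 1) := by omega
        have := Nat.mul_le_mul_left d this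
        nlinarith)
      have h4 : d * (2 * ((k + 1) / 2 - 1) + 1) ≤ d * k := Nat.mul_le_mul_left d (by omega)
      subst hj
      nlinarith
    · have hk : d * 1 ≤ d * k := by
        refine Nat.mul_le_mul_left d (Nat.pos_of_ne_zero ?_)
        rintro rfl
        omega
      rcases Nat.even_or_odd' d with ⟨j, hj | hj⟩
      · have hjd : j ∣ Nat.card G := (Dvd.intro_left 2 hj.symm).trans hd
        have h3 := hT j 0 hjd ((show m ≤ j by omega).trans (Nat.le_of_dvd
          (Nat.gcd_pos_of_pos_right _ hn0) (Nat.dvd_gcd (Dvd.intro _ rfl) hjd))) (by omega)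
        omega
      · have := hodd d hd ⟨j, hj⟩ (by omega)
        omega
  have h1 := mprop_all G e (2 * m) (T + 1) (A ∪ -A) he hex (by omega)
    (by rw [card_union_neg hn, hA]) hB
  have h2 := card_le_ncard (two_subset hn)
  have h3 := pred_card_le_card_erase (s := (A ∪ -A) - (A ∪ -A)) (a := 0)
  omega

end Pool.Agent.P.MP_7ea450_co
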