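import Pool.Agent.P.MP_7ea450_co.Defs

/-!
Cosets, fibres and Kneser's theorem in the form used for difference sets.
-/

open Finset
open scoped Pointwise

set_option linter.unusedSectionVars false
set_option linter.style.haveILetI false

namespace Pool.Agent.P.MP_7ea450_co

variable {G : Type} [AddCommGroup G] [Fintype G] [DecidableEq G]

section Fib

variable {Q : Type} [AddCommGroup Q] [Fintype Q] [DecidableEq Q]

omit [Fintype Q] in
/-- A nonempty fibre of a homomorphism has the size of the kernel. -/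
lemma card_fiber (φ : G →+ Q) (x : G) :
    (univ.filter (fun a => φ a = φ x)).card = Nat.card φ.ker := by
  classical
  rw [show Nat.card φ.ker = (φ.ker : Set G).toFinset.card from
    Nat.card_eq_card_toFinset (φ.ker : Set G)]
  refine card_bij (fun a _ => a - x) ?_ ?_ ?_
  · intro a ha
    simp only [mem_filter, mem_univ, true_and] at ha
    simp [AddMonoidHom.mem_ker, ha]
  · intro a _ b _ h
    exact sub_left_injective h
  · intro b hb
    simp only [Set.mem_toFinset, SetLike.mem_coe, AddMonoidHom.mem_ker] at hb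
    exact ⟨b + x, by simp [hb], by simp⟩

omit [Fintype Q] in
lemma fib_le_ker (φ : G →+ Q) (A : Finset G) (q : Q) : fib φ A q ≤ Nat.card φ.ker := by
  unfold fib
  rcases (A.filter (fun a => φ a = q)).eq_empty_or_nonempty with h | ⟨x, hx⟩
  · rw [h]; simp
  · rw [← card_fiber φ x]
    refine card_le_card fun a ha => ?_
    simp only [mem_filter, mem_univ, true_and] at ha hx ⊢
    rw [ha.2, hx.2]

omit [Fintype G] in
lemma sum_fib (φ : G →+ Q) (A : Finset G) : ∑ q, fib φ A q = A.card := by
  unfold fib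
  exact (card_eq_sum_card_fiberwise (fun a _ => mem_univ (φ a))).symm

omit [Fintype G] [Fintype Q] in
lemma sum_fib_image (φ : G →+ Q) (A : Finset G) : ∑ q ∈ A.image φ, fib φ A q = A.card := by
  unfold fib
  exact (card_eq_sum_card_fiberwise (fun a ha => mem_image_of_mem φ ha)).symm

omit [Fintype G] [Fintype Q] in
lemma fib_pos_iff (φ : G →+ Q) (A : Finset G) (q : Q) : 0 < fib φ A q ↔ q ∈ A.image φ := by
  unfold fib
  rw [card_pos, mem_image]
  constructor
  · rintro ⟨a, ha⟩
    exact ⟨a, (mem_filter.1 ha).1, (mem_filter.1 ha).2⟩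
  · rintro ⟨a, ha, h⟩
    exact ⟨a, mem_filter.2 ⟨ha, h⟩⟩

omit [Fintype G] [Fintype Q] in
lemma fib_mono (φ : G →+ Q) {A B : Finset G} (h : A ⊆ B) (q : Q) : fib φ A q ≤ fib φ B q :=
  card_le_card (filter_subset_filter _ h)

omit [Fintype G] in
lemma mem_lev {φ : G →+ Q} {A : Finset G} {i : ℕ} {q : Q} : q ∈ lev φ A i ↔ i ≤ fib φ A q := by
  simp [lev]

omit [Fintype G] in
lemma lev_one (φ : G →+ Q) (A : Finset G) : lev φ A 1 = A.image φ := by
  ext q
  rw [mem_lev, ← fib_pos_iff]
  rfl

omit [Fintype G] in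
lemma lev_anti (φ : G →+ Q) (A : Finset G) {i j : ℕ} (h : i ≤ j) : lev φ A j ⊆ lev φ A i :=
  fun _ hq => mem_lev.2 (h.trans (mem_lev.1 hq))

omit [Fintype G] in
lemma lev_mono (φ : G →+ Q) {A B : Finset G} (h : A ⊆ B) (i : ℕ) : lev φ A i ⊆ lev φ B i :=
  fun q hq => mem_lev.2 ((mem_lev.1 hq).trans (fib_mono φ h q))

omit [Fintype G] in
lemma sum_card_lev (φ : G →+ Q) (A : Finset G) (P : ℕ) :
    ∑ i ∈ Ioc 0 P, (lev φ A i).card = ∑ q, min P (fib φ A q) := by
  unfold lev
  simp only [card_filter]
  rw [sum_comm]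
  refine sum_congr rfl fun q _ => ?_
  rw [← card_filter]
  have : (Ioc 0 P).filter (fun i => i ≤ fib φ A q) = Ioc 0 (min P (fib φ A q)) := by
    ext i
    simp only [mem_filter, mem_Ioc, le_min_iff]
    tauto
  rw [this]
  simp

omit [Fintype G] in
lemma sum_card_lev_le (φ : G →+ Q) (A : Finset G) (P : ℕ) :
    ∑ i ∈ Ioc 0 P, (lev φ A i).card ≤ A.card := by
  rw [sum_card_lev, ← sum_fib φ A]
  exact sum_le_sum fun q _ => min_le_right _ _

omit [Fintype G] in
lemma sum_card_lev_eq (φ : G →+ Q) (A : Finset G) (P : ℕ) (h : ∀ q, fib φ A q ≤ P) :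
    ∑ i ∈ Ioc 0 P, (lev φ A i).card = A.card := by
  rw [sum_card_lev, ← sum_fib φ A]
  exact sum_congr rfl fun q _ => min_eq_right (h q)

lemma card_eq_ker_mul (φ : G →+ Q) (hφ : Function.Surjective φ) :
    Nat.card G = Nat.card φ.ker * Nat.card Q := by
  have h1 := sum_fib φ (univ : Finset G)
  have h2 : ∀ q, fib φ (univ : Finset G) q = Nat.card φ.ker := by
    intro q
    obtain ⟨x, rfl⟩ := hφ q
    exact card_fiber φ x
  simp only [h2, sum_const, card_univ, smul_eq_mul] at h1
  rw [Nat.card_eq_fintype_card (α := G), Nat.card_eq_fintype_card (α := Q), ← h1, mul_comm]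

omit [Fintype Q] in
/-- The full preimage of a set of values of `φ`. -/
lemma card_preimage (φ : G →+ Q) (hφ : Function.Surjective φ) (B : Finset Q) :
    (univ.filter (fun a => φ a ∈ B)).card = Nat.card φ.ker * B.card := by
  rw [card_eq_sum_card_fiberwise (f := φ) (s := univ.filter (fun a => φ a ∈ B)) (t := B)
    (fun a ha => by simpa using ha)]
  rw [mul_comm, ← smul_eq_mul, ← sum_const]
  refine sum_congr rfl fun q hq => ?_
  obtain ⟨x, rfl⟩ := hφ q
  rw [← card_fiber φ x]
  congr 1
  ext a
  simp only [mem_filter, mem_univ, true_and]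
  exact ⟨fun h => h.2, fun h => ⟨h ▸ hq, h⟩⟩

omit [Fintype Q] in
lemma card_le_image_mul (φ : G →+ Q) (A : Finset G) :
    A.card ≤ (A.image φ).card * Nat.card φ.ker := by
  rw [← sum_fib_image φ A, ← smul_eq_mul, ← sum_const]
  exact sum_le_sum fun q _ => fib_le_ker φ A q

omit [Fintype Q] in
/-- Two subsets of fibres whose sizes add up to more than the kernel have a full difference. -/
lemma mem_sub_of_fib (φ : G →+ Q) (A B : Finset G) (i j : Q)
    (h : Nat.card φ.ker < fib φ A i + fib φ B j) (x : G) (hx : φ x = i - j) : x ∈ A - B := by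
  by_contra hn
  have hA : 0 < fib φ A i := by have := fib_le_ker φ B j; omega
  obtain ⟨a, -, ha⟩ := mem_image.1 ((fib_pos_iff φ A i).1 hA)
  have hdisj : Disjoint (A.filter (fun a => φ a = i))
      ((B.filter (fun b => φ b = j)).image (fun b => x + b)) := by
    rw [disjoint_left]
    intro u hu hu'
    obtain ⟨b, hb, rfl⟩ := mem_image.1 hu'
    exact hn (mem_sub.2 ⟨_, (mem_filter.1 hu).1, b, (mem_filter.1 hb).1, by abel⟩)
  have hsub : A.filter (fun a => φ a = i) ∪ (B.filter (fun b => φ b = j)).image (fun b => x + b)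
      ⊆ univ.filter (fun u => φ u = φ a) := by
    intro u hu
    simp only [mem_filter, mem_univ, true_and]
    rcases mem_union.1 hu with hu | hu
    · rw [(mem_filter.1 hu).2, ha]
    · obtain ⟨b, hb, rfl⟩ := mem_image.1 hu
      rw [map_add, hx, (mem_filter.1 hb).2, ha]
      abel
  have := card_le_card hsub
  rw [card_union_of_disjoint hdisj, card_image_of_injective _ (add_right_injective x),
    card_fiber] at this
  unfold fib at h
  omega

end Fib

section Cov

omit [Fintype G] in
lemma cov_eq_card_image (K : AddSubgroup G) [DecidableEq (G ⧸ K)] (A : Finset G) :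
    cov K A = (A.image (QuotientAddGroup.mk' K)).card := by
  unfold cov
  rw [← Set.ncard_coe_finset, coe_image]
  rfl

lemma card_le_cov_mul (K : AddSubgroup G) (A : Finset G) : A.card ≤ cov K A * Nat.card K := by
  classical
  rw [cov_eq_card_image]
  simpa using card_le_image_mul (QuotientAddGroup.mk' K) A

omit [Fintype G] in
lemma cov_pos (K : AddSubgroup G) {A : Finset G} (hA : A.Nonempty) : 0 < cov K A := by
  classical
  rw [cov_eq_card_image]
  exact card_pos.2 (hA.image _)

omit [Fintype G] in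
lemma cov_mono (K : AddSubgroup G) {A B : Finset G} (h : A ⊆ B) : cov K A ≤ cov K B := by
  classical
  rw [cov_eq_card_image, cov_eq_card_image]
  exact card_le_card (image_subset_image h)

omit [Fintype G] in
lemma cov_le_card (K : AddSubgroup G) (A : Finset G) : cov K A ≤ A.card := by
  classical
  rw [cov_eq_card_image]
  exact card_image_le

lemma cov_mul_le (K : AddSubgroup G) (A : Finset G) : cov K A * Nat.card K ≤ Nat.card G := by
  classical
  haveI := Fintype.ofFinite (G ⧸ K)
  rw [cov_eq_card_image, AddSubgroup.card_eq_card_quotient_mul_card_addSubgroup K]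
  refine Nat.mul_le_mul_right _ ?_
  rw [Nat.card_eq_fintype_card]
  exact card_le_univ _

omit [Fintype G] in
lemma cov_bot (A : Finset G) : cov ⊥ A = A.card := by
  classical
  rw [cov_eq_card_image]
  refine card_image_of_injective _ ?_
  rw [injective_iff_map_eq_zero]
  intro a ha
  simpa using ha

omit [Fintype G] in
/-- `cov K A ≤ 1` says that `A` lies in one coset of `K`. -/
lemma cov_le_one_iff (K : AddSubgroup G) (A : Finset G) :
    cov K A ≤ 1 ↔ ∀ a ∈ A, ∀ b ∈ A, a - b ∈ K := by
  classical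
  rw [cov_eq_card_image, card_le_one]
  constructor
  · intro h a ha b hb
    have := h _ (mem_image_of_mem _ ha) _ (mem_image_of_mem _ hb)
    exact QuotientAddGroup.eq_iff_sub_mem.1 this
  · intro h x hx y hy
    obtain ⟨a, ha, rfl⟩ := mem_image.1 hx
    obtain ⟨b, hb, rfl⟩ := mem_image.1 hy
    exact QuotientAddGroup.eq_iff_sub_mem.2 (h a ha b hb)

omit [Fintype G] in
lemma cov_neg (K : AddSubgroup G) (A : Finset G) : cov K (-A) = cov K A := by
  classical
  rw [cov_eq_card_image, cov_eq_card_image, ← card_neg (A.image _)]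
  congr 1
  ext q
  simp only [mem_image, mem_neg']
  constructor
  · rintro ⟨a, ha, rfl⟩
    exact ⟨-a, ha, by simp⟩
  · rintro ⟨a, ha, h⟩
    exact ⟨-a, by simpa using ha, by rw [map_neg, h, neg_neg]⟩

omit [Fintype G] in
lemma cov_union_le (K : AddSubgroup G) (A B : Finset G) : cov K (A ∪ B) ≤ cov K A + cov K B := by
  classical
  simp only [cov_eq_card_image, image_union]
  exact card_union_le _ _

/-- A set invariant under `K` is a union of cosets. -/
lemma card_eq_cov_mul (K : AddSubgroup G) (C : Finset G) (h : ∀ x ∈ C, ∀ s ∈ K, x + s ∈ C) :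
    C.card = cov K C * Nat.card K := by
  classical
  rw [cov_eq_card_image, mul_comm]
  have h1 := card_preimage (QuotientAddGroup.mk' K) (QuotientAddGroup.mk'_surjective K)
    (C.image (QuotientAddGroup.mk' K))
  rw [QuotientAddGroup.ker_mk'] at h1
  rw [← h1]
  congr 1
  ext a
  simp only [mem_filter, mem_univ, true_and, mem_image]
  constructor
  · intro ha
    exact ⟨a, ha, rfl⟩
  · rintro ⟨b, hb, hab⟩
    have := h b hb (a - b) (QuotientAddGroup.eq_iff_sub_mem.1 hab.symm)
    simpa using this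

lemma eq_univ_of_periodic_top (C : Finset G) (hC : C.Nonempty)
    (h : ∀ x ∈ C, ∀ s ∈ (⊤ : AddSubgroup G), x + s ∈ C) : C = univ := by
  obtain ⟨x, hx⟩ := hC
  refine eq_univ_of_forall fun y => ?_
  simpa using h x hx (y - x) (AddSubgroup.mem_top _)

/-- Kneser's theorem for sums, counted in cosets of the stabiliser. -/
lemma kneser_add (A B : Finset G) (hA : A.Nonempty) (hB : B.Nonempty) :
    ∃ S : AddSubgroup G, (∀ s, s ∈ S ↔ ∀ x ∈ A + B, x + s ∈ A + B) ∧
      (cov S A + cov S B) * Nat.card S ≤ (A + B).card + Nat.card S := by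
  open Pool.Agent.Lib.Kneser in
  let S : AddSubgroup G :=
    { carrier := (stab (A + B) : Set G)
      add_mem' := fun ha hb => add_mem_stab ha hb
      zero_mem' := zero_mem_stab _
      neg_mem' := fun ha => neg_mem_stab ha }
  have hS : ∀ s, s ∈ S ↔ s ∈ Pool.Agent.Lib.Kneser.stab (A + B) := fun s => Iff.rfl
  have hcard : Nat.card S = (Pool.Agent.Lib.Kneser.stab (A + B)).card := by
    rw [← Set.ncard_coe_finset]
    rfl
  have key : ∀ C : Finset G, cov S C * Nat.card S
      = (C + Pool.Agent.Lib.Kneser.stab (A + B)).card := by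
    intro C
    rw [card_eq_cov_mul S (C + Pool.Agent.Lib.Kneser.stab (A + B))]
    · congr 1
      classical
      rw [cov_eq_card_image, cov_eq_card_image]
      congr 1
      ext q
      simp only [mem_image, mem_add]
      constructor
      · rintro ⟨a, ha, rfl⟩
        exact ⟨a, ⟨a, ha, 0, Pool.Agent.Lib.Kneser.zero_mem_stab _, add_zero a⟩, rfl⟩
      · rintro ⟨_, ⟨a, ha, s, hs, rfl⟩, rfl⟩
        refine ⟨a, ha, ?_⟩
        refine QuotientAddGroup.eq_iff_sub_mem.2 ?_
        have : a - (a + s) = -s := by abel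
        rw [this]
        exact S.neg_mem ((hS s).2 hs)
    · intro x hx s hs
      obtain ⟨a, ha, t, ht, rfl⟩ := mem_add.1 hx
      exact mem_add.2 ⟨a, ha, t + s, (hS _).1 (S.add_mem ((hS t).2 ht) hs), by abel⟩
  refine ⟨S, fun s => ?_, ?_⟩
  · rw [hS, Pool.Agent.Lib.Kneser.mem_stab]
    simp only [add_comm s]
  · have := Pool.Agent.Lib.Kneser.kneser A B hA hB
    rw [add_mul, key, key, hcard]
    exact this

/-- Kneser's theorem for differences, counted in cosets of the stabiliser. -/
lemma kneser_sub (A B : Finset G) (hA : A.Nonempty) (hB : B.Nonempty) :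
    ∃ S : AddSubgroup G, (∀ s, s ∈ S ↔ ∀ x ∈ A - B, x + s ∈ A - B) ∧
      (cov S A + cov S B) * Nat.card S ≤ (A - B).card + Nat.card S := by
  obtain ⟨S, h1, h2⟩ := kneser_add A (-B) hA hB.neg
  rw [← sub_eq_add_neg] at h1 h2
  rw [cov_neg] at h2
  exact ⟨S, h1, h2⟩

variable {Q : Type} [AddCommGroup Q] [Fintype Q] [DecidableEq Q]

omit [Fintype G] [Fintype Q] in
lemma cov_comap (φ : G →+ Q) (K : AddSubgroup Q) (A : Finset G) :
    cov (K.comap φ) A = cov K (A.image φ) := by
  classical
  rw [cov_eq_card_image, cov_eq_card_image, image_image]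
  have hle : K.comap φ ≤ K.comap φ := le_rfl
  have hinj : Function.Injective (QuotientAddGroup.map (K.comap φ) K φ hle) := by
    rw [injective_iff_map_eq_zero]
    intro x hx
    obtain ⟨a, rfl⟩ := QuotientAddGroup.mk_surjective x
    rw [QuotientAddGroup.map_mk, QuotientAddGroup.eq_zero_iff] at hx
    exact (QuotientAddGroup.eq_zero_iff _).2 hx
  rw [← card_image_of_injective _ hinj, image_image]
  rfl

lemma card_comap (φ : G →+ Q) (hφ : Function.Surjective φ) (K : AddSubgroup Q) :
    Nat.card (K.comap φ) = Nat.card φ.ker * Nat.card K := by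
  classical
  have h1 := card_preimage φ hφ (K : Set Q).toFinset
  rw [show Nat.card K = (K : Set Q).toFinset.card from Nat.card_eq_card_toFinset (K : Set Q),
    ← h1, show Nat.card (K.comap φ) = (K.comap φ : Set G).toFinset.card from
      Nat.card_eq_card_toFinset (K.comap φ : Set G)]
  congr 1
  ext a
  simp

omit [Fintype G] [Fintype Q] [DecidableEq G] [DecidableEq Q] in
lemma comap_ne_top (φ : G →+ Q) (hφ : Function.Surjective φ) {K : AddSubgroup Q} (hK : K ≠ ⊤) :
    K.comap φ ≠ ⊤ := by
  intro h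
  apply hK
  rw [eq_top_iff]
  intro q _
  obtain ⟨x, rfl⟩ := hφ q
  have : x ∈ K.comap φ := h ▸ AddSubgroup.mem_top x
  exact this

end Cov

section Psi

omit [Fintype G] in
lemma sub_subset_psi (X Y : Finset G) : X - Y ⊆ psi X Y := subset_union_left

omit [Fintype G] in
lemma neg_mem_psi {X Y : Finset G} {z : G} (h : z ∈ psi X Y) : -z ∈ psi X Y := by
  unfold psi at h ⊢
  rcases mem_union.1 h with h | h
  · obtain ⟨a, ha, b, hb, rfl⟩ := mem_sub.1 h
    exact mem_union_right _ (mem_sub.2 ⟨b, hb, a, ha, by abel⟩)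
  · obtain ⟨a, ha, b, hb, rfl⟩ := mem_sub.1 h
    exact mem_union_left _ (mem_sub.2 ⟨b, hb, a, ha, by abel⟩)

omit [Fintype G] in
lemma psi_mono {X Y X' Y' : Finset G} (hX : X ⊆ X') (hY : Y ⊆ Y') : psi X Y ⊆ psi X' Y' :=
  union_subset_union (sub_subset_sub hX hY) (sub_subset_sub hY hX)

omit [DecidableEq G] in
/-- In a group of odd order no nonzero element is its own negative. -/
lemma eq_zero_of_neg_eq (hodd : Odd (Nat.card G)) {x : G} (h : -x = x) : x = 0 := by
  have h2 : 2 • x = 0 := by rw [two_nsmul]; nth_rewrite 1 [← h]; exact neg_add_cancel x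
  have h3 : addOrderOf x ∣ 2 := addOrderOf_dvd_of_nsmul_eq_zero h2
  have h4 : addOrderOf x ∣ Nat.card G := addOrderOf_dvd_natCard x
  have h5 : addOrderOf x ∣ 1 := by
    have := Nat.dvd_gcd h3 h4
    rwa [(Nat.coprime_two_left.2 hodd).gcd_eq_one] at this
  exact AddMonoid.addOrderOf_eq_one_iff.1 (Nat.dvd_one.1 h5)

/-- A symmetric set containing zero has odd size in a group of odd order. -/
lemma odd_card_of_symm (hodd : Odd (Nat.card G)) (C : Finset G) (h0 : (0 : G) ∈ C)
    (hC : ∀ x ∈ C, -x ∈ C) : Odd C.card := by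
  have h1 : Even (C.erase 0).card := by
    have : ∑ _x ∈ C.erase 0, (1 : ZMod 2) = 0 := by
      refine sum_involution (fun x _ => -x) (fun _ _ => rfl) ?_ ?_ (fun x _ => neg_neg x)
      · intro x hx _ h
        exact (mem_erase.1 hx).1 (eq_zero_of_neg_eq hodd h)
      · intro x hx
        exact mem_erase.2 ⟨neg_ne_zero.2 (mem_erase.1 hx).1, hC x (mem_erase.1 hx).2⟩
    rw [sum_const, nsmul_eq_mul, mul_one] at this
    exact (ZMod.natCast_eq_zero_iff_even).1 this
  rw [← card_erase_add_one h0]
  exact h1.add_one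

end Psi

end Pool.Agent.P.MP_7ea450_co
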